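import Mathlib

/-! Job DF2-8 (helper263 for helper68): a self-centralizing Klein four group without elements of
order four around is a dihedral Sylow 2-subgroup; a finitely generated infinite group is not
`PSL₂` of an algebraic field of positive characteristic. -/

set_option autoImplicit false

namespace Pool.Agent.TH68.C

/-- the map from the dihedral group of order four -/
def kmap {G : Type*} [Group G] (a b : G) : DihedralGroup 2 → G
  | .r i => if i = 0 then 1 else a
  | .sr i => if i = 0 then b else b * a

theorem kmap_mul {G : Type*} [Group G] {a b : G} (ha : a * a = 1) (hb : b * b = 1)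
    (hc : a * b = b * a) (x y : DihedralGroup 2) : kmap a b (x * y) = kmap a b x * kmap a b y := by
  have h2 : ∀ i : ZMod 2, i = 0 ∨ i = 1 := by decide
  have h10 : (1 : ZMod 2) ≠ 0 := by decide
  have h11 : (1 : ZMod 2) + 1 = 0 := by decide
  have h01 : (0 : ZMod 2) - 1 ≠ 0 := by decide
  have e1 : b * (b * a) = a := by rw [← mul_assoc, hb, one_mul]
  have e2 : b * a * a = b := by rw [mul_assoc, ha, mul_one]
  have e3 : b * a * b = a := by rw [mul_assoc, hc, e1]
  have e4 : b * a * (b * a) = 1 := by rw [← mul_assoc, e3, ha]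
  have e5 : a * (b * a) = b := by rw [← mul_assoc, hc, e2]
  have k1 : kmap a b 1 = 1 := by show (if (0 : ZMod 2) = 0 then (1 : G) else a) = 1; simp
  have kr : ∀ i : ZMod 2, kmap a b (.r i) = if i = 0 then 1 else a := fun i => rfl
  have ks : ∀ i : ZMod 2, kmap a b (.sr i) = if i = 0 then b else b * a := fun i => rfl
  rcases x with i | i <;> rcases y with j | j <;> rcases h2 i with rfl | rfl <;>
    rcases h2 j with rfl | rfl <;>
    simp [k1, kr, ks, ha, hb, hc, e1, e2, e3, e4, e5, h11]

theorem syl {G : Type*} [Group G] (h4 : ∀ x : G, x ^ 4 = 1 → x ^ 2 = 1) {a b : G}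
    (ha : orderOf a = 2) (hb : orderOf b = 2) (hab : a ≠ b) (hc : Commute a b)
    (hmax : ∀ x : G, orderOf x = 2 → Commute x a → Commute x b → x = a ∨ x = b ∨ x = a * b) :
    ∃ (S : Sylow 2 G) (n : ℕ), 2 ≤ n ∧ Nonempty (↥(S : Subgroup G) ≃* DihedralGroup n) := by
  have ha1 : a ≠ 1 := by rintro rfl; simp at ha
  have hb1 : b ≠ 1 := by rintro rfl; simp at hb
  have haa : a * a = 1 := by rw [← sq, ← ha, pow_orderOf_eq_one]
  have hbb : b * b = 1 := by rw [← sq, ← hb, pow_orderOf_eq_one]
  have hba1 : b * a ≠ 1 := by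
    intro h
    apply hab
    have : b⁻¹ = a := inv_eq_of_mul_eq_one_right h
    rw [← this]
    exact inv_eq_of_mul_eq_one_right hbb
  let φ : DihedralGroup 2 →* G := MonoidHom.mk' (kmap a b) (kmap_mul haa hbb hc.eq)
  have h2 : ∀ i : ZMod 2, i = 0 ∨ i = 1 := by decide
  have hinj : Function.Injective φ := by
    rw [injective_iff_map_eq_one]
    intro x hx
    rcases x with i | i <;> rcases h2 i with rfl | rfl
    · rfl
    · exact absurd hx (by simpa [φ, kmap] using ha1)
    · exact absurd hx (by simpa [φ, kmap] using hb1)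
    · exact absurd hx (by simpa [φ, kmap] using hba1)
  have hsq : ∀ x : DihedralGroup 2, x ^ 2 = 1 := by
    intro x
    rcases x with i | i
    · rcases h2 i with rfl | rfl
      · rfl
      · rw [sq, DihedralGroup.r_mul_r]; rfl
    · rw [sq, DihedralGroup.sr_mul_self]
  refine ⟨⟨φ.range, ?_, ?_⟩, 2, le_rfl, ⟨(MonoidHom.ofInjective hinj).symm⟩⟩
  · rintro ⟨_, x, rfl⟩
    refine ⟨1, ?_⟩
    ext
    simp only [pow_one, Subgroup.coe_pow, OneMemClass.coe_one, ← map_pow, hsq, map_one]
  · intro Q hQ hle
    have hmem_a : a ∈ φ.range := ⟨.r 1, by simp [φ, kmap]⟩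
    have hmem_b : b ∈ φ.range := ⟨.sr 0, by simp [φ, kmap]⟩
    have hQ2 : ∀ x ∈ Q, x ^ 2 = 1 := by
      intro x hx
      obtain ⟨k, hk⟩ := hQ ⟨x, hx⟩
      have hk' : x ^ (2 ^ k) = 1 := by
        have := congrArg (Subtype.val) hk
        simpa using this
      clear hk
      induction k with
      | zero => simp at hk'; rw [hk']; simp
      | succ k ih =>
        rcases Nat.eq_zero_or_pos k with rfl | hkpos
        · simpa using hk'
        · apply ih
          obtain ⟨m, rfl⟩ : ∃ m, k = m + 1 := ⟨k - 1, by omega⟩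
          have e : x ^ (2 ^ (m + 1 + 1)) = (x ^ (2 ^ m)) ^ 4 := by
            rw [← pow_mul]; congr 1; ring
          rw [e] at hk'
          have := h4 _ hk'
          rw [← pow_mul] at this
          rw [pow_succ]; exact this
    have hcomm : ∀ x ∈ Q, ∀ y ∈ Q, x * y = y * x := by
      intro x hx y hy
      have h1 := hQ2 x hx
      have h2 := hQ2 y hy
      have h3 := hQ2 (x * y) (Q.mul_mem hx hy)
      have i1 : x⁻¹ = x := inv_eq_of_mul_eq_one_right (by rw [← sq]; exact h1)
      have i2 : y⁻¹ = y := inv_eq_of_mul_eq_one_right (by rw [← sq]; exact h2)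
      have i3 : (x * y)⁻¹ = x * y := inv_eq_of_mul_eq_one_right (by rw [← sq]; exact h3)
      rw [← i3, mul_inv_rev, i1, i2]
    refine le_antisymm (fun x hx => ?_) hle
    by_cases hx1 : x = 1
    · rw [hx1]; exact φ.range.one_mem
    · have ho : orderOf x = 2 := orderOf_eq_prime (hQ2 x hx) hx1
      rcases hmax x ho (hcomm x hx a (hle hmem_a)) (hcomm x hx b (hle hmem_b)) with h | h | h
      · rw [h]; exact hmem_a
      · rw [h]; exact hmem_b
      · rw [h]; exact φ.range.mul_mem hmem_a hmem_b

theorem not_psl {G : Type*} [Group G] [Infinite G] (hfg : Group.FG G) {P : Type*} [Field P]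
    {p : ℕ} [CharP P p] (hp : p.Prime) (hint : ∀ x : P, IsIntegral ℤ x) :
    ¬ Nonempty (G ≃* (Matrix.SpecialLinearGroup (Fin 2) P ⧸
      Subgroup.center (Matrix.SpecialLinearGroup (Fin 2) P))) := by
  rintro ⟨e⟩
  classical
  obtain ⟨T, hT⟩ := (Group.fg_def.mp hfg)
  -- lifts of the generators
  let q := QuotientGroup.mk' (Subgroup.center (Matrix.SpecialLinearGroup (Fin 2) P))
  have hq : Function.Surjective q := QuotientGroup.mk'_surjective _
  choose s hs using hq
  let L : G → Matrix.SpecialLinearGroup (Fin 2) P := fun g => s (e g)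
  let E : Set P := ⋃ g ∈ T, ⋃ i : Fin 2, ⋃ j : Fin 2, {(L g : Matrix (Fin 2) (Fin 2) P) i j}
  have hE : E.Finite := by
    refine Set.Finite.biUnion T.finite_toSet fun g _ => Set.finite_iUnion fun i =>
      Set.finite_iUnion fun j => Set.finite_singleton _
  let R := Algebra.adjoin ℤ E
  have hRfin : Module.Finite ℤ R := Algebra.finite_adjoin_of_finite_of_isIntegral hE
    (fun x _ => hint x)
  have hRF : Finite R := by
    refine Module.finite_of_fg_torsion R ?_
    intro x
    refine ⟨⟨(p : ℤ), ?_⟩, ?_⟩
    · exact mem_nonZeroDivisors_of_ne_zero (by exact_mod_cast hp.ne_zero)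
    · ext
      simp [Submonoid.smul_def, CharP.cast_eq_zero]
  let f : Matrix.SpecialLinearGroup (Fin 2) R →* Matrix.SpecialLinearGroup (Fin 2) P :=
    Matrix.SpecialLinearGroup.map (algebraMap R P)
  have hSLfin : Finite (Matrix.SpecialLinearGroup (Fin 2) R) := by
    have : Finite (Matrix (Fin 2) (Fin 2) R) := by unfold Matrix; infer_instance
    exact Subtype.finite
  have hLf : ∀ g ∈ T, L g ∈ f.range := by
    intro g hg
    have hm : ∀ i j, (L g : Matrix (Fin 2) (Fin 2) P) i j ∈ R := by
      intro i j
      refine Algebra.subset_adjoin ?_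
      simp only [E, Set.mem_iUnion]
      exact ⟨g, hg, i, j, rfl⟩
    let A : Matrix (Fin 2) (Fin 2) R := Matrix.of fun i j => ⟨_, hm i j⟩
    have hmap : A.map (algebraMap R P) = (L g : Matrix (Fin 2) (Fin 2) P) := by
      ext i j; rfl
    have hdet : A.det = 1 := by
      have h1 : algebraMap R P A.det = 1 := by
        rw [RingHom.map_det]
        show (A.map (algebraMap R P)).det = 1
        rw [hmap]
        exact (L g).2
      have hinj : Function.Injective (algebraMap R P) := Subtype.val_injective
      exact hinj (by rw [h1, map_one])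
    refine ⟨⟨A, hdet⟩, ?_⟩
    ext i j
    rfl
  -- everything is in the image of a finite group
  have hall : ∀ g : G, e g ∈ (q.comp f).range := by
    have hle : Subgroup.closure (T : Set G) ≤ ((q.comp f).range).comap e.toMonoidHom := by
      rw [Subgroup.closure_le]
      intro g hg
      obtain ⟨y, hy⟩ := hLf g hg
      exact ⟨y, by simp only [MonoidHom.comp_apply, hy]; exact hs (e g)⟩
    intro g
    exact hle (by rw [hT]; trivial)
  have hfin : Finite ((q.comp f).range) := by
    have := Set.finite_range (q.comp f)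
    exact this.to_subtype
  have hG : Finite G := Finite.of_injective (fun g => (⟨e g, hall g⟩ : (q.comp f).range))
    (fun g h hgh => e.injective (congrArg Subtype.val hgh))
  exact not_finite G

end Pool.Agent.TH68.C
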