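import Pool.Agent.TH68.C.Defs

set_option autoImplicit false

/-! The free product of the Klein four group and an infinite cyclic group, as a semidirect product
of a free group with the Klein four group. -/

namespace Pool.Agent.TH68.C

open Pool.Agent.Helper97.Hyp Pool.Agent.TH68

namespace St

/-- the Klein four group -/
abbrev V : Type := Multiplicative (ZMod 2 × ZMod 2)

lemma V_sq (v : V) : v * v = 1 := by
  revert v; decide

lemma V_comm (u v : V) : u * v = v * u := mul_comm u v

/-- the free group on the Klein four group -/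
abbrev F : Type := FreeGroup V

/-- the action -/
def φ : V →* MulAut F where
  toFun v := FreeGroup.freeGroupCongr (Equiv.mulLeft v)
  map_one' := by
    ext x
    simp [FreeGroup.map.comp]
  map_mul' u v := by
    ext x
    change FreeGroup.map _ x = FreeGroup.map _ (FreeGroup.map _ x)
    rw [FreeGroup.map.comp]
    congr 1
    ext y
    simp [mul_assoc]

lemma φ_of (u v : V) : φ u (FreeGroup.of v) = FreeGroup.of (u * v) := rfl

lemma φ_mk (u : V) (L : List (V × Bool)) :
    φ u (FreeGroup.mk L) = FreeGroup.mk (L.map fun x => (u * x.1, x.2)) := rfl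

lemma φ_sq (u : V) (w : F) : φ u (φ u w) = w := by
  have h : φ (u * u) = φ u * φ u := map_mul φ u u
  rw [V_sq, map_one] at h
  have h1 : (φ u * φ u) w = w := by rw [← h]; rfl
  exact h1

lemma map_red (u : V) {L : List (V × Bool)} (h : FreeGroup.IsReduced L) :
    FreeGroup.IsReduced (L.map fun x => (u * x.1, x.2)) := by
  unfold FreeGroup.IsReduced at h ⊢
  rw [List.isChain_map]
  refine h.imp ?_
  intro a b hab h1
  exact hab (mul_left_cancel h1)

lemma toWord_φ (u : V) (w : F) :
    (φ u w).toWord = w.toWord.map fun x => (u * x.1, x.2) := by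
  conv_lhs => rw [← FreeGroup.mk_toWord (x := w)]
  rw [φ_mk, FreeGroup.toWord_mk, FreeGroup.IsReduced.reduce_eq]
  exact map_red u FreeGroup.isReduced_toWord

lemma norm_φ (u : V) (w : F) : (φ u w).norm = w.norm := by
  unfold FreeGroup.norm
  rw [toWord_φ, List.length_map]

/-- the group -/
abbrev G : Type := F ⋊[φ] V

instance : DecidableEq F := inferInstance

/-- the length -/
def len (g : G) : ℕ := if g.left = 1 then (if g.right = 1 then 0 else 1) else g.left.norm

lemma norm_pos {w : F} (h : w ≠ 1) : 1 ≤ w.norm := by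
  rw [Nat.one_le_iff_ne_zero]
  intro h1
  exact h (FreeGroup.norm_eq_zero.1 h1)

lemma norm_le_len (g : G) : g.left.norm ≤ len g := by
  unfold len
  split_ifs with h h2
  · rw [h, FreeGroup.norm_one]
  · rw [h, FreeGroup.norm_one]; exact Nat.zero_le _
  · exact le_rfl

lemma len_le (g : G) : len g ≤ g.left.norm + 1 := by
  unfold len
  split_ifs with h h2
  · exact Nat.zero_le _
  · exact Nat.le_add_left _ _
  · exact Nat.le_succ _

lemma len_one : len 1 = 0 := by
  unfold len
  simp

lemma len_eq_zero {g : G} (h : len g = 0) : g = 1 := by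
  unfold len at h
  split_ifs at h with h1 h2
  · exact SemidirectProduct.ext h1 h2
  · exact absurd (FreeGroup.norm_eq_zero.1 h) h1

lemma len_pos {g : G} (h : g ≠ 1) : 1 ≤ len g := by
  rw [Nat.one_le_iff_ne_zero]
  exact fun h1 => h (len_eq_zero h1)

lemma left_inv_eq (g : G) : (g⁻¹).left = φ g.right⁻¹ g.left⁻¹ := rfl

lemma φ_eq_one {u : V} {w : F} : φ u w = 1 ↔ w = 1 := by
  constructor
  · intro h
    have := φ_sq u w
    rw [h, map_one] at this
    exact this.symm
  · rintro rfl
    exact map_one _

lemma len_inv (g : G) : len g⁻¹ = len g := by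
  have e1 : (g⁻¹).left = 1 ↔ g.left = 1 := by
    rw [left_inv_eq, φ_eq_one, inv_eq_one]
  have e2 : (g⁻¹).right = 1 ↔ g.right = 1 := by
    rw [SemidirectProduct.inv_right, inv_eq_one]
  have e3 : (g⁻¹).left.norm = g.left.norm := by
    rw [left_inv_eq, norm_φ, FreeGroup.norm_inv_eq]
  unfold len
  by_cases h1 : g.left = 1
  · rw [if_pos h1, if_pos (e1.2 h1)]
    by_cases h2 : g.right = 1
    · rw [if_pos h2, if_pos (e2.2 h2)]
    · rw [if_neg h2, if_neg (fun h => h2 (e2.1 h))]
  · rw [if_neg h1, if_neg (fun h => h1 (e1.1 h)), e3]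

lemma len_mul (g h : G) : len (g * h) ≤ len g + len h := by
  by_cases h1 : (g * h).left = 1
  · have h2 : len (g * h) ≤ 1 := by
      have := len_le (g * h)
      rwa [h1, FreeGroup.norm_one] at this
    by_cases hg : g = 1
    · rw [hg, one_mul, len_one, zero_add]
    · have := len_pos hg
      omega
  · have h2 : len (g * h) = (g * h).left.norm := by
      unfold len
      rw [if_neg h1]
    rw [h2, SemidirectProduct.mul_left]
    have h3 := FreeGroup.norm_mul_le g.left (φ g.right h.left)
    rw [norm_φ] at h3
    have h4 := norm_le_len g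
    have h5 := norm_le_len h
    omega

lemma norm_mk_red {L : List (V × Bool)} (h : FreeGroup.IsReduced L) :
    (FreeGroup.mk L).norm = L.length := by
  unfold FreeGroup.norm
  rw [FreeGroup.toWord_mk, FreeGroup.IsReduced.reduce_eq h]

lemma len_geod (g : G) (k : ℕ) (hk : k ≤ len g) :
    ∃ a b, a * b = g ∧ len a = k ∧ k + len b = len g := by
  rcases Nat.eq_or_lt_of_le hk with h | h
  · exact ⟨g, 1, mul_one g, h.symm, by rw [len_one, h, add_zero]⟩
  rcases Nat.eq_zero_or_pos k with h0 | h0
  · exact ⟨1, g, one_mul g, by rw [len_one, h0], by rw [h0, zero_add]⟩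
  have hg : g.left ≠ 1 := by
    intro h1
    have := len_le g
    rw [h1, FreeGroup.norm_one] at this
    omega
  have hlen : len g = g.left.toWord.length := by
    unfold len
    rw [if_neg hg]
    rfl
  have hred : FreeGroup.IsReduced (g.left.toWord.take k ++ g.left.toWord.drop k) := by
    rw [List.take_append_drop]
    exact FreeGroup.isReduced_toWord
  have h1 : FreeGroup.IsReduced (g.left.toWord.take k) :=
    List.IsChain.left_of_append hred
  have h2 : FreeGroup.IsReduced (g.left.toWord.drop k) :=
    List.IsChain.right_of_append hred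
  have hl1 : (FreeGroup.mk (g.left.toWord.take k)).norm = k := by
    rw [norm_mk_red h1, List.length_take]
    omega
  have hl2 : (FreeGroup.mk (g.left.toWord.drop k)).norm = len g - k := by
    rw [norm_mk_red h2, List.length_drop, hlen]
  have hn1 : FreeGroup.mk (g.left.toWord.take k) ≠ 1 := by
    intro h3
    rw [h3, FreeGroup.norm_one] at hl1
    omega
  have hn2 : FreeGroup.mk (g.left.toWord.drop k) ≠ 1 := by
    intro h3
    rw [h3, FreeGroup.norm_one] at hl2
    omega
  refine ⟨⟨FreeGroup.mk (g.left.toWord.take k), 1⟩, ⟨FreeGroup.mk (g.left.toWord.drop k), g.right⟩,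
    ?_, ?_, ?_⟩
  · apply SemidirectProduct.ext
    · rw [SemidirectProduct.mul_left]
      change FreeGroup.mk _ * (φ 1) (FreeGroup.mk _) = _
      rw [map_one]
      change FreeGroup.mk _ * (FreeGroup.mk _) = _
      rw [FreeGroup.mul_mk, List.take_append_drop, FreeGroup.mk_toWord]
    · rw [SemidirectProduct.mul_right]
      exact one_mul _
  · unfold len
    rw [if_neg (by exact hn1)]
    exact hl1
  · have : len ⟨FreeGroup.mk (g.left.toWord.drop k), g.right⟩ = len g - k := by
      unfold len
      rw [if_neg (by exact hn2)]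
      exact hl2
    rw [this]
    omega

/-- the word norm -/
def W : WNorm G where
  ℓ := len
  one' := len_one
  eq_one _ h := len_eq_zero h
  inv' := len_inv
  mul_le := len_mul
  geod := len_geod
  fin r := by
    have h := List.finite_length_le (V × Bool) r
    have h1 : {w : F | w.norm ≤ r}.Finite :=
      Set.Finite.preimage (f := fun w : F => w.toWord)
        (fun a _ b _ hab => FreeGroup.toWord_injective hab) h
    have h2 : (Set.univ : Set V).Finite := Set.finite_univ
    have h3 := (h1.prod h2).image (fun p : F × V => (⟨p.1, p.2⟩ : G))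
    apply h3.subset
    intro g hg
    exact ⟨(g.left, g.right), ⟨(norm_le_len g).trans hg, Set.mem_univ _⟩, rfl⟩

/-- length of the common initial part -/
def cp : List (V × Bool) → List (V × Bool) → ℕ
  | a :: l, b :: m => if a = b then cp l m + 1 else 0
  | [], _ => 0
  | _ :: _, [] => 0

lemma cp_ultra : ∀ x y z : List (V × Bool), min (cp x y) (cp y z) ≤ cp x z
  | [], y, z => by cases y <;> simp [cp]
  | a :: l, [], z => by simp [cp]
  | a :: l, b :: m, [] => by simp [cp]
  | a :: l, b :: m, c :: n => by
    have ih := cp_ultra l m n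
    by_cases h1 : a = b
    · subst h1
      by_cases h2 : a = c
      · subst h2
        simp only [cp, if_true]
        omega
      · simp [cp, h2]
    · simp [cp, h1]

lemma cp_comm : ∀ x y : List (V × Bool), cp x y = cp y x
  | [], y => by cases y <;> simp [cp]
  | a :: l, [] => by simp [cp]
  | a :: l, b :: m => by
    have ih := cp_comm l m
    by_cases h1 : a = b
    · subst h1; simp [cp, ih]
    · simp [cp, h1, Ne.symm h1]

lemma invRev_red {L : List (V × Bool)} (h : FreeGroup.IsReduced L) :
    FreeGroup.IsReduced (FreeGroup.invRev L) := by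
  rw [FreeGroup.isReduced_iff_reduce_eq] at h ⊢
  rw [FreeGroup.reduce_invRev, h]

lemma length_cp (u v : List (V × Bool)) (hu : FreeGroup.IsReduced u) (hv : FreeGroup.IsReduced v) :
    ((FreeGroup.mk u)⁻¹ * FreeGroup.mk v).norm + 2 * cp u v = u.length + v.length := by
  induction u generalizing v with
  | nil =>
    rw [← FreeGroup.one_eq_mk, inv_one, one_mul, norm_mk_red hv]
    simp [cp]
  | cons s u ih =>
    cases v with
    | nil =>
      rw [← FreeGroup.one_eq_mk, mul_one, FreeGroup.norm_inv_eq, norm_mk_red hu]
      simp [cp]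
    | cons t v =>
      have hu' : FreeGroup.IsReduced u := List.IsChain.tail hu
      have hv' : FreeGroup.IsReduced v := List.IsChain.tail hv
      by_cases hs : s = t
      · subst hs
        have h1 := ih v hu' hv'
        have h2 : (FreeGroup.mk (s :: u))⁻¹ * FreeGroup.mk (s :: v) =
            (FreeGroup.mk u)⁻¹ * FreeGroup.mk v := by
          have e1 : ∀ l : List (V × Bool), FreeGroup.mk (s :: l) =
              FreeGroup.mk [s] * FreeGroup.mk l := by
            intro l
            rw [FreeGroup.mul_mk]
            rfl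
          rw [e1 u, e1 v]
          group
        rw [h2]
        simp only [cp, if_true, List.length_cons]
        omega
      · have h1 : FreeGroup.IsReduced (FreeGroup.invRev (s :: u) ++ (t :: v)) := by
          unfold FreeGroup.IsReduced
          rw [List.isChain_append]
          refine ⟨invRev_red hu, hv, ?_⟩
          intro x hx y hy
          have hx' : (FreeGroup.invRev (s :: u)).getLast? = some (s.1, !s.2) := by
            simp [FreeGroup.invRev]
          rw [hx'] at hx
          rw [List.head?_cons] at hy
          simp only [Option.mem_def, Option.some.injEq] at hx hy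
          rw [← hx, ← hy]
          intro h3
          dsimp only at h3 ⊢
          by_contra h4
          apply hs
          refine Prod.ext h3 ?_
          cases h5 : s.2 <;> cases h6 : t.2 <;> simp_all
        rw [FreeGroup.inv_mk, FreeGroup.mul_mk, norm_mk_red h1]
        simp only [cp, hs, if_false, List.length_append, FreeGroup.invRev_length]
        omega

lemma hyp : HypGroup G := by
  refine ⟨W, 1, ?_⟩
  intro x y z w
  -- the tree distance
  let td : G → G → ℕ := fun a b => (a.left⁻¹ * b.left).norm
  have hdist : ∀ a b : Pt W, (td a.out b.out : ℝ) ≤ dist a b ∧ dist a b ≤ td a.out b.out + 1 := by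
    intro a b
    have h1 : (a.out⁻¹ * b.out).left.norm = td a.out b.out := by
      rw [SemidirectProduct.mul_left, left_inv_eq, SemidirectProduct.inv_right, ← map_mul, norm_φ]
    have h2 := norm_le_len (a.out⁻¹ * b.out)
    have h3 := len_le (a.out⁻¹ * b.out)
    rw [h1] at h2 h3
    rw [dist_def]
    change (td a.out b.out : ℝ) ≤ (len (a.out⁻¹ * b.out) : ℝ) ∧
      (len (a.out⁻¹ * b.out) : ℝ) ≤ td a.out b.out + 1
    exact ⟨by exact_mod_cast h2, by exact_mod_cast h3⟩
  have key : ∀ a b : G, (td a b : ℝ) +
      2 * (cp (w.out.left⁻¹ * a.left).toWord (w.out.left⁻¹ * b.left).toWord : ℝ)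
      = (td w.out a : ℝ) + (td w.out b : ℝ) := by
    intro a b
    have h := length_cp (w.out.left⁻¹ * a.left).toWord (w.out.left⁻¹ * b.left).toWord
      FreeGroup.isReduced_toWord FreeGroup.isReduced_toWord
    rw [FreeGroup.mk_toWord, FreeGroup.mk_toWord] at h
    have h3 : (w.out.left⁻¹ * a.left)⁻¹ * (w.out.left⁻¹ * b.left) = a.left⁻¹ * b.left := by group
    rw [h3] at h
    exact_mod_cast h
  have hsymm : ∀ a b : G, td a b = td b a := by
    intro a b
    change (a.left⁻¹ * b.left).norm = (b.left⁻¹ * a.left).norm
    rw [← FreeGroup.norm_inv_eq (x := a.left⁻¹ * b.left)]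
    congr 1
    group
  have h1 := key x.out y.out
  have h2 := key x.out z.out
  have h3 := key y.out z.out
  have h4 := cp_ultra (w.out.left⁻¹ * x.out.left).toWord (w.out.left⁻¹ * z.out.left).toWord
    (w.out.left⁻¹ * y.out.left).toWord
  rw [cp_comm (w.out.left⁻¹ * z.out.left).toWord (w.out.left⁻¹ * y.out.left).toWord] at h4
  have h5 : min (cp (w.out.left⁻¹ * x.out.left).toWord (w.out.left⁻¹ * z.out.left).toWord : ℝ)
      (cp (w.out.left⁻¹ * y.out.left).toWord (w.out.left⁻¹ * z.out.left).toWord : ℝ) ≤
      (cp (w.out.left⁻¹ * x.out.left).toWord (w.out.left⁻¹ * y.out.left).toWord : ℝ) := by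
    exact_mod_cast h4
  have d1 := hdist x y
  have d2 := hdist z w
  have d3 := hdist x z
  have d4 := hdist y w
  have d5 := hdist x w
  have d6 := hdist y z
  rw [hsymm z.out w.out] at d2
  rw [hsymm y.out w.out] at d4
  rw [hsymm x.out w.out] at d5
  rcases min_le_iff.1 h5 with h6 | h6
  · refine le_trans ?_ (add_le_add_left (le_max_left _ _) _)
    linarith [d1.2, d2.2, d3.1, d4.1]
  · refine le_trans ?_ (add_le_add_left (le_max_right _ _) _)
    linarith [d1.2, d2.2, d5.1, d6.1]


/-! ### torsion -/

lemma free_pow {w : F} {n : ℕ} (hn : n ≠ 0) (h : w ^ n = 1) : w = 1 := by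
  have := pow_left_injective hn (M := F)
  exact this (by simpa using h)

lemma eq_inl {x : G} (h : x.right = 1) : x = SemidirectProduct.inl x.left :=
  SemidirectProduct.ext rfl h

lemma right_pow (x : G) (n : ℕ) : (x ^ n).right = x.right ^ n :=
  map_pow (SemidirectProduct.rightHom : G →* V) x n

lemma tf {x : G} (h : x.right = 1) {n : ℕ} (hn : n ≠ 0) (hx : x ^ n = 1) : x = 1 := by
  rw [eq_inl h] at hx ⊢
  rw [← map_pow] at hx
  have h1 : x.left ^ n = 1 := SemidirectProduct.inl_injective (by rw [hx, map_one])
  rw [free_pow hn h1, map_one]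

lemma V_pow_two (v : V) : v ^ 2 = 1 := by rw [pow_two, V_sq]

lemma four (x : G) (h : x ^ 4 = 1) : x ^ 2 = 1 := by
  apply tf (n := 2) _ two_ne_zero
  · rw [← pow_mul]; exact h
  · rw [right_pow, V_pow_two]

lemma sq_of {x : G} (h : orderOf x = 2) : x ^ 2 = 1 := by
  have h1 := pow_orderOf_eq_one x
  rwa [h] at h1

lemma right_ne {x : G} (h : orderOf x = 2) : x.right ≠ 1 := by
  intro h1
  have h2 : x ^ 2 = 1 := sq_of h
  have := tf h1 two_ne_zero h2
  rw [this, orderOf_one] at h
  norm_num at h

/-- the colours of the elements of the Klein four group -/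
def col (v : V) : Fin 3 :=
  if v = Multiplicative.ofAdd (1, 0) then 0 else if v = Multiplicative.ofAdd (0, 1) then 1 else 2

lemma col_inj : ∀ u v : V, u ≠ 1 → v ≠ 1 → col u = col v → u = v := by
  decide

/-- the colour -/
def c (x : G) : Fin 3 := col x.right

lemma c_conj (γ x : G) : c (γ * x * γ⁻¹) = c x := by
  unfold c
  congr 1
  rw [SemidirectProduct.mul_right, SemidirectProduct.mul_right, SemidirectProduct.inv_right,
    mul_comm γ.right x.right, mul_inv_cancel_right]

lemma c_comm (x y : G) (hx : orderOf x = 2) (hy : orderOf y = 2) (h : Commute x y) (hne : x ≠ y) :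
    c x ≠ c y := by
  intro hc
  have h1 := col_inj _ _ (right_ne hx) (right_ne hy) hc
  have hx2 : x ^ 2 = 1 := sq_of hx
  have hy2 : y ^ 2 = 1 := sq_of hy
  have h2 : (x * y) ^ 2 = 1 := by rw [h.mul_pow, hx2, hy2, one_mul]
  have h3 : x * y = 1 := by
    apply tf (n := 2) _ two_ne_zero h2
    rw [SemidirectProduct.mul_right, h1, V_sq]
  apply hne
  have h4 : y * y = 1 := by rw [← pow_two, hy2]
  exact mul_right_cancel (h3.trans h4.symm)

lemma odd_one (x : G) (h : Odd (orderOf x)) : x = 1 := by
  have h1 : x ^ orderOf x = 1 := pow_orderOf_eq_one x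
  have h2 : x.right = 1 := by
    have h3 := right_pow x (orderOf x)
    rw [h1] at h3
    obtain ⟨k, hk⟩ := h
    rw [hk, pow_succ, pow_mul, V_pow_two, one_pow, one_mul] at h3
    exact h3.symm
  exact tf h2 (Nat.ne_of_odd_add (by rwa [add_zero])) h1

/-! ### involutions and centralizers -/

lemma cocycle (u : V) (n : ℕ) : ∀ L : List (V × Bool), L.length ≤ n → FreeGroup.IsReduced L →
    φ u (FreeGroup.mk L) = (FreeGroup.mk L)⁻¹ →
    ∃ y : F, FreeGroup.mk L = y * (φ u y)⁻¹ := by
  induction n with
  | zero =>
    intro L hL _ _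
    have : L = [] := List.length_eq_zero_iff.1 (Nat.le_zero.1 hL)
    subst this
    exact ⟨1, by rw [← FreeGroup.one_eq_mk, map_one, inv_one, mul_one]⟩
  | succ n ih =>
    intro L hL hred h
    cases L with
    | nil => exact ⟨1, by rw [← FreeGroup.one_eq_mk, map_one, inv_one, mul_one]⟩
    | cons s L' =>
      have hw := congrArg FreeGroup.toWord h
      rw [toWord_φ, FreeGroup.toWord_inv, FreeGroup.toWord_mk, hred.reduce_eq] at hw
      rcases List.eq_nil_or_concat' L' with h1 | ⟨M, r, h1⟩
      · subst h1
        exfalso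
        simp [FreeGroup.invRev] at hw
      · subst h1
        have hr : r = (u * s.1, !s.2) := by
          simp [FreeGroup.invRev] at hw
          obtain ⟨⟨h2, h3⟩, h4⟩ := hw
          refine Prod.ext h2.symm ?_
          rw [h3]
          simp
        have hM : FreeGroup.IsReduced M :=
          List.IsChain.left_of_append (l₂ := [r]) (List.IsChain.tail hred)
        have e1 : FreeGroup.mk (s :: (M ++ [r])) =
            FreeGroup.mk [s] * FreeGroup.mk M * (φ u (FreeGroup.mk [s]))⁻¹ := by
          rw [φ_mk, FreeGroup.inv_mk, FreeGroup.mul_mk, FreeGroup.mul_mk, hr]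
          rfl
        have e2 : φ u (FreeGroup.mk M) = (FreeGroup.mk M)⁻¹ := by
          rw [e1, map_mul, map_mul, map_inv, φ_sq, mul_inv_rev, mul_inv_rev, inv_inv] at h
          have h5 := mul_left_cancel ((mul_assoc _ _ _).symm.trans h)
          exact mul_right_cancel h5
        have hlen : M.length ≤ n := by
          simp only [List.length_cons, List.length_append] at hL
          omega
        obtain ⟨y, hy⟩ := ih M hlen hM e2
        refine ⟨FreeGroup.mk [s] * y, ?_⟩
        rw [e1, hy, map_mul, mul_inv_rev]
        group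

lemma fixed_one {u : V} (hu : u ≠ 1) {w : F} (h : φ u w = w) : w = 1 := by
  have h1 := toWord_φ u w
  rw [h] at h1
  rw [← FreeGroup.toWord_eq_nil_iff]
  cases hw : w.toWord with
  | nil => rfl
  | cons s L =>
    exfalso
    rw [hw, List.map_cons, List.cons.injEq] at h1
    have h2 : s.1 = u * s.1 := congrArg Prod.fst h1.1
    exact hu (mul_eq_right.1 h2.symm)

/-- an involution does not commute with a nontrivial element of the free group -/
lemma not_comm_free {x : G} (hx : orderOf x = 2) {f : F} (hf : f ≠ 1)
    (h : Commute x (SemidirectProduct.inl f)) : False := by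
  have h2 := sq_of hx
  have hu := right_ne hx
  have e1 : x.left * φ x.right x.left = 1 := by
    have := congrArg SemidirectProduct.left h2
    rw [pow_two, SemidirectProduct.mul_left, SemidirectProduct.one_left] at this
    exact this
  have e2 : φ x.right x.left = x.left⁻¹ := eq_inv_of_mul_eq_one_right e1
  obtain ⟨y, hy⟩ := cocycle x.right x.left.toWord.length x.left.toWord le_rfl
    FreeGroup.isReduced_toWord (by rw [FreeGroup.mk_toWord]; exact e2)
  rw [FreeGroup.mk_toWord] at hy
  have e3 : x.left * φ x.right f = f * x.left := by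
    have := congrArg SemidirectProduct.left h.eq
    rw [SemidirectProduct.mul_left, SemidirectProduct.mul_left, SemidirectProduct.left_inl,
      SemidirectProduct.right_inl, map_one] at this
    exact this
  have e4 : φ x.right (y⁻¹ * f * y) = y⁻¹ * f * y := by
    rw [map_mul, map_mul, map_inv]
    have e5 : φ x.right f = x.left⁻¹ * f * x.left := by
      rw [mul_assoc, ← e3, inv_mul_cancel_left]
    rw [e5, hy]
    group
  have e6 := fixed_one hu e4
  apply hf
  have : f = y * (y⁻¹ * f * y) * y⁻¹ := by group
  rw [this, e6]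
  group

/-! ### homomorphisms -/

/-- the exponent sum -/
def ex : G →* Multiplicative ℤ :=
  SemidirectProduct.lift (FreeGroup.lift fun _ => Multiplicative.ofAdd 1) 1 (by
    intro g
    ext v
    simp [φ_of])

/-- the generator of infinite order -/
def t : G := SemidirectProduct.inl (FreeGroup.of 1)

lemma ex_t : ex t = Multiplicative.ofAdd 1 := by
  simp [ex, t]

lemma ex_inr (v : V) : ex (SemidirectProduct.inr v) = 1 := by
  simp [ex]

lemma ex_tv (v : V) : ex (t * SemidirectProduct.inr v) = Multiplicative.ofAdd 1 := by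
  rw [map_mul, ex_t, ex_inr, mul_one]

lemma sf (v : V) : Sf (t * SemidirectProduct.inr v : G) where
  inf h := by
    have h1 := ex.isOfFinOrder h
    rw [ex_tv] at h1
    obtain ⟨n, hn, h2⟩ := isOfFinOrder_iff_pow_eq_one.1 h1
    rw [← ofAdd_nsmul] at h2
    have h3 : (n • (1 : ℤ)) = 0 := Multiplicative.ofAdd.injective h2
    simp at h3
    omega
  comm x hx h := by
    have h1 : Commute x ((t * SemidirectProduct.inr v) ^ 2) := h.pow_right 2
    have h2 : ((t * SemidirectProduct.inr v : G) ^ 2).right = 1 := by
      rw [right_pow, V_pow_two]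
    rw [eq_inl h2] at h1
    refine not_comm_free hx ?_ h1
    intro h3
    have h4 : (t * SemidirectProduct.inr v : G) ^ 2 = 1 := by
      rw [eq_inl h2, h3, map_one]
    have h5 : ex ((t * SemidirectProduct.inr v : G) ^ 2) = 1 := by rw [h4, map_one]
    rw [map_pow, ex_tv] at h5
    have h6 : (2 • (1 : ℤ)) = 0 := Multiplicative.ofAdd.injective h5
    norm_num at h6
  inv x h := by
    have h5 := congrArg ex h
    rw [map_mul, map_mul, map_inv, map_inv, ex_tv, mul_comm (ex x), mul_inv_cancel_right] at h5
    have h6 : (1 : ℤ) = -1 := Multiplicative.ofAdd.injective h5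
    norm_num at h6

/-- the involutions -/
def a : G := SemidirectProduct.inr (Multiplicative.ofAdd (1, 0))

/-- the involutions -/
def b : G := SemidirectProduct.inr (Multiplicative.ofAdd (0, 1))

lemma order_inr {v : V} (hv : v ≠ 1) : orderOf (SemidirectProduct.inr v : G) = 2 := by
  apply orderOf_eq_prime
  · rw [← map_pow, V_pow_two, map_one]
  · intro h
    exact hv (SemidirectProduct.inr_injective (by rw [h, map_one]))

/-- the projection of the Klein four group to the infinite dihedral group -/
def f2 : V →* DihedralGroup 0 where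
  toFun v := if v = 1 ∨ v = Multiplicative.ofAdd (0, 1) then 1 else DihedralGroup.sr 0
  map_one' := by simp
  map_mul' := by decide

/-- the homomorphism to the infinite dihedral group -/
def ψ : G →* DihedralGroup 0 :=
  SemidirectProduct.lift (FreeGroup.lift fun v => f2 v * DihedralGroup.r 1 * (f2 v)⁻¹) f2 (by
    intro g
    ext v
    simp [φ_of, mul_assoc])

lemma ψ_t : ψ t = DihedralGroup.r 1 := by
  simp [ψ, t]

lemma ψ_a : ψ a = DihedralGroup.sr 0 := by
  simp [ψ, a]
  decide

lemma ψ_b : ψ b = 1 := by
  simp [ψ, b]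
  decide

lemma not_conj (h : G) (m n : ℤ) (he : (t * b) ^ m = h * (t * a) ^ n * h⁻¹) : m = 0 := by
  have h1 : ψ (t * a) * ψ (t * a) = 1 := by
    rw [map_mul, ψ_t, ψ_a]
    decide
  have h2 : ψ (t * b) = DihedralGroup.r 1 := by
    rw [map_mul, ψ_t, ψ_b, mul_one]
  have h3 : (t * b : G) ^ (2 * m) = h * (t * a) ^ (2 * n) * h⁻¹ := by
    rw [two_mul, zpow_add, he, two_mul, zpow_add]
    group
  have h4 := congrArg ψ h3
  rw [map_mul, map_mul, map_zpow, map_zpow, map_inv, zpow_mul (ψ (t * a)), zpow_two (ψ (t * a)),
    h1, one_zpow, mul_one, mul_inv_cancel, h2, DihedralGroup.r_one_zpow,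
    DihedralGroup.one_def] at h4
  have h5 := DihedralGroup.r.inj h4
  rw [ZMod.intCast_zmod_eq_zero_iff_dvd] at h5
  have h6 : 2 * m = 0 := Int.zero_dvd.1 (by exact_mod_cast h5)
  omega

lemma closure : Subgroup.closure ({a, b, t} : Set G) = ⊤ := by
  rw [eq_top_iff]
  set H := Subgroup.closure ({a, b, t} : Set G) with hH
  have ha : a ∈ H := Subgroup.subset_closure (by simp)
  have hb : b ∈ H := Subgroup.subset_closure (by simp)
  have ht : t ∈ H := Subgroup.subset_closure (by simp)
  have hV : ∀ v : V, (SemidirectProduct.inr v : G) ∈ H := by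
    intro v
    have h1 : v = 1 ∨ v = Multiplicative.ofAdd (1, 0) ∨ v = Multiplicative.ofAdd (0, 1) ∨
        v = Multiplicative.ofAdd (1, 0) * Multiplicative.ofAdd (0, 1) := by
      revert v; decide
    rcases h1 with h | h | h | h
    · rw [h, map_one]; exact one_mem _
    · rw [h]; exact ha
    · rw [h]; exact hb
    · rw [h, map_mul]; exact mul_mem ha hb
  have hF : ∀ w : F, (SemidirectProduct.inl w : G) ∈ H := by
    intro w
    induction w using FreeGroup.induction_on with
    | C1 => rw [map_one]; exact one_mem _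
    | of v =>
      have h1 : (SemidirectProduct.inl (FreeGroup.of v) : G) =
          SemidirectProduct.inr v * t * SemidirectProduct.inr v⁻¹ := by
        rw [t, ← SemidirectProduct.inl_aut, φ_of, mul_one]
      change (SemidirectProduct.inl (FreeGroup.of v) : G) ∈ H
      rw [h1]
      exact mul_mem (mul_mem (hV v) ht) (hV _)
    | inv_of v h =>
      rw [map_inv]; exact inv_mem h
    | mul x y hx hy => rw [map_mul]; exact mul_mem hx hy
  intro x _
  rw [← SemidirectProduct.inl_left_mul_inr_right x]
  exact mul_mem (hF _) (hV _)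

lemma cgrp : CGrp G c where
  hyp := hyp
  four := four
  conj γ x _ := c_conj γ x
  comm := c_comm
  odd x hx h := absurd (odd_one x h) hx

end St

theorem start : ∃ (Γ : Type) (_ : Group Γ) (c : Γ → Fin 3), Countable Γ ∧ CGrp Γ c ∧
    ∃ a b t : Γ, orderOf a = 2 ∧ orderOf b = 2 ∧ a ≠ b ∧ Commute a b ∧
      Subgroup.closure ({a, b, t} : Set Γ) = ⊤ ∧ Sf (t * a) ∧ Sf (t * b) ∧ Sf (t * (a * b)) ∧
      ∀ (h : Γ) (m n : ℤ), (t * b) ^ m = h * (t * a) ^ n * h⁻¹ → m = 0 := by
  refine ⟨St.G, inferInstance, St.c, ?_, St.cgrp, St.a, St.b, St.t, St.order_inr (by decide),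
    St.order_inr (by decide), ?_, ?_, St.closure, St.sf _, St.sf _, ?_, St.not_conj⟩
  · have h1 : Function.Injective (fun g : St.G => (g.left.toWord, g.right)) := by
      intro x y hxy
      have h2 := (Prod.mk.inj hxy)
      exact SemidirectProduct.ext (FreeGroup.toWord_injective h2.1) h2.2
    exact h1.countable
  · intro h
    have := SemidirectProduct.inr_injective h
    revert this
    decide
  · unfold St.a St.b
    exact (Commute.all (Multiplicative.ofAdd ((1, 0) : ZMod 2 × ZMod 2)) _).map
      (SemidirectProduct.inr : St.V →* St.G)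
  · have h1 : St.a * St.b = SemidirectProduct.inr (Multiplicative.ofAdd (1, 0) *
        Multiplicative.ofAdd (0, 1)) := by
      rw [map_mul]; rfl
    rw [h1]
    exact St.sf _

end Pool.Agent.TH68.C
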