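import Pool.Agent.TH68.C.Limit
import Pool.Agent.TH68.C.Start
import Pool.Agent.TH68.C.Psl
import Pool.Agent.TH68.Final

set_option autoImplicit false
set_option linter.unusedSectionVars false

/-! The limit group. -/

namespace Pool.Agent.TH68.C

open Pool.Agent.Helper97.Hyp Pool.Agent.TH68

/-- four pairwise commuting involutions are not distinct -/
lemma CGrp.four_inv {G : Type*} [Group G] {c : G → Fin 3} (hG : CGrp G c) {a b x : G}
    (ha : orderOf a = 2) (hb : orderOf b = 2) (hx : orderOf x = 2) (hab : Commute a b)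
    (hne : a ≠ b) (hxa : Commute x a) (hxb : Commute x b) : x = a ∨ x = b ∨ x = a * b := by
  by_contra hcon
  push Not at hcon
  obtain ⟨h1, h2, h3⟩ := hcon
  have haa := ord_two_mul ha
  have hbb := ord_two_mul hb
  have hab2 : orderOf (a * b) = 2 := by
    apply orderOf_eq_prime
    · rw [hab.mul_pow, pow_two, pow_two, haa, hbb, one_mul]
    · intro h
      apply hne
      have := eq_inv_of_mul_eq_one_left h
      rw [ord_two_inv hb] at this
      exact this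
  have hb1 : b ≠ 1 := by
    rintro rfl
    rw [orderOf_one] at hb
    omega
  have ha1 : a ≠ 1 := by
    rintro rfl
    rw [orderOf_one] at ha
    omega
  have k1 := hG.comm a b ha hb hab hne
  have k2 := hG.comm x a hx ha hxa h1
  have k3 := hG.comm x b hx hb hxb h2
  have k4 := hG.comm x (a * b) hx hab2 (hxa.mul_right hxb) h3
  have k5 := hG.comm a (a * b) ha hab2 ((Commute.refl a).mul_right hab) (fun h => hb1
    (mul_eq_left.mp h.symm))
  have k6 := hG.comm b (a * b) hb hab2 (hab.symm.mul_right (Commute.refl b)) (fun h => ha1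
    (mul_eq_right.mp h.symm))
  rw [Ne, Fin.ext_iff] at k1 k2 k3 k4 k5 k6
  have l1 := (c a).isLt
  have l2 := (c b).isLt
  have l3 := (c x).isLt
  have l4 := (c (a * b)).isLt
  omega

namespace Sta

variable {Γ : Type*} [Group Γ] {L : Set Γ} {p : ℕ} {y : Γ}

/-- the sequence of stages -/
noncomputable def seq (hD : Dat L p y) (S₀ : Sta L p y) (f : ℕ → Γ × Γ × Γ) : ℕ → Sta L p y
  | 0 => S₀
  | n + 1 => Classical.choose ((seq hD S₀ f n).task hD (f n).1 (f n).2.1 (f n).2.2)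

lemma seq_spec (hD : Dat L p y) (S₀ : Sta L p y) (f : ℕ → Γ × Γ × Γ) (n : ℕ) :
    (seq hD S₀ f n).K ≤ (seq hD S₀ f (n + 1)).K ∧
      (∃ k : ℕ, 0 < k ∧ (f n).1 ^ k ∈ (seq hD S₀ f (n + 1)).K) ∧
      (orderOf ((f n).1 : Γ ⧸ (seq hD S₀ f n).K) = 2 → (f n).2.2 ∉ (seq hD S₀ f n).K →
        (f n).1 * ((f n).2.1 * (f n).1 * (f n).2.1⁻¹) ∈
          Subgroup.normalClosure {(f n).2.2} ⊔ (seq hD S₀ f (n + 1)).K) :=
  Classical.choose_spec ((seq hD S₀ f n).task hD (f n).1 (f n).2.1 (f n).2.2)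

/-- properties of the limit -/
structure Lim (L : Set Γ) (K : Subgroup Γ) : Prop where
  normal : K.Normal
  hL : ∀ x ∈ L, x ∉ K
  tors : ∀ x : Γ, ∃ k : ℕ, 0 < k ∧ x ^ k ∈ K
  four : ∀ x : Γ, x ^ 4 ∈ K → x ^ 2 ∈ K
  inf : Infinite (Γ ⧸ K)
  mx : ∀ a b x : Γ, orderOf a = 2 → orderOf b = 2 → Commute a b → a ∉ K → b ∉ K →
    a * b ∉ K → x ^ 2 ∈ K → x ∉ K → x * a * x⁻¹ * a⁻¹ ∈ K → x * b * x⁻¹ * b⁻¹ ∈ K →
    a⁻¹ * x ∈ K ∨ b⁻¹ * x ∈ K ∨ (a * b)⁻¹ * x ∈ K
  simp : ∀ s x v : Γ, v ∉ K → s ^ 2 ∈ K → s ∉ K →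
    s * (x * s * x⁻¹) ∈ Subgroup.normalClosure {v} ⊔ K

lemma comm_of {K : Subgroup Γ} [K.Normal] {a b : Γ} (h : a * b * a⁻¹ * b⁻¹ ∈ K) :
    Commute (a : Γ ⧸ K) (b : Γ ⧸ K) := by
  have h3 : ((a * b * a⁻¹ * b⁻¹ : Γ) : Γ ⧸ K) = 1 := mk_eq_one.mpr h
  rw [QuotientGroup.mk_mul, QuotientGroup.mk_mul, QuotientGroup.mk_mul, QuotientGroup.mk_inv,
    QuotientGroup.mk_inv, mul_inv_eq_one, mul_inv_eq_iff_eq_mul] at h3
  exact h3

lemma ord_two_mk {K : Subgroup Γ} [K.Normal] {a : Γ} (h1 : a ^ 2 ∈ K) (h2 : a ∉ K) :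
    orderOf (a : Γ ⧸ K) = 2 := by
  apply orderOf_eq_prime
  · rw [← QuotientGroup.mk_pow, mk_eq_one]; exact h1
  · rw [Ne, mk_eq_one]; exact h2

theorem limit [Countable Γ] [hfg : Group.FG Γ] (hD : Dat L p y) (S₀ : Sta L p y) :
    ∃ K : Subgroup Γ, S₀.K ≤ K ∧ Lim L K := by
  obtain ⟨f, hf⟩ := exists_enum (Γ × Γ × Γ)
  set S := seq hD S₀ f with hS
  have hmono : Monotone (fun n => (S n).K) :=
    monotone_nat_of_le_succ fun n => (seq_spec hD S₀ f n).1
  set K : Subgroup Γ := ⨆ n, (S n).K with hK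
  have hdir : Directed (· ≤ ·) (fun n => (S n).K) := hmono.directed_le
  have hmem : ∀ x, x ∈ K ↔ ∃ n, x ∈ (S n).K := fun x => Subgroup.mem_iSup_of_directed hdir
  have hle : ∀ n, (S n).K ≤ K := fun n => le_iSup (fun n => (S n).K) n
  have hord2 : ∀ a : Γ, a ^ 2 ∈ K → a ∉ K → ∃ n₀, ∀ n, n₀ ≤ n →
      orderOf (a : Γ ⧸ (S n).K) = 2 := by
    intro a ha ha'
    obtain ⟨n₀, hn₀⟩ := (hmem _).mp ha
    exact ⟨n₀, fun n hn => ord_two_mk (hmono hn hn₀) (fun h => ha' (hle n h))⟩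
  refine ⟨K, hle 0, ?_⟩
  have hnormal : K.Normal := by
    constructor
    intro n hn g
    obtain ⟨k, hk⟩ := (hmem _).mp hn
    exact hle k ((S k).normal.conj_mem n hk g)
  constructor
  · exact hnormal
  · intro x hx hxK
    obtain ⟨n, hn⟩ := (hmem _).mp hxK
    exact (S n).hL x hx hn
  · intro x
    obtain ⟨n, -, hfn⟩ := hf (x, 1, 1) 0
    obtain ⟨-, ⟨k, hk, hk1⟩, -⟩ := seq_spec hD S₀ f n
    rw [hfn] at hk1
    exact ⟨k, hk, hle _ hk1⟩
  · intro x hx
    obtain ⟨n, hn⟩ := (hmem _).mp hx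
    apply hle n
    rw [← mk_eq_one, QuotientGroup.mk_pow]
    apply (S n).cgrp.four
    rw [← QuotientGroup.mk_pow, mk_eq_one]
    exact hn
  · -- infinite
    by_contra hfin
    rw [not_infinite_iff_finite] at hfin
    have hKfg : K.FG := by
      have : K.FiniteIndex := Subgroup.finiteIndex_of_finite_quotient
      rw [← Group.fg_iff_subgroup_fg]
      exact Subgroup.fg_of_index_ne_zero K
    obtain ⟨T, hT⟩ := hKfg
    classical
    have hTn : ∃ n, (T : Set Γ) ⊆ (S n).K := by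
      have hex : ∀ x ∈ T, ∃ n, x ∈ (S n).K := fun x hx => by
        rw [← hmem, ← hT]
        exact Subgroup.subset_closure hx
      clear hT
      induction T using Finset.induction_on with
      | empty => exact ⟨0, by simp⟩
      | insert a s has ih =>
        obtain ⟨n, hn⟩ := ih (fun x hx => hex x (Finset.mem_insert_of_mem hx))
        obtain ⟨m, hm⟩ := hex a (Finset.mem_insert_self _ _)
        refine ⟨max n m, ?_⟩
        intro x hx
        rw [Finset.coe_insert] at hx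
        rcases hx with rfl | hx
        · exact hmono (le_max_right n m) hm
        · exact hmono (le_max_left n m) (hn hx)
    obtain ⟨n, hn⟩ := hTn
    have hKn : K = (S n).K := by
      apply le_antisymm _ (hle n)
      rw [← hT, Subgroup.closure_le]
      exact hn
    have h1 := (S n).inf
    have h2 : Finite (Γ ⧸ (S n).K) := by
      rw [← hKn]
      exact hfin
    exact not_finite (Γ ⧸ (S n).K)
  · intro a b x ha hb hab haK hbK habK hx2 hx1 hxa hxb
    obtain ⟨n₁, hn₁⟩ := hord2 x hx2 hx1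
    obtain ⟨n₂, hn₂⟩ := (hmem _).mp hxa
    obtain ⟨n₃, hn₃⟩ := (hmem _).mp hxb
    set n := max (max n₁ n₂) n₃ with hn
    have e1 := hn₁ n (le_trans (le_max_left _ _) (le_max_left _ _))
    have e2 := comm_of (hmono (show n₂ ≤ n from
      le_trans (le_max_right _ _) (le_max_left _ _)) hn₂)
    have e3 := comm_of (hmono (show n₃ ≤ n from le_max_right _ _) hn₃)
    have e4 : orderOf (a : Γ ⧸ (S n).K) = 2 := ord_two_mk (by
      rw [← ha, pow_orderOf_eq_one]; exact one_mem _) (fun h => haK (hle n h))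
    have e5 : orderOf (b : Γ ⧸ (S n).K) = 2 := ord_two_mk (by
      rw [← hb, pow_orderOf_eq_one]; exact one_mem _) (fun h => hbK (hle n h))
    have e6 : Commute (a : Γ ⧸ (S n).K) (b : Γ ⧸ (S n).K) :=
      hab.map (QuotientGroup.mk' (S n).K)
    have e7 : (a : Γ ⧸ (S n).K) ≠ (b : Γ ⧸ (S n).K) := by
      intro h
      rw [mk_eq_iff, ord_two_inv ha] at h
      exact habK (hle n h)
    rcases (S n).cgrp.four_inv e4 e5 e1 e6 e7 e2 e3 with h | h | h
    · left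
      exact hle n (mk_eq_iff.mp h.symm)
    · right; left
      exact hle n (mk_eq_iff.mp h.symm)
    · right; right
      rw [← QuotientGroup.mk_mul] at h
      exact hle n (mk_eq_iff.mp h.symm)
  · intro s x v hv hs2 hs1
    obtain ⟨n₁, hn₁⟩ := hord2 s hs2 hs1
    obtain ⟨n, hn, hfn⟩ := hf (s, x, v) n₁
    obtain ⟨-, -, h1⟩ := seq_spec hD S₀ f n
    rw [hfn] at h1
    have h2 := h1 (hn₁ n hn) (fun h => hv (hle n h))
    exact (sup_le_sup_left (hle (n + 1)) _ : Subgroup.normalClosure {v} ⊔ (S (n + 1)).K ≤ _) h2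

end Sta

/-- triviality of an abelian quotient -/
lemma triv {Q : Type*} [Group Q] {α β τ : Q} (hα : α ^ 2 = 1) (hβ : β ^ 2 = 1)
    (h1 : Commute τ α) (h2 : Commute τ β) (h3 : Commute α β) {m₁ m₂ m₃ : ℕ} (hm₁ : m₁.Prime)
    (hm₂ : m₂.Prime) (o1 : Odd m₁) (o2 : Odd m₂) (o3 : Odd m₃) (hne : m₁ ≠ m₂)
    (r1 : (τ * α) ^ m₁ = 1) (r2 : (τ * β) ^ m₂ = 1) (r3 : (τ * (α * β)) ^ m₃ = 1) :
    α = 1 ∧ β = 1 ∧ τ = 1 := by
  have hodd : ∀ (x : Q) (m : ℕ), x ^ 2 = 1 → Odd m → x ^ m = x := by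
    rintro x m hx ⟨i, hi⟩
    rw [hi, pow_succ, pow_mul, hx, one_pow, one_mul]
  have hαβ : (α * β) ^ 2 = 1 := by rw [h3.mul_pow, hα, hβ, one_mul]
  have inv : ∀ x : Q, x ^ 2 = 1 → x⁻¹ = x := by
    intro x hx
    rw [pow_two] at hx
    exact inv_eq_of_mul_eq_one_left hx
  have e1 : τ ^ m₁ = α := by
    rw [h1.mul_pow, hodd α m₁ hα o1] at r1
    rw [eq_inv_of_mul_eq_one_left r1, inv α hα]
  have e2 : τ ^ m₂ = β := by
    rw [h2.mul_pow, hodd β m₂ hβ o2] at r2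
    rw [eq_inv_of_mul_eq_one_left r2, inv β hβ]
  have e3 : τ ^ m₃ = α * β := by
    rw [(h1.mul_right h2).mul_pow, hodd (α * β) m₃ hαβ o3] at r3
    rw [eq_inv_of_mul_eq_one_left r3, inv _ hαβ]
  have f1 : τ ^ (m₁ * m₂ * m₃) = α := by
    rw [mul_assoc, pow_mul, e1, hodd α _ hα (o2.mul o3)]
  have f2 : τ ^ (m₁ * m₂ * m₃) = β := by
    rw [mul_comm m₁ m₂, mul_assoc, pow_mul, e2, hodd β _ hβ (o1.mul o3)]
  have f3 : τ ^ (m₁ * m₂ * m₃) = α * β := by
    rw [mul_comm, pow_mul, e3, hodd _ _ hαβ (o1.mul o2)]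
  have g1 : β = 1 := by
    rw [f1] at f3
    exact mul_eq_left.mp f3.symm
  have g2 : α = 1 := by
    rw [f2] at f3
    exact mul_eq_right.mp f3.symm
  refine ⟨g2, g1, ?_⟩
  rw [g2] at e1
  rw [g1] at e2
  have h4 : IsCoprime (m₁ : ℤ) (m₂ : ℤ) := by
    rw [Nat.isCoprime_iff_coprime, Nat.coprime_primes hm₁ hm₂]
    exact hne
  obtain ⟨c, d, hcd⟩ := h4
  have h8 : τ = (τ ^ m₁) ^ c * (τ ^ m₂) ^ d := by
    rw [← zpow_natCast, ← zpow_natCast, ← zpow_mul, ← zpow_mul, ← zpow_add]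
    have : (m₁ : ℤ) * c + (m₂ : ℤ) * d = 1 := by linarith
    rw [this, zpow_one]
  rw [h8, e1, e2, one_zpow, one_zpow, one_mul]

/-- the quotient by the limit subgroup -/
theorem of_lim {Γ : Type*} [Group Γ] [hfg : Group.FG Γ] {L : Set Γ} {K : Subgroup Γ} [K.Normal]
    (hK : Sta.Lim L K) {a b t : Γ} (haL : a ∈ L) (hbL : b ∈ L) (habL : a * b ∈ L)
    (ha : orderOf a = 2) (hb : orderOf b = 2) (hab : Commute a b)
    (hgen : Subgroup.closure ({a, b, t} : Set Γ) = ⊤) {m₁ m₂ m₃ : ℕ} (hm₁ : m₁.Prime)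
    (hm₂ : m₂.Prime) (o1 : Odd m₁) (o2 : Odd m₂) (o3 : Odd m₃) (hne : m₁ ≠ m₂)
    (r1 : (t * a) ^ m₁ ∈ K) (r2 : (t * b) ^ m₂ ∈ K) (r3 : (t * (a * b)) ^ m₃ ∈ K) :
    Infinite (Γ ⧸ K) ∧ IsSimpleGroup (Γ ⧸ K) ∧ IsMulTorsion (Γ ⧸ K) ∧ Group.FG (Γ ⧸ K) ∧
      ∃ (S : Sylow 2 (Γ ⧸ K)) (n : ℕ), 2 ≤ n ∧
        Nonempty (↥(S : Subgroup (Γ ⧸ K)) ≃* DihedralGroup n) := by
  have haK := hK.hL a haL
  have hbK := hK.hL b hbL
  have habK := hK.hL _ habL
  have ha2 : a ^ 2 = 1 := by rw [← ha, pow_orderOf_eq_one]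
  have hb2 : b ^ 2 = 1 := by rw [← hb, pow_orderOf_eq_one]
  have hak : a ^ 2 ∈ K := by rw [ha2]; exact one_mem _
  have hbk : b ^ 2 ∈ K := by rw [hb2]; exact one_mem _
  refine ⟨hK.inf, ?_, ?_, inferInstance, ?_⟩
  · -- simplicity
    have hnt : Nontrivial (Γ ⧸ K) := by
      refine ⟨⟨(a : Γ ⧸ K), 1, ?_⟩⟩
      rw [Ne, mk_eq_one]; exact haK
    refine ⟨fun V hV => ?_⟩
    by_cases hV1 : V = ⊥
    · exact Or.inl hV1
    right
    obtain ⟨⟨v', hv'⟩, hv1'⟩ := Subgroup.ne_bot_iff_exists_ne_one.mp hV1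
    have hv1 : v' ≠ 1 := fun h => hv1' (Subtype.ext h)
    obtain ⟨v, rfl⟩ := QuotientGroup.mk_surjective v'
    have hvK : v ∉ K := fun h => hv1 (mk_eq_one.mpr h)
    -- the homomorphism to the quotient
    set φ : Γ →* (Γ ⧸ K) ⧸ V := (QuotientGroup.mk' V).comp (QuotientGroup.mk' K) with hφ
    have hφK : ∀ x ∈ K, φ x = 1 := by
      intro x hx
      have h1 : QuotientGroup.mk' K x = 1 := mk_eq_one.mpr hx
      rw [hφ, MonoidHom.comp_apply, h1, map_one]
    have hφv : φ v = 1 := (QuotientGroup.eq_one_iff _).mpr hv'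
    have hprod : ∀ s x : Γ, s ^ 2 ∈ K → s ∉ K → φ s * (φ x * φ s * (φ x)⁻¹) = 1 := by
      intro s x h1 h2
      have h3 := hK.simp s x v hvK h1 h2
      have h4 : Subgroup.normalClosure {v} ⊔ K ≤ φ.ker := by
        apply sup_le
        · apply Subgroup.normalClosure_le_normal
          rw [Set.singleton_subset_iff]
          exact hφv
        · intro x hx
          exact hφK x hx
      have h5 := h4 h3
      rw [MonoidHom.mem_ker, map_mul, map_mul, map_mul, map_inv] at h5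
      exact h5
    have hsq : ∀ s : Γ, s ^ 2 ∈ K → (φ s) ^ 2 = 1 := by
      intro s hs
      rw [← map_pow]
      exact hφK _ hs
    have hcom : ∀ s x : Γ, s ^ 2 ∈ K → s ∉ K → Commute (φ x) (φ s) := by
      intro s x h1 h2
      have h3 := hprod s x h1 h2
      have h4 := hsq s h1
      rw [pow_two] at h4
      have h5 := eq_inv_of_mul_eq_one_right h3
      rw [inv_eq_of_mul_eq_one_left h4] at h5
      exact mul_inv_eq_iff_eq_mul.mp h5
    obtain ⟨g1, g2, g3⟩ := triv (hsq a hak) (hsq b hbk) (hcom a t hak haK) (hcom b t hbk hbK)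
      (hcom b a hbk hbK) hm₁ hm₂ o1 o2 o3 hne
      (by rw [← map_mul, ← map_pow]; exact hφK _ r1)
      (by rw [← map_mul, ← map_pow]; exact hφK _ r2)
      (by rw [← map_mul, ← map_mul, ← map_pow]; exact hφK _ r3)
    have hker : φ.ker = ⊤ := by
      rw [eq_top_iff, ← hgen, Subgroup.closure_le]
      rintro x (rfl | rfl | rfl)
      · exact g1
      · exact g2
      · exact g3
    rw [eq_top_iff]
    intro x _
    obtain ⟨x, rfl⟩ := QuotientGroup.mk_surjective x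
    have h1 : x ∈ φ.ker := by rw [hker]; exact Subgroup.mem_top _
    exact (QuotientGroup.eq_one_iff _).mp h1
  · intro x
    obtain ⟨x, rfl⟩ := QuotientGroup.mk_surjective x
    obtain ⟨k, hk, hk1⟩ := hK.tors x
    rw [isOfFinOrder_iff_pow_eq_one]
    exact ⟨k, hk, by rw [← QuotientGroup.mk_pow, mk_eq_one]; exact hk1⟩
  · apply syl (a := (a : Γ ⧸ K)) (b := (b : Γ ⧸ K))
    · intro x hx
      obtain ⟨x, rfl⟩ := QuotientGroup.mk_surjective x
      rw [← QuotientGroup.mk_pow, mk_eq_one] at hx ⊢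
      exact hK.four x hx
    · exact Sta.ord_two_mk hak haK
    · exact Sta.ord_two_mk hbk hbK
    · intro h
      rw [mk_eq_iff, ord_two_inv ha] at h
      exact habK h
    · exact hab.map (QuotientGroup.mk' K)
    · intro x hx hxa hxb
      obtain ⟨x, rfl⟩ := QuotientGroup.mk_surjective x
      have hx2 : x ^ 2 ∈ K := by
        rw [← mk_eq_one, QuotientGroup.mk_pow, ← hx, pow_orderOf_eq_one]
      have hx1 : x ∉ K := by
        intro h
        rw [mk_eq_one.mpr h, orderOf_one] at hx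
        omega
      have hc : ∀ z : Γ, Commute (x : Γ ⧸ K) (z : Γ ⧸ K) → x * z * x⁻¹ * z⁻¹ ∈ K := by
        intro z hz
        rw [← mk_eq_one, QuotientGroup.mk_mul, QuotientGroup.mk_mul, QuotientGroup.mk_mul,
          QuotientGroup.mk_inv, QuotientGroup.mk_inv, hz.eq]
        group
      rcases hK.mx a b x ha hb hab haK hbK habK hx2 hx1 (hc a hxa) (hc b hxb) with h | h | h
      · left; exact (mk_eq_iff.mpr h).symm
      · right; left; exact (mk_eq_iff.mpr h).symm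
      · right; right
        rw [← QuotientGroup.mk_mul]
        exact (mk_eq_iff.mpr h).symm

/-- the initial stage -/
theorem init {Γ : Type*} [Group Γ] {c : Γ → Fin 3} (hΓ : CGrp Γ c) {a b t : Γ}
    (ha : orderOf a = 2) (hb : orderOf b = 2) (hne : a ≠ b) (s1 : Sf (t * a))
    (s2 : Sf (t * b)) (s3 : Sf (t * (a * b)))
    (hnc : ∀ (h : Γ) (m n : ℤ), (t * b) ^ m = h * (t * a) ^ n * h⁻¹ → m = 0) :
    ∃ (p : ℕ) (y : Γ) (L : Set Γ), Dat L p y ∧ a ∈ L ∧ b ∈ L ∧ a * b ∈ L ∧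
      ∃ (S : Sta L p y) (m₂ m₃ : ℕ), m₂.Prime ∧ Odd m₂ ∧ Odd m₃ ∧ p ≠ m₂ ∧
        (t * a) ^ p ∈ S.K ∧ (t * b) ^ m₂ ∈ S.K ∧ (t * (a * b)) ^ m₃ ∈ S.K := by
  have haa := ord_two_mul ha
  have hab1 : a * b ≠ 1 := by
    intro h
    apply hne
    have := eq_inv_of_mul_eq_one_left h
    rw [ord_two_inv hb] at this
    exact this
  have ha1 : a ≠ 1 := by
    rintro rfl
    rw [orderOf_one] at ha
    omega
  have hb1 : b ≠ 1 := by
    rintro rfl
    rw [orderOf_one] at hb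
    omega
  obtain ⟨p, hp3, hp, N, hN, c', hO⟩ := step hΓ s1.inf (B := {1, a, b, a * b}) (by simp)
    (F := {t * b, t * (a * b)}) (by simp) 3
  have hp2 : p ≠ 2 := by omega
  obtain ⟨h1, y', hy', hself⟩ := hO.sf s1
  obtain ⟨y, rfl⟩ := QuotientGroup.mk_surjective y'
  have htb : ∀ k : ℕ, 0 < k → (t * b) ^ k ∉ N := by
    apply hO.nc (t * b) (by simp) s2.inf
    intro s r x hs h
    exact hs (hnc x s r h)
  have hy1 : (y : Γ ⧸ N) ≠ 1 := by
    intro h
    rw [h, orderOf_one] at hy'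
    exact hp.one_lt.ne hy'
  let L : Set Γ := {a, b, a * b, y}
  have hD : Dat L p y := ⟨by simp [L], by simp [L], hp, hp2⟩
  have hnot : ∀ x ∈ ({1, a, b, a * b} : Set Γ), x ≠ 1 → x ∉ N := by
    intro x hx hx1 hxN
    apply hx1
    symm
    apply hO.inj 1 (by simp) x hx
    rwa [inv_one, one_mul]
  let S₁ : Sta L p y :=
    { K := N
      normal := hN
      c := c'
      cgrp := hO.cgrp
      inf := by
        by_contra hfin
        rw [not_infinite_iff_finite] at hfin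
        obtain ⟨k, hk, hk1⟩ := (isOfFinOrder_of_finite ((t * b : Γ) : Γ ⧸ N)).exists_pow_eq_one
        rw [← QuotientGroup.mk_pow, mk_eq_one] at hk1
        exact htb k hk hk1
      hL := by
        intro x hx
        rcases hx with rfl | rfl | rfl | rfl
        · exact hnot _ (by simp) ha1
        · exact hnot _ (by simp) hb1
        · exact hnot _ (by simp) hab1
        · exact fun h => hy1 (mk_eq_one.mpr h)
      hy := by
        rw [← mk_eq_one, QuotientGroup.mk_pow, ← hy', pow_orderOf_eq_one]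
      self := hself }
  have hodd : ∀ q : ℕ, q.Prime → p ≤ q → Odd q := by
    intro q hq hpq
    exact hq.odd_of_ne_two (by omega)
  have hsf2 : Sf ((t * b : Γ) : Γ ⧸ S₁.K) := by
    rcases hO.keep (t * b) (by simp) s2 with h | h
    · exact h
    · exact absurd h (htb p hp.pos)
  have h3 : Sf ((t * (a * b) : Γ) : Γ ⧸ S₁.K) ∨ (t * (a * b)) ^ p ∈ S₁.K :=
    hO.keep (t * (a * b)) (by simp) s3
  obtain ⟨m₂, hm2, hm2p, S₂, h12, -, -, -, hb2, hk2⟩ := S₁.kill hD hsf2.inf (p + 1) (T := ∅)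
    Set.finite_empty (by simp) (F := {t * (a * b)}) (by simp)
  have hb2' := hb2 hsf2
  have h1' : (t * a) ^ p ∈ S₁.K := h1
  -- the third element
  have h4 : Sf ((t * (a * b) : Γ) : Γ ⧸ S₂.K) ∨ ∃ m₃, Odd m₃ ∧ (t * (a * b)) ^ m₃ ∈ S₂.K := by
    rcases h3 with h | h
    · rcases hk2 (t * (a * b)) (by simp) h with h' | h'
      · exact Or.inl h'
      · exact Or.inr ⟨m₂, hodd m₂ hm2p (by omega), h'⟩
    · exact Or.inr ⟨p, hodd p hp le_rfl, h12 h⟩
  refine ⟨p, y, L, hD, by simp [L], by simp [L], by simp [L], ?_⟩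
  rcases h4 with h | ⟨m₃, ho, h⟩
  · obtain ⟨m₃, hm3, hm3p, S₃, h23, -, -, -, hb3, -⟩ := S₂.kill hD h.inf p (T := ∅)
      Set.finite_empty (by simp) (F := ∅) Set.finite_empty
    exact ⟨S₃, m₂, m₃, hm2p, hodd m₂ hm2p (by omega), hodd m₃ hm3p hm3, by omega,
      h23 (h12 h1'), h23 hb2', hb3 h⟩
  · exact ⟨S₂, m₂, m₃, hm2p, hodd m₂ hm2p (by omega), ho, by omega, h12 h1', hb2', h⟩

/-- the main theorem -/
theorem main : ∃ (G : Type) (_ : Group G), Infinite G ∧ IsSimpleGroup G ∧ IsMulTorsion G ∧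
    Group.FG G ∧ ∃ (S : Sylow 2 G) (n : ℕ), 2 ≤ n ∧
      Nonempty (↥(S : Subgroup G) ≃* DihedralGroup n) := by
  obtain ⟨Γ, hG, c, hcount, hΓ, a, b, t, ha, hb, hne, hab, hgen, s1, s2, s3, hnc⟩ := start
  have hfg : Group.FG Γ := by
    rw [Group.fg_iff]
    exact ⟨{a, b, t}, hgen, by simp⟩
  obtain ⟨p, y, L, hD, haL, hbL, habL, S, m₂, m₃, hm2, o2, o3, hpm, r1, r2, r3⟩ :=
    init hΓ ha hb hne s1 s2 s3 hnc
  obtain ⟨K, hSK, hK⟩ := Sta.limit hD S
  have hKn := hK.normal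
  exact ⟨Γ ⧸ K, inferInstance, of_lim hK haL hbL habL ha hb hab hgen hD.hp hm2
    (hD.hp.odd_of_ne_two hD.hp2) o2 o3 hpm (hSK r1) (hSK r2) (hSK r3)⟩

end Pool.Agent.TH68.C
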