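import Pool.Agent.TH68.Sys

set_option autoImplicit false
set_option linter.unusedSectionVars false

/-! Groups with coloured involutions; spinning families with flips. -/

namespace Pool.Agent.TH68.C

open Pool.Agent.Helper97.Hyp Pool.Agent.TH68

/-- the class of groups used in the construction; `c` is the colour of an involution -/
structure CGrp (Γ : Type*) [Group Γ] (c : Γ → Fin 3) : Prop where
  hyp : HypGroup Γ
  four : ∀ x : Γ, x ^ 4 = 1 → x ^ 2 = 1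
  conj : ∀ γ x : Γ, orderOf x = 2 → c (γ * x * γ⁻¹) = c x
  comm : ∀ x y : Γ, orderOf x = 2 → orderOf y = 2 → Commute x y → x ≠ y → c x ≠ c y
  odd : ∀ x : Γ, x ≠ 1 → Odd (orderOf x) → {y : Γ | Commute x y}.Finite

/-- `g` generates the maximal virtually cyclic subgroup containing it, modulo the elements of `K`
and the elements inverting `g` -/
structure CRoot {Γ : Type*} [Group Γ] (c : Γ → Fin 3) (g : Γ) (K : Subgroup Γ) : Prop where
  inf : ¬ IsOfFinOrder g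
  fin : (K : Set Γ).Finite
  sq : ∀ k ∈ K, k ^ 2 = 1
  comm : ∀ k ∈ K, Commute k g
  cent : ∀ (y : Γ) (a : ℤ), a ≠ 0 → Commute y (g ^ a) → ∃ k ∈ K, ∃ j : ℤ, y = k * g ^ j
  flip : ∀ (y : Γ) (a : ℤ), a ≠ 0 → y * g ^ a * y⁻¹ = g ^ (-a) →
    orderOf y = 2 ∧ y * g * y⁻¹ = g⁻¹ ∧ ∀ k ∈ K, Commute y k
  col : K ≠ ⊥ → ∀ y : Γ, y * g * y⁻¹ = g⁻¹ → c (g * y) = c y

/-- an element of infinite order which is not centralized by an involution and not inverted -/
structure Sf {Γ : Type*} [Group Γ] (g : Γ) : Prop where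
  inf : ¬ IsOfFinOrder g
  comm : ∀ x : Γ, orderOf x = 2 → ¬ Commute x g
  inv : ∀ x : Γ, x * g * x⁻¹ ≠ g⁻¹

/-- a spinning family on a system of axes -/
structure Sp0 {Γ : Type*} [Group Γ] {W : WNorm Γ} {𝒜 : Type*} [MulAction Γ 𝒜]
    (Y : Sys Γ W 𝒜) where
  M : ℝ
  N : Subgroup Γ
  normal : N.Normal
  G : 𝒜 → Subgroup Γ
  G_le : ∀ A, G A ≤ N
  fix : ∀ A, ∀ r ∈ G A, r • A = A
  spin : ∀ A, ∀ r ∈ G A, r ≠ 1 → ∀ q ∈ Y.S A, M ≤ dist q (r • q)
  /-- the windmill property -/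
  wind : ∀ n ∈ N, n ≠ 1 → ∀ x : Pt W,
    ∃ A, ∃ r ∈ G A, r ≠ 1 ∧ pd (Y.S A) (r • x) (n • x) ≤ 50 * Y.θ
  /-- rotations are cobounded on the axis -/
  cob : ∃ R : ℝ, ∀ A, ∀ p ∈ Y.S A, ∀ q ∈ Y.S A, ∃ r ∈ G A, dist p (r • q) ≤ R

attribute [instance] Sp0.normal

/-- a spinning family where every element preserving an axis has constant displacement on the axis
or is an involution inverting the rotations (a flip) -/
structure Spc {Γ : Type*} [Group Γ] {W : WNorm Γ} {𝒜 : Type*} [MulAction Γ 𝒜]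
    (Y : Sys Γ W 𝒜) extends Sp0 Y where
  stab : ∀ A (e : Γ), e • A = A →
    (∀ p ∈ Y.S A, ∀ q ∈ Y.S A, dist p (e • p) = dist q (e • q)) ∨
      (orderOf e = 2 ∧ ∀ r ∈ G A, e * r * e⁻¹ = r⁻¹)

end Pool.Agent.TH68.C
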