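import Pool.Agent.TH68.JD
import Pool.Agent.TH68.C.T1

set_option autoImplicit false
set_option linter.unusedSectionVars false

/-! Tools for spinning families. -/

namespace Pool.Agent.TH68.C

open Pool.Agent.Helper97.Hyp Pool.Agent.TH68

section metric

variable {X : Type*} [PseudoMetricSpace X] {δ θ : ℝ}

lemma exc_sub_one (x y z w : X) : exc x w z ≤ exc x y z + exc z y w := by
  have h1 := dist_triangle x w y
  unfold exc
  linarith

lemma exc_sub_two (x y z w : X) : exc x y w ≤ exc x y z + exc z y w := by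
  have h1 := dist_triangle x z w
  unfold exc
  linarith

lemma exc_sub_two' (x y z w : X) : exc x y w ≤ exc x y z + exc x z w := by
  have h1 := dist_triangle w z y
  unfold exc
  linarith

end metric

section act

variable {X : Type*} [PseudoMetricSpace X] {Γ : Type*} [Group Γ] [MulAction Γ X]
  [IsIsometricSMul Γ X] {δ θ : ℝ}

/-- the position of the image of a point under an approximate reflection -/
lemma refl_pos (hθ : 0 ≤ θ) {P : ℕ → X}
    (hP : ∀ i j k, i ≤ j → j ≤ k → exc (P i) (P k) (P j) ≤ 304 * θ) {c : Γ} {j : ℕ}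
    (h3 : 3 ≤ j) (h5 : j ≤ 5) (hc : ∀ i ≤ 2 * j, dist (c • P i) (P (2 * j - i)) ≤ 100 * θ)
    {z : X} (hz : exc (P 2) (P 6) z ≤ 4 * θ) :
    2 * dist (P 0) (P j) - dist (P 0) z - 1312 * θ ≤ dist (P 0) (c • z) ∧
    dist (P 0) (c • z) ≤ 2 * dist (P 0) (P j) - dist (P 0) z + 1312 * θ ∧
      exc (P 0) (P 8) (c • z) ≤ 1012 * θ := by
  have hj1 : 2 * j - 6 ≤ 2 * j - 2 := by omega
  have e1 : exc (P (2 * j - 2)) (P (2 * j - 6)) (c • z) ≤ 404 * θ := by
    have h1 := exc_smul c (P 2) (P 6) z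
    have h2 := hc 2 (by omega)
    have h4 := hc 6 (by omega)
    have h6 := exc_move_left (c • P 2) (P (2 * j - 2)) (c • P 6) (c • z)
    have h7 := exc_move_right (P (2 * j - 2)) (c • P 6) (P (2 * j - 6)) (c • z)
    linarith
  have e2 := hP 0 (2 * j - 6) (2 * j - 2) (by omega) (by omega)
  have e3 : exc (P 0) (P (2 * j - 2)) (c • z) ≤ 708 * θ := by
    have h1 := exc_sub_two (P 0) (P (2 * j - 2)) (P (2 * j - 6)) (c • z)
    rw [exc_comm (P (2 * j - 6))] at h1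
    linarith
  have e4 : exc (P 0) (P 8) (c • z) ≤ 1012 * θ := by
    have h1 := exc_sub_two' (P 0) (P 8) (P (2 * j - 2)) (c • z)
    have h2 := hP 0 (2 * j - 2) 8 (by omega) (by omega)
    linarith
  -- positions
  have f1 : dist (P 0) (P 2) + dist (P 2) z ≤ dist (P 0) z + 308 * θ := by
    have h1 := exc_sub_one (P 0) (P 6) (P 2) z
    have h2 := hP 0 2 6 (by omega) (by omega)
    have h4 : exc (P 0) z (P 2) ≤ 308 * θ := by linarith
    unfold exc at h4
    linarith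
  have f2 := dist_triangle (P 0) (P 2) z
  have g1 : dist (c • P 2) (c • z) = dist (P 2) z := dist_smul _ _ _
  have g2 := hc 2 (by omega)
  have g3 := dist_triangle (P (2 * j - 2)) (c • P 2) (c • z)
  have g4 := dist_triangle (c • P 2) (P (2 * j - 2)) (c • z)
  rw [dist_comm (P (2 * j - 2)) (c • P 2)] at g3
  have g5 := dist_triangle (P 0) (c • z) (P (2 * j - 2))
  have g6 := e3
  unfold exc at g6
  rw [dist_comm (c • z) (P (2 * j - 2))] at g5 g6
  -- the reflected point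
  have k1 := hP 0 j (2 * j - 2) (by omega) (by omega)
  have k2 := dist_triangle (P 0) (P j) (P (2 * j - 2))
  unfold exc at k1
  have k3 := hP 0 2 j (by omega) (by omega)
  have k4 := dist_triangle (P 0) (P 2) (P j)
  unfold exc at k3
  have k5 := hc j (by omega)
  rw [show 2 * j - j = j by omega] at k5
  have k6 := dist_triangle4 (P j) (c • P j) (c • P 2) (P (2 * j - 2))
  have k7 := dist_triangle4 (c • P j) (P j) (P (2 * j - 2)) (c • P 2)
  rw [dist_comm (P (2 * j - 2)) (c • P 2)] at k7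
  rw [dist_comm (P j) (c • P j)] at k6
  have k8 : dist (c • P j) (c • P 2) = dist (P 2) (P j) := by rw [dist_smul, dist_comm]
  rw [k8] at k6 k7
  refine ⟨by linarith, by linarith, e4⟩

end act

section sys

variable {Γ : Type*} [Group Γ] {W : WNorm Γ} {𝒜 : Type*} [MulAction Γ 𝒜]

lemma near_axis (Y : Sys Γ W 𝒜) {A : 𝒜} {q₁ q₂ z : Pt W} {e : ℝ} (h1 : q₁ ∈ Y.S A)
    (h2 : q₂ ∈ Y.S A) (hz : exc q₁ q₂ z ≤ e) : ∃ s ∈ Y.S A, dist z s ≤ e / 2 + Y.θ := by
  obtain ⟨s, hs⟩ := Y.proj A z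
  refine ⟨s, hs.1, ?_⟩
  have h3 := hs.2 q₁ h1
  have h4 := hs.2 q₂ h2
  have h5 := dist_triangle q₁ s q₂
  unfold exc at hz
  rw [dist_comm q₁ z] at hz
  rw [dist_comm q₁ s] at h5
  linarith

lemma stab_axis (Y : Sys Γ W 𝒜) {A : 𝒜} {c : Γ} {p q p' q' : Pt W} {ρ : ℝ} (hp : p ∈ Y.S A)
    (hq : q ∈ Y.S A) (hp' : p' ∈ Y.S A) (hq' : q' ∈ Y.S A) (h1 : dist (c • p) p' ≤ ρ)
    (h2 : dist (c • q) q' ≤ ρ) (h3 : 2 * ρ + 4 * Y.θ < dist p q) : c • A = A := by
  by_contra hA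
  have hA' : A ≠ c • A := fun h => hA h.symm
  have h4 := Y.small A (c • A) hA' (c • p) (Y.smul_mem c A p hp) (c • q) (Y.smul_mem c A q hq)
  obtain ⟨π, hπ⟩ := Y.proj A (c • p)
  obtain ⟨π', hπ'⟩ := Y.proj A (c • q)
  have h5 := le_pd_of_proj hπ hπ'
  have h6 := proj_dist_le hπ hp'
  have h7 := proj_dist_le hπ' hq'
  have h8 := dist_triangle4 (c • p) π π' (c • q)
  rw [dist_smul, dist_comm π' (c • q)] at h8
  linarith

lemma smul_proj (Y : Sys Γ W 𝒜) {A : 𝒜} {r : Γ} (hr : r • A = A) {x q : Pt W}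
    (hq : IsProj Y.θ (Y.S A) x q) : IsProj Y.θ (Y.S A) (r • x) (r • q) := by
  apply hq.smul
  intro y
  constructor
  · intro hy
    have h := Y.smul_mem r⁻¹ A y hy
    have h2 : r⁻¹ • A = A := by
      rw [inv_smul_eq_iff]; exact hr.symm
    rwa [h2] at h
  · intro hy
    have h := Y.smul_mem r A _ hy
    rwa [hr, smul_inv_smul] at h

/-- elements of the killed group move points along axes -/
lemma fact_w {Y : Sys Γ W 𝒜} (R : Sp0 Y) (hM : 60 * Y.θ ≤ R.M) {n : Γ} (hn : n ∈ R.N)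
    (hn1 : n ≠ 1) (x : Pt W) : ∃ A, ∃ r ∈ R.G A, r ≠ 1 ∧ ∃ q₁ ∈ Y.S A, ∃ q₂ ∈ Y.S A,
      dist (r • q₁) q₂ ≤ 51 * Y.θ ∧ R.M - 51 * Y.θ ≤ dist q₁ q₂ ∧
        dist x q₁ + dist q₁ q₂ + dist q₂ (n • x) ≤ dist x (n • x) + 4 * Y.θ := by
  have hδ := Y.hδ
  have hθ := Y.hθ
  obtain ⟨A, r, hr, hr1, hpd⟩ := R.wind n hn hn1 x
  obtain ⟨q₁, hq₁⟩ := Y.proj A x
  obtain ⟨q₂, hq₂⟩ := Y.proj A (n • x)
  have h1 := smul_proj Y (R.fix A r hr) hq₁
  have h2 := le_pd_of_proj h1 hq₂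
  have h3 := R.spin A r hr hr1 q₁ hq₁.1
  have h4 := dist_triangle q₁ q₂ (r • q₁)
  rw [dist_comm q₂ (r • q₁)] at h4
  have h5 := far_of_proj Y.hyp hq₁ hq₂ (by linarith)
  rw [dist_comm (n • x) q₂] at h5
  exact ⟨A, r, hr, hr1, q₁, hq₁.1, q₂, hq₂.1, by linarith, by linarith, by linarith⟩

/-- nontrivial elements of the killed subgroup have infinite order -/
lemma N_inf {Y : Sys Γ W 𝒜} (R : Sp0 Y) (hM : 200 * Y.θ ≤ R.M) {n : Γ} (hn : n ∈ R.N)
    (hn1 : n ≠ 1) : ¬ IsOfFinOrder n := by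
  intro hf
  have hδ := Y.hδ
  have hθ := Y.hθ
  obtain ⟨x, hx⟩ := disp_of_fin Y.hyp Y.hδ n hf
  obtain ⟨A, r, hr, hr1, q₁, hq₁, q₂, hq₂, h1, h2, h3⟩ := fact_w R (by linarith) hn hn1 x
  have h4 := dist_nonneg (x := x) (y := q₁)
  have h5 := dist_nonneg (x := q₂) (y := n • x)
  linarith

/-- midpoints of the displacement of an involution -/
lemma midpt {δ : ℝ} (h : GHyp (Pt W) δ) {c : Γ} (hc : c * c = 1) (P : Pt W) :
    ∃ z : Pt W, dist z (c • z) ≤ 2 * δ + 1 ∧ dist P z ≤ dist P (c • P) / 2 ∧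
      ∀ Q, dist Q z + dist P (c • P) / 2 ≤ max (dist Q P) (dist Q (c • P)) + 2 * δ + 1 := by
  set L := nd P (c • P) with hL
  have hL' : dist P (c • P) = (L : ℝ) := rfl
  have hk : ((L / 2 : ℕ) : ℝ) ≤ dist P (c • P) := by
    rw [hL']
    exact_mod_cast Nat.div_le_self L 2
  obtain ⟨z, hz1, hz2⟩ := exists_between P (c • P) (L / 2) hk
  have hk1 : 2 * ((L / 2 : ℕ) : ℝ) ≤ L := by
    have : 2 * (L / 2) ≤ L := Nat.mul_div_le L 2
    exact_mod_cast this
  have hk2 : (L : ℝ) ≤ 2 * ((L / 2 : ℕ) : ℝ) + 1 := by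
    have : L ≤ 2 * (L / 2) + 1 := by omega
    exact_mod_cast this
  have hcc : c • c • P = P := by rw [smul_smul, hc, one_smul]
  have g1 : dist (c • P) (c • z) = ((L / 2 : ℕ) : ℝ) := by rw [dist_smul, hz1]
  have g2 : dist (c • z) P = L - ((L / 2 : ℕ) : ℝ) := by
    have : dist (c • z) (c • c • P) = dist z (c • P) := dist_smul _ _ _
    rw [hcc] at this
    rw [this, hz2, hL']
  have e1 : exc P (c • P) z ≤ 0 := by
    unfold exc
    rw [hz1, hz2]
    linarith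
  have e2 : exc P (c • P) (c • z) ≤ 0 := by
    unfold exc
    rw [dist_comm P (c • z), g2, dist_comm (c • z) (c • P), g1, hL']
    linarith
  refine ⟨z, ?_, ?_, ?_⟩
  · have h1 := order_close h e1 e2
    rw [hz1, dist_comm P (c • z), g2] at h1
    have h2 : |((L / 2 : ℕ) : ℝ) - (L - ((L / 2 : ℕ) : ℝ))| ≤ 1 := by
      rw [abs_le]; constructor <;> linarith
    linarith
  · rw [hz1, hL']; linarith
  · intro Q
    have h1 := h Q z P (c • P)
    rw [hz2, dist_comm z P, hz1, hL'] at h1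
    rw [hL']
    rcases le_total (dist Q P + (L - ((L / 2 : ℕ) : ℝ))) (dist Q (c • P) + ((L / 2 : ℕ) : ℝ))
      with h2 | h2
    · rw [max_eq_right h2] at h1
      have := le_max_right (dist Q P) (dist Q (c • P))
      linarith
    · rw [max_eq_left h2] at h1
      have := le_max_left (dist Q P) (dist Q (c • P))
      linarith

end sys

section bad

variable {Γ : Type*} [Group Γ]

lemma ord_two_mul {a : Γ} (ha : orderOf a = 2) : a * a = 1 := by
  rw [← pow_two, ← ha, pow_orderOf_eq_one]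

lemma ord_two_inv {a : Γ} (ha : orderOf a = 2) : a⁻¹ = a :=
  inv_eq_of_mul_eq_one_left (ord_two_mul ha)

lemma ord_two_of {a : Γ} (h1 : a * a = 1) (h2 : a ≠ 1) : orderOf a = 2 :=
  orderOf_eq_prime (by rw [pow_two]; exact h1) h2

end bad

end Pool.Agent.TH68.C
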