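import Pool.Agent.TH68.C.Defs
import Pool.Agent.TH68.EZ

set_option autoImplicit false
set_option linter.unusedSectionVars false

/-! Maximal virtually cyclic subgroups in the class `CGrp` (job 1636, written by helper576). -/

namespace Pool.Agent.TH68.C

open Pool.Agent.Helper97.Hyp Pool.Agent.TH68

namespace Cro

/-- a group with a central element of infinite order whose powers have finite index -/
lemma exists_gen {H : Type*} [Group H] (z : H) (hz : z ∈ Subgroup.center H)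
    (hfi : (Subgroup.zpowers z).FiniteIndex) (hinf : ¬ IsOfFinOrder z) :
    ∃ (N : Subgroup H) (g : H), (∀ x, x ∈ N ↔ IsOfFinOrder x) ∧
      ∀ y, ∃ k ∈ N, ∃ j : ℤ, y = k * g ^ j := by
  have hle : Subgroup.zpowers z ≤ Subgroup.center H := by
    rw [Subgroup.zpowers_le]; exact hz
  have hcfi : (Subgroup.center H).FiniteIndex := Subgroup.finiteIndex_of_le hle
  have hn : (Subgroup.zpowers z).Normal := ⟨by
    intro x hx y
    have h1 : y * x = x * y := Subgroup.mem_center_iff.1 (hle hx) y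
    rw [h1, mul_inv_cancel_right]
    exact hx⟩
  set n := (Subgroup.center H).index with hnn
  set m := (Subgroup.zpowers z).index with hmm
  have hn0 : n ≠ 0 := hcfi.index_ne_zero
  have hm0 : m ≠ 0 := hfi.index_ne_zero
  have hcen : ∀ x : H, x ^ n ∈ Subgroup.center H := fun x => by
    have := (MonoidHom.transferCenterPow H x).2
    rwa [MonoidHom.transferCenterPow_apply] at this
  have hmul : ∀ x y : H, (x * y) ^ n = x ^ n * y ^ n := by
    intro x y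
    have := congrArg Subtype.val (map_mul (MonoidHom.transferCenterPow H) x y)
    rw [Subgroup.coe_mul] at this
    simpa only [MonoidHom.transferCenterPow_apply] using this
  let φ : H →* Subgroup.zpowers z :=
    { toFun := fun x => ⟨(x ^ n) ^ m, Subgroup.pow_index_mem _ _⟩
      map_one' := by
        apply Subtype.ext
        show ((1 : H) ^ n) ^ m = 1
        rw [one_pow, one_pow]
      map_mul' := by
        intro x y
        apply Subtype.ext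
        show ((x * y) ^ n) ^ m = (x ^ n) ^ m * (y ^ n) ^ m
        rw [hmul]
        exact (show Commute (x ^ n) (y ^ n) from
          Subgroup.mem_center_iff.1 (hcen y) (x ^ n)).mul_pow _ }
  have hφ : ∀ x, φ x = 1 ↔ IsOfFinOrder x := by
    intro x
    constructor
    · intro h
      have h1 : (x ^ n) ^ m = 1 := congrArg Subtype.val h
      rw [← pow_mul] at h1
      exact isOfFinOrder_iff_pow_eq_one.2 ⟨n * m, Nat.pos_of_ne_zero (mul_ne_zero hn0 hm0), h1⟩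
    · intro h
      have h1 : IsOfFinOrder (φ x) := φ.isOfFinOrder h
      obtain ⟨i, hi⟩ := Subgroup.mem_zpowers_iff.1 (φ x).2
      obtain ⟨k, hk, h2⟩ := isOfFinOrder_iff_pow_eq_one.1 h1
      have h3 : (z ^ i) ^ k = 1 := by
        rw [hi]
        exact congrArg Subtype.val h2
      rw [← zpow_natCast, ← zpow_mul] at h3
      have h4 : i * k = 0 := by
        by_contra h5
        exact inf_zpow_ne hinf h5 h3
      have h5 : i = 0 := by
        rcases mul_eq_zero.1 h4 with h6 | h6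
        · exact h6
        · omega
      apply Subtype.ext
      rw [← hi, h5, zpow_zero]
      rfl
  obtain ⟨⟨_, g, rfl⟩, hg⟩ := (inferInstance : IsCyclic φ.range).exists_generator
  refine ⟨φ.ker, g, fun x => by rw [MonoidHom.mem_ker, hφ], fun y => ?_⟩
  obtain ⟨j, hj⟩ := Subgroup.mem_zpowers_iff.1 (hg ⟨φ y, y, rfl⟩)
  have hj' : φ g ^ j = φ y := congrArg Subtype.val hj
  refine ⟨y * (g ^ j)⁻¹, ?_, j, by group⟩
  rw [MonoidHom.mem_ker, map_mul, map_inv, map_zpow, hj', mul_inv_cancel]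

variable {Γ : Type*} [Group Γ] {c : Γ → Fin 3}

theorem hsub_central (hΓ : HypGroup Γ) {g : Γ} (hg : ¬ IsOfFinOrder g) :
    ∃ zz : Hsub g, zz ∈ Subgroup.center (Hsub g) ∧ (Subgroup.zpowers zz).FiniteIndex ∧
      ¬ IsOfFinOrder zz := by
  obtain ⟨W, δ, j, x, hj, hx⟩ := exists_lox hΓ hg
  obtain ⟨k, hk, hk0⟩ := hx.exists_k0 (proper x)
  set z : Γ := (g ^ j) ^ (k : ℤ) with hz
  have hzg : z = g ^ ((j : ℤ) * k) := by rw [hz, ← zpow_natCast g j, ← zpow_mul]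
  have hHE : ∀ e ∈ Hsub g, e ∈ Lox.E (g ^ j) := by
    rintro e ⟨a, ha, he⟩
    exact comm_pow_mem_E ha he j
  have hjk : (j : ℤ) * k ≠ 0 := mul_ne_zero (by omega) (by omega)
  have hcen : ∀ e ∈ Hsub g, Commute e z := by
    intro e he
    rcases hk0 e (hHE e he) with h1 | h1
    · exact mul_inv_eq_iff_eq_mul.1 h1
    · exfalso
      obtain ⟨a, ha, hc⟩ := he
      have h2 : Commute e (z ^ a) := by
        rw [hzg, ← zpow_mul, mul_comm, zpow_mul]
        exact hc.zpow_right _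
      have h3 : e * z ^ a * e⁻¹ = z ^ (-a) := by
        rw [← conj_zpow, h1, ← zpow_mul, zpow_neg z, hz, ← zpow_mul]
        rw [← zpow_neg]
        congr 1
        ring
      rw [h2.eq, mul_inv_cancel_right] at h3
      have h4 : z ^ (a + a) = 1 := by
        rw [zpow_add]
        nth_rewrite 1 [h3]
        rw [← zpow_add]; simp
      rw [hzg, ← zpow_mul] at h4
      exact inf_zpow_ne hg (mul_ne_zero hjk (by omega)) h4
  have hzH : z ∈ Hsub g := by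
    rw [mem_Hsub]
    refine ⟨1, one_ne_zero, ?_⟩
    rw [hzg]
    exact (Commute.refl g).zpow_zpow _ _
  let zz : Hsub g := ⟨z, hzH⟩
  have hzz : zz ∈ Subgroup.center (Hsub g) := by
    rw [Subgroup.mem_center_iff]
    intro e
    apply Subtype.ext
    exact (hcen e e.2).eq
  have hF : {γ : Γ | dist x (γ • x) ≤ Lox.c5 x (g ^ j) δ}.Finite := proper x _
  have hall : ∀ e : Hsub g, ∃ i : ℤ, ((g ^ j) ^ i)⁻¹ * (e : Γ) ∈
      {γ : Γ | dist x (γ • x) ≤ Lox.c5 x (g ^ j) δ} := by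
    intro e
    obtain ⟨i, hi⟩ := hx.E_near (hHE e e.2)
    refine ⟨i, ?_⟩
    change dist x ((((g ^ j) ^ i)⁻¹ * (e : Γ)) • x) ≤ _
    rw [mul_smul, ← dist_smul ((g ^ j) ^ i), smul_inv_smul, dist_comm]
    exact hi
  choose i hi using hall
  have hfinF : Finite {γ : Γ | dist x (γ • x) ≤ Lox.c5 x (g ^ j) δ} := hF
  have : NeZero k := ⟨hk.ne'⟩
  have hfin : Finite (Hsub g ⧸ Subgroup.zpowers zz) := by
    refine Finite.of_injective (β := {γ : Γ | dist x (γ • x) ≤ Lox.c5 x (g ^ j) δ} × ZMod k)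
      (fun q => (⟨_, hi q.out⟩, (i q.out : ZMod k))) ?_
    intro q q' hqq
    have h1 : ((g ^ j) ^ i q.out)⁻¹ * (q.out : Γ) = ((g ^ j) ^ i q'.out)⁻¹ * (q'.out : Γ) :=
      congrArg (fun t => (t.1 : Γ)) hqq
    have h2 : (i q.out : ZMod k) = (i q'.out : ZMod k) := congrArg (fun t => t.2) hqq
    rw [← QuotientGroup.out_eq' q, ← QuotientGroup.out_eq' q']
    rw [QuotientGroup.eq]
    rw [ZMod.intCast_eq_intCast_iff_dvd_sub] at h2
    obtain ⟨c, hc⟩ := h2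
    rw [Subgroup.mem_zpowers_iff]
    refine ⟨c, ?_⟩
    apply Subtype.ext
    have h3 : (q'.out : Γ) = z ^ c * (q.out : Γ) := by
      have h4 : (q'.out : Γ) = (g ^ j) ^ i q'.out * ((g ^ j) ^ i q.out)⁻¹ * (q.out : Γ) := by
        rw [mul_assoc, h1]; group
      rw [h4, ← zpow_neg, ← zpow_add, hz, ← zpow_mul, ← hc]
      congr 2
    change z ^ c = (q.out : Γ)⁻¹ * (q'.out : Γ)
    rw [h3, ((hcen q.out q.out.2).zpow_right c).symm.eq]
    group
  refine ⟨zz, hzz, Subgroup.finiteIndex_of_finite_quotient, ?_⟩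
  intro h
  have h1 : IsOfFinOrder z := (Subgroup.subtype (Hsub g)).isOfFinOrder h
  rw [hzg] at h1
  exact inf_zpow hg hjk h1

/-- torsion elements with an infinite centralizer have order at most two -/
lemma tors_sq (hΓ : CGrp Γ c) {x : Γ} (hx : IsOfFinOrder x)
    (hinf : {y : Γ | Commute x y}.Infinite) : x ^ 2 = 1 := by
  obtain ⟨s, m, hm, hsm⟩ := Nat.exists_eq_two_pow_mul_odd hx.orderOf_pos.ne'
  have h1 : (x ^ (2 ^ s)) ^ m = 1 := by
    rw [← pow_mul, ← hsm, pow_orderOf_eq_one]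
  have h2 : x ^ (2 ^ s) = 1 := by
    by_contra hne
    have h3 : Odd (orderOf (x ^ (2 ^ s))) := hm.of_dvd_nat (orderOf_dvd_of_pow_eq_one h1)
    refine hinf ((hΓ.odd _ hne h3).subset ?_)
    intro y hy
    exact Commute.pow_left hy _
  have key : ∀ s : ℕ, x ^ (2 ^ s) = 1 → x ^ 2 = 1 := by
    intro s
    induction s with
    | zero =>
      intro h
      rw [pow_zero, pow_one] at h
      rw [h, one_pow]
    | succ s ih =>
      intro h
      by_cases hs : s = 0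
      · subst hs
        simpa using h
      · obtain ⟨r, rfl⟩ := Nat.exists_eq_succ_of_ne_zero hs
        apply ih
        have h4 : (x ^ (2 ^ r)) ^ 4 = 1 := by
          rw [← pow_mul, ← h]
          congr 1
          rw [Nat.succ_eq_add_one, pow_succ, pow_succ]
          ring
        have h5 := hΓ.four _ h4
        rw [← pow_mul] at h5
        rw [← h5]
        congr 1
  exact key s h2

lemma hsub_inf {u y : Γ} (hu : ¬ IsOfFinOrder u) (hy : y ∈ Hsub u) :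
    {w : Γ | Commute y w}.Infinite := by
  obtain ⟨a, ha, hc⟩ := hy
  have hinj : Function.Injective (fun i : ℤ => u ^ (a * i)) := by
    intro i j hij
    have h1 : u ^ (a * i - a * j) = 1 := by
      rw [zpow_sub]
      have : u ^ (a * i) = u ^ (a * j) := hij
      rw [this, mul_inv_cancel]
    by_contra hne
    refine inf_zpow_ne hu ?_ h1
    rw [← mul_sub]
    exact mul_ne_zero ha (sub_ne_zero.2 hne)
  refine (Set.infinite_range_of_injective hinj).mono ?_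
  rintro _ ⟨i, rfl⟩
  show Commute y (u ^ (a * i))
  rw [zpow_mul]
  exact hc.zpow_right i

lemma sq_of (hΓ : CGrp Γ c) {u y : Γ} (hu : ¬ IsOfFinOrder u) (hy : y ∈ Hsub u)
    (ht : IsOfFinOrder y) : y ^ 2 = 1 := tors_sq hΓ ht (hsub_inf hu hy)

lemma ord_two {x : Γ} (h1 : x ≠ 1) (h2 : x ^ 2 = 1) : orderOf x = 2 :=
  orderOf_eq_prime h2 h1

/-- elements of the commensurator commute with the torsion of `Hsub u` -/
lemma sqK (hΓ : CGrp Γ c) {u : Γ} {K : Subgroup Γ} (hu : ¬ IsOfFinOrder u)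
    (hKm : ∀ k, k ∈ K ↔ k ∈ Hsub u ∧ IsOfFinOrder k) {k : Γ} (hk : k ∈ K) : k ^ 2 = 1 :=
  sq_of hΓ hu ((hKm k).1 hk).1 ((hKm k).1 hk).2

lemma commK (hΓ : CGrp Γ c) {u : Γ} {K : Subgroup Γ} (hu : ¬ IsOfFinOrder u)
    (hKm : ∀ k, k ∈ K ↔ k ∈ Hsub u ∧ IsOfFinOrder k) {k l : Γ} (hk : k ∈ K) (hl : l ∈ K) :
    Commute k l := by
  have h1 := sqK hΓ hu hKm hk
  have h2 := sqK hΓ hu hKm hl
  have h3 := sqK hΓ hu hKm (K.mul_mem hk hl)
  rw [pow_two] at h1 h2 h3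
  show k * l = l * k
  have h4 : k⁻¹ = k := inv_eq_of_mul_eq_one_left h1
  have h5 : l⁻¹ = l := inv_eq_of_mul_eq_one_left h2
  have h6 : (k * l)⁻¹ = k * l := inv_eq_of_mul_eq_one_left h3
  rw [mul_inv_rev, h4, h5] at h6
  exact h6.symm

lemma comm_tors (hΓ : CGrp Γ c) {u e k : Γ} {K : Subgroup Γ} (hu : ¬ IsOfFinOrder u)
    (hKm : ∀ k, k ∈ K ↔ k ∈ Hsub u ∧ IsOfFinOrder k) {a b : ℤ} (ha : a ≠ 0)
    (hb : b ≠ 0) (he : e * u ^ a * e⁻¹ = u ^ b) (hkK : k ∈ K) : Commute e k := by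
  obtain ⟨hk, hkt⟩ := (hKm k).1 hkK
  have hk' : e * k * e⁻¹ ∈ Hsub u := by
    obtain ⟨t, ht, hc⟩ := hk
    refine ⟨b * t, mul_ne_zero hb ht, ?_⟩
    have h1 : Commute k (u ^ (a * t)) := by
      rw [mul_comm, zpow_mul]
      exact hc.zpow_right a
    have h2 := h1.conj e
    have h3 : e * u ^ (a * t) * e⁻¹ = u ^ (b * t) := by
      rw [zpow_mul, ← conj_zpow, he, ← zpow_mul]
    rw [h3] at h2
    exact h2
  have hkt' : IsOfFinOrder (e * k * e⁻¹) := by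
    obtain ⟨n, hn, h⟩ := isOfFinOrder_iff_pow_eq_one.1 hkt
    refine isOfFinOrder_iff_pow_eq_one.2 ⟨n, hn, ?_⟩
    rw [conj_pow, h, mul_one, mul_inv_cancel]
  have hkK' : e * k * e⁻¹ ∈ K := (hKm _).2 ⟨hk', hkt'⟩
  by_cases hk1 : k = 1
  · rw [hk1]
    exact Commute.one_right e
  have hk1' : e * k * e⁻¹ ≠ 1 := by
    intro h
    apply hk1
    calc k = e⁻¹ * (e * k * e⁻¹) * e := by group
      _ = 1 := by rw [h]; group
  have o1 := ord_two hk1 (sqK hΓ hu hKm hkK)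
  have o2 := ord_two hk1' (sqK hΓ hu hKm hkK')
  have key : e * k * e⁻¹ = k := by
    by_contra hne
    exact hΓ.comm _ _ o2 o1 (commK hΓ hu hKm hkK' hkK) hne (hΓ.conj e k o1)
  show e * k = k * e
  calc e * k = e * k * e⁻¹ * e := by group
    _ = k * e := by rw [key]

lemma finK (hΓ : CGrp Γ c) {u : Γ} {K : Subgroup Γ} (hu : ¬ IsOfFinOrder u)
    (hKm : ∀ k, k ∈ K ↔ k ∈ Hsub u ∧ IsOfFinOrder k) : (K : Set Γ).Finite := by
  have h1 : ((K : Set Γ) \ {1}).Finite := by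
    refine Set.Finite.of_injOn (f := c) (t := Set.univ) (fun _ _ => Set.mem_univ _) ?_
      Set.finite_univ
    rintro k ⟨hk, hk1⟩ l ⟨hl, hl1⟩ hkl
    by_contra hne
    exact hΓ.comm k l (ord_two hk1 (sqK hΓ hu hKm hk)) (ord_two hl1 (sqK hΓ hu hKm hl))
      (commK hΓ hu hKm hk hl) hne hkl
  refine (h1.union (Set.finite_singleton 1)).subset ?_
  intro x hx
  by_cases h : x = 1
  · exact Or.inr h
  · exact Or.inl ⟨hx, h⟩

theorem core (hΓ : CGrp Γ c) {u g : Γ} {K : Subgroup Γ} (hu : ¬ IsOfFinOrder u)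
    (hKm : ∀ k, k ∈ K ↔ k ∈ Hsub u ∧ IsOfFinOrder k) (hgH : g ∈ Hsub u)
    (hgen : ∀ y ∈ Hsub u, ∃ k ∈ K, ∃ j : ℤ, y = k * g ^ j) :
    ¬ IsOfFinOrder g ∧ (∀ k ∈ K, Commute k g) ∧
      (∀ (y : Γ) (a : ℤ), a ≠ 0 → Commute y (g ^ a) → ∃ k ∈ K, ∃ j : ℤ, y = k * g ^ j) ∧
      ∀ (y : Γ) (a : ℤ), a ≠ 0 → y * g ^ a * y⁻¹ = g ^ (-a) →
        orderOf y = 2 ∧ y * g * y⁻¹ = g⁻¹ ∧ ∀ k ∈ K, Commute y k := by
  have huH : u ∈ Hsub u := ⟨1, one_ne_zero, by rw [zpow_one]⟩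
  have hgK : ∀ k ∈ K, Commute g k := by
    intro k hk
    obtain ⟨a, ha, hc⟩ := hgH
    exact comm_tors hΓ hu hKm ha ha (by rw [hc.eq, mul_inv_cancel_right]) hk
  obtain ⟨k0, hk0, j, hj⟩ := hgen u huH
  have hk0' : IsOfFinOrder k0 := ((hKm k0).1 hk0).2
  have hu2 : u ^ (2 : ℤ) = g ^ (2 * j) := by
    have h1 : Commute k0 (g ^ j) := (hgK k0 hk0).symm.zpow_right j
    rw [hj, h1.mul_zpow, ← zpow_mul, mul_comm j 2]
    have h2 : k0 ^ (2 : ℤ) = 1 := by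
      have := sqK hΓ hu hKm hk0
      exact_mod_cast this
    rw [h2, one_mul]
  have hj0 : j ≠ 0 := by
    rintro rfl
    rw [mul_zero, zpow_zero] at hu2
    exact inf_zpow_ne hu two_ne_zero hu2
  have hginf : ¬ IsOfFinOrder g := by
    intro h
    obtain ⟨n, hn, h1⟩ := isOfFinOrder_iff_pow_eq_one.1 h
    have h2 : u ^ (2 * (n : ℤ)) = 1 := by
      rw [zpow_mul, hu2, ← zpow_mul, mul_comm, zpow_mul, zpow_natCast, h1, one_zpow]
    exact inf_zpow_ne hu (by omega) h2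
  have hcent : ∀ (y : Γ) (a : ℤ), a ≠ 0 → Commute y (g ^ a) →
      ∃ k ∈ K, ∃ j : ℤ, y = k * g ^ j := by
    intro y a ha hy
    apply hgen
    refine ⟨2 * a, mul_ne_zero two_ne_zero ha, ?_⟩
    rw [zpow_mul, hu2, ← zpow_mul, mul_comm, zpow_mul]
    exact hy.zpow_right _
  refine ⟨hginf, fun k hk => (hgK k hk).symm, hcent, ?_⟩
  intro y a ha hy
  have hyK : ∀ k ∈ K, Commute y k := by
    intro k hk
    refine comm_tors hΓ hu hKm (a := 2 * a) (b := -(2 * a)) (mul_ne_zero two_ne_zero ha)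
      (neg_ne_zero.2 (mul_ne_zero two_ne_zero ha)) ?_ hk
    rw [zpow_mul, hu2, ← zpow_mul, mul_comm, zpow_mul, ← conj_zpow, hy, ← zpow_mul, zpow_neg u,
      zpow_mul u, hu2, ← zpow_mul, ← zpow_neg]
    congr 1
    ring
  have hy2 : Commute (y * y) (g ^ a) := by
    show y * y * g ^ a = g ^ a * (y * y)
    calc y * y * g ^ a = y * (y * g ^ a * y⁻¹) * y⁻¹ * (y * y) := by group
      _ = y * g ^ (-a) * y⁻¹ * (y * y) := by rw [hy]
      _ = (y * g ^ a * y⁻¹)⁻¹ * (y * y) := by group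
      _ = g ^ a * (y * y) := by rw [hy, ← zpow_neg, neg_neg]
  obtain ⟨k1, hk1, i, hi⟩ := hcent _ a ha hy2
  have hk1s : k1 ^ 2 = 1 := sqK hΓ hu hKm hk1
  have hgk1 : Commute k1 (g ^ i) := (hgK k1 hk1).symm.zpow_right i
  have hy4 : y ^ 4 = g ^ (2 * i) := by
    have h1 : y ^ 4 = (y * y) ^ 2 := by rw [← pow_two, ← pow_mul]
    rw [h1, hi, hgk1.mul_pow, hk1s, one_mul, ← zpow_natCast, ← zpow_mul, mul_comm i]
    rfl
  have hi0 : i = 0 := by
    by_contra hne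
    have h1 : y * g ^ (2 * i) * y⁻¹ = g ^ (2 * i) := by
      rw [← hy4]
      group
    have h2 : y * g ^ (2 * i * a) * y⁻¹ = g ^ (2 * i * a) := by
      rw [zpow_mul, ← conj_zpow, h1]
    have h3 : y * g ^ (2 * i * a) * y⁻¹ = g ^ (-(2 * i * a)) := by
      rw [mul_comm (2 * i) a, zpow_mul, ← conj_zpow, hy, ← zpow_mul]
      congr 1
      ring
    rw [h2] at h3
    have h4 : g ^ (2 * i * a + 2 * i * a) = 1 := by
      rw [zpow_add]
      nth_rewrite 1 [h3]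
      rw [← zpow_add, neg_add_cancel, zpow_zero]
    refine inf_zpow_ne hginf ?_ h4
    have : i * a ≠ 0 := mul_ne_zero hne ha
    intro h5
    apply this
    linarith
  have hyy : y ^ 2 = 1 := by
    apply hΓ.four
    rw [hy4, hi0, mul_zero, zpow_zero]
  have hy1 : y ≠ 1 := by
    rintro rfl
    rw [one_mul, inv_one, mul_one] at hy
    have h4 : g ^ (a + a) = 1 := by
      rw [zpow_add]
      nth_rewrite 1 [hy]
      rw [← zpow_add, neg_add_cancel, zpow_zero]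
    exact inf_zpow_ne hginf (by omega) h4
  refine ⟨ord_two hy1 hyy, ?_, hyK⟩
  have hyi : y⁻¹ = y := inv_eq_of_mul_eq_one_left (by rw [← pow_two]; exact hyy)
  have h5 : Commute (y * g * y⁻¹) (g ^ a) := by
    have h6 : Commute (y * g * y⁻¹) (y * g ^ a * y⁻¹) :=
      ((Commute.refl g).zpow_right a).conj y
    rw [hy, zpow_neg] at h6
    exact Commute.inv_right_iff.1 h6
  obtain ⟨k2, hk2, i2, hi2⟩ := hcent _ a ha h5
  have hk2s : k2 ^ (2 : ℤ) = 1 := by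
    have := sqK hΓ hu hKm hk2
    exact_mod_cast this
  have hgk2 : Commute k2 (g ^ i2) := (hgK k2 hk2).symm.zpow_right i2
  have h6 : g ^ (i2 * (2 * a)) = g ^ (-(2 * a)) := by
    have h7 : (y * g * y⁻¹) ^ (2 * a) = g ^ (-(2 * a)) := by
      rw [conj_zpow, mul_comm 2 a, zpow_mul, ← conj_zpow, hy, ← zpow_mul]
      congr 1
      ring
    rw [← h7, hi2, hgk2.mul_zpow, zpow_mul k2, hk2s, one_zpow, one_mul, ← zpow_mul]
  have h7 : i2 = -1 := by
    have h8 : g ^ (i2 * (2 * a) + 2 * a) = 1 := by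
      rw [zpow_add, h6, ← zpow_add, neg_add_cancel, zpow_zero]
    by_contra hne
    refine inf_zpow_ne hginf ?_ h8
    have : (i2 + 1) * (2 * a) ≠ 0 := mul_ne_zero (by omega) (mul_ne_zero two_ne_zero ha)
    intro h9
    apply this
    rw [← h9]
    ring
  rw [h7, zpow_neg, zpow_one] at hi2
  have h8 : (y * g) ^ 4 = 1 := by
    have h9 : (y * g) ^ 2 = k2 := by
      rw [pow_two]
      calc y * g * (y * g) = y * g * y⁻¹ * (y * y) * g := by group
        _ = k2 * g⁻¹ * 1 * g := by rw [hi2, ← pow_two, hyy]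
        _ = k2 := by group
    have h10 : (y * g) ^ 4 = ((y * g) ^ 2) ^ 2 := by rw [← pow_mul]
    rw [h10, h9]
    exact sqK hΓ hu hKm hk2
  have h9 := hΓ.four _ h8
  rw [pow_two] at h9
  calc y * g * y⁻¹ = y * g * (y * g) * g⁻¹ * (y⁻¹ * y⁻¹) := by group
    _ = g⁻¹ := by
      rw [h9, hyi, ← pow_two, hyy]
      group

/-- the torsion subgroup of `Hsub u` and a generator modulo it -/
theorem exists_K (hΓ : HypGroup Γ) {u : Γ} (hu : ¬ IsOfFinOrder u) :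
    ∃ (K : Subgroup Γ) (g : Γ), (∀ k, k ∈ K ↔ k ∈ Hsub u ∧ IsOfFinOrder k) ∧ g ∈ Hsub u ∧
      ∀ y ∈ Hsub u, ∃ k ∈ K, ∃ j : ℤ, y = k * g ^ j := by
  obtain ⟨zz, h1, h2, h3⟩ := hsub_central hΓ hu
  obtain ⟨N, g, hN, hg⟩ := exists_gen zz h1 h2 h3
  refine ⟨N.map (Hsub u).subtype, g, ?_, g.2, ?_⟩
  · intro k
    constructor
    · rintro ⟨x, hx, rfl⟩
      exact ⟨x.2, (Subgroup.subtype (Hsub u)).isOfFinOrder ((hN x).1 hx)⟩
    · rintro ⟨hk, ht⟩
      refine ⟨⟨k, hk⟩, (hN _).2 ?_, rfl⟩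
      obtain ⟨n, hn, h⟩ := isOfFinOrder_iff_pow_eq_one.1 ht
      exact isOfFinOrder_iff_pow_eq_one.2 ⟨n, hn, Subtype.ext h⟩
  · intro y hy
    obtain ⟨k, hk, j, hj⟩ := hg ⟨y, hy⟩
    exact ⟨k, ⟨k, hk, rfl⟩, j, congrArg Subtype.val hj⟩

/-- a flip times an involution of `K` -/
lemma flip_mul (hΓ : CGrp Γ c) {κ w : Γ} (hκ : orderOf κ = 2) (hw : orderOf w = 2)
    (hcm : Commute w κ) (hne : w ≠ κ) :
    c w ≠ c κ ∧ c (κ * w) ≠ c κ ∧ c (κ * w) ≠ c w := by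
  have hκ2 : κ * κ = 1 := by rw [← pow_two, ← hκ, pow_orderOf_eq_one]
  have hw2 : w * w = 1 := by rw [← pow_two, ← hw, pow_orderOf_eq_one]
  have hw1 : w ≠ 1 := by
    rintro rfl
    rw [orderOf_one] at hw
    omega
  have hκ1 : κ ≠ 1 := by
    rintro rfl
    rw [orderOf_one] at hκ
    omega
  have hne1 : κ * w ≠ 1 := by
    intro h
    apply hne
    calc w = κ * κ * w := by rw [hκ2, one_mul]
      _ = κ * (κ * w) := by rw [mul_assoc]
      _ = κ := by rw [h, mul_one]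
  have ho : orderOf (κ * w) = 2 := by
    refine ord_two hne1 ?_
    rw [pow_two]
    calc κ * w * (κ * w) = κ * (w * κ) * w := by simp only [mul_assoc]
      _ = κ * (κ * w) * w := by rw [hcm.eq]
      _ = κ * κ * (w * w) := by simp only [mul_assoc]
      _ = 1 := by rw [hκ2, hw2, one_mul]
  refine ⟨hΓ.comm w κ hw hκ hcm hne, hΓ.comm _ _ ho hκ ?_ ?_, hΓ.comm _ _ ho hw ?_ ?_⟩
  · exact (Commute.refl κ).mul_left hcm
  · intro h
    exact hw1 (mul_eq_left.1 h)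
  · exact hcm.symm.mul_left (Commute.refl w)
  · intro h
    exact hκ1 (mul_eq_right.1 h)

lemma fin3 {a b d b' d' : Fin 3} (h1 : b ≠ a) (h2 : d ≠ a) (h3 : d ≠ b) (h4 : b' ≠ a)
    (h5 : d' ≠ a) (h6 : d' ≠ b') (h : b = b') : d = d' := by
  subst h
  rw [Ne, Fin.ext_iff] at h1 h2 h3 h5 h6
  apply Fin.ext
  have := a.2
  have := b.2
  have := d.2
  have := d'.2
  omega

theorem col_of (hΓ : CGrp Γ c) {g y₀ : Γ} {K : Subgroup Γ} (hg : ¬ IsOfFinOrder g)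
    (hK : ∀ k ∈ K, k ^ 2 = 1) (hKg : ∀ k ∈ K, Commute k g)
    (hcent : ∀ (y : Γ) (a : ℤ), a ≠ 0 → Commute y (g ^ a) → ∃ k ∈ K, ∃ j : ℤ, y = k * g ^ j)
    (hflip : ∀ (y : Γ) (a : ℤ), a ≠ 0 → y * g ^ a * y⁻¹ = g ^ (-a) →
        orderOf y = 2 ∧ y * g * y⁻¹ = g⁻¹ ∧ ∀ k ∈ K, Commute y k)
    (hy₀ : y₀ * g * y₀⁻¹ = g⁻¹) (hc : c (g * y₀) = c y₀) (y : Γ) (hy : y * g * y⁻¹ = g⁻¹) :
    c (g * y) = c y := by
  have hfl : ∀ w : Γ, w * g * w⁻¹ = g⁻¹ → orderOf w = 2 ∧ ∀ k ∈ K, Commute w k := by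
    intro w hw
    have h := hflip w 1 one_ne_zero (by rw [zpow_one, zpow_neg, zpow_one]; exact hw)
    exact ⟨h.1, h.2.2⟩
  have hgi : ∀ (i : ℤ), y₀ * g ^ (-i) = g ^ i * y₀ := by
    intro i
    have h1 : y₀ * g ^ (-i) * y₀⁻¹ = g ^ i := by
      rw [← conj_zpow, hy₀, inv_zpow, zpow_neg, inv_inv]
    rw [← h1]
    group
  have hgf : ∀ j : ℤ, (g ^ j * y₀) * g * (g ^ j * y₀)⁻¹ = g⁻¹ := by
    intro j
    calc (g ^ j * y₀) * g * (g ^ j * y₀)⁻¹ = g ^ j * (y₀ * g * y₀⁻¹) * g ^ (-j) := by group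
      _ = g⁻¹ := by rw [hy₀]; group
  have hpar : ∀ j : ℤ, c (g ^ j * y₀) = c y₀ := by
    intro j
    rcases Int.even_or_odd' j with ⟨i, rfl | rfl⟩
    · have e : g ^ (2 * i) * y₀ = g ^ i * y₀ * (g ^ i)⁻¹ := by
        rw [mul_assoc, ← zpow_neg, hgi, ← mul_assoc, ← zpow_add]
        congr 2
        ring
      rw [e]
      exact hΓ.conj _ _ (hfl y₀ hy₀).1
    · have e : g ^ (2 * i + 1) * y₀ = g ^ i * (g * y₀) * (g ^ i)⁻¹ := by
        rw [← zpow_neg, mul_assoc, mul_assoc g, hgi]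
        simp only [← mul_assoc]
        rw [← zpow_add_one, ← zpow_add]
        congr 2
        ring
      rw [e, hΓ.conj _ _ (by
        have := (hfl _ (hgf 1)).1
        rwa [zpow_one] at this), hc]
  have hcm : Commute (y * y₀⁻¹) (g ^ (1 : ℤ)) := by
    rw [zpow_one]
    show y * y₀⁻¹ * g = g * (y * y₀⁻¹)
    have h1 : y₀⁻¹ * g * y₀ = g⁻¹ := by
      have h2 : y₀⁻¹ * (y₀ * g * y₀⁻¹) * y₀ = y₀⁻¹ * g⁻¹ * y₀ := by rw [hy₀]
      have h3 : g = y₀⁻¹ * g⁻¹ * y₀ := by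
        rw [← h2]
        group
      calc y₀⁻¹ * g * y₀ = (y₀⁻¹ * g⁻¹ * y₀)⁻¹ := by group
        _ = g⁻¹ := by rw [← h3]
    calc y * y₀⁻¹ * g = y * (y₀⁻¹ * g * y₀) * y₀⁻¹ := by group
      _ = y * g⁻¹ * y₀⁻¹ := by rw [h1]
      _ = (y * g * y⁻¹)⁻¹ * (y * y₀⁻¹) := by group
      _ = g * (y * y₀⁻¹) := by rw [hy, inv_inv]
  obtain ⟨k, hk, j, hj⟩ := hcent _ 1 one_ne_zero hcm
  have hyk : y = k * (g ^ j * y₀) := by
    rw [← mul_assoc, ← hj]
    group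
  have hgy : g * y = k * (g ^ (j + 1) * y₀) := by
    rw [hyk, ← mul_assoc, ← (hKg k hk).eq, mul_assoc, ← mul_assoc g, ← zpow_one_add, add_comm]
  by_cases hk1 : k = 1
  · rw [hgy, hyk, hk1, one_mul, one_mul, hpar, hpar]
  · have hk2 := ord_two hk1 (hK k hk)
    have hne : ∀ j : ℤ, g ^ j * y₀ ≠ k := by
      intro j h
      have h1 := hgf j
      rw [h, (hKg k hk).eq, mul_inv_cancel_right] at h1
      apply inf_zpow_ne hg two_ne_zero
      have h2 : g ^ (2 : ℤ) = g * g := by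
        rw [zpow_two]
      rw [h2]
      nth_rewrite 1 [h1]
      exact inv_mul_cancel g
    have a1 := flip_mul hΓ hk2 (hfl _ (hgf j)).1 ((hfl _ (hgf j)).2 k hk) (hne j)
    have a2 := flip_mul hΓ hk2 (hfl _ (hgf (j + 1))).1 ((hfl _ (hgf (j + 1))).2 k hk) (hne (j + 1))
    rw [hgy, hyk]
    exact fin3 a2.1 a2.2.1 a2.2.2 a1.1 a1.2.1 a1.2.2 (by rw [hpar, hpar])

end Cro

open Cro in
theorem croot {Γ : Type*} [Group Γ] {c : Γ → Fin 3} (hΓ : CGrp Γ c) {u : Γ}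
    (hu : ¬ IsOfFinOrder u) :
    ∃ (g : Γ) (K : Subgroup Γ), CRoot c g K ∧ ∃ k ∈ K, ∃ j : ℤ, u = k * g ^ j := by
  obtain ⟨K, g, hKm, hgH, hgen⟩ := exists_K hΓ.hyp hu
  have huH : u ∈ Hsub u := ⟨1, one_ne_zero, by rw [zpow_one]⟩
  obtain ⟨h1, h2, h3, h4⟩ := core hΓ hu hKm hgH hgen
  have hsq : ∀ k ∈ K, k ^ 2 = 1 := fun k hk => sqK hΓ hu hKm hk
  by_cases hcol : K ≠ ⊥ → ∀ y : Γ, y * g * y⁻¹ = g⁻¹ → c (g * y) = c y
  · exact ⟨g, K, ⟨h1, finK hΓ hu hKm, hsq, h2, h3, h4, hcol⟩, hgen u huH⟩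
  · push Not at hcol
    obtain ⟨hKb, y₀, hy₀, hc⟩ := hcol
    obtain ⟨⟨κ, hκ⟩, hκ0⟩ := Subgroup.ne_bot_iff_exists_ne_one.1 hKb
    have hκ1 : κ ≠ 1 := fun h => hκ0 (Subtype.ext h)
    have hκ2 := ord_two hκ1 (hsq κ hκ)
    have hκg := h2 κ hκ
    have hκκ : κ * κ = 1 := by rw [← pow_two]; exact hsq κ hκ
    have hκH := ((hKm κ).1 hκ).1
    have hgen' : ∀ y ∈ Hsub u, ∃ k ∈ K, ∃ j : ℤ, y = k * (κ * g) ^ j := by
      intro y hy
      obtain ⟨k, hk, j, hj⟩ := hgen y hy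
      refine ⟨k * κ ^ (-j), K.mul_mem hk (K.zpow_mem hκ _), j, ?_⟩
      rw [hj, hκg.mul_zpow, mul_assoc, ← mul_assoc (κ ^ (-j)), ← zpow_add, neg_add_cancel, zpow_zero,
        one_mul]
    obtain ⟨h1', h2', h3', h4'⟩ := core hΓ hu hKm (mul_mem hκH hgH) hgen'
    have hy₀κ : Commute y₀ κ :=
      (h4 y₀ 1 one_ne_zero (by rw [zpow_one, zpow_neg, zpow_one]; exact hy₀)).2.2 κ hκ
    have hκi : κ⁻¹ = κ := inv_eq_of_mul_eq_one_left hκκ
    have hy₀' : y₀ * (κ * g) * y₀⁻¹ = (κ * g)⁻¹ := by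
      calc y₀ * (κ * g) * y₀⁻¹ = (y₀ * κ) * g * y₀⁻¹ := by group
        _ = κ * (y₀ * g * y₀⁻¹) := by rw [hy₀κ.eq]; group
        _ = κ * g⁻¹ := by rw [hy₀]
        _ = g⁻¹ * κ := (hκg.inv_right).eq
        _ = (κ * g)⁻¹ := by rw [mul_inv_rev, hκi]
    have hgy₀ : g * y₀ * g * (g * y₀)⁻¹ = g⁻¹ := by
      calc g * y₀ * g * (g * y₀)⁻¹ = g * (y₀ * g * y₀⁻¹) * g⁻¹ := by group
        _ = g⁻¹ := by rw [hy₀]; group
    have hfl : ∀ w : Γ, w * g * w⁻¹ = g⁻¹ → orderOf w = 2 ∧ Commute w κ ∧ w ≠ κ := by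
      intro w hw
      have h := h4 w 1 one_ne_zero (by rw [zpow_one, zpow_neg, zpow_one]; exact hw)
      refine ⟨h.1, h.2.2 κ hκ, ?_⟩
      rintro rfl
      rw [hκg.eq, mul_inv_cancel_right] at hw
      apply inf_zpow_ne h1 two_ne_zero
      rw [zpow_two]
      nth_rewrite 1 [hw]
      exact inv_mul_cancel g
    have hc' : c (κ * g * y₀) = c y₀ := by
      obtain ⟨o1, o2, o3⟩ := hfl y₀ hy₀
      obtain ⟨o4, o5, o6⟩ := hfl _ hgy₀
      have a1 := flip_mul hΓ hκ2 o1 o2 o3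
      have a2 := flip_mul hΓ hκ2 o4 o5 o6
      rw [mul_assoc]
      have b1 := a1.1
      have b2 := a2.1
      have b3 := a2.2.1
      have b4 := a2.2.2
      revert hc b1 b2 b3 b4
      generalize c y₀ = p
      generalize c (g * y₀) = q
      generalize c κ = r
      generalize c (κ * (g * y₀)) = s
      revert p q r s
      decide
    refine ⟨κ * g, K, ⟨h1', finK hΓ hu hKm, hsq, h2', h3', h4', ?_⟩, hgen' u huH⟩
    intro _ y hy
    exact col_of hΓ h1' hsq h2' h3' h4' hy₀' hc' y hy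

open Cro in
theorem one_inv {Γ : Type*} [Group Γ] {c : Γ → Fin 3} (hΓ : CGrp Γ c) {f : Γ}
    (hf : ¬ IsOfFinOrder f) {x y : Γ} (hx : orderOf x = 2)
    (hy : orderOf y = 2) (hc : c x = c y) {k l : ℤ} (hk : k ≠ 0) (hl : l ≠ 0)
    (hxf : Commute x (f ^ k)) (hyf : Commute y (f ^ l)) : x = y := by
  obtain ⟨K, g, hKm, hgH, hgen⟩ := exists_K hΓ.hyp hf
  have hxt : IsOfFinOrder x := orderOf_pos_iff.1 (by omega)
  have hyt : IsOfFinOrder y := orderOf_pos_iff.1 (by omega)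
  have hxK : x ∈ K := (hKm x).2 ⟨⟨k, hk, hxf⟩, hxt⟩
  have hyK : y ∈ K := (hKm y).2 ⟨⟨l, hl, hyf⟩, hyt⟩
  by_contra hne
  exact hΓ.comm x y hx hy (commK hΓ hf hKm hxK hyK) hne hc

end Pool.Agent.TH68.C
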