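import Pool.Agent.TH68.C.Base

set_option autoImplicit false
set_option linter.unusedSectionVars false

/-! The centralizer of a half rotation in the quotient. -/

namespace Pool.Agent.TH68.C

open Pool.Agent.Helper97.Hyp Pool.Agent.TH68

section cz

variable {Γ : Type*} [Group Γ] {W : WNorm Γ} {𝒜 : Type*} [MulAction Γ 𝒜]

namespace Cz

lemma proj_self {X : Type*} [PseudoMetricSpace X] {c : ℝ} (hc : 0 ≤ c) {S : Set X} {p : X}
    (hp : p ∈ S) : IsProj c S p p :=
  ⟨hp, fun s _ => by rw [dist_self]; linarith⟩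

lemma proj_mono {X : Type*} [PseudoMetricSpace X] {c c' : ℝ} (hc : c ≤ c') {S : Set X} {p q : X}
    (h : IsProj c S p q) : IsProj c' S p q :=
  ⟨h.1, fun s hs => by have := h.2 s hs; linarith⟩

/-- closest points are projections -/
lemma proj_closest (Y : Sys Γ W 𝒜) {A : 𝒜} {x y : Pt W} (hx : x ∈ Y.S A)
    (h : ∀ x' ∈ Y.S A, dist y x ≤ dist y x') : IsProj (3 * Y.θ) (Y.S A) y x := by
  have hδ := Y.hδ
  have hθ := Y.hθ
  obtain ⟨q, hq⟩ := Y.proj A y
  have h1 := hq.2 x hx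
  have h2 := h q hq.1
  refine ⟨hx, fun s hs => ?_⟩
  have h3 := hq.2 s hs
  have h4 := dist_triangle x q s
  rw [dist_comm x q] at h4
  linarith

lemma smul_proj' (Y : Sys Γ W 𝒜) {A : 𝒜} {r : Γ} (hr : r • A = A) {x q : Pt W} {c : ℝ}
    (hq : IsProj c (Y.S A) x q) : IsProj c (Y.S A) (r • x) (r • q) := by
  apply hq.smul
  intro y
  constructor
  · intro hy
    have h := Y.smul_mem r⁻¹ A y hy
    have h2 : r⁻¹ • A = A := by
      rw [inv_smul_eq_iff]; exact hr.symm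
    rwa [h2] at h
  · intro hy
    have h := Y.smul_mem r A _ hy
    rwa [hr, smul_inv_smul] at h

/-- the key fact: the two sides of the path do not both pass along another axis -/
lemma key (Y : Sys Γ W 𝒜) {A' B : 𝒜} (hB : B ≠ A') {x y z₁ z₂ b₁ b₂ : Pt W} {L D : ℝ}
    (hL1 : 10000 * Y.θ ≤ L) (hy : y ∈ Y.S A') (hz₁ : z₁ ∈ Y.S A')
    (hp1 : IsProj (3 * Y.θ) (Y.S A') x y) (hp2 : IsProj (3 * Y.θ) (Y.S A') z₂ z₁)
    (hd : dist y z₁ = L) (hxy : dist x y = D) (hz : dist z₁ z₂ = D)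
    (hb₁ : b₁ ∈ Y.S B) (hb₂ : b₂ ∈ Y.S B) (h1 : dist x b₁ + dist b₁ y ≤ D + 4 * Y.θ)
    (h2 : dist z₁ b₂ + dist b₂ z₂ ≤ D + 4 * Y.θ) : False := by
  have hδ := Y.hδ
  have hθ := Y.hθ
  have h3 := far_of_proj Y.hyp hp1 hp2 (by rw [hd]; linarith)
  rw [dist_comm z₂ z₁, hd, hxy, hz] at h3
  have h4 := dist_triangle4 x b₁ b₂ z₂
  have h5 := dist_triangle y z₁ b₂
  have h6 := dist_triangle b₁ y z₁
  have e1 : exc b₁ b₂ y ≤ 16 * Y.θ := by
    unfold exc; linarith
  have e2 : exc b₁ b₂ z₁ ≤ 16 * Y.θ := by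
    unfold exc; linarith
  obtain ⟨s, hs, hs1⟩ := near_axis Y hb₁ hb₂ e1
  obtain ⟨t, ht, ht1⟩ := near_axis Y hb₁ hb₂ e2
  obtain ⟨q, hq⟩ := Y.proj B y
  obtain ⟨q', hq'⟩ := Y.proj B z₁
  have h7 := proj_dist_le hq hs
  have h8 := proj_dist_le hq' ht
  have h9 := le_pd_of_proj hq hq'
  have h10 := Y.small B A' hB y hy z₁ hz₁
  have h11 := dist_triangle4 y q q' z₁
  rw [dist_comm q' z₁] at h11
  linarith

end Cz

open Cz

theorem cz (Y : Sys Γ W 𝒜) (R : Sp0 Y) {A₀ : 𝒜} {z : Γ} {L : ℝ} (hz : z • A₀ = A₀)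
    (hL : ∀ q ∈ Y.S A₀, dist q (z • q) = L) (hL1 : 10000 * Y.θ ≤ L)
    (hM : L + 10000 * Y.θ ≤ R.M) (hc : ∀ f : Γ, Commute f z → f • A₀ = A₀) {f : Γ}
    (hf : f * z * f⁻¹ * z⁻¹ ∈ R.N) : ∃ n ∈ R.N, (n * f) • A₀ = A₀ := by
  classical
  by_contra hno
  push Not at hno
  have hδ := Y.hδ
  have hθ := Y.hθ
  -- the minimal choice
  have hex : ∃ k : ℕ, ∃ m ∈ R.N, ∃ x ∈ Y.S A₀, ∃ y ∈ Y.S ((m * f) • A₀), nd x y = k := by
    obtain ⟨x, hx⟩ := Y.Sne A₀
    obtain ⟨y, hy⟩ := Y.Sne ((1 * f) • A₀)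
    exact ⟨_, 1, R.N.one_mem, x, hx, y, hy, rfl⟩
  obtain ⟨m, hm, x, hx, y, hy, hxy⟩ := Nat.find_spec hex
  have hmin : ∀ m' ∈ R.N, ∀ x' ∈ Y.S A₀, ∀ y' ∈ Y.S ((m' * f) • A₀), dist x y ≤ dist x' y' := by
    intro m' hm' x' hx' y' hy'
    rw [dist_eq_nd, dist_eq_nd, hxy]
    exact_mod_cast Nat.find_min' hex ⟨m', hm', x', hx', y', hy', rfl⟩
  clear hxy
  set g := m * f with hg
  set z' := g * z * g⁻¹ with hz'
  have hA : g • A₀ ≠ A₀ := hno m hm
  have hz'A : z' • g • A₀ = g • A₀ := by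
    rw [hz', mul_smul, mul_smul, inv_smul_smul, hz]
  have hL' : ∀ q ∈ Y.S (g • A₀), dist q (z' • q) = L := by
    intro q hq
    have h1 := Y.smul_mem g⁻¹ (g • A₀) q hq
    rw [inv_smul_smul] at h1
    rw [← hL _ h1, hz', mul_smul, mul_smul, ← dist_smul g (g⁻¹ • q), smul_inv_smul]
  have hn : z' * z⁻¹ ∈ R.N := by
    have e : z' * z⁻¹ = m * (f * z * f⁻¹ * z⁻¹) * (z * m⁻¹ * z⁻¹) := by
      rw [hz', hg]; group
    rw [e]
    exact R.N.mul_mem (R.N.mul_mem hm hf) (R.normal.conj_mem _ (R.N.inv_mem hm) _)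
  have hn1 : z' * z⁻¹ ≠ 1 := by
    intro h
    apply hA
    apply hc
    rw [mul_inv_eq_one, hz', mul_inv_eq_iff_eq_mul] at h
    exact h
  set w := z • x with hw
  have hwA : w ∈ Y.S A₀ := by
    have := Y.smul_mem z A₀ x hx
    rwa [hz] at this
  have hnw : (z' * z⁻¹) • w = z' • x := by
    rw [hw, mul_smul, inv_smul_smul]
  obtain ⟨A, r, hr, hr1, hpd⟩ := R.wind _ hn hn1 w
  rw [hnw] at hpd
  have hxA := hx
  have hz'y : z' • y ∈ Y.S (g • A₀) := by
    have := Y.smul_mem z' _ y hy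
    rwa [hz'A] at this
  have hLy := hL' y hy
  have hLw : dist w x = L := by rw [dist_comm]; exact hL x hx
  -- closest points
  have c1 : IsProj (3 * Y.θ) (Y.S A₀) y x := by
    apply proj_closest Y hx
    intro x' hx'
    rw [dist_comm y x, dist_comm y x']
    exact hmin m hm x' hx' y hy
  have c2 : IsProj (3 * Y.θ) (Y.S (g • A₀)) x y := by
    apply proj_closest Y hy
    intro y' hy'
    exact hmin m hm x hx y' hy'
  have c3 : IsProj (3 * Y.θ) (Y.S (g • A₀)) (z' • x) (z' • y) := smul_proj' Y hz'A c2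
  have hD2 : dist (z' • y) (z' • x) = dist x y := by rw [dist_smul, dist_comm]
  have hkey : ∀ B, B ≠ g • A₀ → ∀ b₁ ∈ Y.S B, ∀ b₂ ∈ Y.S B,
      dist x b₁ + dist b₁ y ≤ dist x y + 4 * Y.θ →
      dist (z' • y) b₂ + dist b₂ (z' • x) ≤ dist x y + 4 * Y.θ → False := by
    intro B hB b₁ hb₁ b₂ hb₂ h1 h2
    exact key Y hB hL1 hy hz'y c2 c3 hLy rfl hD2 hb₁ hb₂ h1 h2
  -- projections to the axis
  obtain ⟨πw, hπw⟩ := Y.proj A w
  obtain ⟨πx, hπx⟩ := Y.proj A x
  obtain ⟨πy, hπy⟩ := Y.proj A y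
  obtain ⟨πy', hπy'⟩ := Y.proj A (z' • y)
  obtain ⟨πx', hπx'⟩ := Y.proj A (z' • x)
  have s1 := smul_proj Y (R.fix A r hr) hπw
  have s2 := le_pd_of_proj s1 hπx'
  have s3 := R.spin A r hr hr1 πw hπw.1
  have s4 := dist_triangle πw πx' (r • πw)
  rw [dist_comm πx' (r • πw)] at s4
  have s5 := le_pd_of_proj hπw hπx'
  have t1 := pd_tri (Y.Sne A) w x (z' • x)
  have t2 := pd_tri (Y.Sne A) x y (z' • x)
  have t3 := pd_tri (Y.Sne A) y (z' • y) (z' • x)
  have t4 := pd_tri (Y.Sne A) w x y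
  have t5 := pd_tri (Y.Sne A) w y (z' • y)
  by_cases hA0 : A = A₀
  · subst hA0
    have u1 : pd (Y.S A) w x ≤ L := by
      have := pd_le_dist (Y.Sne A) w x
      linarith
    have u2 : pd (Y.S A) x y ≤ 3 * Y.θ := by
      have := pd_le_of_proj (proj_self (c := 3 * Y.θ) (by linarith) hx) c1
      rw [dist_self] at this
      linarith
    have u3 := Y.small A (g • A) (fun h => hA h.symm) y hy _ hz'y
    have u4 : pd (Y.S A) (z' • y) (z' • x) ≤ 50 * Y.θ := by
      by_contra h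
      push Not at h
      have h1 := pd_le_of_proj hπy' hπx'
      have h2 := far_of_proj Y.hyp hπy' hπx' (by linarith)
      rw [hD2] at h2
      refine hkey A (fun h => hA h.symm) x hx πy' hπy'.1 ?_ ?_
      · rw [dist_self]; linarith
      · have h3 := dist_triangle πy' πx' (z' • x)
        rw [dist_comm πx' (z' • x)] at h3
        linarith
    linarith
  by_cases hA1 : A = g • A₀
  · subst hA1
    have u1 := Y.small (g • A₀) A₀ hA0 w hwA x hx
    have u2 : pd (Y.S (g • A₀)) x y ≤ 3 * Y.θ := by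
      have := pd_le_of_proj c2 (proj_self (c := 3 * Y.θ) (by linarith) hy)
      rw [dist_self] at this
      linarith
    have u3 : pd (Y.S (g • A₀)) y (z' • y) ≤ L := by
      have := pd_le_dist (Y.Sne (g • A₀)) y (z' • y)
      linarith
    have u4 : pd (Y.S (g • A₀)) (z' • y) (z' • x) ≤ 3 * Y.θ := by
      have := pd_le_of_proj (proj_self (c := 3 * Y.θ) (by linarith) hz'y) c3
      rw [dist_self] at this
      linarith
    linarith
  have u1 := Y.small A A₀ hA0 w hwA x hx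
  have u3 := Y.small A (g • A₀) hA1 y hy _ hz'y
  have v1 := le_pd_of_proj hπw hπx
  have v2 := pd_le_of_proj hπx hπy
  have v3 := pd_le_of_proj hπy' hπx'
  by_cases h50 : pd (Y.S A) (z' • y) (z' • x) ≤ 50 * Y.θ
  · -- the first side is long
    have h1 := far_of_proj Y.hyp hπx hπy (by linarith)
    have h2 := le_pd_of_proj hπy hπx'
    -- the rotated path
    have h3 : dist (r • πx) πy ≤ 105 * Y.θ := by
      have h4 := dist_triangle4 (r • πx) (r • πw) πx' πy
      rw [dist_smul, dist_comm πx πw, dist_comm πx' πy] at h4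
      linarith
    have h5 : dist (r • x) y ≤ dist x πx + 105 * Y.θ + dist y πy := by
      have h4 := dist_triangle4 (r • x) (r • πx) πy y
      rw [dist_smul, dist_comm πy y] at h4
      linarith
    have h6 : dist x (r⁻¹ • y) = dist (r • x) y := by
      rw [← dist_smul r x, smul_inv_smul]
    have h7 := hmin (r⁻¹ * m) (R.N.mul_mem (R.N.inv_mem (R.G_le A hr)) hm) x hx (r⁻¹ • y) (by
      rw [mul_assoc, mul_smul]
      exact Y.smul_mem _ _ _ hy)
    linarith
  · push Not at h50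
    have h1 := far_of_proj Y.hyp hπy' hπx' (by linarith)
    have h51 : pd (Y.S A) x y ≤ 50 * Y.θ := by
      by_contra h
      push Not at h
      have h2 := far_of_proj Y.hyp hπx hπy (by linarith)
      refine hkey A hA1 πx hπx.1 πy' hπy'.1 ?_ ?_
      · have h3 := dist_triangle πx πy y
        rw [dist_comm πy y] at h3
        linarith
      · have h3 := dist_triangle πy' πx' (z' • x)
        rw [dist_comm πx' (z' • x)] at h3
        linarith
    have h2 := le_pd_of_proj hπw hπy'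
    have h3 : dist (r • πy') πx' ≤ 105 * Y.θ := by
      have h4 := dist_triangle (r • πy') (r • πw) πx'
      rw [dist_smul, dist_comm πy' πw] at h4
      linarith
    have h5 : dist (r • z' • y) (z' • x) ≤ dist (z' • y) πy' + 105 * Y.θ + dist (z' • x) πx' := by
      have h4 := dist_triangle4 (r • z' • y) (r • πy') πx' (z' • x)
      rw [dist_smul, dist_comm πx' (z' • x)] at h4
      linarith
    have h6 : dist x ((z'⁻¹ * r * z') • y) = dist (r • z' • y) (z' • x) := by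
      have e : z' • (z'⁻¹ * r * z') • y = r • z' • y := by
        rw [mul_smul (z'⁻¹ * r), mul_smul z'⁻¹, smul_inv_smul]
      rw [← dist_smul z' x, e, dist_comm]
    have h7 := hmin ((z'⁻¹ * r * z') * m) (R.N.mul_mem (by
        have := R.normal.conj_mem r (R.G_le A hr) z'⁻¹
        rwa [inv_inv] at this) hm) x hx ((z'⁻¹ * r * z') • y) (by
      rw [mul_assoc, mul_smul (z'⁻¹ * r * z')]
      exact Y.smul_mem _ _ _ hy)
    linarith

end cz

end Pool.Agent.TH68.C
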