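import Pool.Agent.TH68.E2
import Pool.Agent.TH68.C.Croot

set_option autoImplicit false
set_option linter.unusedSectionVars false
set_option linter.unusedVariables false

/-! In a hyperbolic group with coloured involutions, `a * b ^ w` has infinite order for some `w` in
the normal closure of a given nontrivial element. -/

namespace Pool.Agent.TH68.C

open Pool.Agent.Helper97.Hyp Pool.Agent.TH68

section main

variable {Γ : Type*} [Group Γ] {W : WNorm Γ} {δ : ℝ} {c : Γ → Fin 3}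

/-- the fixed set of an element with finite centralizer is finite -/
lemma fix_finite_cent {v : Γ} (hcent : {y : Γ | Commute v y}.Finite) (C : ℝ) :
    {x : Pt W | dist x (v • x) ≤ C}.Finite := by
  have hB := W.fin ⌊C⌋₊
  let φ : Pt W → Γ := fun x => x.out⁻¹ * (v * x.out)
  have hsub : {x : Pt W | dist x (v • x) ≤ C} ⊆ φ ⁻¹' {g | W.ℓ g ≤ ⌊C⌋₊} := by
    intro x hx
    have h1 : dist x (v • x) ≤ C := hx
    rw [dist_def, smul_out] at h1
    exact Nat.le_floor h1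
  refine Set.Finite.subset (Set.Finite.preimage' hB fun β _ => ?_) hsub
  rcases Set.eq_empty_or_nonempty (φ ⁻¹' {β}) with h1 | ⟨x₀, hx₀⟩
  · rw [h1]
    exact Set.finite_empty
  refine Set.Finite.subset (hcent.image fun γ => pt W (γ * x₀.out)) ?_
  intro x hx
  have e1 : x.out⁻¹ * (v * x.out) = x₀.out⁻¹ * (v * x₀.out) := by
    have h1 : φ x = β := hx
    have h2 : φ x₀ = β := hx₀
    exact h1.trans h2.symm
  refine ⟨x.out * x₀.out⁻¹, ?_, ?_⟩
  · show v * (x.out * x₀.out⁻¹) = x.out * x₀.out⁻¹ * v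
    calc v * (x.out * x₀.out⁻¹) = x.out * (x.out⁻¹ * (v * x.out)) * x₀.out⁻¹ := by group
      _ = x.out * (x₀.out⁻¹ * (v * x₀.out)) * x₀.out⁻¹ := by rw [e1]
      _ = x.out * x₀.out⁻¹ * v := by group
  · show pt W (x.out * x₀.out⁻¹ * x₀.out) = x
    rw [inv_mul_cancel_right, pt_out]

/-- the normal closure of an element of odd order has elements of infinite order -/
lemma inf_odd (h : GHyp (Pt W) δ) (hδ : 1 ≤ δ) (hΓ : CGrp Γ c) [Infinite Γ] {v : Γ}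
    (hv1 : v ≠ 1) (hv : Odd (orderOf v)) :
    ∃ f ∈ Subgroup.normalClosure {v}, ¬ IsOfFinOrder f := by
  have hvf : IsOfFinOrder v := by
    rw [← orderOf_pos_iff]
    exact hv.pos
  set C : ℝ := 3 * (100 * δ) + 6 * δ + 4 with hC
  have hfix := fix_finite_cent (W := W) (hΓ.odd v hv1 hv) C
  set Fx : Set (Pt W) := {x : Pt W | dist x (v • x) ≤ C} with hFx
  have hbad : (⋃ p ∈ Fx, ⋃ q ∈ Fx, {γ : Γ | dist p (γ • q) ≤ 100 * (100 * δ + δ)}).Finite := by
    refine hfix.biUnion fun p _ => hfix.biUnion fun q _ => ?_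
    refine (proper q (100 * (100 * δ + δ) + dist p q)).subset ?_
    intro γ hγ
    have h1 : dist p (γ • q) ≤ 100 * (100 * δ + δ) := hγ
    have h2 := dist_triangle q p (γ • q)
    rw [dist_comm q p] at h2
    show dist q (γ • q) ≤ _
    linarith
  obtain ⟨t, ht⟩ := hbad.exists_notMem
  have ht' : ∀ p ∈ Fx, ∀ q ∈ Fx, 100 * (100 * δ + δ) ≤ dist p (t • q) := by
    intro p hp q hq
    by_contra hcon
    push Not at hcon
    exact ht (Set.mem_biUnion hp (Set.mem_biUnion hq hcon.le))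
  have hvN : v ∈ Subgroup.normalClosure {v} := Subgroup.subset_normalClosure rfl
  have hconjN : t * v * t⁻¹ ∈ Subgroup.normalClosure {v} :=
    Subgroup.normalClosure_normal.conj_mem v hvN t
  refine ⟨v * (t * v * t⁻¹), mul_mem hvN hconjN, ?_⟩
  obtain ⟨x₀, hx₀⟩ := disp_of_fin h hδ v hvf
  have conj : ∀ q : Pt W, dist q ((t * v * t⁻¹) • q) = dist (t⁻¹ • q) (v • t⁻¹ • q) := by
    intro q
    rw [mul_smul, mul_smul, ← dist_smul t (t⁻¹ • q), smul_inv_smul]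
  refine far h hδ (C₀ := 100 * δ) (by linarith) ⟨x₀, hx₀⟩ ⟨t • x₀, ?_⟩ ?_
  · rw [conj, inv_smul_smul]
    exact hx₀
  · intro p q hp hq
    rw [conj] at hq
    have := ht' p hp (t⁻¹ • q) hq
    rwa [smul_inv_smul] at this

/-- an element of finite order is an involution or its normal closure has elements of infinite
order -/
lemma two_or_inf (h : GHyp (Pt W) δ) (hδ : 1 ≤ δ) (hΓ : CGrp Γ c) [Infinite Γ] {v : Γ}
    (hvf : IsOfFinOrder v) (hv1 : v ≠ 1) :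
    orderOf v = 2 ∨ ∃ f ∈ Subgroup.normalClosure {v}, ¬ IsOfFinOrder f := by
  have hvN : v ∈ Subgroup.normalClosure {v} := Subgroup.subset_normalClosure rfl
  have hpos := hvf.orderOf_pos
  obtain ⟨k, m, hm, hkm⟩ := Nat.exists_eq_two_pow_mul_odd hpos.ne'
  by_cases hm1 : m = 1
  · left
    subst hm1
    rw [mul_one] at hkm
    have hk0 : k ≠ 0 := by
      intro h0
      rw [h0, pow_zero, orderOf_eq_one_iff] at hkm
      exact hv1 hkm
    have hk2 : ¬ 2 ≤ k := by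
      intro h2
      obtain ⟨l, rfl⟩ := Nat.exists_eq_add_of_le h2
      have h4 : (v ^ 2 ^ l) ^ 4 = 1 := by
        rw [← pow_mul, show 2 ^ l * 4 = 2 ^ (2 + l) by rw [pow_add]; ring, ← hkm, pow_orderOf_eq_one]
      have h5 := hΓ.four _ h4
      rw [← pow_mul] at h5
      have h6 := orderOf_dvd_of_pow_eq_one h5
      rw [hkm] at h6
      have h7 := Nat.le_of_dvd (by positivity) h6
      have h8 : 0 < 2 ^ l := by positivity
      rw [pow_add] at h7
      omega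
    have hk1 : k = 1 := by omega
    rw [hkm, hk1, pow_one]
  · right
    have hx1 : v ^ 2 ^ k ≠ 1 := by
      intro h1
      have h2 := orderOf_dvd_of_pow_eq_one h1
      rw [hkm] at h2
      have h3 := Nat.le_of_dvd (by positivity) h2
      have h4 : 0 < 2 ^ k := by positivity
      have h5 := hm.pos
      have h6 : 2 ≤ m := by omega
      nlinarith
    have hxo : orderOf (v ^ 2 ^ k) = m := by
      rw [orderOf_pow_of_dvd (by positivity) ⟨m, hkm⟩, hkm]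
      exact Nat.mul_div_cancel_left m (by positivity)
    obtain ⟨f, hf, hf'⟩ := inf_odd h hδ hΓ hx1 (by rw [hxo]; exact hm)
    refine ⟨f, ?_, hf'⟩
    have hN : (Subgroup.normalClosure {v}).Normal := Subgroup.normalClosure_normal
    exact Subgroup.normalClosure_le_normal (Set.singleton_subset_iff.2 (pow_mem hvN _)) hf

theorem e2 (hΓ : CGrp Γ c) [Infinite Γ] {y₀ : Γ} (hy₀ : (orderOf y₀).Prime)
    (hy₀' : orderOf y₀ ≠ 2) (hy₀c : ∀ x : Γ, Commute x y₀ → x ∈ Subgroup.zpowers y₀)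
    {a b v : Γ} (ha : orderOf a = 2) (hb : orderOf b = 2) (hab : c a = c b) (hv : v ≠ 1) :
    ∃ w ∈ Subgroup.normalClosure {v}, ¬ IsOfFinOrder (a * (w⁻¹ * b * w)) := by
  obtain ⟨W, δ', h'⟩ := hΓ.hyp
  set δ : ℝ := max δ' 1 with hδd
  have h : GHyp (Pt W) δ := GHyp.mono h' (le_max_left _ _)
  have hδ : 1 ≤ δ := le_max_right _ _
  have hN : (Subgroup.normalClosure {v}).Normal := Subgroup.normalClosure_normal
  have hvN : v ∈ Subgroup.normalClosure {v} := Subgroup.subset_normalClosure rfl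
  -- involutions and powers of `y₀`
  have hnc : ∀ m : ℤ, m ≠ 0 → m.natAbs ≤ 2 → ∀ x : Γ, orderOf x = 2 → ¬ Commute (y₀ ^ m) x := by
    intro m hm hm2 x hx hcomm
    have h1 : y₀ ∈ Subgroup.zpowers (y₀ ^ m) := by
      rw [mem_zpowers_zpow_iff, Int.gcd, Int.natAbs_natCast, Nat.gcd_comm]
      refine (Nat.Prime.coprime_iff_not_dvd hy₀).2 ?_
      intro hd
      have h2 := Nat.le_of_dvd (by omega) hd
      have h3 := hy₀.two_le
      omega
    obtain ⟨k, hk⟩ := Subgroup.mem_zpowers_iff.1 h1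
    have h2 : Commute y₀ x := by
      rw [← hk]
      exact hcomm.zpow_left k
    have h3 := orderOf_dvd_of_mem_zpowers (hy₀c x h2.symm)
    rw [hx] at h3
    rcases (Nat.dvd_prime hy₀).1 h3 with h4 | h4
    · norm_num at h4
    · exact hy₀' h4.symm
  -- an element of infinite order
  have hf₀ : ∃ f ∈ Subgroup.normalClosure {v}, ¬ IsOfFinOrder f := by
    by_cases hvf : IsOfFinOrder v
    swap
    · exact ⟨v, hvN, hvf⟩
    rcases two_or_inf h hδ hΓ hvf hv with hv2 | hres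
    swap
    · exact hres
    have hvv : v * v = 1 := by rw [← pow_two, ← hv2, pow_orderOf_eq_one]
    have hv'N : y₀ * v * y₀⁻¹ ∈ Subgroup.normalClosure {v} := hN.conj_mem v hvN y₀
    have htN : v * (y₀ * v * y₀⁻¹) ∈ Subgroup.normalClosure {v} := mul_mem hvN hv'N
    have hv'v' : (y₀ * v * y₀⁻¹) * (y₀ * v * y₀⁻¹) = 1 := by
      calc (y₀ * v * y₀⁻¹) * (y₀ * v * y₀⁻¹) = y₀ * (v * v) * y₀⁻¹ := by group
        _ = 1 := by rw [hvv]; group
    have hne : v ≠ y₀ * v * y₀⁻¹ := by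
      intro he
      apply hnc 1 one_ne_zero (by norm_num) v hv2
      rw [zpow_one]
      show y₀ * v = v * y₀
      conv_rhs => rw [he]
      group
    have hv'2 : orderOf (y₀ * v * y₀⁻¹) = 2 := by
      rw [orderOf_eq_prime_iff]
      refine ⟨by rw [pow_two]; exact hv'v', fun h1 => hv ?_⟩
      rw [conj_eq_one_iff] at h1
      exact h1
    have ht1 : v * (y₀ * v * y₀⁻¹) ≠ 1 := by
      intro h1
      apply hne
      have h2 : v * (v * (y₀ * v * y₀⁻¹)) = v := by rw [h1, mul_one]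
      rw [← mul_assoc, hvv, one_mul] at h2
      exact h2.symm
    by_cases htf : IsOfFinOrder (v * (y₀ * v * y₀⁻¹))
    swap
    · exact ⟨_, htN, htf⟩
    rcases two_or_inf h hδ hΓ htf ht1 with ht2 | ⟨f, hf, hf'⟩
    · exfalso
      have htt : (v * (y₀ * v * y₀⁻¹)) * (v * (y₀ * v * y₀⁻¹)) = 1 := by
        rw [← pow_two, ← ht2, pow_orderOf_eq_one]
      have hvi : v⁻¹ = v := inv_eq_of_mul_eq_one_left hvv
      have hv'i : (y₀ * v * y₀⁻¹)⁻¹ = y₀ * v * y₀⁻¹ := inv_eq_of_mul_eq_one_left hv'v'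
      have h3 := inv_eq_of_mul_eq_one_left htt
      rw [mul_inv_rev, hvi, hv'i] at h3
      exact hΓ.comm v (y₀ * v * y₀⁻¹) hv2 hv'2 h3.symm hne (hΓ.conj y₀ v hv2).symm
    · exact ⟨f, Subgroup.normalClosure_le_normal (Set.singleton_subset_iff.2 htN) hf, hf'⟩
  obtain ⟨f₀, hf₀N, hf₀⟩ := hf₀
  -- make `a`, `b` not commute with powers
  have hinj : ∀ x : Γ, orderOf x = 2 → ∀ k l : ℕ, k ≤ 2 → l ≤ 2 →
      (∃ m : ℤ, m ≠ 0 ∧ Commute (y₀ ^ k * x * (y₀ ^ k)⁻¹) (f₀ ^ m)) →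
      (∃ m : ℤ, m ≠ 0 ∧ Commute (y₀ ^ l * x * (y₀ ^ l)⁻¹) (f₀ ^ m)) → k = l := by
    intro x hx k l hk hl ⟨m, hm, h1⟩ ⟨n, hn, h2⟩
    have hxx : x ^ 2 = 1 := by rw [← hx, pow_orderOf_eq_one]
    have hx1 : x ≠ 1 := by
      intro h3
      rw [h3, orderOf_one] at hx
      norm_num at hx
    have hord : ∀ y : Γ, orderOf (y * x * y⁻¹) = 2 := by
      intro y
      rw [orderOf_eq_prime_iff]
      refine ⟨?_, fun h3 => hx1 (conj_eq_one_iff.1 h3)⟩
      rw [conj_pow, hxx]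
      group
    have h3 := one_inv hΓ hf₀ (hord _) (hord _) ((hΓ.conj _ x hx).trans (hΓ.conj _ x hx).symm)
      hm hn h1 h2
    by_contra hkl
    apply hnc ((l : ℤ) - k) (by omega) (by omega) x hx
    show y₀ ^ ((l : ℤ) - k) * x = x * y₀ ^ ((l : ℤ) - k)
    have h4 : y₀ ^ ((l : ℤ) - k) = (y₀ ^ k)⁻¹ * y₀ ^ l := by
      rw [sub_eq_neg_add, zpow_add, zpow_neg, zpow_natCast, zpow_natCast]
    rw [h4]
    calc (y₀ ^ k)⁻¹ * y₀ ^ l * x = (y₀ ^ k)⁻¹ * (y₀ ^ l * x * (y₀ ^ l)⁻¹) * y₀ ^ l := by group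
      _ = (y₀ ^ k)⁻¹ * (y₀ ^ k * x * (y₀ ^ k)⁻¹) * y₀ ^ l := by rw [h3]
      _ = x * ((y₀ ^ k)⁻¹ * y₀ ^ l) := by group
  obtain ⟨k, hka, hkb⟩ : ∃ k : ℕ,
      (¬ ∃ m : ℤ, m ≠ 0 ∧ Commute (y₀ ^ k * a * (y₀ ^ k)⁻¹) (f₀ ^ m)) ∧
      (¬ ∃ m : ℤ, m ≠ 0 ∧ Commute (y₀ ^ k * b * (y₀ ^ k)⁻¹) (f₀ ^ m)) := by
    by_contra hcon
    push Not at hcon
    have hor : ∀ k : ℕ, (∃ m : ℤ, m ≠ 0 ∧ Commute (y₀ ^ k * a * (y₀ ^ k)⁻¹) (f₀ ^ m)) ∨
        (∃ m : ℤ, m ≠ 0 ∧ Commute (y₀ ^ k * b * (y₀ ^ k)⁻¹) (f₀ ^ m)) := by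
      intro k
      by_cases h1 : ∃ m : ℤ, m ≠ 0 ∧ Commute (y₀ ^ k * a * (y₀ ^ k)⁻¹) (f₀ ^ m)
      · exact Or.inl h1
      · right
        push Not at h1
        exact hcon k h1
    rcases hor 0 with h0 | h0 <;> rcases hor 1 with h1 | h1 <;> rcases hor 2 with h2 | h2
    · exact absurd (hinj a ha 0 1 (by norm_num) (by norm_num) h0 h1) (by norm_num)
    · exact absurd (hinj a ha 0 1 (by norm_num) (by norm_num) h0 h1) (by norm_num)
    · exact absurd (hinj a ha 0 2 (by norm_num) (by norm_num) h0 h2) (by norm_num)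
    · exact absurd (hinj b hb 1 2 (by norm_num) (by norm_num) h1 h2) (by norm_num)
    · exact absurd (hinj a ha 1 2 (by norm_num) (by norm_num) h1 h2) (by norm_num)
    · exact absurd (hinj b hb 0 2 (by norm_num) (by norm_num) h0 h2) (by norm_num)
    · exact absurd (hinj b hb 0 1 (by norm_num) (by norm_num) h0 h1) (by norm_num)
    · exact absurd (hinj b hb 0 1 (by norm_num) (by norm_num) h0 h1) (by norm_num)
  set f : Γ := (y₀ ^ k)⁻¹ * f₀ * y₀ ^ k with hf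
  have hfN : f ∈ Subgroup.normalClosure {v} := by
    have := hN.conj_mem f₀ hf₀N (y₀ ^ k)⁻¹
    rwa [inv_inv] at this
  have hfpow : ∀ m : ℤ, f ^ m = (y₀ ^ k)⁻¹ * f₀ ^ m * y₀ ^ k := by
    intro m
    have := conj_zpow (i := m) (a := (y₀ ^ k)⁻¹) (b := f₀)
    rw [inv_inv] at this
    exact this
  have hfinf : ¬ IsOfFinOrder f := by
    intro h1
    rw [isOfFinOrder_iff_zpow_eq_one] at h1
    obtain ⟨m, hm, h2⟩ := h1
    rw [hfpow] at h2
    apply inf_zpow_ne hf₀ hm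
    calc f₀ ^ m = y₀ ^ k * ((y₀ ^ k)⁻¹ * f₀ ^ m * y₀ ^ k) * (y₀ ^ k)⁻¹ := by group
      _ = 1 := by rw [h2]; group
  have htrans : ∀ x : Γ, (¬ ∃ m : ℤ, m ≠ 0 ∧ Commute (y₀ ^ k * x * (y₀ ^ k)⁻¹) (f₀ ^ m)) →
      ∀ m : ℤ, m ≠ 0 → ¬ Commute x (f ^ m) := by
    intro x hx m hm hc
    apply hx
    refine ⟨m, hm, ?_⟩
    have hc' : x * f ^ m = f ^ m * x := hc
    rw [hfpow] at hc'
    show y₀ ^ k * x * (y₀ ^ k)⁻¹ * f₀ ^ m = f₀ ^ m * (y₀ ^ k * x * (y₀ ^ k)⁻¹)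
    calc y₀ ^ k * x * (y₀ ^ k)⁻¹ * f₀ ^ m
        = y₀ ^ k * (x * ((y₀ ^ k)⁻¹ * f₀ ^ m * y₀ ^ k)) * (y₀ ^ k)⁻¹ := by group
      _ = y₀ ^ k * ((y₀ ^ k)⁻¹ * f₀ ^ m * y₀ ^ k * x) * (y₀ ^ k)⁻¹ := by rw [hc']
      _ = f₀ ^ m * (y₀ ^ k * x * (y₀ ^ k)⁻¹) := by group
  -- a loxodromic power
  obtain ⟨J, hJ⟩ := lox_of_inf h hδ
  obtain ⟨j, hj, _, x, hx⟩ := hJ f hfinf
  have htrans2 : ∀ y : Γ, (∀ m : ℤ, m ≠ 0 → ¬ Commute y (f ^ m)) →
      ∀ m : ℤ, m ≠ 0 → ¬ Commute y ((f ^ j) ^ m) := by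
    intro y hy m hm
    rw [← zpow_natCast, ← zpow_mul]
    refine hy _ (mul_ne_zero ?_ hm)
    omega
  have hafin : IsOfFinOrder a := by rw [← orderOf_pos_iff]; omega
  have hbfin : IsOfFinOrder b := by rw [← orderOf_pos_iff]; omega
  obtain ⟨n, hn⟩ := far_conj hx hδ (htrans2 a (htrans a hka)) (htrans2 b (htrans b hkb))
    (disp_of_fin h hδ a hafin) (disp_of_fin h hδ b hbfin)
  exact ⟨(f ^ j) ^ n, pow_mem (pow_mem hfN j) n, hn⟩

end main

end Pool.Agent.TH68.C
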