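import Pool.Agent.TH68.C.Rotm

set_option autoImplicit false
set_option linter.unusedSectionVars false

/-! Colours of flips; the exponent to be killed. -/

namespace Pool.Agent.TH68.C

open Pool.Agent.Helper97.Hyp Pool.Agent.TH68

lemma fin3_third (a b : Fin 3) : ∃ d : Fin 3, a ≠ d ∧ b ≠ d := by
  revert a b; decide

namespace RD

variable {Γ : Type*} [Group Γ] {W : WNorm Γ} {c : Γ → Fin 3} (D : RD Γ W c)

/-- elements inverting the root -/
def Flip (y : Γ) : Prop := y * D.g * y⁻¹ = D.g⁻¹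

variable {D}

lemma Flip.zpow {y : Γ} (h : D.Flip y) (n : ℤ) : y * D.g ^ n * y⁻¹ = D.g ^ (-n) := by
  have h1 : y * D.g * y⁻¹ = D.g⁻¹ := h
  rw [← conj_zpow, h1, inv_zpow, zpow_neg]

lemma Flip.ord {y : Γ} (h : D.Flip y) : orderOf y = 2 := by
  have h1 := h.zpow 1
  exact (D.root.flip y 1 one_ne_zero h1).1

lemma Flip.comm {y : Γ} (h : D.Flip y) {k : Γ} (hk : k ∈ D.K) : Commute y k := by
  have h1 := h.zpow 1
  exact (D.root.flip y 1 one_ne_zero h1).2.2 k hk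

lemma Flip.mul {y : Γ} (h : D.Flip y) (n : ℤ) : D.Flip (D.g ^ n * y) := by
  have h1 : y * D.g * y⁻¹ = D.g⁻¹ := h
  change D.g ^ n * y * D.g * (D.g ^ n * y)⁻¹ = D.g⁻¹
  calc D.g ^ n * y * D.g * (D.g ^ n * y)⁻¹ = D.g ^ n * (y * D.g * y⁻¹) * (D.g ^ n)⁻¹ := by group
    _ = D.g⁻¹ := by rw [h1]; group

lemma Flip.even {y : Γ} (h : D.Flip y) (n : ℤ) :
    D.g ^ (2 * n) * y = D.g ^ n * y * (D.g ^ n)⁻¹ := by
  have h1 := h.zpow (-n)
  rw [neg_neg] at h1
  calc D.g ^ (2 * n) * y = D.g ^ n * D.g ^ n * y := by rw [← zpow_add, two_mul]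
    _ = D.g ^ n * (y * D.g ^ (-n) * y⁻¹) * y := by rw [h1]
    _ = _ := by group

lemma Flip.col_even (hconj : ∀ γ x : Γ, orderOf x = 2 → c (γ * x * γ⁻¹) = c x) {y : Γ}
    (h : D.Flip y) (n : ℤ) : c (D.g ^ (2 * n) * y) = c y := by
  rw [h.even, hconj _ _ h.ord]

/-- a product of two flips -/
lemma Flip.two {y y' : Γ} (h : D.Flip y) (h' : D.Flip y') :
    ∃ k ∈ D.K, ∃ n : ℤ, y' = k * (D.g ^ n * y) := by
  have h1 : Commute (y' * y⁻¹) (D.g ^ (1 : ℤ)) := by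
    rw [zpow_one]
    have e1 : y * D.g * y⁻¹ = D.g⁻¹ := h
    have e2 : y' * D.g * y'⁻¹ = D.g⁻¹ := h'
    have e3 : y' * D.g⁻¹ * y'⁻¹ = D.g := by
      rw [show y' * D.g⁻¹ * y'⁻¹ = (y' * D.g * y'⁻¹)⁻¹ by group, e2, inv_inv]
    have e4 : y⁻¹ * D.g * y = D.g⁻¹ := by
      have : y⁻¹ * (y * D.g * y⁻¹)⁻¹ * y = D.g⁻¹ := by group
      rw [e1, inv_inv] at this
      exact this
    have e5 : y' * y⁻¹ * D.g * (y' * y⁻¹)⁻¹ = D.g := by
      calc y' * y⁻¹ * D.g * (y' * y⁻¹)⁻¹ = y' * (y⁻¹ * D.g * y) * y'⁻¹ := by group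
        _ = D.g := by rw [e4, e3]
    exact mul_inv_eq_iff_eq_mul.mp e5
  obtain ⟨k, hk, n, hn⟩ := D.root.cent _ 1 one_ne_zero h1
  refine ⟨k, hk, n, ?_⟩
  rw [← mul_assoc, ← hn]; group

variable (D)

/-- the exponent to be killed -/
structure Kil (p m : ℕ) : Prop where
  hp : p.Prime
  hp2 : p ≠ 2
  alt : (m = p ∧ ∀ y, D.Flip y → c (D.g * y) = c y) ∨
    (m = 2 * p ∧ D.K = ⊥ ∧ (∃ y, D.Flip y) ∧ ∀ y, D.Flip y → c (D.g * y) ≠ c y)

lemma exists_kil (hconj : ∀ γ x : Γ, orderOf x = 2 → c (γ * x * γ⁻¹) = c x) {p : ℕ}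
    (hp : p.Prime) (hp2 : p ≠ 2) : ∃ m, D.Kil p m := by
  by_cases h : ∀ y, D.Flip y → c (D.g * y) = c y
  · exact ⟨p, hp, hp2, Or.inl ⟨rfl, h⟩⟩
  · push Not at h
    obtain ⟨y₀, hy₀, hne⟩ := h
    have hK : D.K = ⊥ := by
      by_contra hK
      exact hne (D.root.col hK y₀ hy₀)
    refine ⟨2 * p, hp, hp2, Or.inr ⟨rfl, hK, ⟨y₀, hy₀⟩, ?_⟩⟩
    intro y hy
    obtain ⟨k, hk, n, hn⟩ := hy₀.two hy
    rw [hK, Subgroup.mem_bot] at hk
    rw [hk, one_mul] at hn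
    rcases Int.even_or_odd' n with ⟨i, hi | hi⟩
    · have e1 : c y = c y₀ := by rw [hn, hi, hy₀.col_even hconj]
      have e2 : D.g * y = D.g ^ (2 * i) * (D.g * y₀) := by
        rw [hn, hi, ← mul_assoc, ← mul_assoc, ← zpow_one_add, ← zpow_add_one, add_comm]
      have h1 : D.Flip (D.g * y₀) := by
        have := hy₀.mul 1
        rwa [zpow_one] at this
      rw [e1, e2, h1.col_even hconj]
      exact hne
    · have h1 : D.Flip (D.g * y₀) := by
        have := hy₀.mul 1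
        rwa [zpow_one] at this
      have e1 : c y = c (D.g * y₀) := by
        have : y = D.g ^ (2 * i) * (D.g * y₀) := by
          rw [hn, hi, zpow_add_one, mul_assoc]
        rw [this, h1.col_even hconj]
      have e2 : D.g * y = D.g ^ (2 * (i + 1)) * y₀ := by
        rw [hn, hi, ← mul_assoc, ← zpow_one_add]
        congr 2
        ring
      rw [e1, e2, hy₀.col_even hconj]
      exact hne.symm

variable {D} {p m : ℕ}

lemma Kil.pos (h : D.Kil p m) : 0 < m := by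
  have := h.hp.pos
  rcases h.alt with ⟨h1, -⟩ | ⟨h1, -⟩ <;> omega

lemma Kil.le (h : D.Kil p m) : p ≤ m := by
  rcases h.alt with ⟨h1, -⟩ | ⟨h1, -⟩ <;> omega

/-- colours in the first case -/
lemma col_all (hcol : ∀ y, D.Flip y → c (D.g * y) = c y) (n : ℤ) {y : Γ} (hy : D.Flip y) :
    c (D.g ^ n * y) = c y := by
  induction n with
  | zero => rw [zpow_zero, one_mul]
  | succ i ih =>
    have h1 : D.g ^ ((i : ℤ) + 1) * y = D.g * (D.g ^ (i : ℤ) * y) := by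
      rw [← mul_assoc, ← zpow_one_add, add_comm]
    rw [h1, hcol _ (hy.mul _), ih]
  | pred i ih =>
    have h1 : D.g ^ (-(i : ℤ)) * y = D.g * (D.g ^ (-(i : ℤ) - 1) * y) := by
      rw [← mul_assoc, ← zpow_one_add]
      congr 2
      ring
    rw [h1, hcol _ (hy.mul _)] at ih
    exact ih

lemma Kil.third (hconj : ∀ γ x : Γ, orderOf x = 2 → c (γ * x * γ⁻¹) = c x) (h : D.Kil p m) :
    ∃ c₃ : Fin 3, m = 2 * p → ∀ y, D.Flip y → c y ≠ c₃ := by
  rcases h.alt with ⟨h1, -⟩ | ⟨h1, hK, ⟨y₀, hy₀⟩, h2⟩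
  · refine ⟨0, fun h3 => ?_⟩
    have := h.hp.pos
    omega
  · obtain ⟨d, hd1, hd2⟩ := fin3_third (c y₀) (c (D.g * y₀))
    refine ⟨d, fun _ y hy => ?_⟩
    obtain ⟨k, hk, n, hn⟩ := hy₀.two hy
    rw [hK, Subgroup.mem_bot] at hk
    rw [hk, one_mul] at hn
    rcases Int.even_or_odd' n with ⟨i, hi | hi⟩
    · rw [hn, hi, hy₀.col_even hconj]; exact hd1
    · have h3 : D.Flip (D.g * y₀) := by
        have := hy₀.mul 1
        rwa [zpow_one] at this
      have : y = D.g ^ (2 * i) * (D.g * y₀) := by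
        rw [hn, hi, zpow_add_one, mul_assoc]
      rw [this, h3.col_even hconj]
      exact hd2

lemma Kil.dvd_four (h : D.Kil p m) {t : ℤ} (ht : (m : ℤ) ∣ 4 * t) : (m : ℤ) ∣ 2 * t := by
  have hp : Prime (p : ℤ) := Nat.prime_iff_prime_int.mp h.hp
  have h2 : ¬ (p : ℤ) ∣ 2 := by
    intro h2
    have h3 : p ∣ 2 := by exact_mod_cast h2
    exact h.hp2 ((Nat.prime_dvd_prime_iff_eq h.hp Nat.prime_two).mp h3)
  rcases h.alt with ⟨h1, -⟩ | ⟨h1, -⟩
  · rw [h1] at ht ⊢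
    rw [show (4 : ℤ) * t = 2 * (2 * t) by ring] at ht
    exact (hp.dvd_or_dvd ht).resolve_left h2
  · rw [h1] at ht ⊢
    push_cast at ht ⊢
    have h3 : (p : ℤ) ∣ 2 * t := by
      obtain ⟨s, hs⟩ := ht
      exact ⟨s, by linarith⟩
    have h4 := (hp.dvd_or_dvd h3).resolve_left h2
    exact mul_dvd_mul_left 2 h4

lemma Kil.dvd_two (h : D.Kil p m) {t : ℤ} (ht : (m : ℤ) ∣ 2 * t) : (p : ℤ) ∣ t := by
  have hp : Prime (p : ℤ) := Nat.prime_iff_prime_int.mp h.hp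
  have h2 : ¬ (p : ℤ) ∣ 2 := by
    intro h2
    have h3 : p ∣ 2 := by exact_mod_cast h2
    exact h.hp2 ((Nat.prime_dvd_prime_iff_eq h.hp Nat.prime_two).mp h3)
  have h3 : (p : ℤ) ∣ 2 * t := by
    refine dvd_trans ?_ ht
    rcases h.alt with ⟨h1, -⟩ | ⟨h1, -⟩
    · rw [h1]
    · rw [h1]; push_cast; exact dvd_mul_left _ _
  exact (hp.dvd_or_dvd h3).resolve_left h2

/-- an involution which is a translation on an axis -/
lemma K_of_sq {κ : Γ} (hκ : κ ∈ D.K) {t : ℤ} (h : (κ * D.g ^ t) ^ 2 = 1) : t = 0 := by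
  have h1 : (κ * D.g ^ t) ^ 2 = D.g ^ (2 * t) := by
    rw [((D.root.comm κ hκ).zpow_right t).mul_pow, D.root.sq κ hκ, one_mul, ← zpow_natCast,
      ← zpow_mul, mul_comm t]
    rfl
  rw [h1] at h
  by_contra ht
  exact D.root.zpow_ne (by omega) h

lemma sq_eq {κ : Γ} (hκ : κ ∈ D.K) (t : ℤ) : (κ * D.g ^ t) ^ 2 = D.g ^ (2 * t) := by
  rw [((D.root.comm κ hκ).zpow_right t).mul_pow, D.root.sq κ hκ, one_mul, ← zpow_natCast,
    ← zpow_mul, mul_comm t]
  rfl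

lemma pow_eq {κ : Γ} (hκ : κ ∈ D.K) (t : ℤ) (n : ℕ) :
    (κ * D.g ^ t) ^ n = κ ^ n * D.g ^ (t * n) := by
  rw [((D.root.comm κ hκ).zpow_right t).mul_pow, zpow_mul, zpow_natCast]

/-- rotating a flip does not change its colour -/
lemma Kil.rot (hconj : ∀ γ x : Γ, orderOf x = 2 → c (γ * x * γ⁻¹) = c x) (h : D.Kil p m)
    {A : Γ ⧸ D.E} {r : Γ} (hr : r ∈ D.rot m A) (hr1 : r ≠ 1) {x : Γ} (hx : x • A = A)
    (hx2 : orderOf x = 2) (hxr : x * r * x⁻¹ = r⁻¹) : c (r * x) = c x := by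
  obtain ⟨s, rfl⟩ := hr
  simp only at *
  rw [conj_zpow, ← zpow_mul] at hr1 hxr ⊢
  set n : ℤ := (m : ℤ) * s with hn
  set α := A.out with hα
  have hgn : D.g ^ n ≠ 1 := by
    intro h1
    rw [h1] at hr1
    apply hr1
    group
  have hn0 : n ≠ 0 := by
    intro h1
    rw [h1, zpow_zero] at hgn
    exact hgn rfl
  set f := α⁻¹ * x * α with hf
  have hxf : x = α * f * α⁻¹ := by rw [hf]; group
  have hff : f * D.g ^ n * f⁻¹ = D.g ^ (-n) := by
    calc f * D.g ^ n * f⁻¹ = α⁻¹ * (x * (α * D.g ^ n * α⁻¹) * x⁻¹) * α := by rw [hf]; group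
      _ = D.g ^ (-n) := by rw [hxr]; group
  have hF : D.Flip f := (D.root.flip f n hn0 hff).2.1
  have e1 : α * D.g ^ n * α⁻¹ * x = α * (D.g ^ n * f) * α⁻¹ := by rw [hxf]; group
  rw [e1, hconj _ _ (hF.mul n).ord, hxf, hconj _ _ hF.ord]
  rcases h.alt with ⟨-, h2⟩ | ⟨h1, -⟩
  · exact col_all h2 n hF
  · have : n = 2 * ((p : ℤ) * s) := by
      rw [hn, h1]; push_cast; ring
    rw [this, hF.col_even hconj]

/-- products of two involutions preserving an axis -/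
lemma Kil.two (hconj : ∀ γ x : Γ, orderOf x = 2 → c (γ * x * γ⁻¹) = c x)
    (hcomm : ∀ x y : Γ, orderOf x = 2 → orderOf y = 2 → Commute x y → x ≠ y → c x ≠ c y)
    (h : D.Kil p m) (hdvd : ∀ s : ℤ, D.g ^ s ∈ D.nk m → (m : ℤ) ∣ s)
    {A : Γ ⧸ D.E} {a b : Γ} (ha : orderOf a = 2) (hb : orderOf b = 2)
    (hinf : ¬ IsOfFinOrder (b * a)) (hA : (b * a) • A = A) (h2 : (b * a) ^ 2 ∈ D.nk m)
    (h1 : b * a ∉ D.nk m) : c a ≠ c b := by
  have hN := D.nk_normal (m := m)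
  rcases D.stab_or hA with ⟨κ, hκ, t, ht⟩ | ⟨h3, -⟩
  swap
  · exact absurd (orderOf_pos_iff.mp (by rw [h3]; norm_num)) hinf
  set α := A.out with hα
  set a' := α⁻¹ * a * α with ha'
  set b' := α⁻¹ * b * α with hb'
  have haa : a = α * a' * α⁻¹ := by rw [ha']; group
  have hbb : b = α * b' * α⁻¹ := by rw [hb']; group
  have hba : b' * a' = κ * D.g ^ t := by
    calc b' * a' = α⁻¹ * (b * a) * α := by rw [ha', hb']; group
      _ = κ * D.g ^ t := by rw [ht]; group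
  have ha2 : orderOf a' = 2 := by
    rw [haa, ← MulAut.conj_apply, MulEquiv.orderOf_eq] at ha; exact ha
  have hb2 : orderOf b' = 2 := by
    rw [hbb, ← MulAut.conj_apply, MulEquiv.orderOf_eq] at hb; exact hb
  have ht0 : t ≠ 0 := by
    rintro rfl
    apply hinf
    rw [isOfFinOrder_iff_pow_eq_one]
    refine ⟨2, by norm_num, ?_⟩
    rw [ht, zpow_zero, mul_one, conj_pow, D.root.sq κ hκ]
    group
  have e2 : D.g ^ (2 * t) ∈ D.nk m := by
    have h3 := hN.conj_mem _ h2 α⁻¹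
    have h4 : α⁻¹ * (b * a) ^ 2 * α⁻¹⁻¹ = D.g ^ (2 * t) := by
      rw [ht, conj_pow, sq_eq hκ]; group
    rwa [h4] at h3
  have e3 := hdvd _ e2
  have e4 := h.dvd_two e3
  -- `a'` is a flip
  have haa' : a' * a' = 1 := ord_two_mul ha2
  have hbb' : b' * b' = 1 := ord_two_mul hb2
  have hai : a'⁻¹ = a' := ord_two_inv ha2
  have hbi : b'⁻¹ = b' := ord_two_inv hb2
  have hinv : a' * (κ * D.g ^ t) * a'⁻¹ = (κ * D.g ^ t)⁻¹ := by
    rw [← hba, mul_inv_rev b' a', hai, hbi]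
    calc a' * (b' * a') * a' = a' * b' * (a' * a') := by group
      _ = a' * b' := by rw [haa', mul_one]
  have hF : D.Flip a' := by
    have h5 : a' * D.g ^ (2 * t) * a'⁻¹ = D.g ^ (-(2 * t)) := by
      rw [← sq_eq hκ, ← conj_pow, hinv, inv_pow, sq_eq hκ, zpow_neg]
    exact (D.root.flip a' (2 * t) (by omega) h5).2.1
  have hb'' : b' = κ * (D.g ^ t * a') := by
    rw [← mul_assoc, ← hba, mul_assoc, haa', mul_one]
  have hFt := hF.mul t
  have hca : c a = c a' := by rw [haa, hconj _ _ ha2]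
  have hcb : c b = c b' := by rw [hbb, hconj _ _ hb2]
  rw [hca, hcb]
  have hconN : ∀ x, x ∈ D.nk m → α * x * α⁻¹ ∈ D.nk m := fun x hx => hN.conj_mem x hx α
  rcases h.alt with ⟨hm, hcol⟩ | ⟨hm, hK, -, hcol⟩
  · -- first case
    have e5 : D.g ^ t ∈ D.nk m := by
      obtain ⟨s, hs⟩ := e4
      rw [hs, hm, zpow_mul, zpow_natCast]
      exact Subgroup.zpow_mem _ D.pow_mem_nk s
    have hκ1 : κ ≠ 1 := by
      rintro rfl
      apply h1
      rw [ht, one_mul]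
      exact hconN _ e5
    have hκ2 : orderOf κ = 2 := orderOf_eq_prime (D.root.sq κ hκ) hκ1
    have h6 : c (D.g ^ t * a') = c a' := col_all hcol t hF
    rw [← h6, hb'']
    apply hcomm _ _ hFt.ord
    · rw [← hb'']; exact hb2
    · exact (hFt.comm hκ).mul_right (Commute.refl _)
    · intro h7
      apply hκ1
      exact (mul_eq_right.mp h7.symm)
  · rw [hK, Subgroup.mem_bot] at hκ
    have hodd : Odd t := by
      rw [← Int.not_even_iff_odd]
      intro hev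
      apply h1
      rw [ht, hκ, one_mul]
      apply hconN
      have hp : Prime (p : ℤ) := Nat.prime_iff_prime_int.mp h.hp
      obtain ⟨s, hs⟩ := e4
      have h7 : Even s := by
        rw [hs, Int.even_mul] at hev
        rcases hev with h8 | h8
        · exfalso
          have h9 : Even p := by exact_mod_cast h8
          exact h.hp2 ((Nat.Prime.even_iff h.hp).mp h9)
        · exact h8
      obtain ⟨i, hi⟩ := h7
      have h8 : t = (m : ℤ) * i := by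
        rw [hs, hi, hm]; push_cast; ring
      rw [h8, zpow_mul, zpow_natCast]
      exact Subgroup.zpow_mem _ D.pow_mem_nk i
    obtain ⟨i, hi⟩ := hodd
    have h8 : D.Flip (D.g * a') := by
      have := hF.mul 1
      rwa [zpow_one] at this
    have h9 : b' = D.g ^ (2 * i) * (D.g * a') := by
      rw [hb'', hκ, one_mul, hi, zpow_add_one, mul_assoc]
    rw [h9, h8.col_even hconj]
    exact (hcol a' hF).symm

end RD

end Pool.Agent.TH68.C
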