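import Pool.Agent.TH68.EZ
import Pool.Agent.TH68.C.Base
import Pool.Agent.Helper97.Hyp.System

set_option autoImplicit false
set_option linter.unusedSectionVars false

/-! An element of infinite order which is not commensurable with a given one. -/

namespace Pool.Agent.TH68.C

open Pool.Agent.Helper97.Hyp Pool.Agent.TH68

section nc

variable {Γ : Type*} [Group Γ] {W : WNorm Γ}

/-- the system of axes of a loxodromic element -/
noncomputable def lsys {δ : ℝ} {o : Pt W} {g : Γ} (h : Lox δ o g) (hδ : 1 ≤ δ) :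
    Sys Γ W (Γ ⧸ Lox.E g) where
  δ := δ
  θ := Lox.th o g δ
  hyp := h.hyp
  hδ := hδ
  hθ := by
    have h1 := h.th1_nonneg
    have h2 := h.c2_nonneg
    unfold Lox.th
    linarith
  S := Lox.ax o g
  Sne := Lox.ax_ne
  smul_mem γ A x hx := by rw [Lox.ax_smul, inv_smul_smul]; exact hx
  proj A x := by
    obtain ⟨q, hq⟩ := (h.qline_ax A).proj x
    refine ⟨q, hq.1, fun s hs => ?_⟩
    have h1 := hq.2 s hs
    have h2 := h.c2_nonneg
    have h3 := h.th1_nonneg
    unfold Lox.th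
    linarith
  small A B hAB p hp q hq := by
    have h0 := h.proj_bound (proper o) hAB hp hq
    have h2 := h.c2_nonneg
    unfold Lox.th
    linarith

/-- two points of an axis which are close to another axis are close to each other -/
lemma two_axes {𝒜 : Type*} [MulAction Γ 𝒜] (Y : Sys Γ W 𝒜) {A B : 𝒜} (hAB : B ≠ A)
    {p q s t : Pt W} (hp : p ∈ Y.S A) (hq : q ∈ Y.S A) (hs : s ∈ Y.S B) (ht : t ∈ Y.S B) :
    dist p q ≤ dist p s + dist q t + 4 * Y.θ := by
  obtain ⟨p', hp'⟩ := Y.proj B p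
  obtain ⟨q', hq'⟩ := Y.proj B q
  have h1 := proj_dist_le hp' hs
  have h2 := proj_dist_le hq' ht
  have h3 := Y.small B A hAB p hp q hq
  have h4 := le_pd_of_proj hp' hq'
  have h5 := dist_triangle4 p p' q' q
  rw [dist_comm q' q] at h5
  linarith

/-- a broken geodesic whose end points are at bounded distance from an axis stays close to the
axis -/
lemma mid_near {𝒜 : Type*} [MulAction Γ 𝒜] (Y : Sys Γ W 𝒜) {B : 𝒜} {x y b b' z : Pt W}
    {a d : ℝ} (hb : b ∈ Y.S B) (hb' : b' ∈ Y.S B) (h1 : dist x b ≤ d) (h2 : dist y b' ≤ d)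
    (hz : exc x y z ≤ a) (h3 : a + 4 * Y.δ + 2 * d < 2 * dist x z)
    (h4 : a + 4 * Y.δ + 2 * d < 2 * dist z y) :
    ∃ s ∈ Y.S B, dist z s ≤ (a + 4 * Y.δ) / 2 + Y.θ := by
  have hδ := Y.hδ
  have e1 : exc b y z ≤ a + 2 * Y.δ := by
    rcases exc_split Y.hyp x y b z with h5 | h5
    · exfalso
      have h6 := dist_triangle x b z
      unfold exc at h5 hz
      rw [dist_comm z b] at h5
      linarith
    · linarith
  have e2 : exc b b' z ≤ a + 4 * Y.δ := by
    rcases exc_split Y.hyp b y b' z with h5 | h5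
    · linarith
    · exfalso
      have h6 := dist_triangle z b' y
      rw [dist_comm b' y] at h6
      have h7 : exc b' y z ≤ a + 4 * Y.δ := by linarith
      unfold exc at h7
      rw [dist_comm b' z, dist_comm b' y] at h7
      linarith
  exact near_axis Y hb hb' e2

theorem nc_core {δ : ℝ} {o : Pt W} {g : Γ} (h : Lox δ o g) (hδ : 1 ≤ δ) {y : Γ}
    (hy : y ∉ Lox.E g) : ∃ f : Γ, ¬ IsOfFinOrder f ∧
      ∀ (s r : ℤ) (x : Γ), s ≠ 0 → f ^ s ≠ x * g ^ r * x⁻¹ := by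
  set Y := lsys h hδ with hY
  have hYδ : Y.δ = δ := rfl
  have hYS : Y.S = Lox.ax o g := rfl
  have hθ : δ ≤ Y.θ := Y.hθ
  set θ := Y.θ with hθd
  set A₀ : Γ ⧸ Lox.E g := ((1 : Γ) : Γ ⧸ Lox.E g) with hA₀
  have hfix : ∀ γ : Γ, γ • A₀ = A₀ ↔ γ ∈ Lox.E g := by
    intro γ
    have h1 : γ • A₀ = ((γ * 1 : Γ) : Γ ⧸ Lox.E g) := rfl
    rw [h1, mul_one, hA₀, QuotientGroup.eq, mul_one]
    exact inv_mem_iff
  have hline : ∀ i : ℤ, g ^ i • o ∈ Y.S A₀ := by
    intro i
    refine ⟨g ^ i, ?_, rfl⟩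
    have := (hfix (g ^ i)).2 (Lox.zpow_mem_E i)
    rw [← this]
    change _ = ((g ^ i * 1 : Γ) : Γ ⧸ Lox.E g)
    rw [mul_one]
  have ho : o ∈ Y.S A₀ := by
    have := hline 0
    rwa [zpow_zero, one_smul] at this
  set dy := dist o (y • o) with hdy
  have hdy0 : 0 ≤ dy := dist_nonneg
  set a : ℝ := 7 * θ + 6 * dy with ha
  set a' : ℝ := a + 4 * δ with ha'
  set C : ℝ := (a' + 4 * δ) / 2 + θ with hC
  obtain ⟨j, hj⟩ := exists_nat_gt (2 * C + 2 * dy + 4 * θ + a + 3 * δ + 1 + 10 * δ)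
  have hθ1 : 1 ≤ θ := hδ.trans hθ
  have htl : (j : ℝ) ≤ dist o (g ^ j • o) := h.tl_ge j
  set w : Γ := g ^ j * y with hw
  have hwE : w ∉ Lox.E g := by
    intro hcon
    apply hy
    have h1 : y = (g ^ (j : ℤ))⁻¹ * w := by rw [hw, zpow_natCast, inv_mul_cancel_left]
    rw [h1]
    exact mul_mem (inv_mem (Lox.zpow_mem_E _)) hcon
  -- the distance between `w o` and `g ^ j o`
  have hwd : dist (g ^ j • o) (w • o) = dy := by
    rw [hw, mul_smul, dist_smul]
  -- the corner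
  have hcorner : exc o (w ^ 2 • o) (w • o) ≤ a := by
    have h1 : exc o (w ^ 2 • o) (w • o) = exc (w⁻¹ • o) (w • o) o := by
      rw [← exc_smul w (w⁻¹ • o) (w • o) o, smul_inv_smul, smul_smul, pow_two]
    rw [h1]
    have hyA : A₀ ≠ y⁻¹ • A₀ := by
      intro h2
      apply hy
      have h3 := (hfix y⁻¹).1 h2.symm
      exact (inv_mem_iff).1 h3
    have hp : w⁻¹ • o ∈ Y.S (y⁻¹ • A₀) := by
      have h2 : w⁻¹ • o = y⁻¹ • g ^ (-(j : ℤ)) • o := by
        rw [hw, smul_smul, mul_inv_rev, zpow_neg, zpow_natCast]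
      rw [h2]
      exact Y.smul_mem _ _ _ (hline _)
    have hq : y⁻¹ • o ∈ Y.S (y⁻¹ • A₀) := Y.smul_mem _ _ _ ho
    obtain ⟨p', hp'⟩ := Y.proj A₀ (w⁻¹ • o)
    obtain ⟨u', hu'⟩ := Y.proj A₀ (y⁻¹ • o)
    have h2 := Y.small A₀ _ hyA _ hp _ hq
    have h3 := le_pd_of_proj hp' hu'
    have h4 := proj_dist_le hu' ho
    have h5 : dist (y⁻¹ • o) o = dy := by
      rw [← dist_smul y, smul_inv_smul]
    have h6 := dist_triangle4 p' u' (y⁻¹ • o) o
    rw [dist_comm u' (y⁻¹ • o)] at h6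
    have h7 := hp'.2 _ (hline j)
    have h8 : exc (w⁻¹ • o) (g ^ (j : ℤ) • o) p' ≤ θ := by
      unfold exc
      linarith
    have h9 := exc_move (w⁻¹ • o) (g ^ (j : ℤ) • o) p' o
    have h10 := exc_move_right (w⁻¹ • o) (g ^ (j : ℤ) • o) (w • o) o
    rw [zpow_natCast] at h8 h9 h10
    rw [hwd] at h10
    linarith
  have hlong : a + 3 * δ < dist o (w • o) := by
    have h1 := dist_triangle o (w • o) (g ^ j • o)
    rw [dist_comm (w • o), hwd] at h1
    have hC0 : 0 ≤ C := by rw [hC, ha', ha]; linarith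
    linarith
  have hlong' : a + 2 * δ + 1 ≤ dist o (w • o) := by
    have h1 := dist_triangle o (w • o) (g ^ j • o)
    rw [dist_comm (w • o), hwd] at h1
    have hC0 : 0 ≤ C := by rw [hC, ha', ha]; linarith
    linarith
  have ha0 : 0 ≤ a := by rw [ha]; linarith
  have e1 : ∀ i : ℕ, exc (w ^ i • o) (w ^ (i + 2) • o) (w ^ (i + 1) • o) ≤ a := by
    intro i
    have := exc_smul (w ^ i) o (w ^ 2 • o) (w • o)
    rw [smul_smul, smul_smul, ← pow_add, ← pow_succ] at this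
    rw [this]; exact hcorner
  have e2 : ∀ i : ℕ, dist (w ^ i • o) (w ^ (i + 1) • o) = dist o (w • o) := by
    intro i
    rw [pow_succ, mul_smul, dist_smul]
  refine ⟨w, inf_order h.hyp hcorner hlong, ?_⟩
  intro s r x hs heq
  set B : Γ ⧸ Lox.E g := x • A₀ with hB
  have hsB : w ^ s • B = B := by
    rw [heq, hB, smul_smul, mul_assoc, mul_assoc, inv_mul_cancel, mul_one, mul_smul,
      (hfix (g ^ r)).2 (Lox.zpow_mem_E r)]
  set n := s.natAbs with hn
  have hn1 : 1 ≤ n := by omega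
  have hnB : w ^ n • B = B := by
    rcases Int.natAbs_eq s with h1 | h1
    · rw [h1, zpow_natCast] at hsB
      exact hsB
    · rw [h1, zpow_neg, zpow_natCast, inv_smul_eq_iff] at hsB
      exact hsB.symm
  have hmB : ∀ m : ℕ, w ^ (n * m) • B = B := by
    intro m
    induction m with
    | zero => rw [mul_zero, pow_zero, one_smul]
    | succ m ih => rw [mul_add, mul_one, pow_add, mul_smul, hnB, ih]
  obtain ⟨b, hb⟩ := Y.Sne B
  set d₀ := dist o b with hd₀
  obtain ⟨m, hm⟩ := exists_nat_gt (a' + 4 * δ + 2 * d₀ + 4)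
  have hd₀0 : 0 ≤ d₀ := dist_nonneg
  have ha'0 : 0 ≤ a' := by rw [ha']; linarith
  have hm4 : (4 : ℝ) < m := by linarith
  have hm4' : 4 < m := by exact_mod_cast hm4
  have hnm : m ≤ n * m := Nat.le_mul_of_pos_left m hn1
  have hgrow : ∀ i k : ℕ, (k : ℝ) ≤ dist (w ^ i • o) (w ^ (i + k) • o) := by
    intro i k
    have h1 := bg_growth h.hyp (x := fun i => w ^ i • o) (a := a) (L := a + 2 * δ + 1) e1
      (fun i => by rw [e2]; exact hlong) (fun i => by rw [e2]; exact hlong') i k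
    have h2 : (k : ℝ) * (a + 2 * δ + 1 - a - 2 * δ) = k := by ring
    rw [h2] at h1
    exact h1
  have hex : ∀ i k l : ℕ, i ≤ k → k ≤ l → exc (w ^ i • o) (w ^ l • o) (w ^ k • o) ≤ a' := by
    intro i k l hik hkl
    exact bg h.hyp (x := fun i => w ^ i • o) ha0 e1 (fun i => by rw [e2]; exact hlong) hik hkl
  set b' := w ^ (n * (2 * m)) • b with hb'
  have hb'B : b' ∈ Y.S B := by
    have := Y.smul_mem (w ^ (n * (2 * m))) B b hb
    rwa [hmB] at this
  have hd' : dist (w ^ (n * (2 * m)) • o) b' = d₀ := by rw [hb', dist_smul]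
  have hmid : ∀ i : ℕ, i ≤ 2 → ∃ t ∈ Y.S B, dist (w ^ (n * m + i) • o) t ≤ C := by
    intro i hi
    have h1 : n * m + i ≤ n * (2 * m) := by
      have : n * (2 * m) = n * m + n * m := by ring
      omega
    have h2 := hex 0 (n * m + i) (n * (2 * m)) (by omega) h1
    rw [pow_zero, one_smul] at h2
    have h3 := hgrow 0 (n * m + i)
    rw [pow_zero, one_smul, zero_add] at h3
    have h4 := hgrow (n * m + i) (n * (2 * m) - (n * m + i))
    rw [show n * m + i + (n * (2 * m) - (n * m + i)) = n * (2 * m) by omega] at h4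
    have h5 : (m : ℝ) ≤ ((n * m + i : ℕ) : ℝ) := by exact_mod_cast (by omega : m ≤ n * m + i)
    have h6 : (m : ℝ) ≤ ((n * (2 * m) - (n * m + i) : ℕ) : ℝ) + 2 := by
      have : m ≤ n * (2 * m) - (n * m + i) + 2 := by
        have : n * (2 * m) = n * m + n * m := by ring
        omega
      exact_mod_cast this
    exact mid_near Y hb hb'B le_rfl (by rw [hd']) h2 (by rw [hYδ]; linarith)
      (by rw [hYδ]; linarith)
  -- the axes agree
  have hkey : ∀ i : ℕ, i ≤ 1 → B = w ^ (n * m + i) • A₀ := by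
    intro i hi
    by_contra hne
    obtain ⟨t, ht, htd⟩ := hmid i (by omega)
    obtain ⟨t', ht', htd'⟩ := hmid (i + 1) (by omega)
    have h1 := Y.smul_mem (w ^ (n * m + i)) A₀ o ho
    have h2 := Y.smul_mem (w ^ (n * m + i)) A₀ _ (hline j)
    have h3 := two_axes Y hne h1 h2 ht ht'
    rw [zpow_natCast, dist_smul] at h3
    have h4 : dist (w ^ (n * m + i) • g ^ j • o) (w ^ (n * m + (i + 1)) • o) = dy := by
      rw [← add_assoc, pow_succ, mul_smul, dist_smul, hwd]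
    have h5 := dist_triangle (w ^ (n * m + i) • g ^ j • o) (w ^ (n * m + (i + 1)) • o) t'
    linarith
  have h0 := hkey 0 (by omega)
  have h1 := hkey 1 le_rfl
  rw [add_zero] at h0
  rw [h0, pow_succ, mul_smul] at h1
  have h2 := smul_left_cancel _ h1
  exact hwE ((hfix w).1 h2.symm)

end nc

variable {Γ : Type*} [Group Γ]

theorem nc (hΓ : HypGroup Γ) {g y : Γ} (hg : ¬ IsOfFinOrder g)
    (hy : ∀ a b : ℤ, a ≠ 0 → b ≠ 0 → y * g ^ a * y⁻¹ ≠ g ^ b) :
    ∃ f : Γ, ¬ IsOfFinOrder f ∧ ∀ (s r : ℤ) (x : Γ), s ≠ 0 → f ^ s ≠ x * g ^ r * x⁻¹ := by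
  obtain ⟨W, δ, h⟩ := hΓ
  obtain ⟨J, hJ⟩ := lox_of_inf (GHyp.mono h (le_max_left δ 1)) (le_max_right δ 1)
  obtain ⟨j, hj, _, o, ho⟩ := hJ g hg
  have hj0 : (j : ℤ) ≠ 0 := by omega
  have hyE : y ∉ Lox.E (g ^ j) := by
    rintro ⟨a, b, ha, hb, hab⟩
    rw [← zpow_natCast, ← zpow_mul, ← zpow_mul] at hab
    exact hy _ _ (mul_ne_zero hj0 ha) (mul_ne_zero hj0 hb) hab
  obtain ⟨f, hf, hfs⟩ := nc_core ho (le_max_right δ 1) hyE
  refine ⟨f, hf, ?_⟩
  intro s r x hs heq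
  apply hfs (s * j) r x (mul_ne_zero hs hj0)
  rw [zpow_mul, heq, conj_zpow, ← zpow_mul, mul_comm r, zpow_mul, zpow_natCast]

end Pool.Agent.TH68.C
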