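import Pool.Agent.TH68.C.Step
import Pool.Agent.TH68.C.E2
import Pool.Agent.TH68.C.Nc
import Pool.Agent.TH68.Limit

set_option autoImplicit false
set_option linter.unusedSectionVars false

/-! The direct limit. -/

namespace Pool.Agent.TH68.C

open Pool.Agent.Helper97.Hyp Pool.Agent.TH68

section equiv

variable {G H : Type*} [Group G] [Group H]

lemma CGrp.of_equiv {c : G → Fin 3} (hG : CGrp G c) (e : H ≃* G) : CGrp H (fun x => c (e x)) where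
  hyp := hG.hyp.of_equiv e
  four x hx := by
    apply e.injective
    rw [map_pow, map_one]
    apply hG.four
    rw [← map_pow, hx, map_one]
  conj γ x hx := by
    rw [map_mul, map_mul, map_inv]
    exact hG.conj _ _ (by rwa [MulEquiv.orderOf_eq])
  comm x y hx hy hxy hne := hG.comm _ _ (by rwa [MulEquiv.orderOf_eq]) (by rwa [MulEquiv.orderOf_eq])
    (hxy.map e) (fun h => hne (e.injective h))
  odd x hx hodd := by
    have h1 := hG.odd (e x) (fun h => hx (by apply e.injective; rw [h, map_one]))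
      (by rwa [MulEquiv.orderOf_eq])
    refine (h1.preimage (f := e) e.injective.injOn).subset ?_
    intro y hy
    exact Commute.map hy e

lemma Sf.of_equiv (e : H ≃* G) {x : H} (h : Sf (e x)) : Sf x where
  inf hx := h.inf (e.toMonoidHom.isOfFinOrder hx)
  comm y hy hxy := h.comm (e y) (by rwa [MulEquiv.orderOf_eq]) (hxy.map e)
  inv y hy := h.inv (e y) (by rw [← map_mul, ← map_inv, ← map_mul, hy, map_inv])

lemma self_of_equiv (e : H ≃* G) {y : H}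
    (h : ∀ x : G, Commute x (e y) → x ∈ Subgroup.zpowers (e y)) (x : H) (hx : Commute x y) :
    x ∈ Subgroup.zpowers y := by
  obtain ⟨i, hi⟩ := h (e x) (hx.map e)
  refine ⟨i, e.injective ?_⟩
  have hi' : e y ^ i = e x := hi
  simp only [map_zpow]
  exact hi'

lemma pull_ker {Γ : Type*} [Group Γ] (K : Subgroup Γ) [K.Normal] (N : Subgroup (Γ ⧸ K))
    [N.Normal] : St.pull K N = ((QuotientGroup.mk' N).comp (QuotientGroup.mk' K)).ker := by
  ext x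
  rw [St.mem_pull, MonoidHom.mem_ker]
  exact (QuotientGroup.eq_one_iff _).symm

/-- the double quotient -/
noncomputable def dq {Γ : Type*} [Group Γ] (K : Subgroup Γ) [K.Normal] (N : Subgroup (Γ ⧸ K))
    [N.Normal] : (Γ ⧸ St.pull K N) ≃* ((Γ ⧸ K) ⧸ N) :=
  QuotientGroup.liftEquiv (φ := (QuotientGroup.mk' N).comp (QuotientGroup.mk' K))
    (St.pull K N) ((QuotientGroup.mk'_surjective N).comp (QuotientGroup.mk'_surjective K))
    (pull_ker K N)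

lemma dq_mk {Γ : Type*} [Group Γ] (K : Subgroup Γ) [K.Normal] (N : Subgroup (Γ ⧸ K))
    [N.Normal] (x : Γ) : dq K N (x : Γ ⧸ St.pull K N) = ((x : Γ ⧸ K) : (Γ ⧸ K) ⧸ N) := rfl

end equiv

section fact

variable {G : Type*} [Group G]

/-- a self centralizing element of odd prime order is not in a commensurator -/
lemma not_commens (hG : HypGroup G) {y : G} (hp : (orderOf y).Prime) (hp2 : orderOf y ≠ 2)
    (hself : ∀ x, Commute x y → x ∈ Subgroup.zpowers y) {u : G} (hu : ¬ IsOfFinOrder u)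
    (a b : ℤ) (ha : a ≠ 0) (_hb : b ≠ 0) : y * u ^ a * y⁻¹ ≠ u ^ b := by
  intro h
  have hyf : IsOfFinOrder y := by rw [← orderOf_pos_iff]; exact hp.pos
  have key : ¬ Commute y (u ^ a) := by
    intro hc
    exact inf_zpow hu ha (hyf.of_mem_zpowers (hself _ hc.symm))
  obtain ⟨W, δ, j, x, hj, hx⟩ := exists_lox hG hu
  have h1 : y * (u ^ j) ^ a * y⁻¹ = (u ^ j) ^ b := by
    have e : ∀ n : ℤ, (u ^ j) ^ n = (u ^ n) ^ j := by
      intro n
      rw [← zpow_natCast, ← zpow_natCast, ← zpow_mul, ← zpow_mul, mul_comm]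
    rw [e, e, ← conj_pow, h]
  have h2 := hx.natAbs_eq_of_conj h1
  rcases Int.natAbs_eq_natAbs_iff.mp h2 with h3 | h3
  · apply key
    rw [h3] at h
    exact mul_inv_eq_iff_eq_mul.mp h
  · rw [h3] at h
    have h4 : Commute (y ^ 2) (u ^ a) := by
      have : y ^ 2 * u ^ a * (y ^ 2)⁻¹ = u ^ a := by
        calc y ^ 2 * u ^ a * (y ^ 2)⁻¹ = y * (y * u ^ a * y⁻¹) * y⁻¹ := by
              rw [pow_two, mul_inv_rev]; simp only [mul_assoc]
          _ = y * (u ^ a)⁻¹ * y⁻¹ := by rw [h, zpow_neg]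
          _ = (y * u ^ a * y⁻¹)⁻¹ := by group
          _ = u ^ a := by rw [h, zpow_neg, inv_inv]
      exact mul_inv_eq_iff_eq_mul.mp this
    apply key
    obtain ⟨q, hq⟩ := hp.odd_of_ne_two hp2
    have h5 : y = (y ^ 2) ^ (q + 1) := by
      rw [← pow_mul, show 2 * (q + 1) = orderOf y + 1 by omega, pow_succ, pow_orderOf_eq_one,
        one_mul]
    rw [h5]
    exact h4.pow_left _

end fact

/-- a stage of the construction -/
structure Sta {Γ : Type*} [Group Γ] (L : Set Γ) (p : ℕ) (y : Γ) where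
  K : Subgroup Γ
  normal : K.Normal
  c : Γ ⧸ K → Fin 3
  cgrp : CGrp (Γ ⧸ K) c
  inf : Infinite (Γ ⧸ K)
  hL : ∀ x ∈ L, x ∉ K
  hy : y ^ p ∈ K
  self : ∀ x : Γ ⧸ K, Commute x (y : Γ ⧸ K) → x ∈ Subgroup.zpowers (y : Γ ⧸ K)

attribute [instance] Sta.normal Sta.inf

/-- the constant data -/
structure Dat {Γ : Type*} [Group Γ] (L : Set Γ) (p : ℕ) (y : Γ) : Prop where
  fin : L.Finite
  hyL : y ∈ L
  hp : p.Prime
  hp2 : p ≠ 2

namespace Sta

variable {Γ : Type*} [Group Γ] {L : Set Γ} {p : ℕ} {y : Γ}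

lemma ord_y (hD : Dat L p y) (S : Sta L p y) : orderOf (y : Γ ⧸ S.K) = p := by
  have := Fact.mk hD.hp
  apply orderOf_eq_prime
  · rw [← QuotientGroup.mk_pow, mk_eq_one]; exact S.hy
  · rw [Ne, mk_eq_one]; exact S.hL _ hD.hyL

/-- one kill, as a statement about the quotient -/
lemma kill_aux {G : Type*} [Group G] {c : G → Fin 3} (hG : CGrp G c) {y : G}
    (hp : (orderOf y).Prime) (hp2 : orderOf y ≠ 2)
    (hself : ∀ x, Commute x y → x ∈ Subgroup.zpowers y) {u : G} (hu : ¬ IsOfFinOrder u)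
    {B F : Set G} (hB : B.Finite) (hF : F.Finite) (m₁ : ℕ) :
    ∃ q : ℕ, m₁ ≤ q ∧ q.Prime ∧ ∃ (N : Subgroup G) (_ : N.Normal) (c' : G ⧸ N → Fin 3),
      Infinite (G ⧸ N) ∧ ∃ F', F ⊆ F' ∧ Out c u B F' q N c' := by
  obtain ⟨f, hf, hnc⟩ := nc hG.hyp hu (y := y) (not_commens hG.hyp hp hp2 hself hu)
  obtain ⟨q, hq1, hq, N, hN, c', hO⟩ := step hG hu hB (hF.insert f) m₁
  refine ⟨q, hq1, hq, N, hN, c', ?_, insert f F, Set.subset_insert _ _, hO⟩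
  by_contra hfin
  rw [not_infinite_iff_finite] at hfin
  obtain ⟨k, hk, hk1⟩ := (isOfFinOrder_of_finite (f : G ⧸ N)).exists_pow_eq_one
  rw [← QuotientGroup.mk_pow, mk_eq_one] at hk1
  exact hO.nc f (Set.mem_insert _ _) hf hnc k hk hk1

lemma kill (hD : Dat L p y) (S : Sta L p y) {u : Γ} (hu : ¬ IsOfFinOrder (u : Γ ⧸ S.K))
    (m₁ : ℕ) {T F : Set Γ} (hT : T.Finite) (hTK : ∀ x ∈ T, x ∉ S.K) (hF : F.Finite) :
    ∃ q : ℕ, m₁ ≤ q ∧ q.Prime ∧ ∃ S' : Sta L p y, S.K ≤ S'.K ∧ (∀ x ∈ T, x ∉ S'.K) ∧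
      (∃ k : ℕ, 0 < k ∧ u ^ k ∈ S'.K) ∧
      (∀ s t : Γ, orderOf (s : Γ ⧸ S.K) = 2 → orderOf (t : Γ ⧸ S.K) = 2 →
        S.c (s : Γ ⧸ S.K) = S.c (t : Γ ⧸ S.K) → u = s * t → u ^ q ∈ S'.K) ∧
      (Sf (u : Γ ⧸ S.K) → u ^ q ∈ S'.K) ∧
      (∀ f ∈ F, Sf (f : Γ ⧸ S.K) → Sf (f : Γ ⧸ S'.K) ∨ f ^ q ∈ S'.K) := by
  have hB : ((QuotientGroup.mk : Γ → Γ ⧸ S.K) '' (L ∪ T ∪ {1})).Finite :=
    ((hD.fin.union hT).union (Set.finite_singleton _)).image _
  have hF' : ((QuotientGroup.mk : Γ → Γ ⧸ S.K) '' F).Finite := hF.image _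
  have hyo := S.ord_y hD
  obtain ⟨q, hq1, hq, N, hN, c', hinf, F', hFF, hO⟩ := kill_aux S.cgrp
    (by rw [hyo]; exact hD.hp) (by rw [hyo]; exact hD.hp2) S.self hu hB hF' m₁
  have hnt : ∀ x ∈ L ∪ T, x ∉ S.K → x ∉ St.pull S.K N := by
    intro x hx hxK hxp
    rw [St.mem_pull] at hxp
    have h1 := hO.inj (1 : Γ ⧸ S.K) ⟨1, Or.inr rfl, rfl⟩ (x : Γ ⧸ S.K) ⟨x, Or.inl hx, rfl⟩
      (by rw [inv_one, one_mul]; exact hxp)
    exact hxK (mk_eq_one.mp h1.symm)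
  have hle : S.K ≤ St.pull S.K N := by
    intro x hx
    rw [St.mem_pull, mk_eq_one.mpr hx]
    exact one_mem _
  refine ⟨q, hq1, hq, ⟨St.pull S.K N, St.pull_normal _ _, fun x => c' (dq S.K N x),
    hO.cgrp.of_equiv (dq S.K N), ?_, ?_, hle S.hy, ?_⟩, hle, ?_, ?_, ?_, ?_, ?_⟩
  · exact (dq S.K N).toEquiv.infinite_iff.mpr hinf
  · intro x hx
    exact hnt x (Or.inl hx) (S.hL x hx)
  · apply self_of_equiv (dq S.K N)
    rw [dq_mk]
    apply hO.self (y : Γ ⧸ S.K) _ S.self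
    rw [hyo]
    exact hD.hp.odd_of_ne_two hD.hp2
  · intro x hx
    exact hnt x (Or.inr hx) (hTK x hx)
  · obtain ⟨k, hk, hk1⟩ := hO.tor
    exact ⟨k, hk, by rw [St.mem_pull, QuotientGroup.mk_pow]; exact hk1⟩
  · intro s t hs ht hc hst
    rw [St.mem_pull, QuotientGroup.mk_pow]
    exact hO.two _ _ hs ht hc (by rw [hst]; rfl)
  · intro h
    rw [St.mem_pull, QuotientGroup.mk_pow]
    exact (hO.sf h).1
  · intro f hf hsf
    rcases hO.keep (f : Γ ⧸ S.K) (hFF ⟨f, hf, rfl⟩) hsf with h | h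
    · left
      apply Sf.of_equiv (dq S.K N)
      rw [dq_mk]
      exact h
    · right
      rw [St.mem_pull, QuotientGroup.mk_pow]
      exact h

lemma ord_two_of_le {S S' : Sta L p y} (h : S.K ≤ S'.K) {a : Γ}
    (ha : orderOf (a : Γ ⧸ S.K) = 2) (ha' : a ∉ S'.K) : orderOf (a : Γ ⧸ S'.K) = 2 := by
  apply orderOf_eq_prime
  · rw [← QuotientGroup.mk_pow, mk_eq_one]
    apply h
    rw [← mk_eq_one, QuotientGroup.mk_pow, ← ha, pow_orderOf_eq_one]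
  · rw [Ne, mk_eq_one]; exact ha'

lemma not_mem_of_ord {S : Sta L p y} {a : Γ} (ha : orderOf (a : Γ ⧸ S.K) = 2) :
    a ∉ S.K := by
  intro h
  rw [← mk_eq_one] at h
  rw [h, orderOf_one] at ha
  omega

/-- finite order of a product of two conjugate involutions modulo the normal closure of `v` -/
lemma half (hD : Dat L p y) (S : Sta L p y) (m₁ : ℕ) {s x v : Γ}
    (hs : orderOf (s : Γ ⧸ S.K) = 2) (hv : v ∉ S.K) :
    ∃ q : ℕ, m₁ ≤ q ∧ q.Prime ∧ ∃ S' : Sta L p y, S.K ≤ S'.K ∧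
      s ∉ S'.K ∧ v ∉ S'.K ∧ (s * (x * s * x⁻¹)) ^ q ∈ Subgroup.normalClosure {v} ⊔ S'.K := by
  have hyo := S.ord_y hD
  set b := x * s * x⁻¹ with hb
  have hbo : orderOf (b : Γ ⧸ S.K) = 2 := by
    have h2 : ((b : Γ) : Γ ⧸ S.K) = MulAut.conj (x : Γ ⧸ S.K) (s : Γ ⧸ S.K) := rfl
    rw [h2, MulEquiv.orderOf_eq, hs]
  have hcb : S.c (s : Γ ⧸ S.K) = S.c (b : Γ ⧸ S.K) := (S.cgrp.conj (x : Γ ⧸ S.K) _ hs).symm
  obtain ⟨w, hw, hinf⟩ := e2 S.cgrp (y₀ := (y : Γ ⧸ S.K)) (by rw [hyo]; exact hD.hp)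
    (by rw [hyo]; exact hD.hp2) S.self hs hbo hcb (v := (v : Γ ⧸ S.K)) (by rwa [Ne, mk_eq_one])
  have h1 : Subgroup.normalClosure {(v : Γ ⧸ S.K)} =
      (Subgroup.normalClosure {v}).map (QuotientGroup.mk' S.K) := by
    rw [Subgroup.map_normalClosure _ _ (QuotientGroup.mk'_surjective S.K), Set.image_singleton]
    rfl
  rw [h1] at hw
  obtain ⟨w₀, hw₀, rfl⟩ := hw
  have hw₀' : w₀ ∈ Subgroup.normalClosure {v} := hw₀
  have hto : orderOf ((w₀⁻¹ * b * w₀ : Γ) : Γ ⧸ S.K) = 2 := by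
    have h2 : ((w₀⁻¹ * b * w₀ : Γ) : Γ ⧸ S.K) =
        MulAut.conj (w₀ : Γ ⧸ S.K)⁻¹ (b : Γ ⧸ S.K) := by
      rw [MulAut.conj_apply, inv_inv]; rfl
    rw [h2, MulEquiv.orderOf_eq, hbo]
  have hct : S.c (s : Γ ⧸ S.K) = S.c ((w₀⁻¹ * b * w₀ : Γ) : Γ ⧸ S.K) := by
    have h2 := S.cgrp.conj (w₀ : Γ ⧸ S.K)⁻¹ _ hbo
    rw [inv_inv] at h2
    rw [hcb]
    exact h2.symm
  obtain ⟨q, hq1, hq, S', h3, h4, -, h5, -, -⟩ := S.kill hD (u := s * (w₀⁻¹ * b * w₀)) hinf m₁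
    (T := {s, v}) (by simp) (by
      rintro z (rfl | rfl)
      · exact not_mem_of_ord hs
      · exact hv) (F := ∅) Set.finite_empty
  have h5' := h5 s _ hs hto hct rfl
  refine ⟨q, hq1, hq, S', h3, h4 s (by simp), h4 v (by simp), ?_⟩
  -- the two products agree modulo the normal closure of `v`
  set V := Subgroup.normalClosure {v} ⊔ S'.K with hV
  have hVn : V.Normal := Subgroup.sup_normal _ _
  have h6 : ((s * b : Γ) : Γ ⧸ V) = ((s * (w₀⁻¹ * b * w₀) : Γ) : Γ ⧸ V) := by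
    have h7 : (w₀ : Γ ⧸ V) = 1 := mk_eq_one.mpr ((le_sup_left : _ ≤ V) hw₀')
    simp only [QuotientGroup.mk_mul, QuotientGroup.mk_inv, h7]
    group
  rw [← mk_eq_one, QuotientGroup.mk_pow, h6, ← QuotientGroup.mk_pow, mk_eq_one]
  exact (le_sup_right : _ ≤ V) h5'

lemma task (hD : Dat L p y) (S : Sta L p y) (u x v : Γ) :
    ∃ S' : Sta L p y, S.K ≤ S'.K ∧ (∃ k : ℕ, 0 < k ∧ u ^ k ∈ S'.K) ∧
      (orderOf (u : Γ ⧸ S.K) = 2 → v ∉ S.K →
        u * (x * u * x⁻¹) ∈ Subgroup.normalClosure {v} ⊔ S'.K) := by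
  by_cases hu : IsOfFinOrder (u : Γ ⧸ S.K)
  swap
  · obtain ⟨q, -, -, S', h3, -, h4, -⟩ := S.kill hD hu 0 (T := ∅) Set.finite_empty (by simp)
      (F := ∅) Set.finite_empty
    refine ⟨S', h3, h4, fun h => ?_⟩
    exfalso
    apply hu
    rw [← orderOf_pos_iff, h]
    norm_num
  obtain ⟨k, hk, hk1⟩ := hu.exists_pow_eq_one
  rw [← QuotientGroup.mk_pow, mk_eq_one] at hk1
  by_cases hu2 : orderOf (u : Γ ⧸ S.K) = 2
  swap
  · exact ⟨S, le_rfl, ⟨k, hk, hk1⟩, fun h => absurd h hu2⟩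
  by_cases hv : v ∈ S.K
  · exact ⟨S, le_rfl, ⟨k, hk, hk1⟩, fun _ h => absurd hv h⟩
  obtain ⟨m, -, hm, S₂, h2, hu₂, hv2, h3⟩ := S.half hD 0 (x := x) hu2 hv
  obtain ⟨m', hmm', hm', S₃, h4, -, -, h5⟩ := S₂.half hD (m + 1) (x := x)
    (ord_two_of_le h2 hu2 hu₂) hv2
  refine ⟨S₃, h2.trans h4, ⟨k, hk, h4 (h2 hk1)⟩, fun _ _ => ?_⟩
  have h6 : (u * (x * u * x⁻¹)) ^ m ∈ Subgroup.normalClosure {v} ⊔ S₃.K :=
    (sup_le_sup_left h4 _ : Subgroup.normalClosure {v} ⊔ S₂.K ≤ _) h3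
  have h7 : IsCoprime (m : ℤ) (m' : ℤ) := by
    rw [Nat.isCoprime_iff_coprime, Nat.coprime_primes hm hm']
    omega
  obtain ⟨c, d, hcd⟩ := h7
  set z := u * (x * u * x⁻¹) with hz
  have h8 : z = (z ^ m) ^ c * (z ^ m') ^ d := by
    rw [← zpow_natCast, ← zpow_natCast, ← zpow_mul, ← zpow_mul, ← zpow_add]
    have : (m : ℤ) * c + (m' : ℤ) * d = 1 := by linarith
    rw [this, zpow_one]
  rw [h8]
  exact mul_mem (Subgroup.zpow_mem _ h6 _) (Subgroup.zpow_mem _ h5 _)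

end Sta

end Pool.Agent.TH68.C
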