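import Pool.Agent.TH68.C.Kill
import Pool.Agent.TH68.C.Croot

set_option autoImplicit false
set_option linter.unusedSectionVars false

/-! The quotient by a spinning family is in the class. -/

namespace Pool.Agent.TH68.C

open Pool.Agent.Helper97.Hyp Pool.Agent.TH68

section quot

variable {Γ : Type*} [Group Γ] {N : Subgroup Γ} [N.Normal]

lemma mk_eq_iff {a b : Γ} : (a : Γ ⧸ N) = b ↔ a⁻¹ * b ∈ N := QuotientGroup.eq

lemma mk_eq_one {a : Γ} : (a : Γ ⧸ N) = 1 ↔ a ∈ N := QuotientGroup.eq_one_iff a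

lemma mk_mul_left {n a : Γ} (hn : n ∈ N) : ((n * a : Γ) : Γ ⧸ N) = a := by
  rw [QuotientGroup.mk_mul, mk_eq_one.mpr hn, one_mul]

lemma mk_eq_iff' {a b : Γ} : (a : Γ ⧸ N) = b ↔ b * a⁻¹ ∈ N := by
  rw [← mk_eq_one (N := N), QuotientGroup.mk_mul, QuotientGroup.mk_inv, mul_inv_eq_one]
  exact eq_comm

/-- closest translates -/
lemma exists_red {W : WNorm Γ} (N : Subgroup Γ) (p q : Pt W) :
    ∃ n ∈ N, ∀ n' ∈ N, dist p (n • q) ≤ dist p (n' • q) := by
  have h1 : ∃ k : ℕ, ∃ n ∈ N, nd p (n • q) = k := ⟨_, 1, one_mem _, rfl⟩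
  classical
  obtain ⟨n, hn, hk⟩ := Nat.find_spec h1
  refine ⟨n, hn, fun n' hn' => ?_⟩
  rw [dist_eq_nd, dist_eq_nd, hk]
  exact_mod_cast Nat.find_min' h1 ⟨n', hn', rfl⟩

/-- the colour of an element of the quotient -/
noncomputable def qc (c : Γ → Fin 3) (N : Subgroup Γ) [N.Normal] (c₃ : Fin 3) (x : Γ ⧸ N) :
    Fin 3 := by
  classical
  exact if h : ∃ v : Γ, (v : Γ ⧸ N) = x ∧ orderOf v = 2 then c h.choose else c₃

lemma qc_mk {c : Γ → Fin 3} {c₃ : Fin 3}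
    (hcol : ∀ x x' : Γ, orderOf x = 2 → orderOf x' = 2 → x' * x⁻¹ ∈ N → c x = c x') {v : Γ}
    (hv : orderOf v = 2) : qc c N c₃ (v : Γ ⧸ N) = c v := by
  have h : ∃ v' : Γ, (v' : Γ ⧸ N) = (v : Γ ⧸ N) ∧ orderOf v' = 2 := ⟨v, rfl, hv⟩
  unfold qc
  rw [dif_pos h]
  exact hcol _ _ h.choose_spec.2 hv (mk_eq_iff'.mp h.choose_spec.1)

lemma qc_not {c : Γ → Fin 3} {c₃ : Fin 3} {x : Γ ⧸ N}
    (h : ¬ ∃ v : Γ, (v : Γ ⧸ N) = x ∧ orderOf v = 2) : qc c N c₃ x = c₃ := by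
  unfold qc
  rw [dif_neg h]

end quot

namespace RD

variable {Γ : Type*} [Group Γ] {W : WNorm Γ} {c : Γ → Fin 3} (D : RD Γ W c)

/-- the properties of a large exponent -/
structure Env (p m : ℕ) (C : ℝ) (N : Subgroup Γ) [N.Normal] : Prop where
  grp : CGrp Γ c
  kil : D.Kil p m
  hN : N = D.nk m
  dvd : ∀ s : ℤ, D.g ^ s ∈ N → (m : ℤ) ∣ s
  ninf : ∀ n ∈ N, n ≠ 1 → ¬ IsOfFinOrder n
  hyp : HypGroup (Γ ⧸ N)
  hC : 100 * D.δ ≤ C
  hC1 : dist D.o (D.g • D.o) ≤ C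
  hC2 : dist D.o (D.g ^ 2 • D.o) ≤ C
  h1 : ∀ u : Γ, ∀ k : ℕ, 0 < k → u ^ k ∈ N →
      ∃ n ∈ N, IsOfFinOrder (n * u) ∨ ∃ A : Γ ⧸ D.E, (n * u) • A = A
  h23 : ∀ (y y' : Γ) (p q : Pt W), y' * y⁻¹ ∈ N → y ≠ y' →
      dist p (y • p) ≤ C → dist q (y' • q) ≤ C → (∀ n ∈ N, dist p q ≤ dist p (n • q)) →
      orderOf y' = 2
  col : ∀ x x' : Γ, orderOf x = 2 → orderOf x' = 2 → x' * x⁻¹ ∈ N → c x = c x'
  h4 : ∀ a b : Γ, orderOf a = 2 → orderOf b = 2 → (a * b) ^ 2 ∈ N → a * b ∉ N → c a ≠ c b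
  hcz : m = 2 * p → ∀ f : Γ, f * D.g ^ p * f⁻¹ * (D.g ^ p)⁻¹ ∈ N → ∃ n ∈ N, n * f ∈ D.E

variable {D} {p m : ℕ} {C : ℝ} {N : Subgroup Γ} [hNn : N.Normal]

namespace Env

/-- lifting commuting elements -/
lemma lift_comm (H : D.Env p m C N) {y z : Γ} (hy : ∃ p : Pt W, dist p (y • p) ≤ C)
    (hy2 : orderOf y ≠ 2) (hc : Commute (z : Γ ⧸ N) (y : Γ ⧸ N)) : ∃ n ∈ N, Commute (n * z) y := by
  obtain ⟨p, hp⟩ := hy
  obtain ⟨n, hn, hmin⟩ := exists_red N p (z • p)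
  refine ⟨n, hn, ?_⟩
  by_contra hne
  have h1 : orderOf ((n * z) * y * (n * z)⁻¹) = orderOf y := by
    rw [← MulAut.conj_apply, MulEquiv.orderOf_eq]
  apply hy2
  rw [← h1]
  apply H.h23 y ((n * z) * y * (n * z)⁻¹) p ((n * z) • p)
  · rw [← mk_eq_one (N := N)]
    have h2 : ((n * z * y * (n * z)⁻¹ * y⁻¹ : Γ) : Γ ⧸ N) =
        (z : Γ ⧸ N) * y * (z : Γ ⧸ N)⁻¹ * (y : Γ ⧸ N)⁻¹ := by
      have h3 : ((n * z : Γ) : Γ ⧸ N) = z := mk_mul_left hn
      rw [QuotientGroup.mk_mul, QuotientGroup.mk_mul, QuotientGroup.mk_mul, QuotientGroup.mk_inv,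
        QuotientGroup.mk_inv, h3]
    rw [h2, hc.eq]
    group
  · intro h
    apply hne
    have h4 : y * (n * z) = n * z * y := by
      conv_lhs => rw [h]
      group
    exact h4.symm
  · exact hp
  · have h5 : (n * z * y * (n * z)⁻¹) • (n * z) • p = (n * z) • y • p := by
      rw [smul_smul, smul_smul]; congr 1; group
    rw [h5, dist_smul]
    exact hp
  · intro n' hn'
    have := hmin (n' * n) (mul_mem hn' hn)
    rw [smul_smul, smul_smul] at this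
    rw [smul_smul, ← mul_assoc]
    exact this

lemma gm_mem (H : D.Env p m C N) : D.g ^ (m : ℤ) ∈ N := by
  rw [H.hN, zpow_natCast]; exact D.pow_mem_nk

lemma mem_iff (H : D.Env p m C N) {s : ℤ} : D.g ^ s ∈ N ↔ (m : ℤ) ∣ s := by
  refine ⟨H.dvd s, ?_⟩
  rintro ⟨t, rfl⟩
  rw [zpow_mul]
  exact Subgroup.zpow_mem _ H.gm_mem t

/-- lifts of elements of finite order -/
lemma lift_ord (H : D.Env p m C N) {x : Γ ⧸ N} (hx : IsOfFinOrder x) :
    ∃ v : Γ, (v : Γ ⧸ N) = x ∧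
      (IsOfFinOrder v ∨ ∃ (h κ : Γ) (t : ℤ), κ ∈ D.K ∧ v = h * (κ * D.g ^ t) * h⁻¹) := by
  obtain ⟨u, rfl⟩ := QuotientGroup.mk_surjective x
  obtain ⟨k, hk, hk1⟩ := hx.exists_pow_eq_one
  rw [← QuotientGroup.mk_pow, mk_eq_one] at hk1
  obtain ⟨n, hn, h2⟩ := H.h1 u k hk hk1
  refine ⟨n * u, mk_mul_left hn, ?_⟩
  rcases h2 with h2 | ⟨A, hA⟩
  · exact Or.inl h2
  · rcases D.stab_or hA with ⟨κ, hκ, t, ht⟩ | ⟨h3, -⟩
    · exact Or.inr ⟨A.out, κ, t, hκ, ht⟩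
    · left
      rw [← orderOf_pos_iff, h3]; norm_num

lemma pow_one_of (H : D.Env p m C N) {v : Γ} (hv : IsOfFinOrder v) {n : ℕ} (h : v ^ n ∈ N) :
    v ^ n = 1 := by
  by_contra hne
  exact H.ninf _ h hne hv.pow

lemma conj_mem_iff {h x : Γ} : h * x * h⁻¹ ∈ N ↔ x ∈ N := by
  constructor
  · intro hx
    have := hNn.conj_mem _ hx h⁻¹
    have e : h⁻¹ * (h * x * h⁻¹) * h⁻¹⁻¹ = x := by group
    rwa [e] at this
  · intro hx
    exact hNn.conj_mem _ hx h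

lemma K_inj (H : D.Env p m C N) {κ : Γ} (hκ : κ ∈ D.K) (h : κ ∈ N) : κ = 1 := by
  by_contra hne
  apply H.ninf κ h hne
  rw [isOfFinOrder_iff_pow_eq_one]
  exact ⟨2, by norm_num, D.root.sq κ hκ⟩

/-- an involution of the quotient lifts to an involution, or is a half rotation -/
lemma inv_or (H : D.Env p m C N) {x : Γ ⧸ N} (hx : orderOf x = 2) :
    (∃ v : Γ, (v : Γ ⧸ N) = x ∧ orderOf v = 2) ∨
      (m = 2 * p ∧ ∃ h : Γ, x = ((h * D.g ^ p * h⁻¹ : Γ) : Γ ⧸ N)) := by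
  have hx1 : x ≠ 1 := by
    rintro rfl
    rw [orderOf_one] at hx
    omega
  have hxf : IsOfFinOrder x := by
    rw [← orderOf_pos_iff, hx]; norm_num
  obtain ⟨v, rfl, hv⟩ := H.lift_ord hxf
  have hv2 : v ^ 2 ∈ N := by
    rw [← mk_eq_one, QuotientGroup.mk_pow, ← hx, pow_orderOf_eq_one]
  have hv1 : v ∉ N := fun h => hx1 (mk_eq_one.mpr h)
  rcases hv with hv | ⟨h, κ, t, hκ, rfl⟩
  · left
    refine ⟨v, rfl, orderOf_eq_prime (H.pow_one_of hv hv2) ?_⟩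
    rintro rfl
    exact hv1 (one_mem _)
  · rw [conj_pow, conj_mem_iff, sq_eq hκ] at hv2
    rw [conj_mem_iff] at hv1
    have e1 := H.dvd _ hv2
    have e2 := H.kil.dvd_two e1
    rcases H.kil.alt with ⟨hm, -⟩ | ⟨hm, hK, -⟩
    · left
      have e3 : D.g ^ t ∈ N := H.mem_iff.mpr (by rw [hm]; exact e2)
      have hκ1 : κ ≠ 1 := by
        rintro rfl
        rw [one_mul] at hv1
        exact hv1 e3
      have hκ2 : orderOf κ = 2 := orderOf_eq_prime (D.root.sq κ hκ) hκ1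
      refine ⟨h * κ * h⁻¹, ?_, ?_⟩
      · rw [mk_eq_iff]
        have e4 : (h * κ * h⁻¹)⁻¹ * (h * (κ * D.g ^ t) * h⁻¹) = h * D.g ^ t * h⁻¹ := by group
        rw [e4]
        exact conj_mem_iff.mpr e3
      · rw [← MulAut.conj_apply, MulEquiv.orderOf_eq, hκ2]
    · right
      refine ⟨hm, h, ?_⟩
      rw [hK, Subgroup.mem_bot] at hκ
      subst hκ
      rw [one_mul] at hv1
      have hp : Prime (p : ℤ) := Nat.prime_iff_prime_int.mp H.kil.hp
      obtain ⟨s, hs⟩ := e2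
      have hodd : Odd s := by
        rw [← Int.not_even_iff_odd]
        rintro ⟨i, hi⟩
        apply hv1
        rw [H.mem_iff, hm, hs, hi]
        push_cast
        exact ⟨i, by ring⟩
      obtain ⟨i, hi⟩ := hodd
      symm
      rw [mk_eq_iff]
      have e4 : (h * D.g ^ p * h⁻¹)⁻¹ * (h * (1 * D.g ^ t) * h⁻¹) =
          h * D.g ^ (t - p) * h⁻¹ := by
        rw [sub_eq_neg_add, zpow_add, zpow_neg, zpow_natCast]; group
      rw [e4, conj_mem_iff, H.mem_iff, hs, hi, hm]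
      push_cast
      exact ⟨i, by ring⟩

/-- the centralizer of a nontrivial power of the root is finite in the quotient -/
lemma fin_g (H : D.Env p m C N) {e : ℕ} (he0 : 0 < e)
    (he : dist D.o (D.g ^ e • D.o) ≤ C) :
    {y : Γ ⧸ N | Commute y ((D.g ^ e : Γ) : Γ ⧸ N)}.Finite := by
  have hm := H.kil.pos
  have hKf := D.root.fin
  have hfin : ((fun q : Γ × ℤ => ((q.1 * D.g ^ q.2 : Γ) : Γ ⧸ N)) ''
      ((D.K : Set Γ) ×ˢ Set.Icc (0 : ℤ) (m - 1))).Finite := by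
    apply Set.Finite.image
    exact hKf.prod (Set.finite_Icc _ _)
  apply hfin.subset
  intro y hy
  obtain ⟨z, rfl⟩ := QuotientGroup.mk_surjective y
  have hne : orderOf (D.g ^ e) ≠ 2 := by
    intro h9
    have h10 : (D.g ^ e) ^ 2 = 1 := by rw [← h9, pow_orderOf_eq_one]
    apply D.root.inf
    rw [isOfFinOrder_iff_pow_eq_one]
    exact ⟨e * 2, by omega, by rw [pow_mul]; exact h10⟩
  obtain ⟨n, hn, hc⟩ := H.lift_comm ⟨D.o, he⟩ hne hy
  obtain ⟨κ, hκ, j, hj⟩ := D.root.cent (n * z) e (by omega) (by rw [zpow_natCast]; exact hc)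
  refine ⟨(κ, j % m), ⟨hκ, ?_, ?_⟩, ?_⟩
  · exact Int.emod_nonneg _ (by omega)
  · have := Int.emod_lt_of_pos j (b := (m : ℤ)) (by omega)
    simp only
    omega
  · simp only
    rw [← mk_mul_left (N := N) hn (a := z), hj, mk_eq_iff]
    have e1 : (κ * D.g ^ (j % m))⁻¹ * (κ * D.g ^ j) = D.g ^ (j - j % m) := by
      rw [zpow_sub]
      have := ((Commute.refl D.g).zpow_zpow j (-(j % m)))
      rw [mul_inv_rev]
      calc (D.g ^ (j % (m : ℤ)))⁻¹ * κ⁻¹ * (κ * D.g ^ j) = D.g ^ (-(j % (m : ℤ))) * D.g ^ j := by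
            rw [zpow_neg]; group
        _ = D.g ^ j * (D.g ^ (j % (m : ℤ)))⁻¹ := by rw [← this.eq, zpow_neg]
    rw [e1, H.mem_iff]
    exact Int.dvd_self_sub_emod

lemma fin_conj {x h : Γ} (hf : {y : Γ ⧸ N | Commute (x : Γ ⧸ N) y}.Finite) :
    {y : Γ ⧸ N | Commute ((h * x * h⁻¹ : Γ) : Γ ⧸ N) y}.Finite := by
  refine (hf.image (MulAut.conj (h : Γ ⧸ N))).subset ?_
  intro y hy
  refine ⟨(MulAut.conj (h : Γ ⧸ N))⁻¹ y, ?_, ?_⟩
  · have h1 : Commute ((h * x * h⁻¹ : Γ) : Γ ⧸ N) y := hy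
    have h2 := h1.map (MulAut.conj (h : Γ ⧸ N))⁻¹
    have h3 : (MulAut.conj (h : Γ ⧸ N))⁻¹ ((h * x * h⁻¹ : Γ) : Γ ⧸ N) = (x : Γ ⧸ N) := by
      rw [MulAut.conj_inv_apply, QuotientGroup.mk_mul, QuotientGroup.mk_mul, QuotientGroup.mk_inv]
      group
    rw [h3] at h2
    exact h2
  · exact MulAut.apply_inv_self _ _ _

/-- elements of odd order have finite centralizers -/
lemma odd (H : D.Env p m C N) {x : Γ ⧸ N} (hx1 : x ≠ 1) (hx : Odd (orderOf x)) :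
    {y : Γ ⧸ N | Commute x y}.Finite := by
  have hxf : IsOfFinOrder x := by
    rw [← orderOf_pos_iff]; exact hx.pos
  set n := orderOf x with hn
  have hxn : x ^ n = 1 := pow_orderOf_eq_one x
  obtain ⟨v, rfl, hv⟩ := H.lift_ord hxf
  have hvn : v ^ n ∈ N := by rw [← mk_eq_one, QuotientGroup.mk_pow]; exact hxn
  rcases hv with hv | ⟨h, κ, t, hκ, rfl⟩
  · have h1 := H.pow_one_of hv hvn
    have h2 : orderOf v ∣ n := orderOf_dvd_of_pow_eq_one h1
    have h3 : Odd (orderOf v) := hx.of_dvd_nat h2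
    have hv1 : v ≠ 1 := by
      rintro rfl
      exact hx1 rfl
    have h4 := H.grp.odd v hv1 h3
    refine (h4.image (fun y : Γ => (y : Γ ⧸ N))).subset ?_
    intro y hy
    obtain ⟨z, rfl⟩ := QuotientGroup.mk_surjective y
    obtain ⟨q, hq⟩ := disp_of_fin D.lox.hyp D.hδ v hv
    have h5 : orderOf v ≠ 2 := by
      intro h6
      rw [h6] at h3
      exact absurd h3 (by decide)
    have hy' : Commute (v : Γ ⧸ N) (z : Γ ⧸ N) := hy
    obtain ⟨n', hn', hc⟩ := H.lift_comm ⟨q, hq.trans H.hC⟩ h5 hy'.symm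
    exact ⟨n' * z, hc.symm, mk_mul_left hn'⟩
  · apply fin_conj
    have hvn' : κ ^ n * D.g ^ (t * n) ∈ N := by
      rw [conj_pow, conj_mem_iff, pow_eq hκ] at hvn
      exact hvn
    have hκn : κ ^ n = κ := by
      obtain ⟨i, hi⟩ := hx
      rw [hi, pow_succ, pow_mul, D.root.sq κ hκ, one_pow, one_mul]
    rw [hκn] at hvn'
    have e1 : D.g ^ (2 * (t * n)) ∈ N := by
      rw [← sq_eq hκ]
      exact Subgroup.pow_mem _ hvn' 2
    have e2 := H.dvd _ e1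
    have e3 := H.kil.dvd_two e2
    have hp : Prime (p : ℤ) := Nat.prime_iff_prime_int.mp H.kil.hp
    -- `κ = 1`, `m ∣ t n`
    have hκ1 : κ = 1 ∧ D.g ^ (t * n) ∈ N := by
      rcases H.kil.alt with ⟨hm, -⟩ | ⟨hm, hK, -⟩
      · have e4 : D.g ^ (t * n) ∈ N := H.mem_iff.mpr (by rw [hm]; exact e3)
        refine ⟨H.K_inj hκ ?_, e4⟩
        have := mul_mem hvn' (inv_mem e4)
        rwa [mul_inv_cancel_right] at this
      · rw [hK, Subgroup.mem_bot] at hκ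
        subst hκ
        rw [one_mul] at hvn'
        exact ⟨rfl, hvn'⟩
    obtain ⟨rfl, e4⟩ := hκ1
    rw [one_mul] at hx1 ⊢
    have e5 := H.dvd _ e4
    have e6 : ¬ (m : ℤ) ∣ t := by
      intro h6
      apply hx1
      rw [mk_eq_one, conj_mem_iff, H.mem_iff]
      exact h6
    -- a power of `g ^ t` is `g` or `g ^ 2`
    have key : ∃ (e : ℕ) (a : ℤ), 0 < e ∧ dist D.o (D.g ^ e • D.o) ≤ C ∧
        (m : ℤ) ∣ (e : ℤ) - t * a := by
      rcases H.kil.alt with ⟨hm, -⟩ | ⟨hm, hK, -⟩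
      · rw [hm] at e6
        obtain ⟨a, b, hab⟩ : IsCoprime t (p : ℤ) := by
          apply IsCoprime.symm
          rw [hp.coprime_iff_not_dvd]
          exact e6
        refine ⟨1, a, one_pos, by rw [pow_one]; exact H.hC1, ⟨b, ?_⟩⟩
        rw [hm]
        push_cast
        linarith
      · have h2t : Even t := by
          have h7 : Even (t * n) := by
            obtain ⟨s, hs⟩ := e5
            rw [hs, hm]
            push_cast
            exact ⟨p * s, by ring⟩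
          rw [Int.even_mul] at h7
          rcases h7 with h8 | h8
          · exact h8
          · exfalso
            have h9 : Even n := by exact_mod_cast h8
            exact (Nat.not_even_iff_odd.mpr hx) h9
        obtain ⟨r, hr⟩ := h2t
        have hpr : ¬ (p : ℤ) ∣ r := by
          rintro ⟨q, hq⟩
          apply e6
          rw [hm, hr, hq]
          push_cast
          exact ⟨q, by ring⟩
        obtain ⟨a, b, hab⟩ : IsCoprime r (p : ℤ) := by
          apply IsCoprime.symm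
          rw [hp.coprime_iff_not_dvd]
          exact hpr
        refine ⟨2, a, two_pos, H.hC2, ⟨b, ?_⟩⟩
        rw [hm, hr]
        push_cast
        linarith
    obtain ⟨e, a, he0, heC, hea⟩ := key
    refine (H.fin_g he0 heC).subset ?_
    intro y hy
    have hy' : Commute ((D.g ^ t : Γ) : Γ ⧸ N) y := hy
    have h7 : ((D.g ^ e : Γ) : Γ ⧸ N) = ((D.g ^ t : Γ) : Γ ⧸ N) ^ a := by
      rw [← QuotientGroup.mk_zpow, ← zpow_mul]
      symm
      rw [mk_eq_iff, ← zpow_neg, ← zpow_natCast D.g e, ← zpow_add, neg_add_eq_sub, H.mem_iff]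
      exact hea
    change Commute y _
    rw [h7]
    exact (hy'.zpow_left a).symm

/-- the quotient is in the class -/
theorem cgrp (H : D.Env p m C N) {c₃ : Fin 3} (h3 : m = 2 * p → ∀ y, D.Flip y → c y ≠ c₃) :
    CGrp (Γ ⧸ N) (qc c N c₃) where
  hyp := H.hyp
  four x hx := by
    have hxf : IsOfFinOrder x := isOfFinOrder_iff_pow_eq_one.mpr ⟨4, by norm_num, hx⟩
    obtain ⟨v, rfl, hv⟩ := H.lift_ord hxf
    rw [← QuotientGroup.mk_pow, mk_eq_one] at hx ⊢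
    rcases hv with hv | ⟨h, κ, t, hκ, rfl⟩
    · rw [H.grp.four v (H.pow_one_of hv hx)]
      exact one_mem _
    · rw [conj_pow, conj_mem_iff] at hx ⊢
      rw [sq_eq hκ, H.mem_iff]
      apply H.kil.dvd_four
      rw [← H.mem_iff]
      have e1 : (κ * D.g ^ t) ^ 4 = D.g ^ (4 * t) := by
        rw [show (4 : ℕ) = 2 * 2 by norm_num, pow_mul, sq_eq hκ, ← zpow_natCast, ← zpow_mul]
        congr 1
        push_cast
        ring
      rwa [e1] at hx
  conj γ x hx := by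
    obtain ⟨h, rfl⟩ := QuotientGroup.mk_surjective γ
    by_cases hv : ∃ v : Γ, (v : Γ ⧸ N) = x ∧ orderOf v = 2
    · obtain ⟨v, rfl, hv⟩ := hv
      rw [qc_mk H.col hv]
      have e1 : ((h : Γ) : Γ ⧸ N) * (v : Γ ⧸ N) * ((h : Γ) : Γ ⧸ N)⁻¹ =
          ((h * v * h⁻¹ : Γ) : Γ ⧸ N) := rfl
      have e2 : orderOf (h * v * h⁻¹) = 2 := by
        rw [← MulAut.conj_apply, MulEquiv.orderOf_eq, hv]
      rw [e1, qc_mk H.col e2, H.grp.conj _ _ hv]
    · rw [qc_not hv, qc_not]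
      rintro ⟨v, hv1, hv2⟩
      apply hv
      refine ⟨h⁻¹ * v * h, ?_, ?_⟩
      · rw [QuotientGroup.mk_mul, QuotientGroup.mk_mul, hv1, QuotientGroup.mk_inv]
        change ((h : Γ) : Γ ⧸ N)⁻¹ * (((h : Γ) : Γ ⧸ N) * x * ((h : Γ) : Γ ⧸ N)⁻¹) *
          ((h : Γ) : Γ ⧸ N) = x
        group
      · have : h⁻¹ * v * h = h⁻¹ * v * h⁻¹⁻¹ := by rw [inv_inv]
        rw [this, ← MulAut.conj_apply, MulEquiv.orderOf_eq, hv2]
  comm := by
    -- the main case
    have main : ∀ x y : Γ ⧸ N, orderOf x = 2 → orderOf y = 2 → Commute x y → x ≠ y →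
        (¬ ∃ v : Γ, (v : Γ ⧸ N) = x ∧ orderOf v = 2) → qc c N c₃ x ≠ qc c N c₃ y := by
      intro x y hx hy hxy hne hxl
      rcases H.inv_or hx with h1 | ⟨hm, h, rfl⟩
      · exact absurd h1 hxl
      obtain ⟨z, rfl⟩ := QuotientGroup.mk_surjective y
      -- `z` conjugated into the stabilizer
      have h4 : (h⁻¹ * z * h) * D.g ^ p * (h⁻¹ * z * h)⁻¹ * (D.g ^ p)⁻¹ ∈ N := by
        have h5 : ((h⁻¹ * z * h * D.g ^ p * (h⁻¹ * z * h)⁻¹ * (D.g ^ p)⁻¹ : Γ) : Γ ⧸ N) =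
            ((h⁻¹ : Γ) : Γ ⧸ N) * ((z : Γ ⧸ N) * ((h * D.g ^ p * h⁻¹ : Γ) : Γ ⧸ N)) *
              ((z⁻¹ * h * (D.g ^ p)⁻¹ : Γ) : Γ ⧸ N) := by
          rw [← QuotientGroup.mk_mul, ← QuotientGroup.mk_mul, ← QuotientGroup.mk_mul]
          congr 1
          group
        rw [← mk_eq_one, h5, ← hxy.eq, ← QuotientGroup.mk_mul, ← QuotientGroup.mk_mul,
          ← QuotientGroup.mk_mul, mk_eq_one]
        have h6 : h⁻¹ * (h * D.g ^ p * h⁻¹ * z) * (z⁻¹ * h * (D.g ^ p)⁻¹) = 1 := by group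
        rw [h6]
        exact one_mem _
      obtain ⟨n, hn, hE⟩ := H.hcz hm _ h4
      rcases H.kil.alt with ⟨hm', -⟩ | ⟨-, hK, -, -⟩
      · exfalso
        have := H.kil.hp.pos
        omega
      have hz : (z : Γ ⧸ N) = ((h * (n * (h⁻¹ * z * h)) * h⁻¹ : Γ) : Γ ⧸ N) := by
        rw [QuotientGroup.mk_mul, QuotientGroup.mk_mul, mk_mul_left hn, ← QuotientGroup.mk_mul,
          ← QuotientGroup.mk_mul]
        congr 1
        group
      set e := n * (h⁻¹ * z * h) with he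
      rcases D.mem_E hE with ⟨κ, hκ, t, ht⟩ | ⟨h7, h8, -⟩
      · exfalso
        rw [hK, Subgroup.mem_bot] at hκ
        rw [hκ, one_mul] at ht
        have hy2 : D.g ^ (2 * t) ∈ N := by
          have h9 : (z : Γ ⧸ N) ^ 2 = 1 := by rw [← hy, pow_orderOf_eq_one]
          rw [hz, ← QuotientGroup.mk_pow, mk_eq_one, conj_pow, conj_mem_iff, ht,
            ← zpow_natCast, ← zpow_mul] at h9
          rw [mul_comm]
          exact h9
        have e2 := H.kil.dvd_two (H.dvd _ hy2)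
        obtain ⟨s, hs⟩ := e2
        have hy1 : D.g ^ t ∉ N := by
          intro h9
          have h10 : (z : Γ ⧸ N) = 1 := by
            rw [hz, mk_eq_one, conj_mem_iff, ht]
            exact h9
          rw [h10, orderOf_one] at hy
          omega
        have hodd : Odd s := by
          rw [← Int.not_even_iff_odd]
          rintro ⟨i, hi⟩
          apply hy1
          rw [H.mem_iff, hm, hs, hi]
          push_cast
          exact ⟨i, by ring⟩
        obtain ⟨i, hi⟩ := hodd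
        apply hne
        rw [hz, ht, mk_eq_iff]
        have e4 : (h * D.g ^ p * h⁻¹)⁻¹ * (h * D.g ^ t * h⁻¹) =
            h * D.g ^ (t - p) * h⁻¹ := by
          rw [sub_eq_neg_add, zpow_add, zpow_neg, zpow_natCast]; group
        rw [e4, conj_mem_iff, H.mem_iff, hs, hi, hm]
        push_cast
        exact ⟨i, by ring⟩
      · rw [qc_not hxl, hz, qc_mk H.col (by rw [← MulAut.conj_apply, MulEquiv.orderOf_eq, h7]),
          H.grp.conj _ _ h7]
        exact (h3 hm e h8).symm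
    intro x y hx hy hxy hne
    by_cases hxl : ∃ v : Γ, (v : Γ ⧸ N) = x ∧ orderOf v = 2
    swap
    · exact main x y hx hy hxy hne hxl
    by_cases hyl : ∃ v : Γ, (v : Γ ⧸ N) = y ∧ orderOf v = 2
    swap
    · exact (main y x hy hx hxy.symm hne.symm hyl).symm
    obtain ⟨v, rfl, hv⟩ := hxl
    obtain ⟨w, rfl, hw⟩ := hyl
    rw [qc_mk H.col hv, qc_mk H.col hw]
    apply H.h4 v w hv hw
    · rw [← mk_eq_one, QuotientGroup.mk_pow, QuotientGroup.mk_mul, hxy.mul_pow,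
        ← QuotientGroup.mk_pow, ← QuotientGroup.mk_pow]
      have h1 : v ^ 2 = 1 := by rw [← hv, pow_orderOf_eq_one]
      have h2 : w ^ 2 = 1 := by rw [← hw, pow_orderOf_eq_one]
      rw [h1, h2]
      exact one_mul _
    · intro h1
      apply hne
      rw [mk_eq_iff, ord_two_inv hv]
      exact h1
  odd x hx1 hx := H.odd hx1 hx

end Env

end RD

end Pool.Agent.TH68.C
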