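import Pool.Agent.TH68.C.Base
import Pool.Agent.TH68.Wind
import Pool.Agent.Helper97.Hyp.Rot

set_option autoImplicit false
set_option linter.unusedSectionVars false

/-! Rotations along the axes of a root element. -/

namespace Pool.Agent.TH68.C

open Pool.Agent.Helper97.Hyp Pool.Agent.TH68

section alg

variable {Γ : Type*} [Group Γ] {c : Γ → Fin 3} {K : Subgroup Γ}

lemma CRoot.zpow_ne {g : Γ} (hg : CRoot c g K) {n : ℤ} (hn : n ≠ 0) : g ^ n ≠ 1 := by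
  intro h
  exact hg.inf (isOfFinOrder_iff_zpow_eq_one.mpr ⟨n, hn, h⟩)

lemma CRoot.zpow_inj {g : Γ} (hg : CRoot c g K) {a b : ℤ} (h : g ^ a = g ^ b) : a = b := by
  by_contra hne
  apply hg.zpow_ne (n := a - b) (by omega)
  rw [zpow_sub, h, mul_inv_cancel]

/-- elements of the commensurator of a root -/
lemma CRoot.comm_or {g : Γ} (hg : CRoot c g K) {e : Γ} {a b : ℤ} (ha : a ≠ 0)
    (hab : b.natAbs = a.natAbs) (h : e * g ^ a * e⁻¹ = g ^ b) :
    (∃ k ∈ K, ∃ j : ℤ, e = k * g ^ j) ∨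
      (orderOf e = 2 ∧ e * g * e⁻¹ = g⁻¹ ∧ ∀ k ∈ K, Commute e k) := by
  rcases Int.natAbs_eq_natAbs_iff.mp hab with h1 | h1
  · left
    apply hg.cent e a ha
    rw [h1] at h
    exact mul_inv_eq_iff_eq_mul.mp h
  · right
    rw [h1] at h
    exact hg.flip e a ha h

lemma CRoot.K_comm {g : Γ} (hg : CRoot c g K) {k k' : Γ} (hk : k ∈ K) (hk' : k' ∈ K) :
    Commute k k' := by
  have h1 := hg.sq k hk
  have h2 := hg.sq k' hk'
  have h3 := hg.sq (k * k') (mul_mem hk hk')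
  rw [pow_two] at h1 h2 h3
  have h4 := inv_eq_of_mul_eq_one_left h3
  rw [mul_inv_rev, inv_eq_of_mul_eq_one_left h1, inv_eq_of_mul_eq_one_left h2] at h4
  exact h4.symm

lemma CRoot.K_inv {g : Γ} (hg : CRoot c g K) {k : Γ} (hk : k ∈ K) : k⁻¹ = k := by
  have h1 := hg.sq k hk
  rw [pow_two] at h1
  exact inv_eq_of_mul_eq_one_left h1

end alg

/-- the data of a root with a loxodromic power -/
structure RD (Γ : Type*) [Group Γ] (W : WNorm Γ) (c : Γ → Fin 3) where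
  δ : ℝ
  hδ : 1 ≤ δ
  o : Pt W
  g : Γ
  K : Subgroup Γ
  k : ℕ
  hk : 0 < k
  lox : Lox δ o (g ^ k)
  root : CRoot c g K

namespace RD

variable {Γ : Type*} [Group Γ] {W : WNorm Γ} {c : Γ → Fin 3} (D : RD Γ W c)

/-- the commensurator -/
abbrev E : Subgroup Γ := Lox.E (D.g ^ D.k)

lemma mem_E {e : Γ} (he : e ∈ D.E) :
    (∃ k ∈ D.K, ∃ j : ℤ, e = k * D.g ^ j) ∨
      (orderOf e = 2 ∧ e * D.g * e⁻¹ = D.g⁻¹ ∧ ∀ k ∈ D.K, Commute e k) := by
  obtain ⟨a, b, ha, hb, hab⟩ := he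
  have h1 := D.lox.natAbs_eq_of_conj hab
  have hk := D.hk
  rw [← zpow_natCast, ← zpow_mul, ← zpow_mul] at hab
  apply D.root.comm_or _ _ hab
  · exact mul_ne_zero (by omega) ha
  · rw [Int.natAbs_mul, Int.natAbs_mul, h1]

lemma E_K {e k : Γ} (he : e ∈ D.E) (hk : k ∈ D.K) : Commute e k := by
  rcases D.mem_E he with ⟨k', hk', j, rfl⟩ | ⟨-, -, h⟩
  · exact (D.root.K_comm hk' hk).mul_left ((D.root.comm k hk).symm.zpow_left j)
  · exact h k hk

lemma K_mem {k : Γ} (hk : k ∈ D.K) : k ∈ D.E := by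
  refine ⟨1, 1, one_ne_zero, one_ne_zero, ?_⟩
  rw [zpow_one, ((D.root.comm k hk).pow_right D.k).eq, mul_inv_cancel_right]

lemma g_mem : D.g ∈ D.E := by
  refine ⟨1, 1, one_ne_zero, one_ne_zero, ?_⟩
  rw [zpow_one]
  have := (Commute.refl D.g).pow_right D.k
  rw [this.eq, mul_inv_cancel_right]

lemma zpow_mem (n : ℤ) : D.g ^ n ∈ D.E := Subgroup.zpow_mem _ D.g_mem n

lemma conj_or {e : Γ} (he : e ∈ D.E) :
    (∀ n : ℤ, e * D.g ^ n * e⁻¹ = D.g ^ n) ∨ ∀ n : ℤ, e * D.g ^ n * e⁻¹ = D.g ^ (-n) := by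
  rcases D.mem_E he with ⟨k, hk, j, rfl⟩ | ⟨-, h, -⟩
  · left
    intro n
    have h1 : Commute (k * D.g ^ j) (D.g ^ n) :=
      ((D.root.comm k hk).zpow_right n).mul_left ((Commute.refl D.g).zpow_zpow j n)
    rw [h1.eq, mul_inv_cancel_right]
  · right
    intro n
    rw [← conj_zpow, h, inv_zpow, zpow_neg]

/-- displacement -/
lemma disp_neg (n : ℤ) : dist D.o (D.g ^ (-n) • D.o) = dist D.o (D.g ^ n • D.o) := by
  rw [zpow_neg, ← dist_smul (D.g ^ n), smul_inv_smul, dist_comm]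

/-- rotation subgroups -/
noncomputable def rot (m : ℕ) (A : Γ ⧸ D.E) : Subgroup Γ :=
  Subgroup.zpowers (A.out * D.g ^ (m : ℤ) * A.out⁻¹)

variable {m : ℕ}

lemma out_mk (A : Γ ⧸ D.E) : ((A.out : Γ) : Γ ⧸ D.E) = A := QuotientGroup.out_eq' A

/-- the stabilizers -/
lemma stab {A : Γ ⧸ D.E} {e : Γ} : e • A = A ↔ A.out⁻¹ * e * A.out ∈ D.E := by
  have h1 := D.out_mk A
  constructor
  · intro h
    have h2 : ((A.out : Γ) : Γ ⧸ D.E) = ((e * A.out : Γ) : Γ ⧸ D.E) := by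
      have h3 : ((e * A.out : Γ) : Γ ⧸ D.E) = e • ((A.out : Γ) : Γ ⧸ D.E) := rfl
      rw [h3, h1, h]
    have := QuotientGroup.eq.mp h2
    rwa [← mul_assoc] at this
  · intro h
    have h2 : ((A.out : Γ) : Γ ⧸ D.E) = ((e * A.out : Γ) : Γ ⧸ D.E) := by
      apply QuotientGroup.eq.mpr
      rwa [← mul_assoc]
    have h3 : ((e * A.out : Γ) : Γ ⧸ D.E) = e • ((A.out : Γ) : Γ ⧸ D.E) := rfl
    rw [h3, h1] at h2
    exact h2.symm

lemma rot_fix (A : Γ ⧸ D.E) {n : Γ} (hn : n ∈ D.rot m A) : n • A = A := by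
  obtain ⟨t, rfl⟩ := hn
  rw [stab]
  simp only
  have : A.out⁻¹ * (A.out * D.g ^ (m : ℤ) * A.out⁻¹) ^ t * A.out = D.g ^ ((m : ℤ) * t) := by
    rw [conj_zpow, zpow_mul]; group
  rw [this]
  exact D.zpow_mem _

lemma rot_conj (γ : Γ) (A : Γ ⧸ D.E) {n : Γ} (hn : n ∈ D.rot m A) :
    γ * n * γ⁻¹ ∈ D.rot m (γ • A) := by
  obtain ⟨t, rfl⟩ := hn
  simp only
  have h1 := D.out_mk A
  have h1' := D.out_mk (γ • A)
  set α := A.out with hα
  set β := (γ • A).out with hβ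
  have he : β⁻¹ * (γ * α) ∈ D.E := by
    apply QuotientGroup.eq.mp
    rw [h1']
    conv_lhs => rw [← h1]
    rfl
  set e := β⁻¹ * (γ * α) with hedef
  have h2 : γ * (α * D.g ^ (m : ℤ) * α⁻¹) ^ t * γ⁻¹ =
      (β * (e * D.g ^ (m : ℤ) * e⁻¹) * β⁻¹) ^ t := by
    rw [← conj_zpow]
    congr 1
    rw [hedef]; group
  unfold rot
  rw [← hβ, h2]
  rcases D.conj_or he with h3 | h3
  · rw [h3]
    exact Subgroup.zpow_mem _ (Subgroup.mem_zpowers _) t
  · rw [h3]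
    have h4 : β * D.g ^ (-(m : ℤ)) * β⁻¹ = (β * D.g ^ (m : ℤ) * β⁻¹)⁻¹ := by group
    rw [h4]
    exact Subgroup.zpow_mem _ (inv_mem (Subgroup.mem_zpowers _)) t

/-- the normal subgroup -/
noncomputable def nk (m : ℕ) : Subgroup Γ := ⨆ A, D.rot m A

lemma rot_le (A : Γ ⧸ D.E) : D.rot m A ≤ D.nk m := le_iSup (fun A => D.rot m A) A

lemma nk_normal : (D.nk m).Normal := by
  constructor
  intro n hn γ
  have h1 : D.nk m ≤ (D.nk m).comap (MulAut.conj γ).toMonoidHom := by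
    apply iSup_le
    intro A n hn
    rw [Subgroup.mem_comap]
    exact D.rot_le (γ • A) (D.rot_conj γ A hn)
  exact h1 hn

lemma pow_mem_nk : D.g ^ m ∈ D.nk m := by
  set A : Γ ⧸ D.E := ((1 : Γ) : Γ ⧸ D.E) with hA
  have h1 : A.out ∈ D.E := by
    have := QuotientGroup.eq.mp (D.out_mk A).symm
    rwa [inv_one, one_mul] at this
  apply D.rot_le A
  rcases D.conj_or h1 with h3 | h3
  · unfold rot
    rw [h3, zpow_natCast]
    exact Subgroup.mem_zpowers _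
  · unfold rot
    rw [h3, zpow_neg, zpow_natCast]
    exact (Subgroup.zpowers_inv (g := D.g ^ m)).symm ▸ Subgroup.mem_zpowers _

lemma nk_eq : D.nk m = Subgroup.normalClosure {D.g ^ m} := by
  apply le_antisymm
  · apply iSup_le
    intro A
    unfold rot
    rw [Subgroup.zpowers_le, zpow_natCast]
    exact Subgroup.normalClosure_normal.conj_mem _
      (Subgroup.subset_normalClosure (Set.mem_singleton _)) _
  · have := D.nk_normal (m := m)
    apply Subgroup.normalClosure_le_normal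
    rw [Set.singleton_subset_iff]
    exact D.pow_mem_nk

/-- points of the axes -/
lemma mem_ax {A : Γ ⧸ D.E} {x : Pt W} (hx : x ∈ Lox.ax D.o (D.g ^ D.k) A) :
    ∃ f ∈ D.E, (A.out * f) • D.o = x := by
  obtain ⟨γ, hγ, rfl⟩ := hx
  refine ⟨A.out⁻¹ * γ, ?_, ?_⟩
  · apply QuotientGroup.eq.mp
    rw [D.out_mk, hγ]
  · rw [mul_inv_cancel_left]

/-- the displacement of conjugates of powers of `g` on the axes is constant -/
lemma disp_ax {A : Γ ⧸ D.E} {x : Pt W} (hx : x ∈ Lox.ax D.o (D.g ^ D.k) A) (t : ℤ) :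
    dist x ((A.out * D.g ^ t * A.out⁻¹) • x) = dist D.o (D.g ^ t • D.o) := by
  obtain ⟨f, hf, rfl⟩ := D.mem_ax hx
  have h1 : dist ((A.out * f) • D.o) ((A.out * D.g ^ t * A.out⁻¹) • (A.out * f) • D.o) =
      dist D.o ((f⁻¹ * D.g ^ t * f⁻¹⁻¹) • D.o) := by
    rw [← dist_smul (A.out * f) D.o, smul_smul, smul_smul]
    congr 2
    group
  rw [h1]
  rcases D.conj_or (inv_mem hf) with h3 | h3
  · rw [h3]
  · rw [h3, D.disp_neg]

lemma dist_zpow_le (t : ℤ) : dist D.o (D.g ^ t • D.o) ≤ t.natAbs * dist D.o (D.g • D.o) := by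
  have key : ∀ n : ℕ, dist D.o (D.g ^ n • D.o) ≤ n * dist D.o (D.g • D.o) := by
    intro n
    induction n with
    | zero => simp
    | succ n ih =>
      have h1 := dist_triangle D.o (D.g ^ n • D.o) (D.g ^ (n + 1) • D.o)
      have h2 : dist (D.g ^ n • D.o) (D.g ^ (n + 1) • D.o) = dist D.o (D.g • D.o) := by
        rw [pow_succ, mul_smul, dist_smul]
      push_cast
      linarith
  rcases Int.natAbs_eq t with h | h
  · have h1 := key t.natAbs
    rw [← zpow_natCast, ← h] at h1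
    exact h1
  · have h1 := key t.natAbs
    have h2 := D.disp_neg t.natAbs
    rw [← h] at h2
    rw [h2, zpow_natCast]
    exact h1

/-- lower bound of the displacement of the powers of the root -/
noncomputable def low (m : ℕ) : ℝ := (m : ℝ) / D.k - 1 - D.k * dist D.o (D.g • D.o)

lemma low_le {t : ℤ} (ht : m ≤ t.natAbs) : D.low m ≤ dist D.o (D.g ^ t • D.o) := by
  have hk := D.hk
  have hk' : (0 : ℝ) < D.k := by exact_mod_cast hk
  set s := t / (D.k : ℤ) with hs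
  set r := t % (D.k : ℤ) with hr
  have h1 : (D.k : ℤ) * s + r = t := Int.mul_ediv_add_emod t D.k
  have h2 : 0 ≤ r := Int.emod_nonneg _ (by omega)
  have h3 : r < D.k := Int.emod_lt_of_pos _ (by omega)
  have h4 : dist D.o (D.g ^ ((D.k : ℤ) * s) • D.o) ≤
      dist D.o (D.g ^ t • D.o) + dist D.o (D.g ^ r • D.o) := by
    have h5 := dist_triangle D.o (D.g ^ t • D.o) (D.g ^ ((D.k : ℤ) * s) • D.o)
    have h6 : dist (D.g ^ t • D.o) (D.g ^ ((D.k : ℤ) * s) • D.o) = dist D.o (D.g ^ r • D.o) := by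
      rw [← h1, zpow_add, mul_smul, dist_smul, dist_comm]
    linarith
  have h5 : (s.natAbs : ℝ) ≤ dist D.o (D.g ^ ((D.k : ℤ) * s) • D.o) := by
    have h6 := dist_zpow D.o (D.g ^ D.k) 0 s
    rw [zpow_zero, one_smul, sub_zero] at h6
    have h7 := D.lox.tl_ge s.natAbs
    rw [zpow_mul, zpow_natCast, h6]
    exact h7
  have h6 := D.dist_zpow_le r
  have h7 : (r.natAbs : ℝ) ≤ D.k := by
    have : r.natAbs ≤ D.k := by omega
    exact_mod_cast this
  have h8 : (r.natAbs : ℝ) * dist D.o (D.g • D.o) ≤ D.k * dist D.o (D.g • D.o) :=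
    mul_le_mul_of_nonneg_right h7 dist_nonneg
  have h9 : (m : ℝ) / D.k ≤ s.natAbs + 1 := by
    rw [div_le_iff₀ hk']
    have h10 : m ≤ (s.natAbs + 1) * D.k := by
      have h11 : t.natAbs ≤ D.k * s.natAbs + r.natAbs := by
        have := Int.natAbs_add_le ((D.k : ℤ) * s) r
        rw [h1, Int.natAbs_mul, Int.natAbs_natCast] at this
        exact this
      have h12 : r.natAbs ≤ D.k := by omega
      nlinarith
    exact_mod_cast h10
  unfold low
  linarith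

lemma low_tendsto (K : ℝ) : ∃ m₀ : ℕ, ∀ m : ℕ, m₀ ≤ m → K ≤ D.low m := by
  have hk := D.hk
  have hk' : (0 : ℝ) < D.k := by exact_mod_cast hk
  refine ⟨⌈(K + 1 + D.k * dist D.o (D.g • D.o)) * D.k⌉₊, ?_⟩
  intro m hm
  have h1 := Nat.le_of_ceil_le hm
  unfold low
  have h2 : K + 1 + D.k * dist D.o (D.g • D.o) ≤ (m : ℝ) / D.k := by
    rw [le_div_iff₀ hk']; exact h1
  linarith

/-- the constant -/
noncomputable def θ : ℝ := Lox.th D.o (D.g ^ D.k) D.δ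

lemma hc2 : Lox.c2 D.o (D.g ^ D.k) D.δ ≤ D.θ := by
  have h1 := D.lox.th1_nonneg
  have h2 := D.lox.c2_nonneg
  have h3 := D.hδ
  unfold θ Lox.th
  linarith

/-- the system of axes -/
noncomputable def sys : Sys Γ W (Γ ⧸ D.E) where
  δ := D.δ
  θ := D.θ
  hyp := D.lox.hyp
  hδ := D.hδ
  hθ := by
    have h1 := D.lox.th1_nonneg
    have h2 := D.lox.c2_nonneg
    have h3 := D.hδ
    unfold θ Lox.th
    linarith
  S := Lox.ax D.o (D.g ^ D.k)
  Sne := Lox.ax_ne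
  smul_mem γ A x hx := by rw [Lox.ax_smul, inv_smul_smul]; exact hx
  proj A x := by
    obtain ⟨q, hq⟩ := (D.lox.qline_ax A).proj x
    refine ⟨q, hq.1, fun s hs => ?_⟩
    have h1 := hq.2 s hs
    have h2 := D.hc2
    linarith
  small A B hAB p hp q hq := by
    have h0 := D.lox.proj_bound (proper D.o) hAB hp hq
    have h2 := D.lox.c2_nonneg
    have h3 := D.hδ
    unfold θ Lox.th
    linarith

lemma spin_le {A : Γ ⧸ D.E} {r : Γ} (hr : r ∈ D.rot m A) (hr1 : r ≠ 1) {q : Pt W}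
    (hq : q ∈ Lox.ax D.o (D.g ^ D.k) A) : D.low m ≤ dist q (r • q) := by
  obtain ⟨t, rfl⟩ := hr
  simp only at *
  have ht : t ≠ 0 := by
    rintro rfl
    exact hr1 (zpow_zero _)
  rw [conj_zpow, ← zpow_mul, D.disp_ax hq]
  apply D.low_le
  rw [Int.natAbs_mul, Int.natAbs_natCast]
  have : 1 ≤ t.natAbs := by omega
  nlinarith

lemma isProj_rot {A : Γ ⧸ D.E} {c : ℝ} {p p' : Pt W}
    (hp : IsProj c (Lox.ax D.o (D.g ^ D.k) A) p p') {n : Γ}
    (hn : n • A = A) : IsProj c (Lox.ax D.o (D.g ^ D.k) A) (n • p) (n • p') := by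
  apply hp.smul (γ := n)
  intro x
  have := Lox.ax_smul n A x (o := D.o) (g := D.g ^ D.k)
  rwa [hn] at this

/-- the spinning family of the library -/
noncomputable def spin (hM : 101 * D.θ ≤ D.low m) :
    Spin (D.lox.sys (proper D.o)) where
  G := D.rot m
  M := D.low m - D.θ
  hM := by
    change 100 * D.θ ≤ _
    linarith
  Gconj γ A n hn := D.rot_conj γ A hn
  Gfix A n hn := D.rot_fix A hn
  spin A n p hn hn1 := by
    obtain ⟨p', hp'⟩ := (D.lox.qline_ax A).proj p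
    have h1 := D.isProj_rot hp' (D.rot_fix A hn)
    have h2 := le_pd_of_proj hp' h1
    have h3 := D.spin_le hn hn1 hp'.1
    have h4 := D.hc2
    change D.low m - D.θ ≤ pd _ _ _
    linarith

/-- nontrivial elements of the normal subgroup move every point a lot -/
lemma nk_far (hM : 101 * D.θ ≤ D.low m) {n : Γ} (hn : n ∈ D.nk m) (hn1 : n ≠ 1) (x : Pt W) :
    D.low m - 51 * D.θ ≤ dist x (n • x) := by
  obtain ⟨A, hA⟩ := (D.spin hM).windmill x hn hn1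
  have h1 : (D.spin hM).M - 50 * D.θ ≤ pd (Lox.ax D.o (D.g ^ D.k) A) x (n • x) := hA
  have h2 := pd_le_dist (Lox.ax_ne (o := D.o) (g := D.g ^ D.k) A) x (n • x)
  have h3 : (D.spin hM).M = D.low m - D.θ := rfl
  rw [h3] at h1
  linarith

lemma cob (hm : 0 < m) : ∃ R : ℝ, ∀ A, ∀ p ∈ D.sys.S A, ∀ q ∈ D.sys.S A, ∃ r ∈ D.rot m A,
    dist p (r • q) ≤ R := by
  set c := Lox.c5 D.o (D.g ^ D.k) D.δ with hc
  refine ⟨2 * c + m * dist D.o (D.g • D.o), ?_⟩
  intro A p hp q hq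
  obtain ⟨f, hf, rfl⟩ := D.mem_ax hp
  obtain ⟨f', hf', rfl⟩ := D.mem_ax hq
  obtain ⟨j, hj⟩ := D.lox.E_near hf
  obtain ⟨l, hl⟩ := D.lox.E_near hf'
  rw [← hc, ← zpow_natCast, ← zpow_mul] at hj hl
  set a : ℤ := (D.k : ℤ) * l - (D.k : ℤ) * j with ha
  set s : ℤ := a / (m : ℤ) with hs
  set r : ℤ := a % (m : ℤ) with hr
  have h1 : (m : ℤ) * s + r = a := Int.mul_ediv_add_emod a m
  have h2 : 0 ≤ r := Int.emod_nonneg _ (by omega)
  have h3 : r < m := Int.emod_lt_of_pos _ (by omega)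
  refine ⟨(A.out * D.g ^ (m : ℤ) * A.out⁻¹) ^ (-s), Subgroup.zpow_mem _
    (Subgroup.mem_zpowers _) _, ?_⟩
  have h4 : (A.out * D.g ^ (m : ℤ) * A.out⁻¹) ^ (-s) • (A.out * f') • D.o =
      A.out • D.g ^ ((m : ℤ) * (-s)) • f' • D.o := by
    rw [conj_zpow, ← zpow_mul, smul_smul, smul_smul, smul_smul]
    congr 1
    group
  rw [h4, mul_smul, dist_smul]
  have h5 := dist_triangle4 (f • D.o) (D.g ^ ((D.k : ℤ) * j) • D.o)
    (D.g ^ ((m : ℤ) * (-s)) • D.g ^ ((D.k : ℤ) * l) • D.o) (D.g ^ ((m : ℤ) * (-s)) • f' • D.o)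
  have h6 : dist (D.g ^ ((m : ℤ) * (-s)) • D.g ^ ((D.k : ℤ) * l) • D.o)
      (D.g ^ ((m : ℤ) * (-s)) • f' • D.o) ≤ c := by
    rw [dist_smul, dist_comm]; exact hl
  have h7 : dist (D.g ^ ((D.k : ℤ) * j) • D.o)
      (D.g ^ ((m : ℤ) * (-s)) • D.g ^ ((D.k : ℤ) * l) • D.o) = dist D.o (D.g ^ r • D.o) := by
    rw [smul_smul, ← zpow_add, ← dist_smul (D.g ^ ((D.k : ℤ) * j)) D.o, smul_smul, ← zpow_add]
    congr 3
    rw [← sub_eq_iff_eq_add'.mpr h1.symm, ha]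
    ring
  have h8 := D.dist_zpow_le r
  have h9 : (r.natAbs : ℝ) ≤ m := by
    have : r.natAbs ≤ m := by omega
    exact_mod_cast this
  have h10 : (r.natAbs : ℝ) * dist D.o (D.g • D.o) ≤ m * dist D.o (D.g • D.o) :=
    mul_le_mul_of_nonneg_right h9 dist_nonneg
  linarith


lemma disp_negK {κ : Γ} (hκ : κ ∈ D.K) (n : ℤ) :
    dist D.o ((κ * D.g ^ (-n)) • D.o) = dist D.o ((κ * D.g ^ n) • D.o) := by
  have h1 : κ * D.g ^ (-n) = (κ * D.g ^ n)⁻¹ := by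
    rw [mul_inv_rev, D.root.K_inv hκ, ← zpow_neg, ((D.root.comm κ hκ).zpow_right (-n)).eq]
  rw [h1, ← dist_smul (κ * D.g ^ n), smul_inv_smul, dist_comm]

/-- the displacement on the axes -/
lemma disp_axK {A : Γ ⧸ D.E} {x : Pt W} (hx : x ∈ Lox.ax D.o (D.g ^ D.k) A) {κ : Γ}
    (hκ : κ ∈ D.K) (t : ℤ) :
    dist x ((A.out * (κ * D.g ^ t) * A.out⁻¹) • x) = dist D.o ((κ * D.g ^ t) • D.o) := by
  obtain ⟨f, hf, rfl⟩ := D.mem_ax hx
  have h1 : dist ((A.out * f) • D.o) ((A.out * (κ * D.g ^ t) * A.out⁻¹) • (A.out * f) • D.o) =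
      dist D.o ((κ * (f⁻¹ * D.g ^ t * f⁻¹⁻¹)) • D.o) := by
    rw [← dist_smul (A.out * f) D.o, smul_smul, smul_smul]
    congr 2
    have h2 := (D.E_K hf hκ).eq
    calc A.out * (κ * D.g ^ t) * A.out⁻¹ * (A.out * f) = A.out * κ * D.g ^ t * f := by group
      _ = A.out * (κ * f) * (f⁻¹ * D.g ^ t * f) := by group
      _ = A.out * (f * κ) * (f⁻¹ * D.g ^ t * f) := by rw [h2]
      _ = A.out * f * (κ * (f⁻¹ * D.g ^ t * f⁻¹⁻¹)) := by group
  rw [h1]
  rcases D.conj_or (inv_mem hf) with h3 | h3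
  · rw [h3]
  · rw [h3, D.disp_negK hκ]

/-- elements preserving an axis -/
lemma stab_or {A : Γ ⧸ D.E} {e : Γ} (he : e • A = A) :
    (∃ κ ∈ D.K, ∃ t : ℤ, e = A.out * (κ * D.g ^ t) * A.out⁻¹) ∨ orderOf e = 2 ∧
      (A.out⁻¹ * e * A.out) * D.g * (A.out⁻¹ * e * A.out)⁻¹ = D.g⁻¹ := by
  rw [stab] at he
  rcases D.mem_E he with ⟨κ, hκ, t, ht⟩ | ⟨h1, h2, -⟩
  · left
    refine ⟨κ, hκ, t, ?_⟩
    rw [← ht]; group
  · right
    refine ⟨?_, h2⟩
    have h3 : e = A.out * (A.out⁻¹ * e * A.out) * A.out⁻¹ := by group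
    rw [h3, ← MulAut.conj_apply, MulEquiv.orderOf_eq, h1]

/-- growth of the displacement -/
lemma half_le {d n : ℕ} (hdn : 2 * d ≤ n) : 2 * dist D.o (D.g ^ (d : ℤ) • D.o) ≤
    dist D.o (D.g ^ (n : ℤ) • D.o) + (3 * (D.k * dist D.o (D.g • D.o)) +
      tl D.o (D.g ^ D.k) 1) := by
  have hk := D.hk
  set c0 := (D.k : ℝ) * dist D.o (D.g • D.o) with hc0
  have key : ∀ m : ℕ, dist D.o (D.g ^ (m : ℤ) • D.o) ≤ tl D.o (D.g ^ D.k) (m / D.k) + c0 ∧
      tl D.o (D.g ^ D.k) (m / D.k) ≤ dist D.o (D.g ^ (m : ℤ) • D.o) + c0 := by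
    intro m
    have h1 : (D.k : ℤ) * ((m / D.k : ℕ) : ℤ) + ((m % D.k : ℕ) : ℤ) = m := by
      exact_mod_cast Nat.div_add_mod m D.k
    have h2 : dist D.o (D.g ^ (((m % D.k : ℕ) : ℤ)) • D.o) ≤ c0 := by
      have h3 := D.dist_zpow_le ((m % D.k : ℕ) : ℤ)
      rw [Int.natAbs_natCast] at h3
      have h4 : ((m % D.k : ℕ) : ℝ) ≤ D.k := by
        exact_mod_cast (Nat.mod_lt m hk).le
      have h5 : ((m % D.k : ℕ) : ℝ) * dist D.o (D.g • D.o) ≤ c0 :=
        mul_le_mul_of_nonneg_right h4 dist_nonneg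
      linarith
    have h6 : dist D.o (D.g ^ ((D.k : ℤ) * ((m / D.k : ℕ) : ℤ)) • D.o) =
        tl D.o (D.g ^ D.k) (m / D.k) := by
      rw [zpow_mul, zpow_natCast, zpow_natCast]
      rfl
    have h7 : dist (D.g ^ (m : ℤ) • D.o) (D.g ^ ((D.k : ℤ) * ((m / D.k : ℕ) : ℤ)) • D.o) ≤ c0 := by
      conv_lhs => rw [← h1, zpow_add, mul_smul, dist_smul, dist_comm]
      exact h2
    have h8 := dist_triangle D.o (D.g ^ ((D.k : ℤ) * ((m / D.k : ℕ) : ℤ)) • D.o)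
      (D.g ^ (m : ℤ) • D.o)
    have h9 := dist_triangle D.o (D.g ^ (m : ℤ) • D.o)
      (D.g ^ ((D.k : ℤ) * ((m / D.k : ℕ) : ℤ)) • D.o)
    rw [dist_comm (D.g ^ ((D.k : ℤ) * ((m / D.k : ℕ) : ℤ)) • D.o)] at h8
    rw [h6] at h8 h9
    constructor <;> linarith
  obtain ⟨h1, -⟩ := key d
  obtain ⟨-, h2⟩ := key n
  have h3 : 2 * (d / D.k) ≤ n / D.k := by
    rw [Nat.le_div_iff_mul_le hk]
    have := Nat.div_mul_le_self d D.k
    nlinarith
  have h4 := D.lox.tl_mono h3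
  have h5 := D.lox.tl_add (d / D.k) (d / D.k)
  rw [show d / D.k + d / D.k = 2 * (d / D.k) by ring] at h5
  linarith

/-- the least displacement of a rotation -/
noncomputable def sp (m : ℕ) : ℝ := ⨅ t : {t : ℤ // t ≠ 0}, dist D.o (D.g ^ ((m : ℤ) * t) • D.o)

instance : Nonempty {t : ℤ // t ≠ 0} := ⟨⟨1, one_ne_zero⟩⟩

lemma sp_le (m : ℕ) {t : ℤ} (ht : t ≠ 0) :
    D.sp m ≤ dist D.o (D.g ^ ((m : ℤ) * t) • D.o) := by
  unfold sp
  exact ciInf_le (f := fun t : {t : ℤ // t ≠ 0} => dist D.o (D.g ^ ((m : ℤ) * t) • D.o))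
    ⟨0, by rintro _ ⟨t, rfl⟩; exact dist_nonneg⟩ ⟨t, ht⟩

lemma low_le_sp (m : ℕ) : D.low m ≤ D.sp m := by
  unfold sp
  apply le_ciInf
  rintro ⟨t, ht⟩
  apply D.low_le
  rw [Int.natAbs_mul, Int.natAbs_natCast]
  have : 1 ≤ t.natAbs := by omega
  nlinarith

/-- the constant in the growth of the displacement -/
noncomputable def hc : ℝ := 3 * (D.k * dist D.o (D.g • D.o)) + tl D.o (D.g ^ D.k) 1

lemma half_sp {d m : ℕ} (hdm : 2 * d ≤ m) :
    2 * dist D.o (D.g ^ (d : ℤ) • D.o) ≤ D.sp m + D.hc := by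
  have h1 : 2 * dist D.o (D.g ^ (d : ℤ) • D.o) - D.hc ≤ D.sp m := by
    unfold sp
    apply le_ciInf
    rintro ⟨t, ht⟩
    have h2 : 2 * d ≤ ((m : ℤ) * t).natAbs := by
      rw [Int.natAbs_mul, Int.natAbs_natCast]
      have : 1 ≤ t.natAbs := by omega
      nlinarith
    have h3 := D.half_le h2
    have h4 : dist D.o (D.g ^ ((((m : ℤ) * t).natAbs : ℕ) : ℤ) • D.o) =
        dist D.o (D.g ^ ((m : ℤ) * t) • D.o) := by
      rcases Int.natAbs_eq ((m : ℤ) * t) with h5 | h5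
      · rw [← h5]
      · conv_rhs => rw [h5]
        rw [D.disp_neg]
    rw [h4] at h3
    unfold hc
    simp only
    linarith
  linarith

/-- the spinning family -/
noncomputable def spn (m : ℕ) (hm : 0 < m) (hM : 101 * D.θ ≤ D.low m) : Spc D.sys where
  M := D.sp m
  N := D.nk m
  normal := D.nk_normal
  G := D.rot m
  G_le := D.rot_le
  fix A r hr := D.rot_fix A hr
  spin A r hr hr1 q hq := by
    obtain ⟨t, rfl⟩ := hr
    simp only at *
    have ht : t ≠ 0 := by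
      rintro rfl
      exact hr1 (zpow_zero _)
    rw [conj_zpow, ← zpow_mul, D.disp_ax hq]
    exact D.sp_le m ht
  wind n hn hn1 x := by
    obtain ⟨A, r, hr, hr1, h⟩ := (D.spin hM).swind x hn hn1
    refine ⟨A, r, hr, hr1, ?_⟩
    have h1 : pd (Lox.ax D.o (D.g ^ D.k) A) (r • x) (n • x) ≤ 42 * D.θ := h
    have h2 := D.hc2
    have h3 := D.lox.c2_nonneg
    change pd (Lox.ax D.o (D.g ^ D.k) A) (r • x) (n • x) ≤ 50 * D.θ
    linarith
  cob := D.cob hm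
  stab A e he := by
    rcases D.stab_or he with ⟨κ, hκ, t, rfl⟩ | ⟨h1, h2⟩
    · left
      intro p hp q hq
      rw [D.disp_axK hp hκ, D.disp_axK hq hκ]
    · right
      refine ⟨h1, ?_⟩
      rintro _ ⟨t, rfl⟩
      simp only
      set f := A.out⁻¹ * e * A.out with hf
      have h3 : e = A.out * f * A.out⁻¹ := by rw [hf]; group
      have h4 : f * (D.g ^ (m : ℤ)) ^ t * f⁻¹ = ((D.g ^ (m : ℤ)) ^ t)⁻¹ := by
        rw [← zpow_mul, ← conj_zpow, h2, inv_zpow]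
      rw [conj_zpow]
      calc e * (A.out * (D.g ^ (m : ℤ)) ^ t * A.out⁻¹) * e⁻¹
          = A.out * (f * (D.g ^ (m : ℤ)) ^ t * f⁻¹) * A.out⁻¹ := by rw [h3]; group
        _ = _ := by rw [h4]; group

lemma spn_M (m : ℕ) (hm : 0 < m) (hM : 101 * D.θ ≤ D.low m) : (D.spn m hm hM).M = D.sp m := rfl

lemma spn_N (m : ℕ) (hm : 0 < m) (hM : 101 * D.θ ≤ D.low m) : (D.spn m hm hM).N = D.nk m := rfl

end RD

end Pool.Agent.TH68.C
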