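import Pool.Agent.TH68.C.Base
import Pool.Agent.TH68.Far

set_option autoImplicit false
set_option linter.unusedSectionVars false

/-! Elements congruent modulo the killed subgroup with small displacement (job DF2-2). -/

namespace Pool.Agent.TH68.C

open Pool.Agent.Helper97.Hyp Pool.Agent.TH68

variable {Γ : Type*} [Group Γ] {W : WNorm Γ} {𝒜 : Type*} [MulAction Γ 𝒜]

lemma t23_self {X : Type*} [PseudoMetricSpace X] {c : ℝ} {S : Set X} (hc : 0 ≤ c) {a : X}
    (ha : a ∈ S) : IsProj c S a a :=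
  ⟨ha, fun s _ => by rw [dist_self]; linarith⟩

lemma t23_mem_iff (Y : Sys Γ W 𝒜) {A : 𝒜} {r : Γ} (hr : r • A = A) (x : Pt W) :
    x ∈ Y.S A ↔ r⁻¹ • x ∈ Y.S A := by
  have hr' : r⁻¹ • A = A := by rw [inv_smul_eq_iff]; exact hr.symm
  constructor
  · intro h
    have := Y.smul_mem r⁻¹ A x h
    rwa [hr'] at this
  · intro h
    have := Y.smul_mem r A _ h
    rwa [hr, smul_inv_smul] at this

theorem t23 (Y : Sys Γ W 𝒜) (C : ℝ) :
    ∃ M₀ : ℝ, ∀ R : Spc Y, M₀ ≤ R.M → ∀ (y y' : Γ) (p q : Pt W), y' * y⁻¹ ∈ R.N → y ≠ y' →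
      dist p (y • p) ≤ C → dist q (y' • q) ≤ C → (∀ n ∈ R.N, dist p q ≤ dist p (n • q)) →
      orderOf y' = 2 ∧ ∃ A, y' • A = A ∧ ∃ r ∈ R.G A, r ≠ 1 ∧ y' * r * y'⁻¹ = r⁻¹ ∧
        ∃ a : Pt W, dist a ((r⁻¹ * y') • a) ≤ 9 * C + 222 * Y.θ ∧
          dist p a + R.M / 2 ≤ dist p q + 2 * C + 60 * Y.θ := by
  refine ⟨100 * C + 1000 * Y.θ, ?_⟩
  intro R hM y y' p q hN hne hp hq hmin
  have hδ := Y.hδ
  have hθ := Y.hθ
  have hC : 0 ≤ C := dist_nonneg.trans hp
  set θ := Y.θ with hθdef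
  set δ := Y.δ with hδdef
  have hθ1 : 1 ≤ θ := hδ.trans hθ
  -- the rotation
  have hn1 : y' * y⁻¹ ≠ 1 := by
    intro h
    exact hne (mul_inv_eq_one.mp h).symm
  obtain ⟨A, r, hrG, hr1, hrn⟩ := R.wind _ hN hn1 p
  have hrN : r ∈ R.N := R.G_le A hrG
  have hrA : r • A = A := R.fix A r hrG
  have hSne := Y.Sne A
  obtain ⟨a, ha⟩ := Y.proj A p
  obtain ⟨b, hb⟩ := Y.proj A q
  obtain ⟨a', ha'⟩ := Y.proj A (y' • p)
  obtain ⟨b', hb'⟩ := Y.proj A (y' • q)
  -- the basic estimates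
  have hra : IsProj θ (Y.S A) (r • p) (r • a) := ha.smul (t23_mem_iff Y hrA)
  have hra' : IsProj θ (Y.S A) (r⁻¹ • (y' • p)) (r⁻¹ • a') := by
    have hrA' : r⁻¹ • A = A := by rw [inv_smul_eq_iff]; exact hrA.symm
    exact ha'.smul (t23_mem_iff Y hrA')
  have e1 : dist b b' ≤ C + θ := by
    have h1 := le_pd_of_proj hb hb'
    have h2 := pd_le_dist hSne q (y' • q)
    linarith
  have e2 : dist a' (r • a) ≤ C + 51 * θ := by
    have h1 := le_pd_of_proj ha' hra
    have h2 := pd_tri hSne (y' • p) ((y' * y⁻¹) • p) (r • p)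
    have h3 := pd_le_dist hSne (y' • p) ((y' * y⁻¹) • p)
    have h4 : dist (y' • p) ((y' * y⁻¹) • p) = dist p (y • p) := by
      rw [mul_smul, dist_smul, ← dist_smul y, smul_inv_smul, dist_comm]
    rw [pd_symm hSne (r • p)] at hrn
    linarith
  -- (1)
  have k1 : dist a b ≤ dist (r • a) b + 4 * θ := by
    by_cases hfar : θ + δ < dist a b
    · have h1 := far_of_proj Y.hyp ha hb hfar
      have h2 := hmin r⁻¹ (inv_mem hrN)
      have h3 : dist p (r⁻¹ • q) = dist (r • p) q := by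
        rw [← dist_smul r, smul_inv_smul]
      have h4 := dist_triangle4 (r • p) (r • a) b q
      rw [dist_smul, dist_comm b q] at h4
      linarith
    · have := dist_nonneg (x := r • a) (y := b)
      linarith
  have k2 : dist a' b' ≤ dist (r⁻¹ • a') b' + 4 * θ := by
    by_cases hfar : θ + δ < dist a' b'
    · have h1 := far_of_proj Y.hyp ha' hb' hfar
      have h2 := hmin (y'⁻¹ * r * y') (by
        have := R.normal.conj_mem r hrN y'⁻¹
        simpa using this)
      have h3 : dist p ((y'⁻¹ * r * y') • q) = dist (r⁻¹ • (y' • p)) (y' • q) := by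
        rw [mul_assoc, mul_smul, mul_smul, ← dist_smul y', smul_inv_smul, ← dist_smul r⁻¹,
          inv_smul_smul]
      have h4 := dist_triangle4 (r⁻¹ • (y' • p)) (r⁻¹ • a') b' (y' • q)
      rw [dist_smul, dist_comm b' _] at h4
      have h5 : dist (y' • p) (y' • q) = dist p q := dist_smul _ _ _
      linarith
    · have := dist_nonneg (x := r⁻¹ • a') (y := b')
      linarith
  have k3 : dist (r • a) b ≤ dist a' b' + (2 * C + 52 * θ) := by
    have h1 := dist_triangle4 (r • a) a' b' b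
    rw [dist_comm (r • a) a', dist_comm b' b] at h1
    linarith
  have k3' : dist a' b' ≤ dist (r • a) b + (2 * C + 52 * θ) := by
    have h1 := dist_triangle4 a' (r • a) b b'
    linarith
  have k4 : dist (r⁻¹ • a') b' ≤ dist a b + (2 * C + 52 * θ) := by
    have h1 := dist_triangle4 (r⁻¹ • a') a b b'
    have h2 : dist (r⁻¹ • a') a = dist a' (r • a) := by
      rw [← dist_smul r, smul_inv_smul]
    linarith
  have k5 : R.M ≤ dist a (r • a) := R.spin A r hrG hr1 a ha.1
  have k6 : dist a (r • a) ≤ dist a b + dist (r • a) b := by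
    have := dist_triangle a b (r • a)
    rwa [dist_comm b (r • a)] at this
  have k7 : dist (r • a) b ≤ dist a b + (4 * C + 108 * θ) := by linarith
  have k8 : R.M / 2 - 2 * C - 54 * θ ≤ dist a b := by linarith
  have k9 : R.M / 2 - 2 * C - 54 * θ ≤ dist a' b' := by linarith
  have f1 := far_of_proj Y.hyp ha hb (show θ + δ < dist a b by linarith)
  have f2 := far_of_proj Y.hyp ha' hb' (show θ + δ < dist a' b' by linarith)
  have f3 : dist (y' • p) (y' • q) = dist p q := dist_smul _ _ _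
  -- excesses
  have g1 : exc q p a ≤ 4 * θ := by
    have h1 := dist_triangle q b a
    unfold exc
    rw [dist_comm b a] at h1
    rw [dist_comm a p, dist_comm q p]
    linarith
  have g2 : exc q p b ≤ 4 * θ := by
    have h1 := dist_triangle b a p
    unfold exc
    rw [dist_comm b a, dist_comm a p] at h1
    rw [dist_comm q p]
    linarith
  have g3 : exc q p (y'⁻¹ • a') ≤ 4 * θ := by
    have h0 := exc_smul y' q p (y'⁻¹ • a')
    rw [smul_inv_smul] at h0
    rw [← h0]
    have h1 := dist_triangle (y' • q) b' a'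
    unfold exc
    rw [dist_comm b' a'] at h1
    rw [dist_comm a' _, dist_comm (y' • q) (y' • p)]
    linarith
  have g4 : exc q p (y'⁻¹ • b') ≤ 4 * θ := by
    have h0 := exc_smul y' q p (y'⁻¹ • b')
    rw [smul_inv_smul] at h0
    rw [← h0]
    have h1 := dist_triangle b' a' (y' • p)
    unfold exc
    rw [dist_comm b' a', dist_comm a' (y' • p)] at h1
    rw [dist_comm (y' • q) (y' • p)]
    linarith
  have m1 : dist q (y'⁻¹ • b') = dist (y' • q) b' := by
    rw [← dist_smul y', smul_inv_smul]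
  have m2 : dist q (y'⁻¹ • a') = dist (y' • q) a' := by
    rw [← dist_smul y', smul_inv_smul]
  have n1 : |dist q b - dist q (y'⁻¹ • b')| ≤ 2 * C + θ := by
    rw [m1, abs_le]
    have h1 := dist_triangle4 q (y' • q) b' b
    have h2 := dist_triangle4 (y' • q) q b b'
    rw [dist_comm b' b] at h1
    rw [dist_comm (y' • q) q] at h2
    constructor <;> linarith
  have n2 : |dist q a - dist q (y'⁻¹ • a')| ≤ 8 * C + 165 * θ := by
    rw [m1, abs_le] at n1
    rw [m2, abs_le]
    have h1 := dist_triangle q b a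
    have h2 := dist_triangle (y' • q) b' a'
    have h3 := dist_triangle p a q
    have h4 := dist_triangle (y' • p) a' (y' • q)
    rw [dist_comm b a] at h1
    rw [dist_comm b' a'] at h2
    rw [dist_comm a q] at h3
    rw [dist_comm a' (y' • q)] at h4
    constructor <;> linarith [n1.1, n1.2]
  have o1 : dist b (y'⁻¹ • b') ≤ 2 * C + 7 * θ := by
    have := order_close Y.hyp g2 g4
    linarith
  have o2 : dist a (y'⁻¹ • a') ≤ 8 * C + 171 * θ := by
    have := order_close Y.hyp g1 g3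
    linarith
  -- the axis is preserved
  have hinv : y'⁻¹ • A = A := by
    by_contra hcon
    have h1 := Y.small A (y'⁻¹ • A) (fun h => hcon h.symm) (y'⁻¹ • a')
      (Y.smul_mem _ _ _ ha'.1) (y'⁻¹ • b') (Y.smul_mem _ _ _ hb'.1)
    have h2 := le_pd_of_proj (t23_self (c := θ) (by linarith) ha.1)
      (t23_self (c := θ) (by linarith) hb.1)
    have h3 := pd_tri hSne a (y'⁻¹ • a') b
    have h4 := pd_tri hSne (y'⁻¹ • a') (y'⁻¹ • b') b
    have h5 := pd_le_dist hSne a (y'⁻¹ • a')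
    have h6 := pd_le_dist hSne (y'⁻¹ • b') b
    rw [dist_comm _ b] at h6
    linarith
  have hA : y' • A = A := by
    rw [inv_smul_eq_iff] at hinv
    exact hinv.symm
  have h2 : dist b' (y' • b) = dist b (y'⁻¹ • b') := by
    rw [← dist_smul y' b, smul_inv_smul, dist_comm]
  have h3 : dist a' (y' • a) = dist a (y'⁻¹ • a') := by
    rw [← dist_smul y' a, smul_inv_smul, dist_comm]
  rcases R.stab A y' hA with hconst | ⟨hord, hflip⟩
  · exfalso
    have h1 := hconst a ha.1 b hb.1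
    have h4 := dist_triangle b b' (y' • b)
    have h5 := dist_triangle4 a (y' • a) a' (r • a)
    rw [dist_comm (y' • a) a'] at h5
    linarith
  · refine ⟨hord, A, hA, r, hrG, hr1, hflip r hrG, a, ?_, ?_⟩
    · have h6 : dist a ((r⁻¹ * y') • a) = dist (r • a) (y' • a) := by
        rw [mul_smul, ← dist_smul r, smul_inv_smul]
      have h7 := dist_triangle (r • a) a' (y' • a)
      rw [dist_comm (r • a) a'] at h7
      rw [h6]
      linarith
    · have h8 := dist_nonneg (x := q) (y := b)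
      linarith

theorem col_eq (Y : Sys Γ W 𝒜) : ∃ M₀ : ℝ, ∀ R : Spc Y, M₀ ≤ R.M → ∀ c : Γ → Fin 3,
    (∀ γ x : Γ, orderOf x = 2 → c (γ * x * γ⁻¹) = c x) →
    (∀ A, ∀ r ∈ R.G A, r ≠ 1 → ∀ x : Γ, x • A = A → orderOf x = 2 → x * r * x⁻¹ = r⁻¹ →
      c (r * x) = c x) →
    ∀ x x' : Γ, orderOf x = 2 → orderOf x' = 2 → x' * x⁻¹ ∈ R.N → c x = c x' := by
  have hδ := Y.hδ
  have hθ := Y.hθ
  set C : ℝ := 3 * (100 * Y.δ) + 6 * Y.δ + 4 with hC
  obtain ⟨M₁, hM₁⟩ := t23 Y C
  refine ⟨max M₁ (100 * (9 * C + 222 * Y.θ) + 1000 * Y.θ), ?_⟩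
  intro R hM c hconj hcol
  have hMa : M₁ ≤ R.M := (le_max_left _ _).trans hM
  have hMb : 100 * (9 * C + 222 * Y.θ) + 1000 * Y.θ ≤ R.M := (le_max_right _ _).trans hM
  have hC0 : 0 < C := by rw [hC]; linarith
  have key : ∀ k : ℕ, ∀ (x x' : Γ) (p q : Pt W), nd p q ≤ k → orderOf x = 2 → orderOf x' = 2 →
      x' * x⁻¹ ∈ R.N → dist p (x • p) ≤ C → dist q (x' • q) ≤ C → c x = c x' := by
    intro k
    induction k using Nat.strong_induction_on with
    | _ k ih =>
    intro x x' p q hk hx hx' hN hp hq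
    -- the closest translate
    have hex : ∃ j : ℕ, ∃ n ∈ R.N, nd p (n • q) = j := ⟨_, 1, one_mem _, rfl⟩
    classical
    obtain ⟨n, hn, hnd⟩ := Nat.find_spec hex
    have hmin : ∀ m ∈ R.N, nd p (n • q) ≤ nd p (m • q) := fun m hm => by
      rw [hnd]
      exact Nat.find_min' hex ⟨m, hm, rfl⟩
    have hle : nd p (n • q) ≤ k := (by
      have := hmin 1 (one_mem _)
      rw [one_smul] at this
      exact this.trans hk)
    have hordc : orderOf (n * x' * n⁻¹) = 2 := by
      rw [← hx']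
      exact (MulAut.conj n).orderOf_eq x'
    have hcc : c (n * x' * n⁻¹) = c x' := hconj n x' hx'
    have hNc : n * x' * n⁻¹ * x⁻¹ ∈ R.N := by
      have h1 : n * x' * n⁻¹ * x⁻¹ = n * (x' * n⁻¹ * x'⁻¹) * (x' * x⁻¹) := by group
      rw [h1]
      exact mul_mem (mul_mem hn (R.normal.conj_mem _ (inv_mem hn) x')) hN
    have hqc : dist (n • q) ((n * x' * n⁻¹) • (n • q)) ≤ C := by
      have h1 : (n * x' * n⁻¹) • (n • q) = n • (x' • q) := by
        rw [smul_smul, smul_smul]
        congr 1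
        group
      rw [h1, dist_smul]
      exact hq
    have hminc : ∀ m ∈ R.N, dist p (n • q) ≤ dist p (m • (n • q)) := by
      intro m hm
      rw [smul_smul, dist_eq_nd, dist_eq_nd]
      exact_mod_cast hmin (m * n) (mul_mem hm hn)
    by_cases hxx : x = n * x' * n⁻¹
    · rw [← hcc, ← hxx]
    obtain ⟨-, A, hA, r, hr, hr1, hflip, a, ha1, ha2⟩ :=
      hM₁ R hMa x (n * x' * n⁻¹) p (n • q) hNc hxx hp hqc hminc
    set x₁ := n * x' * n⁻¹ with hx₁
    have hx₁x : x₁ * x₁ = 1 := ord_two_mul hordc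
    have hflip' : x₁ * r⁻¹ * x₁⁻¹ = r := by
      have := congrArg (fun g : Γ => g⁻¹) hflip
      simp only [mul_inv_rev, inv_inv] at this
      rw [← mul_assoc] at this
      exact this
    have hinvol : r⁻¹ * x₁ * (r⁻¹ * x₁) = 1 := by
      have h1 : r⁻¹ * x₁ * (r⁻¹ * x₁) = r⁻¹ * (x₁ * r⁻¹ * x₁⁻¹) * (x₁ * x₁) := by group
      rw [h1, hflip', hx₁x, mul_one, inv_mul_cancel]
    have hne : r⁻¹ * x₁ ≠ 1 := by
      intro h
      have h1 : x₁ = r := by
        rw [inv_mul_eq_one] at h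
        exact h.symm
      have h2 := N_inf R.toSp0 (by linarith) (R.G_le A hr) hr1
      apply h2
      rw [← h1]
      rw [← orderOf_pos_iff, hordc]
      norm_num
    have hord2 : orderOf (r⁻¹ * x₁) = 2 := ord_two_of hinvol hne
    have hN2 : r⁻¹ * x₁ * x⁻¹ ∈ R.N := by
      rw [mul_assoc]
      exact mul_mem (inv_mem (R.G_le A hr)) hNc
    have hc2 : c (r⁻¹ * x₁) = c x₁ :=
      hcol A r⁻¹ (inv_mem hr) (inv_ne_one.2 hr1) x₁ hA hordc (by rw [hflip', inv_inv])
    have hfin : IsOfFinOrder (r⁻¹ * x₁) := by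
      rw [← orderOf_pos_iff, hord2]
      norm_num
    obtain ⟨x₀, hx₀⟩ := disp_of_fin Y.hyp Y.hδ (r⁻¹ * x₁) hfin
    obtain ⟨z, hz1, hz2⟩ := cp Y.hyp Y.hδ hx₀ a
    have hz1' : dist z ((r⁻¹ * x₁) • z) ≤ C := hz1
    have h5 := dist_triangle p a z
    have h6 : dist p z < dist p (n • q) := by linarith
    rw [dist_eq_nd, dist_eq_nd] at h6
    have h7 : nd p z < nd p (n • q) := by exact_mod_cast h6
    have h8 := ih (nd p z) (by omega) x (r⁻¹ * x₁) p z le_rfl hx hord2 hN2 hp hz1'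
    rw [h8, hc2, hcc]
  intro x x' hx hx' hN
  have hf : ∀ y : Γ, orderOf y = 2 → ∃ p : Pt W, dist p (y • p) ≤ C := by
    intro y hy
    obtain ⟨p, hp⟩ := disp_of_fin Y.hyp Y.hδ y (by
      rw [← orderOf_pos_iff, hy]
      norm_num)
    refine ⟨p, hp.trans ?_⟩
    rw [hC]
    linarith
  obtain ⟨p, hp⟩ := hf x hx
  obtain ⟨q, hq⟩ := hf x' hx'
  exact key _ x x' p q le_rfl hx hx' hN hp hq

end Pool.Agent.TH68.C
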