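import Pool.Agent.TH68.C.Base

set_option autoImplicit false
set_option linter.unusedSectionVars false

/-! Commuting involutions of the same colour do not appear in the quotient by a spinning family. -/

namespace Pool.Agent.TH68.C

open Pool.Agent.Helper97.Hyp Pool.Agent.TH68

section bad

variable {Γ : Type*} [Group Γ]

/-- pairs of involutions of the same colour generating a Klein four group modulo `N` -/
structure Bad (κ : Γ → Fin 3) (N : Subgroup Γ) (a b : Γ) : Prop where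
  ha : orderOf a = 2
  hb : orderOf b = 2
  sq : (a * b) ^ 2 ∈ N
  nin : a * b ∉ N
  col : κ a = κ b

/-- the colour is invariant under multiplication by elements of `N` -/
def NInv (κ : Γ → Fin 3) (N : Subgroup Γ) : Prop :=
  ∀ n ∈ N, ∀ x : Γ, orderOf x = 2 → orderOf (n * x) = 2 → κ (n * x) = κ x

variable {κ : Γ → Fin 3} {N : Subgroup Γ} [hN : N.Normal] {a b : Γ}

omit hN in
lemma Bad.symm (h : Bad κ N a b) : Bad κ N b a := by
  have e : b * a = (a * b)⁻¹ := by rw [mul_inv_rev, ord_two_inv h.ha, ord_two_inv h.hb]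
  refine ⟨h.hb, h.ha, ?_, ?_, h.col.symm⟩
  · rw [e, inv_pow]; exact N.inv_mem h.sq
  · rw [e]; intro h2; exact h.nin (by simpa using N.inv_mem h2)

lemma Bad.left (hκ : NInv κ N) (h : Bad κ N a b) {n : Γ} (hn : n ∈ N)
    (h2 : orderOf (n * a) = 2) : Bad κ N (n * a) b := by
  refine ⟨h2, h.hb, ?_, ?_, ?_⟩
  · have e : (n * a * b) ^ 2 = n * (a * b * n * (a * b)⁻¹) * (a * b) ^ 2 := by
      rw [pow_two, pow_two]; group
    rw [e]
    exact N.mul_mem (N.mul_mem hn (hN.conj_mem n hn _)) h.sq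
  · intro h3
    apply h.nin
    have := N.mul_mem (N.inv_mem hn) h3
    rwa [mul_assoc n a b, inv_mul_cancel_left] at this
  · rw [hκ n hn a h.ha h2]
    exact h.col

lemma Bad.conj (hκ : NInv κ N) (h : Bad κ N a b) {n : Γ} (hn : n ∈ N) :
    Bad κ N a (n * b * n⁻¹) := by
  have e : n * b * n⁻¹ = n * (b * n⁻¹ * b⁻¹) * b := by group
  apply Bad.symm
  rw [e]
  apply h.symm.left hκ (N.mul_mem hn (hN.conj_mem _ (N.inv_mem hn) b))
  rw [← e]
  have : orderOf (n * b * n⁻¹) = orderOf b := by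
    rw [← MulAut.conj_apply, MulEquiv.orderOf_eq]
  rw [this]; exact h.hb

end bad

section zig

variable {Γ : Type*} [Group Γ] {W : WNorm Γ} {𝒜 : Type*} [MulAction Γ 𝒜]

/-- the zigzag -/
def seqP (u : Γ) (p q : Pt W) : ℕ → Pt W
  | 0 => p
  | 1 => q
  | (n + 2) => u • seqP u p q n

/-- the minimality property of a bad pair -/
def MinBad (κ : Γ → Fin 3) (Y : Sys Γ W 𝒜) (N : Subgroup Γ) (D : ℝ) : Prop :=
  ∀ (a b : Γ) (p q : Pt W), Bad κ N a b → dist p (a • p) ≤ 100 * Y.θ →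
    dist q (b • q) ≤ 100 * Y.θ → D ≤ dist p q

structure Zig (κ : Γ → Fin 3) (Y : Sys Γ W 𝒜) (N : Subgroup Γ) (D : ℝ) (u : Γ) (c : ℕ → Γ)
    (P : ℕ → Pt W) : Prop where
  bad : ∀ i, Bad κ N (c i) (c (i + 1))
  mul : ∀ i j, i ≤ j → c j * c i = u ^ (j - i)
  disp : ∀ i, dist (P i) (c i • P i) ≤ 100 * Y.θ
  low : ∀ i, D ≤ dist (P i) (P (i + 1))
  up : ∀ i, dist (P i) (P (i + 1)) ≤ D + 200 * Y.θ
  ex : ∀ i j k, i ≤ j → j ≤ k → exc (P i) (P k) (P j) ≤ 304 * Y.θ
  refl : ∀ j i, i ≤ 2 * j → dist (c j • P i) (P (2 * j - i)) ≤ 100 * Y.θ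
  per : u ^ 2 • P 2 = P 6

lemma corner {κ : Γ → Fin 3} {Y : Sys Γ W 𝒜} {N : Subgroup Γ} {a b : Γ} {p q : Pt W}
    (hab : Bad κ N a b) (hp : dist p (a • p) ≤ 100 * Y.θ) (hq : dist q (b • q) ≤ 100 * Y.θ)
    (hmin : MinBad κ Y N (dist p q)) : exc p (b • p) q ≤ 100 * Y.θ := by
  have hδ := Y.hδ
  have hθ := Y.hθ
  obtain ⟨z, hz1, hz2, _⟩ := midpt Y.hyp (ord_two_mul hab.hb) p
  have h1 := hmin a b p z hab hp (by linarith)
  have h2 := dist_triangle q (b • q) (b • p)
  rw [dist_smul, dist_comm q p] at h2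
  unfold exc
  linarith

lemma seqP_add (u : Γ) (p q : Pt W) (i m : ℕ) :
    seqP u p q (i + 2 * m) = u ^ m • seqP u p q i := by
  induction m with
  | zero => simp
  | succ m ih =>
    rw [show i + 2 * (m + 1) = (i + 2 * m) + 2 by ring]
    change u • seqP u p q (i + 2 * m) = _
    rw [ih, smul_smul, pow_succ']

lemma two_step {p : ℕ → Prop} (h0 : p 0) (h1 : p 1) (h2 : ∀ i, p i → p (i + 2)) (i : ℕ) :
    p i := by
  induction i using Nat.strongRecOn with
  | _ i ih =>
    match i, ih with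
    | 0, _ => exact h0
    | 1, _ => exact h1
    | (i + 2), ih => exact h2 i (ih i (by omega))

lemma zig_exists {κ : Γ → Fin 3} (hκc : ∀ γ x : Γ, orderOf x = 2 → κ (γ * x * γ⁻¹) = κ x)
    {Y : Sys Γ W 𝒜} {N : Subgroup Γ} {a b : Γ} {p q : Pt W}
    (hab : Bad κ N a b) (hp : dist p (a • p) ≤ 100 * Y.θ) (hq : dist q (b • q) ≤ 100 * Y.θ)
    (hmin : MinBad κ Y N (dist p q)) (hD : 310 * Y.θ ≤ dist p q) :
    ∃ (c : ℕ → Γ) (P : ℕ → Pt W), Zig κ Y N (dist p q) (b * a) c P := by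
  have hδ := Y.hδ
  have hθ := Y.hθ
  have haa := ord_two_mul hab.ha
  have hbb := ord_two_mul hab.hb
  have hai := ord_two_inv hab.ha
  have hbi := ord_two_inv hab.hb
  set u := b * a with hu
  have hui : u⁻¹ = a * b := by rw [hu, mul_inv_rev, hai, hbi]
  -- `a` inverts `u`
  have hau : a * u = u⁻¹ * a := by rw [hui, hu]; group
  have hau' : ∀ n : ℕ, a * u ^ n = (u ^ n)⁻¹ * a := by
    intro n
    induction n with
    | zero => simp
    | succ n ih =>
      rw [pow_succ, ← mul_assoc, ih, mul_assoc, hau, ← mul_assoc, ← mul_inv_rev,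
        (pow_mul_comm' u n)]
  have hau2 : ∀ n : ℕ, a * u ^ n * a = (u ^ n)⁻¹ := by
    intro n
    rw [hau' n, mul_assoc, haa, mul_one]
  have hmul : ∀ i j, i ≤ j → (u ^ j * a) * (u ^ i * a) = u ^ (j - i) := by
    intro i j hij
    have e : (u ^ j * a) * (u ^ i * a) = u ^ j * (a * u ^ i * a) := by group
    rw [e, hau2, pow_sub u hij]
  have hstep : ∀ i, u ^ (i + 2) * a = u * (u ^ i * a) * u⁻¹ := by
    intro i
    have h1 : a * u⁻¹ = u * a := by
      rw [hui, hu, ← mul_assoc, haa, one_mul, mul_assoc, haa, mul_one]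
    rw [mul_assoc u, mul_assoc (u ^ i), h1, ← mul_assoc (u ^ i), ← mul_assoc u, ← pow_succ,
      ← pow_succ']
  have hc0 : u ^ 0 * a = a := by simp
  have hc1 : u ^ 1 * a = b := by rw [pow_one, hu, mul_assoc, haa, mul_one]
  have hord : ∀ i, orderOf (u ^ i * a) = 2 := by
    apply two_step
    · rw [hc0]; exact hab.ha
    · rw [hc1]; exact hab.hb
    · intro i hi
      rw [hstep, ← MulAut.conj_apply, MulEquiv.orderOf_eq]
      exact hi
  have hcol : ∀ i, κ (u ^ i * a) = κ a := by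
    apply two_step
    · rw [hc0]
    · rw [hc1]; exact hab.col.symm
    · intro i hi
      rw [hstep, hκc u _ (hord i)]
      exact hi
  have hbad : ∀ i, Bad κ N (u ^ i * a) (u ^ (i + 1) * a) := by
    intro i
    have h1 := hmul i (i + 1) (by omega)
    rw [Nat.add_sub_cancel_left, pow_one] at h1
    have h2 : (u ^ i * a) * (u ^ (i + 1) * a) = a * b := by
      have h3 := congrArg (·⁻¹) h1
      simp only [mul_inv_rev (u ^ (i + 1) * a)] at h3
      rw [ord_two_inv (hord _), ord_two_inv (hord _), hui] at h3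
      exact h3
    refine ⟨hord _, hord _, ?_, ?_, (hcol i).trans (hcol (i + 1)).symm⟩
    · rw [h2]; exact hab.sq
    · rw [h2]; exact hab.nin
  have hdisp : ∀ i, dist (seqP u p q i) ((u ^ i * a) • seqP u p q i) ≤ 100 * Y.θ := by
    apply two_step
    · rw [hc0]; exact hp
    · rw [hc1]; exact hq
    · intro i hi
      have h1 : (u ^ (i + 2) * a) • seqP u p q (i + 2) = u • (u ^ i * a) • seqP u p q i := by
        change (u ^ (i + 2) * a) • u • seqP u p q i = _
        rw [hstep, smul_smul, smul_smul, inv_mul_cancel_right]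
      rw [h1]
      change dist (u • seqP u p q i) _ ≤ _
      rw [dist_smul]
      exact hi
  have hup1 : dist q (u • p) ≤ dist p q + 200 * Y.θ := by
    have h1 := dist_triangle4 q (b • q) (b • p) (u • p)
    rw [dist_smul, hu, mul_smul, dist_smul, dist_comm q p] at h1
    rw [hu, mul_smul]
    linarith
  have hup : ∀ i, dist (seqP u p q i) (seqP u p q (i + 1)) ≤ dist p q + 200 * Y.θ := by
    apply two_step
    · change dist p q ≤ _
      linarith
    · exact hup1
    · intro i hi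
      change dist (u • seqP u p q i) (u • seqP u p q (i + 1)) ≤ _
      rw [dist_smul]
      exact hi
  have hlow : ∀ i, dist p q ≤ dist (seqP u p q i) (seqP u p q (i + 1)) := by
    intro i
    exact hmin _ _ _ _ (hbad i) (hdisp i) (hdisp (i + 1))
  have hcor : ∀ i, exc (seqP u p q i) (seqP u p q (i + 2)) (seqP u p q (i + 1)) ≤
      300 * Y.θ := by
    apply two_step
    · change exc p (u • p) q ≤ _
      have h1 := corner hab hp hq hmin
      have h2 := exc_move_right p (b • p) (u • p) q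
      rw [hu, mul_smul, dist_smul] at h2
      rw [hu, mul_smul]
      linarith
    · change exc q (u • q) (u • p) ≤ _
      rw [dist_comm p q] at hmin
      have h1 := corner hab.symm hq hp hmin
      have h2 := exc_move_right q (a • q) (u⁻¹ • q) p
      rw [hui, mul_smul, dist_smul] at h2
      have h3 : exc q (u • q) (u • p) = exc (u⁻¹ • q) q p := by
        have h4 := exc_smul u (u⁻¹ • q) q p
        rwa [smul_inv_smul] at h4
      rw [h3, exc_comm, hui, mul_smul]
      linarith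
    · intro i hi
      change exc (u • seqP u p q i) (u • seqP u p q (i + 2)) (u • seqP u p q (i + 1)) ≤ _
      rw [exc_smul]
      exact hi
  refine ⟨fun i => u ^ i * a, seqP u p q, hbad, hmul, hdisp, hlow, hup, ?_, ?_, ?_⟩
  · intro i j k hij hjk
    have h1 := bg Y.hyp (x := seqP u p q) (a := 300 * Y.θ) (by linarith) hcor
      (fun i => by have := hlow i; linarith) hij hjk
    linarith
  · intro j i hij
    rcases le_total i j with h1 | h1
    · obtain ⟨m, rfl⟩ := Nat.exists_eq_add_of_le h1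
      rw [show 2 * (i + m) - i = i + 2 * m by omega, seqP_add]
      have e : u ^ (i + m) * a = u ^ m * (u ^ i * a) := by
        rw [← mul_assoc, ← pow_add, add_comm m i]
      simp only [e]
      rw [mul_smul, dist_smul, dist_comm]
      exact hdisp i
    · obtain ⟨m, rfl⟩ := Nat.exists_eq_add_of_le h1
      have h2 : seqP u p q (j + m) = u ^ m • seqP u p q (2 * j - (j + m)) := by
        rw [← seqP_add]
        congr 1
        omega
      have h3 := hdisp (j + m)
      have e : u ^ (j + m) * a = u ^ m * (u ^ j * a) := by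
        rw [← mul_assoc, ← pow_add, add_comm m j]
      rw [dist_comm, e, mul_smul] at h3
      nth_rewrite 2 [h2] at h3
      rw [dist_smul] at h3
      exact h3
  · rw [← seqP_add]

end zig

section core

variable {Γ : Type*} [Group Γ] {W : WNorm Γ} {𝒜 : Type*} [MulAction Γ 𝒜]

/-- twisting an involution by an element of the killed subgroup contradicts minimality -/
lemma reduce {κ : Γ → Fin 3} {Y : Sys Γ W 𝒜} {N : Subgroup Γ} [N.Normal] (hκ : NInv κ N)
    {D A₁ : ℝ} (hmin : MinBad κ Y N D)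
    {c e ρ : Γ} {P Q : Pt W} (hce : Bad κ N c e) (hρ : ρ ∈ N) (ho : orderOf (ρ * c) = 2)
    (hP : dist P (c • P) ≤ 100 * Y.θ) (hQ : dist Q (e • Q) ≤ 100 * Y.θ)
    (h1 : dist Q P ≤ D + A₁) (h2 : dist Q (ρ • P) ≤ D + A₁)
    (h3 : 2 * A₁ + 400 * Y.θ < dist P (ρ • P)) : False := by
  have hδ := Y.hδ
  have hθ := Y.hθ
  obtain ⟨z, hz1, _, hz3⟩ := midpt Y.hyp (ord_two_mul ho) P
  have h4 := hmin e (ρ * c) Q z (hce.left hκ hρ ho).symm hQ (by linarith)
  have h5 := hz3 Q
  have h6 : dist (ρ • P) ((ρ * c) • P) ≤ 100 * Y.θ := by rw [mul_smul, dist_smul]; exact hP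
  have h7 := dist_triangle Q (ρ • P) ((ρ * c) • P)
  have h8 := dist_triangle P ((ρ * c) • P) (ρ • P)
  rw [dist_comm ((ρ * c) • P) (ρ • P)] at h8
  have h9 : max (dist Q P) (dist Q ((ρ * c) • P)) ≤ D + A₁ + 100 * Y.θ :=
    max_le (by linarith) (by linarith)
  linarith

lemma twist_order {Y : Sys Γ W 𝒜} (R : Sp0 Y) (hM : 200 * Y.θ ≤ R.M) {A : 𝒜} {c r : Γ}
    (hc : orderOf c = 2) (h1 : c * r * c⁻¹ = r⁻¹) (hr : r ∈ R.G A) : orderOf (r * c) = 2 := by
  have h2 := ord_two_mul hc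
  apply ord_two_of
  · have e : r * c * (r * c) = r * (c * r * c⁻¹) * (c * c) := by group
    rw [e, h1, h2]; group
  · intro h3
    have h4 : c = r⁻¹ := by rw [← mul_eq_one_iff_eq_inv']; exact h3
    have h5 : c ∈ R.N := by rw [h4]; exact R.N.inv_mem (R.G_le A hr)
    have h6 : c ≠ 1 := by intro h; rw [h, orderOf_one] at hc; omega
    apply N_inf R hM h5 h6
    rw [← orderOf_pos_iff, hc]
    norm_num

theorem t4_core {κ : Γ → Fin 3} {Y : Sys Γ W 𝒜} (R : Spc Y) (hM : 100000 * Y.θ ≤ R.M)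
    (hκ : NInv κ R.N)
    (H2 : ∀ A : 𝒜, ∀ a b : Γ, orderOf a = 2 → orderOf b = 2 → ¬ IsOfFinOrder (b * a) →
      (b * a) • A = A → (b * a) ^ 2 ∈ R.N → b * a ∉ R.N → κ a ≠ κ b) {D : ℝ} {u : Γ}
    {c : ℕ → Γ} {P : ℕ → Pt W} (hZ : Zig κ Y R.N D u c P) (hmin : MinBad κ Y R.N D)
    (hD : 310 * Y.θ ≤ D) (hu : ¬ IsOfFinOrder u) (hu2 : u ^ 2 ∈ R.N) (hun : u ∉ R.N) :
    False := by
  have hδ := Y.hδ
  have hθ := Y.hθ
  have hu1 : u ^ 2 ≠ 1 := fun h => hu (isOfFinOrder_iff_pow_eq_one.2 ⟨2, by norm_num, h⟩)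
  obtain ⟨A, r, hr, hr1, q₁, hq₁, q₂, hq₂, h1, h2, h3⟩ :=
    fact_w R.toSp0 (by linarith) hu2 hu1 (P 2)
  rw [hZ.per] at h3
  -- excesses
  have e1 : exc (P 2) (P 6) q₁ ≤ 4 * Y.θ := by
    have := dist_triangle q₁ q₂ (P 6)
    unfold exc; linarith
  have e2 : exc (P 2) (P 6) q₂ ≤ 4 * Y.θ := by
    have := dist_triangle (P 2) q₁ q₂
    unfold exc; linarith
  have x26 := hZ.ex 0 2 6 (by norm_num) (by norm_num)
  have x68 := hZ.ex 0 6 8 (by norm_num) (by norm_num)
  have win : ∀ z, exc (P 2) (P 6) z ≤ 4 * Y.θ → exc (P 0) (P 8) z ≤ 612 * Y.θ ∧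
      dist (P 0) (P 2) - 308 * Y.θ ≤ dist (P 0) z ∧
      dist (P 0) z ≤ dist (P 0) (P 6) + 308 * Y.θ := by
    intro z hz
    have h4 := exc_sub_two (P 0) (P 6) (P 2) z
    have h5 := exc_sub_two' (P 0) (P 8) (P 6) z
    have h6 := exc_sub_one (P 0) (P 6) (P 2) z
    refine ⟨by linarith, ?_, ?_⟩
    · have h7 : exc (P 0) z (P 2) ≤ 308 * Y.θ := by linarith
      unfold exc at h7
      have := dist_nonneg (x := P 2) (y := z)
      linarith
    · have h7 : exc (P 0) (P 6) z ≤ 308 * Y.θ := by linarith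
      unfold exc at h7
      have := dist_nonneg (x := z) (y := P 6)
      linarith
  obtain ⟨w1, s1l, s1u⟩ := win q₁ e1
  obtain ⟨w2, s2l, s2u⟩ := win q₂ e2
  have wj : ∀ j ≤ 8, exc (P 0) (P 8) (P j) ≤ 304 * Y.θ := fun j hj =>
    hZ.ex 0 j 8 (by omega) hj
  have cl : ∀ z z' : Pt W, exc (P 0) (P 8) z ≤ 1012 * Y.θ → exc (P 0) (P 8) z' ≤ 1012 * Y.θ →
      dist z z' ≤ |dist (P 0) z - dist (P 0) z'| + 1014 * Y.θ := by
    intro z z' hz hz'
    have := order_close Y.hyp hz hz'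
    linarith
  have cl' : ∀ z z' : Pt W, exc (P 0) (P 8) z ≤ 612 * Y.θ → exc (P 0) (P 8) z' ≤ 612 * Y.θ →
      dist z z' ≤ |dist (P 0) z - dist (P 0) z'| + 614 * Y.θ := by
    intro z z' hz hz'
    have := order_close Y.hyp hz hz'
    linarith
  -- the distance of `q₁` and `q₂`
  have s12 : dist (P 0) q₁ + dist q₁ q₂ ≤ dist (P 0) q₂ + 312 * Y.θ := by
    have h4 := exc_sub_one (P 0) (P 6) (P 2) q₂
    have h5 := exc_sub_two (P 0) q₂ (P 2) q₁
    have h6 : exc (P 2) q₂ q₁ ≤ 4 * Y.θ := by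
      have := dist_triangle (P 2) q₂ (P 6)
      unfold exc; linarith
    have h7 : exc (P 0) q₂ q₁ ≤ 312 * Y.θ := by linarith
    unfold exc at h7
    linarith
  have s21 := dist_triangle (P 0) q₁ q₂
  set s₁ := dist (P 0) q₁ with hs1
  set s₂ := dist (P 0) q₂ with hs2
  have tstep : ∀ j, dist (P 0) (P (j + 1)) ≤ dist (P 0) (P j) + (D + 200 * Y.θ) := by
    intro j
    have h4 := dist_triangle (P 0) (P j) (P (j + 1))
    have h5 := hZ.up j
    linarith
  have tlow : ∀ j, dist (P 0) (P j) + (D - 304 * Y.θ) ≤ dist (P 0) (P (j + 1)) := by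
    intro j
    have h4 := hZ.ex 0 j (j + 1) (by omega) (by omega)
    have h5 := hZ.low j
    unfold exc at h4
    linarith
  -- distances of the `q`s to the `P`s
  have d1 : ∀ j ≤ 8, dist (P j) q₁ ≤ |dist (P 0) (P j) - s₁| + 614 * Y.θ := by
    intro j hj
    have h6 := wj j hj
    exact cl' (P j) q₁ (by linarith) w1
  have d2 : ∀ j ≤ 8, dist (P j) q₂ ≤ |dist (P 0) (P j) - s₂| + 614 * Y.θ := by
    intro j hj
    have h6 := wj j hj
    exact cl' (P j) q₂ (by linarith) w2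
  have side : ∀ j, j + 1 ≤ 8 → dist (P 0) (P j) - 6000 * Y.θ ≤ s₁ →
      s₂ ≤ dist (P 0) (P (j + 1)) + 6000 * Y.θ → False := by
    intro j hj h4 h5
    have h6 := d1 j (by omega)
    have h7 := d2 (j + 1) hj
    have h8 : |dist (P 0) (P j) - s₁| ≤ s₁ - dist (P 0) (P j) + 12000 * Y.θ := by
      rw [abs_le]; constructor <;> linarith
    have h9 : |dist (P 0) (P (j + 1)) - s₂| ≤ dist (P 0) (P (j + 1)) - s₂ + 12000 * Y.θ := by
      rw [abs_le]; constructor <;> linarith
    have h10 : dist (r⁻¹ • P (j + 1)) ((r⁻¹ * c (j + 1) * (r⁻¹)⁻¹) • r⁻¹ • P (j + 1)) ≤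
        100 * Y.θ := by
      rw [smul_smul, inv_mul_cancel_right, mul_smul, dist_smul]
      exact hZ.disp (j + 1)
    have h11 := hmin _ _ _ _ ((hZ.bad j).conj hκ (R.N.inv_mem (R.G_le A hr))) (hZ.disp j) h10
    have h12 : dist (P j) (r⁻¹ • P (j + 1)) = dist (r • P j) (P (j + 1)) := by
      rw [← dist_smul r, smul_inv_smul]
    have h13 := dist_triangle4 (r • P j) (r • q₁) q₂ (P (j + 1))
    rw [dist_smul, dist_comm q₂ (P (j + 1))] at h13
    have h14 := tstep j
    linarith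
  -- indices in the middle
  have mid_axis : ∀ j, 3 ≤ j → j ≤ 5 → s₁ + 6000 * Y.θ ≤ dist (P 0) (P j) →
      dist (P 0) (P j) ≤ s₂ - 6000 * Y.θ → (∃ s ∈ Y.S A, dist (P j) s ≤ 615 * Y.θ) ∧
        c j • A = A ∧ ∀ r ∈ R.G A, c j * r * (c j)⁻¹ = r⁻¹ := by
    intro j hj3 hj5 h4 h5
    have h6 := d1 j (by omega)
    have h7 := d2 j (by omega)
    rw [abs_of_nonneg (by linarith)] at h6
    rw [abs_of_nonpos (by linarith)] at h7
    have h8 : exc q₁ q₂ (P j) ≤ 1228 * Y.θ := by
      unfold exc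
      rw [dist_comm q₁ (P j)]
      linarith
    obtain ⟨s, hs, hs'⟩ := near_axis Y hq₁ hq₂ h8
    have hs'' : dist (P j) s ≤ 615 * Y.θ := by linarith
    refine ⟨⟨s, hs, hs''⟩, ?_⟩
    have h9 : dist (c j • s) s ≤ 2327 * Y.θ := by
      have h10 := dist_triangle4 (c j • s) (c j • P j) (P j) s
      rw [dist_smul, dist_comm s (P j), dist_comm (c j • P j) (P j)] at h10
      have h11 := hZ.disp j
      linarith
    have hrefl := hZ.refl j
    rcases le_total (dist (P 0) (P j) - s₁) (s₂ - dist (P 0) (P j)) with h10 | h10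
    · obtain ⟨g1, g2, g3⟩ := refl_pos (by linarith) hZ.ex hj3 hj5 hrefl e1
      have g4 := cl q₁ (c j • q₁) (by linarith) g3
      have g5 := cl (c j • q₁) q₂ g3 (by linarith)
      rw [abs_of_nonpos (by linarith)] at g4
      have g6 : |dist (P 0) (c j • q₁) - dist (P 0) q₂| ≤
          s₂ - dist (P 0) (c j • q₁) + 2624 * Y.θ := by
        rw [abs_le]; constructor <;> linarith
      have g7 : exc q₁ q₂ (c j • q₁) ≤ 4652 * Y.θ := by
        unfold exc
        linarith
      obtain ⟨t, ht, ht'⟩ := near_axis Y hq₁ hq₂ g7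
      have g8 := dist_triangle (P 0) q₁ (P j)
      have g9 := dist_triangle q₁ s (P j)
      rw [dist_comm s (P j)] at g9
      have hA : c j • A = A :=
        stab_axis Y hq₁ hs ht hs (ρ := 2327 * Y.θ) (by linarith) h9 (by linarith)
      refine ⟨hA, ?_⟩
      rcases R.stab A (c j) hA with g10 | g10
      · exfalso
        have g11 := g10 s hs q₁ hq₁
        have g12 := dist_triangle (P 0) q₁ (c j • q₁)
        rw [dist_comm s (c j • s)] at g11
        linarith
      · exact g10.2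
    · obtain ⟨g1, g2, g3⟩ := refl_pos (by linarith) hZ.ex hj3 hj5 hrefl e2
      have g4 := cl (c j • q₂) q₂ g3 (by linarith)
      have g5 := cl q₁ (c j • q₂) (by linarith) g3
      rw [abs_of_nonpos (by linarith)] at g4
      have g6 : |dist (P 0) q₁ - dist (P 0) (c j • q₂)| ≤
          dist (P 0) (c j • q₂) - s₁ + 2624 * Y.θ := by
        rw [abs_le]; constructor <;> linarith
      have g7 : exc q₁ q₂ (c j • q₂) ≤ 4652 * Y.θ := by
        unfold exc
        linarith
      obtain ⟨t, ht, ht'⟩ := near_axis Y hq₁ hq₂ g7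
      have g8 := dist_triangle (P 0) (P j) q₂
      have g9 := dist_triangle (P j) s q₂
      rw [dist_comm s q₂] at g9
      have hA : c j • A = A :=
        stab_axis Y hq₂ hs ht hs (ρ := 2327 * Y.θ) (by linarith) h9 (by linarith)
      refine ⟨hA, ?_⟩
      rcases R.stab A (c j) hA with g10 | g10
      · exfalso
        have g11 := g10 s hs q₂ hq₂
        have g12 := dist_triangle (P 0) (c j • q₂) q₂
        rw [dist_comm (c j • q₂) q₂] at g12
        rw [dist_comm s (c j • s)] at g11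
        linarith
      · exact g10.2
  -- existence and uniqueness of the middle index
  have uniq : ∀ i, 3 ≤ i → i + 1 ≤ 5 → s₁ + 6000 * Y.θ ≤ dist (P 0) (P i) →
      dist (P 0) (P i) ≤ s₂ - 6000 * Y.θ → s₁ + 6000 * Y.θ ≤ dist (P 0) (P (i + 1)) →
      dist (P 0) (P (i + 1)) ≤ s₂ - 6000 * Y.θ → False := by
    intro i hi hj h4 h5 h6 h7
    have h8 := (mid_axis i hi (by omega) h4 h5).2.1
    have h9 := (mid_axis (i + 1) (by omega) hj h6 h7).2.1
    have e := hZ.mul i (i + 1) (by omega)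
    rw [Nat.add_sub_cancel_left, pow_one] at e
    have h10 : (c (i + 1) * c i) • A = A := by
      rw [mul_smul, h8, h9]
    have hb := hZ.bad i
    exact H2 A (c i) (c (i + 1)) hb.ha hb.hb (by rw [e]; exact hu) h10 (by rw [e]; exact hu2)
      (by rw [e]; exact hun) hb.col
  -- the final contradiction
  have fin : ∀ i, 2 ≤ i → i + 2 ≤ 6 → s₁ + 6000 * Y.θ ≤ dist (P 0) (P (i + 1)) →
      dist (P 0) (P (i + 1)) ≤ s₂ - 6000 * Y.θ → dist (P 0) (P i) - 6000 * Y.θ ≤ s₁ →
      s₂ ≤ dist (P 0) (P (i + 2)) + 6000 * Y.θ → False := by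
    intro i hi hi6 h4 h5 h6 h7
    obtain ⟨⟨s, hs, hs'⟩, -, hcf⟩ := mid_axis (i + 1) (by omega) (by omega) h4 h5
    have k1 := tstep i
    have k2 := tstep (i + 1)
    have hr' := (R.G A).inv_mem hr
    have hr1' : r⁻¹ ≠ 1 := fun h => hr1 (inv_eq_one.1 h)
    have disp' : ∀ ρ ∈ R.G A, ρ ≠ 1 → R.M - 1230 * Y.θ ≤ dist (P (i + 1)) (ρ • P (i + 1)) := by
      intro ρ hρ hρ1
      have g1 := R.spin A ρ hρ hρ1 s hs
      have g2 := dist_triangle4 s (P (i + 1)) (ρ • P (i + 1)) (ρ • s)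
      rw [dist_smul, dist_comm s (P (i + 1))] at g2
      linarith
    have a1 := d1 (i + 1) (by omega)
    have a2 := d2 (i + 1) (by omega)
    rw [abs_of_nonneg (by linarith)] at a1
    rw [abs_of_nonpos (by linarith)] at a2
    rcases le_total (dist (P 0) (P (i + 1)) - s₁) (s₂ - dist (P 0) (P (i + 1))) with h8 | h8
    · have b1 := d2 (i + 2) (by omega)
      have b2 : |dist (P 0) (P (i + 2)) - s₂| ≤
          dist (P 0) (P (i + 2)) - s₂ + 12000 * Y.θ := by
        rw [abs_le]; constructor <;> linarith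
      have b3 := dist_triangle4 (P (i + 2)) q₂ (r • q₁) (r • P (i + 1))
      rw [dist_smul, dist_comm q₂ (r • q₁), dist_comm q₁] at b3
      have b4 := hZ.up (i + 1)
      rw [dist_comm] at b4
      refine reduce hκ hmin (hZ.bad (i + 1)) (R.G_le A hr)
        (twist_order R.toSp0 (by linarith) (hZ.bad (i + 1)).ha (hcf r hr) hr) (hZ.disp (i + 1))
        (hZ.disp (i + 2)) (A₁ := 14000 * Y.θ) ?_ ?_ ?_
      · change dist (P (i + 2)) (P (i + 1)) ≤ _ at b4
        linarith
      · change dist (P 0) (P (i + 2)) ≤ _ at k2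
        linarith
      · have := disp' r hr hr1
        linarith
    · have b1 := d1 i (by omega)
      have b2 : |dist (P 0) (P i) - s₁| ≤ s₁ - dist (P 0) (P i) + 12000 * Y.θ := by
        rw [abs_le]; constructor <;> linarith
      have b3 : dist (P i) (r⁻¹ • P (i + 1)) ≤
          dist (P i) q₁ + 51 * Y.θ + dist (P (i + 1)) q₂ := by
        have g1 : dist q₁ (r⁻¹ • P (i + 1)) = dist (r • q₁) (P (i + 1)) := by
          rw [← dist_smul r, smul_inv_smul]
        have g2 := dist_triangle (P i) q₁ (r⁻¹ • P (i + 1))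
        have g3 := dist_triangle (r • q₁) q₂ (P (i + 1))
        rw [dist_comm q₂ (P (i + 1))] at g3
        linarith
      have b4 := hZ.up i
      refine reduce hκ hmin (hZ.bad i).symm (R.G_le A hr')
        (twist_order R.toSp0 (by linarith) (hZ.bad i).hb (hcf _ hr') hr') (hZ.disp (i + 1))
        (hZ.disp i) (A₁ := 14000 * Y.θ) ?_ ?_ ?_
      · linarith
      · linarith
      · have := disp' r⁻¹ hr' hr1'
        linarith
  have t23 := tlow 2
  have t34 := tlow 3
  have t45 := tlow 4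
  have t56 := tlow 5
  norm_num at t23 t34 t45 t56
  -- case analysis
  by_cases m3 : s₁ + 6000 * Y.θ ≤ dist (P 0) (P 3) ∧ dist (P 0) (P 3) ≤ s₂ - 6000 * Y.θ
  · by_cases m4 : s₁ + 6000 * Y.θ ≤ dist (P 0) (P 4) ∧ dist (P 0) (P 4) ≤ s₂ - 6000 * Y.θ
    · exact uniq 3 (by norm_num) (by norm_num) m3.1 m3.2 m4.1 m4.2
    · refine fin 2 (by norm_num) (by norm_num) m3.1 m3.2 (by linarith) ?_
      by_contra hcon
      exact m4 ⟨by linarith [m3.1], by linarith [not_le.1 hcon]⟩
  · by_cases m4 : s₁ + 6000 * Y.θ ≤ dist (P 0) (P 4) ∧ dist (P 0) (P 4) ≤ s₂ - 6000 * Y.θ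
    · by_cases m5 : s₁ + 6000 * Y.θ ≤ dist (P 0) (P 5) ∧ dist (P 0) (P 5) ≤ s₂ - 6000 * Y.θ
      · exact uniq 4 (by norm_num) (by norm_num) m4.1 m4.2 m5.1 m5.2
      · refine fin 3 (by norm_num) (by norm_num) m4.1 m4.2 ?_ ?_
        · by_contra hcon
          exact m3 ⟨by linarith [not_le.1 hcon], by linarith [m4.2]⟩
        · by_contra hcon
          exact m5 ⟨by linarith [m4.1], by linarith [not_le.1 hcon]⟩
    · by_cases m5 : s₁ + 6000 * Y.θ ≤ dist (P 0) (P 5) ∧ dist (P 0) (P 5) ≤ s₂ - 6000 * Y.θ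
      · refine fin 4 (by norm_num) (by norm_num) m5.1 m5.2 ?_ (by linarith)
        by_contra hcon
        exact m4 ⟨by linarith [not_le.1 hcon], by linarith [m5.2]⟩
      · -- no middle index
        rcases lt_or_ge s₂ (dist (P 0) (P 3) + 6000 * Y.θ) with h | h
        · exact side 2 (by norm_num) (by linarith) h.le
        have g3 : dist (P 0) (P 3) - 6000 * Y.θ ≤ s₁ := by
          by_contra hcon
          exact m3 ⟨by linarith [not_le.1 hcon], by linarith⟩
        rcases lt_or_ge s₂ (dist (P 0) (P 4) + 6000 * Y.θ) with h' | h'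
        · exact side 3 (by norm_num) (by linarith) h'.le
        have g4 : dist (P 0) (P 4) - 6000 * Y.θ ≤ s₁ := by
          by_contra hcon
          exact m4 ⟨by linarith [not_le.1 hcon], by linarith⟩
        rcases lt_or_ge s₂ (dist (P 0) (P 5) + 6000 * Y.θ) with h'' | h''
        · exact side 4 (by norm_num) (by linarith) h''.le
        have g5 : dist (P 0) (P 5) - 6000 * Y.θ ≤ s₁ := by
          by_contra hcon
          exact m5 ⟨by linarith [not_le.1 hcon], by linarith⟩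
        exact side 5 (by norm_num) (by linarith) (by linarith)

end core

section final

variable {Γ : Type*} [Group Γ] {W : WNorm Γ} {𝒜 : Type*} [MulAction Γ 𝒜]

theorem t4 (Y : Sys Γ W 𝒜) : ∃ M₀ : ℝ, ∀ R : Spc Y, M₀ ≤ R.M → ∀ c : Γ → Fin 3,
    (∀ γ x : Γ, orderOf x = 2 → c (γ * x * γ⁻¹) = c x) →
    (∀ x y : Γ, orderOf x = 2 → orderOf y = 2 → Commute x y → x ≠ y → c x ≠ c y) →
    (∀ n ∈ R.N, ∀ x : Γ, orderOf x = 2 → orderOf (n * x) = 2 → c (n * x) = c x) →
    (∀ A : 𝒜, ∀ a b : Γ, orderOf a = 2 → orderOf b = 2 → ¬ IsOfFinOrder (b * a) → (b * a) • A = A →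
      (b * a) ^ 2 ∈ R.N → b * a ∉ R.N → c a ≠ c b) →
    ∀ a b : Γ, orderOf a = 2 → orderOf b = 2 → (a * b) ^ 2 ∈ R.N → a * b ∉ R.N → c a ≠ c b := by
  classical
  have hδ := Y.hδ
  have hθ := Y.hθ
  obtain ⟨M₁, hM₁⟩ := t1_short_unif Y (820 * Y.θ)
  refine ⟨max M₁ (100000 * Y.θ), fun R hR κ hκc hκm hκ H2 a b ha hb hsq hnin hcol => ?_⟩
  have hR1 : M₁ ≤ R.M := (le_max_left _ _).trans hR
  have hR2 : 100000 * Y.θ ≤ R.M := (le_max_right _ _).trans hR
  -- a minimal bad quadruple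
  have hex : ∃ d : ℕ, ∃ (a b : Γ) (p q : Pt W), Bad κ R.N a b ∧ dist p (a • p) ≤ 100 * Y.θ ∧
      dist q (b • q) ≤ 100 * Y.θ ∧ nd p q = d := by
    obtain ⟨p, hp⟩ := disp_of_fin Y.hyp Y.hδ a
      (by rw [← orderOf_pos_iff, ha]; norm_num)
    obtain ⟨q, hq⟩ := disp_of_fin Y.hyp Y.hδ b
      (by rw [← orderOf_pos_iff, hb]; norm_num)
    exact ⟨_, a, b, p, q, ⟨ha, hb, hsq, hnin, hcol⟩, by linarith, by linarith, rfl⟩
  obtain ⟨a, b, p, q, hab, hp, hq, hd⟩ := Nat.find_spec hex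
  have hmin : MinBad κ Y R.N (dist p q) := by
    intro a' b' p' q' hab' hp' hq'
    have := Nat.find_min' hex ⟨a', b', p', q', hab', hp', hq', rfl⟩
    rw [dist_eq_nd, dist_eq_nd, hd]
    exact_mod_cast this
  have hu2 : (b * a) ^ 2 ∈ R.N := hab.symm.sq
  have hun : b * a ∉ R.N := hab.symm.nin
  have hu : ¬ IsOfFinOrder (b * a) := by
    intro hf
    have h1 : (b * a) ^ 2 = 1 := by
      by_contra h2
      exact N_inf R.toSp0 (by linarith) hu2 h2 hf.pow
    have h3 : Commute b a := by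
      rw [commute_iff_eq]
      have h4 : (b * a) * (b * a) = 1 := by rw [← pow_two]; exact h1
      have h5 := eq_inv_of_mul_eq_one_left h4
      rw [mul_inv_rev, ord_two_inv hab.ha, ord_two_inv hab.hb] at h5
      exact h5
    refine hκm b a hab.hb hab.ha h3 ?_ hab.col.symm
    intro h6
    apply hun
    rw [h6, ord_two_mul hab.ha]
    exact R.N.one_mem
  rcases le_total (310 * Y.θ) (dist p q) with hD | hD
  · obtain ⟨c, P, hZ⟩ := zig_exists hκc hab hp hq hmin hD
    exact t4_core R hR2 hκ H2 hZ hmin hD hu hu2 hun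
  · have h1 := dist_triangle4 p q (b • q) (b • p)
    have h2 := dist_triangle p (b • p) ((b * a) • p)
    rw [dist_smul, dist_comm q p] at h1
    rw [mul_smul, dist_smul] at h2
    obtain ⟨A, hA⟩ := hM₁ R.toSp0 hR1 (b * a) hu ⟨p, by rw [mul_smul]; linarith⟩ 2
      (by norm_num) hu2
    exact H2 A a b hab.ha hab.hb hu hA hu2 hun hab.col

end final

end Pool.Agent.TH68.C
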