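import Pool.Agent.TH68.C.Defs

set_option autoImplicit false
set_option linter.unusedSectionVars false

/-! The quotient of a hyperbolic group by a spinning family is hyperbolic. -/

namespace Pool.Agent.TH68.C

open Pool.Agent.Helper97.Hyp Pool.Agent.TH68

section quot

variable {Γ : Type*} [Group Γ]

/-- minimal length of a lift -/
noncomputable def qlen (W : WNorm Γ) (N : Subgroup Γ) (q : Γ ⧸ N) : ℕ :=
  sInf {k | ∃ g : Γ, (g : Γ ⧸ N) = q ∧ W.ℓ g = k}

lemma qlen_spec (W : WNorm Γ) (N : Subgroup Γ) (q : Γ ⧸ N) :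
    ∃ g : Γ, (g : Γ ⧸ N) = q ∧ W.ℓ g = qlen W N q := by
  have h : {k | ∃ g : Γ, (g : Γ ⧸ N) = q ∧ W.ℓ g = k}.Nonempty := by
    obtain ⟨g, rfl⟩ := QuotientGroup.mk_surjective q
    exact ⟨_, g, rfl, rfl⟩
  exact Nat.sInf_mem h

lemma qlen_le (W : WNorm Γ) (N : Subgroup Γ) (g : Γ) : qlen W N (g : Γ ⧸ N) ≤ W.ℓ g :=
  Nat.sInf_le ⟨g, rfl, rfl⟩

/-- quotient norm -/
theorem quot_norm (W : WNorm Γ) (N : Subgroup Γ) [N.Normal] :
    ∃ W' : WNorm (Γ ⧸ N), (∀ g : Γ, W'.ℓ (g : Γ ⧸ N) ≤ W.ℓ g) ∧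
      ∀ g : Γ, ∃ n ∈ N, W.ℓ (g * n) = W'.ℓ (g : Γ ⧸ N) := by
  refine ⟨{
    ℓ := qlen W N
    one' := ?_
    eq_one := ?_
    inv' := ?_
    mul_le := ?_
    geod := ?_
    fin := ?_ }, qlen_le W N, ?_⟩
  · have := qlen_le W N 1
    rw [W.one'] at this
    exact Nat.le_zero.mp this
  · intro q hq
    obtain ⟨g, hg, hg'⟩ := qlen_spec W N q
    rw [hq] at hg'
    rw [← hg, W.eq_one g hg']
    rfl
  · have key : ∀ q : Γ ⧸ N, qlen W N q⁻¹ ≤ qlen W N q := by
      intro q
      obtain ⟨g, hg, hg'⟩ := qlen_spec W N q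
      rw [← hg', ← hg, ← W.inv' g]
      exact qlen_le W N g⁻¹
    intro q
    apply le_antisymm (key q)
    have := key q⁻¹
    rwa [inv_inv] at this
  · intro q q'
    obtain ⟨g, hg, hg'⟩ := qlen_spec W N q
    obtain ⟨k, hk, hk'⟩ := qlen_spec W N q'
    rw [← hg', ← hk', ← hg, ← hk]
    exact (qlen_le W N (g * k)).trans (W.mul_le g k)
  · intro q k hk
    obtain ⟨g, hg, hg'⟩ := qlen_spec W N q
    rw [← hg'] at hk
    obtain ⟨a, b, hab, ha, hb⟩ := W.geod g k hk
    have h1 := qlen_le W N a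
    have h2 := qlen_le W N b
    have h3 : qlen W N (g : Γ ⧸ N) ≤ qlen W N (a : Γ ⧸ N) + qlen W N (b : Γ ⧸ N) := by
      obtain ⟨a', ha', ha''⟩ := qlen_spec W N (a : Γ ⧸ N)
      obtain ⟨b', hb', hb''⟩ := qlen_spec W N (b : Γ ⧸ N)
      rw [← ha'', ← hb'']
      have : (g : Γ ⧸ N) = ((a' * b' : Γ) : Γ ⧸ N) := by
        rw [QuotientGroup.mk_mul, ha', hb', ← QuotientGroup.mk_mul, hab]
      rw [this]
      exact (qlen_le W N (a' * b')).trans (W.mul_le a' b')
    have h4 : qlen W N (g : Γ ⧸ N) = W.ℓ g := by rw [hg, hg']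
    refine ⟨a, b, ?_, ?_, ?_⟩
    · rw [← QuotientGroup.mk_mul, hab, hg]
    · omega
    · rw [← hg']; omega
  · intro r
    apply ((W.fin r).image (fun g : Γ => (g : Γ ⧸ N))).subset
    intro q hq
    obtain ⟨g, hg, hg'⟩ := qlen_spec W N q
    refine ⟨g, ?_, hg⟩
    change W.ℓ g ≤ r
    rw [hg']
    exact hq
  · intro g
    obtain ⟨g', hg, hg'⟩ := qlen_spec W N (g : Γ ⧸ N)
    refine ⟨g⁻¹ * g', ?_, ?_⟩
    · rw [← QuotientGroup.eq]; exact hg.symm
    · rw [mul_inv_cancel_left]; exact hg'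

/-- slim triangles imply hyperbolicity -/
theorem hyp_of_slim (W : WNorm Γ) (K : ℝ)
    (hK : ∀ x y z p : Pt W, exc x y p = 0 → ∃ p' : Pt W, dist p p' ≤ K ∧
      (exc x z p' = 0 ∨ exc y z p' = 0)) : GHyp (Pt W) (2 * K + 2) := by
  intro x y z w
  have hK0 : 0 ≤ K := by
    obtain ⟨p', hp', -⟩ := hK x x x x (by simp [exc])
    exact dist_nonneg.trans hp'
  have hK' : ∀ x y z p : Pt W, exc x y p = 0 → exc x z p ≤ 2 * K ∨ exc y z p ≤ 2 * K := by
    intro x y z p hp
    obtain ⟨p', hp', h | h⟩ := hK x y z p hp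
    · left
      have := exc_move x z p' p
      rw [dist_comm p' p] at this
      linarith
    · right
      have := exc_move y z p' p
      rw [dist_comm p' p] at this
      linarith
  -- the middle point
  obtain ⟨p, hp, hp1, hp2⟩ : ∃ p : Pt W, exc x y p = 0 ∧ exc x z p ≤ 2 * K ∧
      exc y z p ≤ 2 * K + 2 := by
    classical
    let P : ℕ → Prop := fun k => ∃ p : Pt W, exc x y p = 0 ∧ dist x p = k ∧ exc x z p ≤ 2 * K
    have hP0 : P 0 := ⟨x, exc_left x y, by simp, by rw [exc_left]; linarith⟩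
    have hPb : ∀ k, P k → k ≤ nd x y := by
      rintro k ⟨p, hp, hp1, -⟩
      have h1 : dist x p ≤ dist x y := by
        have := dist_nonneg (x := p) (y := y)
        unfold exc at hp; linarith
      rw [hp1, dist_eq_nd] at h1
      exact_mod_cast h1
    obtain ⟨p, hp, hp1, hp2⟩ := Nat.findGreatest_spec (P := P) (Nat.zero_le (nd x y)) hP0
    set k := Nat.findGreatest P (nd x y) with hk
    rcases lt_or_ge k (nd x y) with hlt | hge
    · have h1 : (1 : ℝ) ≤ dist p y := by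
        have : dist x p + dist p y = dist x y := by unfold exc at hp; linarith
        rw [hp1, dist_eq_nd x y] at this
        have h2 : (k : ℝ) + 1 ≤ nd x y := by exact_mod_cast hlt
        linarith
      obtain ⟨p₁, hp₁, hp₁'⟩ := exists_between p y 1 (by exact_mod_cast h1)
      push_cast at hp₁ hp₁'
      have h3 : exc p y p₁ = 0 := by unfold exc; linarith
      have h4 := exc_zero_trans hp h3
      have h5 : dist x p₁ = ((k + 1 : ℕ) : ℝ) := by
        have := h4.2
        unfold exc at this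
        push_cast
        linarith
      have h6 : ¬ exc x z p₁ ≤ 2 * K := by
        intro h7
        have h8 : P (k + 1) := ⟨p₁, h4.1, h5, h7⟩
        have h9 := Nat.le_findGreatest (P := P) (hPb _ h8) h8
        rw [← hk] at h9
        omega
      rcases hK' x y z p₁ h4.1 with h7 | h7
      · exact absurd h7 h6
      · refine ⟨p, hp, hp2, ?_⟩
        have := exc_move y z p₁ p
        rw [dist_comm p₁ p, hp₁] at this
        linarith
    · have hky : k = nd x y := le_antisymm (Nat.findGreatest_le _) hge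
      have hpy : dist p y = 0 := by
        unfold exc at hp
        rw [hp1, hky, ← dist_eq_nd] at hp
        linarith
      refine ⟨p, hp, hp2, ?_⟩
      have := exc_le_two y z p
      rw [dist_comm y p, hpy] at this
      linarith
  rcases hK' x y w p hp with h | h
  · have h1 := dist_triangle z p w
    rw [dist_comm z p] at h1
    apply le_trans _ (add_le_add_left (le_max_right _ _) _)
    unfold exc at h hp hp1 hp2
    rw [dist_comm y p] at hp2
    linarith
  · have h1 := dist_triangle z p w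
    rw [dist_comm z p] at h1
    apply le_trans _ (add_le_add_left (le_max_left _ _) _)
    unfold exc at h hp hp1 hp2
    rw [dist_comm y p] at h
    linarith

end quot

section red

variable {Γ : Type*} [Group Γ] {W : WNorm Γ} {δ : ℝ}

/-- pairs at minimal distance modulo the subgroup -/
def Red (N : Subgroup Γ) (p q : Pt W) : Prop := ∀ n ∈ N, dist p q ≤ dist p (n • q)

variable {N : Subgroup Γ}

lemma Red.refl (p : Pt W) : Red N p p := by
  intro n _
  rw [dist_self]; exact dist_nonneg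

lemma Red.left {p q s : Pt W} (h : Red N p q) (hs : exc p q s = 0) : Red N p s := by
  intro n hn
  have h1 := h n hn
  have h2 := dist_triangle p (n • s) (n • q)
  rw [dist_smul] at h2
  unfold exc at hs
  linarith

lemma Red.right {p q s : Pt W} (h : Red N p q) (hs : exc p q s = 0) : Red N s q := by
  intro n hn
  have h1 := h n hn
  have h2 := dist_triangle p s (n • q)
  unfold exc at hs
  linarith

lemma Red.smul [hN : N.Normal] {p q : Pt W} (h : Red N p q) (g : Γ) : Red N (g • p) (g • q) := by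
  intro n hn
  have h1 := h (g⁻¹ * n * g) (by simpa using hN.conj_mem n hn g⁻¹)
  have h2 : n • g • q = g • (g⁻¹ * n * g) • q := by
    rw [smul_smul, smul_smul]; congr 1; group
  rw [h2, dist_smul, dist_smul]
  exact h1

lemma Red.bound (hX : GHyp (Pt W) δ) {p q q₁ q₂ : Pt W} {e c : ℝ} {r : Γ} (h : Red N p q)
    (hr : r ∈ N) (h1 : exc p q q₁ ≤ e) (h2 : exc p q q₂ ≤ e) (hc : dist (r • q₁) q₂ ≤ c) :
    dist q₁ q₂ ≤ c + 2 * e + 2 * δ := by
  rcases le_total (dist p q₁) (dist p q₂) with h3 | h3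
  · have h4 := order_close hX h1 h2
    rw [abs_of_nonpos (by linarith)] at h4
    have h5 := h r⁻¹ (N.inv_mem hr)
    have h6 := dist_triangle4 p q₁ (r⁻¹ • q₂) (r⁻¹ • q)
    rw [dist_smul] at h6
    have h7 : dist q₁ (r⁻¹ • q₂) = dist (r • q₁) q₂ := by
      rw [← dist_smul r q₁, smul_inv_smul]
    rw [h7] at h6
    unfold exc at h2
    linarith
  · have h4 := order_close hX h1 h2
    rw [abs_of_nonneg (by linarith)] at h4
    have h5 := h r hr
    have h6 := dist_triangle4 p q₂ (r • q₁) (r • q)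
    rw [dist_smul, dist_comm q₂] at h6
    unfold exc at h1
    linarith

end red

section poly

variable {Γ : Type*} [Group Γ] {W : WNorm Γ} {𝒜 : Type*} [MulAction Γ 𝒜]

lemma IsProj.fix (Y : Sys Γ W 𝒜) {A : 𝒜} {r : Γ} (hr : r • A = A) {x q : Pt W}
    (h : IsProj Y.θ (Y.S A) x q) : IsProj Y.θ (Y.S A) (r • x) (r • q) := by
  apply IsProj.smul _ h
  intro y
  have hr' : r⁻¹ • A = A := by rw [inv_smul_eq_iff, hr]
  constructor
  · intro hy
    have := Y.smul_mem r⁻¹ A y hy
    rwa [hr'] at this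
  · intro hy
    have := Y.smul_mem r A _ hy
    rwa [hr, smul_inv_smul] at this

/-- shortening a closed polygon modulo the killed subgroup -/
theorem poly (Y : Sys Γ W 𝒜) (R : Sp0 Y) (hM : 2000 * Y.θ ≤ R.M) {n : Γ} (hn : n ∈ R.N)
    (hn1 : n ≠ 1) (v : ℕ → Pt W) (k : ℕ) (hk : 0 < k) (hk6 : k ≤ 6) (hv : v k = n • v 0) :
    ∃ A, ∃ r ∈ R.G A, ∃ q₁ ∈ Y.S A, ∃ q₂ ∈ Y.S A, dist (r • q₁) q₂ ≤ 51 * Y.θ ∧
      1900 * Y.θ ≤ dist q₁ q₂ ∧ ∃ a b, a ≤ b ∧ b < k ∧ exc (v a) (v (a + 1)) q₁ ≤ 16 * Y.θ ∧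
        exc (v b) (v (b + 1)) q₂ ≤ 16 * Y.θ := by
  have hδ := Y.hδ
  have hθ := Y.hθ
  obtain ⟨A, r, hr, hr1, hw⟩ := R.wind n hn hn1 (v 0)
  obtain ⟨q₁, hq₁⟩ := Y.proj A (v 0)
  obtain ⟨q₂, hq₂⟩ := Y.proj A (n • v 0)
  have h1 : dist (r • q₁) q₂ ≤ 51 * Y.θ := by
    have := le_pd_of_proj (IsProj.fix Y (R.fix A r hr) hq₁) hq₂
    linarith
  have h2 := R.spin A r hr hr1 q₁ hq₁.1
  have h3 : 1900 * Y.θ ≤ dist q₁ q₂ := by
    have := dist_triangle q₁ q₂ (r • q₁)
    rw [dist_comm q₂] at this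
    linarith
  -- every vertex is far from one of the two ends
  have key : ∀ u : Pt W, exc (v 0) u q₁ ≤ 4 * Y.θ ∨ exc u (n • v 0) q₂ ≤ 4 * Y.θ := by
    intro u
    obtain ⟨u', hu'⟩ := Y.proj A u
    rcases lt_or_ge (Y.θ + Y.δ) (dist q₁ u') with h4 | h4
    · left
      have h5 := far_of_proj Y.hyp hq₁ hu' h4
      have h6 := dist_triangle q₁ u' u
      rw [dist_comm u' u] at h6
      unfold exc
      linarith
    · right
      have h4' : Y.θ + Y.δ < dist u' q₂ := by
        have := dist_triangle q₁ u' q₂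
        linarith
      have h5 := far_of_proj Y.hyp hu' hq₂ h4'
      have h6 := dist_triangle u u' q₂
      rw [dist_comm (n • v 0) q₂] at h5
      unfold exc
      linarith
  refine ⟨A, r, hr, q₁, hq₁.1, q₂, hq₂.1, h1, h3, ?_⟩
  have hkR : (k : ℝ) ≤ 6 := by exact_mod_cast hk6
  have hθ0 : 0 ≤ Y.θ := by linarith
  classical
  have hex : ∃ i, exc (v 0) (v i) q₁ ≤ 4 * Y.θ := by
    refine ⟨k, ?_⟩
    rw [hv]
    have h5 := far_of_proj Y.hyp hq₁ hq₂ (by linarith)
    have h6 := dist_triangle q₁ q₂ (n • v 0)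
    rw [dist_comm q₂ (n • v 0)] at h6
    unfold exc
    linarith
  have hik : Nat.find hex ≤ k := by
    apply Nat.find_min'
    rw [hv]
    have h5 := far_of_proj Y.hyp hq₁ hq₂ (by linarith)
    have h6 := dist_triangle q₁ q₂ (n • v 0)
    rw [dist_comm q₂ (n • v 0)] at h6
    unfold exc
    linarith
  have hi := Nat.find_spec hex
  have hmin : ∀ j < Nat.find hex, exc (v j) (n • v 0) q₂ ≤ 4 * Y.θ := by
    intro j hj
    rcases key (v j) with h | h
    · exact absurd h (Nat.find_min hex hj)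
    · exact h
  set i := Nat.find hex with hi_def
  have hpath : ∀ j, j < k → exc (v j) (n • v 0) q₂ ≤ 4 * Y.θ → ∃ b, j ≤ b ∧ b < k ∧
      exc (v b) (v (b + 1)) q₂ ≤ 16 * Y.θ := by
    intro j hj h
    obtain ⟨b, hb, h4⟩ := exc_path Y.hyp (fun t => v (j + t)) q₂ (k - j) (by omega)
    simp only [add_zero, Nat.add_sub_cancel' hj.le] at h4
    refine ⟨j + b, by omega, by omega, ?_⟩
    rw [hv] at h4
    have h5 : ((k - j : ℕ) : ℝ) ≤ 6 := by
      have : k - j ≤ 6 := by omega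
      exact_mod_cast this
    have h6 : (0 : ℝ) ≤ ((k - j : ℕ) : ℝ) := Nat.cast_nonneg _
    have h7 : 2 * Y.δ * ((k - j : ℕ) : ℝ) ≤ 12 * Y.θ := by nlinarith
    rw [add_assoc]
    linarith
  rcases Nat.eq_zero_or_pos i with hi0 | hi0
  · have h4 : exc (v 0) (n • v 0) q₂ ≤ 4 * Y.θ := by
      have h5 := far_of_proj Y.hyp hq₁ hq₂ (by linarith)
      have h6 := dist_triangle (v 0) q₁ q₂
      rw [dist_comm (n • v 0) q₂] at h5
      unfold exc
      linarith
    obtain ⟨b, -, hb, hb'⟩ := hpath 0 hk h4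
    refine ⟨0, b, by omega, hb, ?_, hb'⟩
    rw [hi0] at hi
    have h5 := exc_le_two (v 0) (v (0 + 1)) q₁
    unfold exc at hi
    rw [dist_self, dist_comm q₁] at hi
    linarith
  · obtain ⟨b, hb, hb1, hb2⟩ := hpath (i - 1) (by omega) (hmin (i - 1) (by omega))
    obtain ⟨a, ha, ha'⟩ := exc_path Y.hyp v q₁ i hi0
    refine ⟨a, b, by omega, hb1, ?_, hb2⟩
    have h5 : (i : ℝ) ≤ 6 := by
      have : i ≤ 6 := by omega
      exact_mod_cast this
    have h6 : (0 : ℝ) ≤ (i : ℝ) := Nat.cast_nonneg _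
    have h7 : 2 * Y.δ * (i : ℝ) ≤ 12 * Y.θ := by nlinarith
    linarith

end poly

section cfg

variable {Γ : Type*} [Group Γ] {W : WNorm Γ}

/-- points on two geodesics -/
def TT (y₂ z₁ z₂ w : Pt W) : Set (Pt W) := {t | exc y₂ z₁ t = 0 ∨ exc z₂ w t = 0}

/-- points close to a translate of a given set -/
def NearT (N : Subgroup Γ) (K : ℝ) (T : Set (Pt W)) (p : Pt W) : Prop :=
  ∃ n ∈ N, ∃ t ∈ T, dist p (n • t) ≤ K

/-- a closed polygon modulo the subgroup with three reduced sides and two short sides -/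
structure Cfg (N : Subgroup Γ) (J : ℝ) (x y₁ y₂ z₁ z₂ w : Pt W) : Prop where
  r₀ : Red N x y₁
  r₂ : Red N y₂ z₁
  r₄ : Red N z₂ w
  j₁ : dist y₁ y₂ ≤ J
  j₃ : dist z₁ z₂ ≤ J
  cl : ∃ n ∈ N, w = n • x

variable {N : Subgroup Γ} {K : ℝ}

lemma NearT.trans {T T' : Set (Pt W)} {p : Pt W} (h : NearT N K T p)
    (hT : ∀ t ∈ T, ∃ n ∈ N, n • t ∈ T') : NearT N K T' p := by
  obtain ⟨n, hn, t, ht, h1⟩ := h
  obtain ⟨n', hn', h2⟩ := hT t ht
  refine ⟨n * n'⁻¹, N.mul_mem hn (N.inv_mem hn'), n' • t, h2, ?_⟩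
  rw [mul_smul, inv_smul_smul]
  exact h1

lemma NearT.mono {T : Set (Pt W)} {p : Pt W} {K' : ℝ} (h : NearT N K T p) (hK : K ≤ K') :
    NearT N K' T p := by
  obtain ⟨n, hn, t, ht, h1⟩ := h
  exact ⟨n, hn, t, ht, h1.trans hK⟩

lemma near_one {T : Set (Pt W)} {p : Pt W} (h : ∃ t ∈ T, dist p t ≤ K) : NearT N K T p := by
  obtain ⟨t, ht, h1⟩ := h
  exact ⟨1, N.one_mem, t, ht, by rwa [one_smul]⟩

lemma exc_same {p s t : Pt W} (h : exc p p s = 0) : exc p t s = 0 ∧ exc t p s = 0 := by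
  have h0 : dist p s = 0 := by
    unfold exc at h
    rw [dist_self, dist_comm s p] at h
    linarith
  have h1 := exc_le_two p t s
  have h2 := exc_nonneg p t s
  have h3 : exc p t s = 0 := by linarith
  exact ⟨h3, by rw [exc_comm]; exact h3⟩

lemma jump_near {a b q : Pt W} {e J : ℝ} (h : exc a b q ≤ e) (hJ : dist a b ≤ J) :
    dist q a ≤ J + e ∧ dist q b ≤ J + e := by
  have h1 := dist_nonneg (x := a) (y := q)
  have h2 := dist_nonneg (x := q) (y := b)
  unfold exc at h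
  rw [dist_comm q a]
  constructor <;> linarith

variable {δ θ : ℝ}

lemma thin_one (hX : GHyp (Pt W) δ) (hδ : δ ≤ θ) (hδ1 : 1 ≤ δ) {y₁ y₂ z₁ z₂ w p : Pt W} {e : ℝ}
    (hj : dist y₁ y₂ ≤ 200 * θ) (h : exc z₁ y₁ p ≤ e) :
    ∃ t ∈ TT y₂ z₁ z₂ w, dist p t ≤ 200 * θ + e + 4 * θ := by
  rcases exc_split hX z₁ y₁ y₂ p with h1 | h1
  · rw [exc_comm] at h1
    obtain ⟨t, ht, h2⟩ := near_geod hX h1
    exact ⟨t, Or.inl ht, by linarith⟩
  · refine ⟨y₂, Or.inl (exc_left _ _), ?_⟩
    have := (jump_near (J := 200 * θ) h1 (by rwa [dist_comm])).1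
    linarith

lemma thin_two (hX : GHyp (Pt W) δ) (hδ : δ ≤ θ) (hδ1 : 1 ≤ δ) {y₁ y₂ z₁ z₂ w p : Pt W} {e : ℝ}
    (hj : dist y₁ y₂ ≤ 200 * θ) (hj' : dist z₁ z₂ ≤ 200 * θ)
    (h : exc z₂ y₁ p ≤ e) : ∃ t ∈ TT y₂ z₁ z₂ w, dist p t ≤ 200 * θ + e + 6 * θ := by
  rcases exc_split hX z₂ y₁ z₁ p with h1 | h1
  · refine ⟨z₁, Or.inl (exc_right _ _), ?_⟩
    have := (jump_near (J := 200 * θ) h1 (by rwa [dist_comm])).2
    linarith
  · obtain ⟨t, ht, h2⟩ := thin_one hX hδ hδ1 (z₂ := z₂) (w := w) hj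
      (h1.trans (add_le_add_left h _))
    exact ⟨t, ht, by linarith⟩

end cfg

section claim

variable {Γ : Type*} [Group Γ] {W : WNorm Γ} {𝒜 : Type*} [MulAction Γ 𝒜]

/-- points between two points of an axis are close to translates of a given point -/
lemma near_axis7 (Y : Sys Γ W 𝒜) (R : Sp0 Y) {R₀ : ℝ}
    (hR : ∀ A, ∀ p ∈ Y.S A, ∀ q ∈ Y.S A, ∃ r ∈ R.G A, dist p (r • q) ≤ R₀) {A : 𝒜}
    {q₁ q₂ p u : Pt W} (h1 : q₁ ∈ Y.S A) (h2 : q₂ ∈ Y.S A) {e f : ℝ} (h : exc q₁ q₂ p ≤ e)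
    (hu : dist q₂ u ≤ f) {T : Set (Pt W)} (huT : u ∈ T) :
    NearT R.N (e / 2 + Y.θ + R₀ + f) T p := by
  obtain ⟨s, hs, hs'⟩ := Y.proj A p
  have h3 := hs' q₁ h1
  have h4 := hs' q₂ h2
  have h5 := dist_triangle q₁ s q₂
  rw [dist_comm q₁ s] at h5
  obtain ⟨r, hr, h6⟩ := hR A s hs q₂ h2
  refine ⟨r, R.G_le A hr, u, huT, ?_⟩
  have h7 := dist_triangle4 p s (r • q₂) (r • u)
  rw [dist_smul] at h7
  unfold exc at h
  rw [dist_comm q₁ p] at h
  linarith

/-- the induction step, when the first shortcut starts on the first side -/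
lemma caseA (Y : Sys Γ W 𝒜) (R : Sp0 Y) {R₀ K : ℝ}
    (hR : ∀ A, ∀ p ∈ Y.S A, ∀ q ∈ Y.S A, ∃ r ∈ R.G A, dist p (r • q) ≤ R₀)
    (hK : K = 500 * Y.θ + R₀) {x y₁ y₂ z₁ z₂ w : Pt W}
    (c : Cfg R.N (200 * Y.θ) x y₁ y₂ z₁ z₂ w)
    (ih : ∀ x' y₁' y₂' z₁' z₂' w' : Pt W, Cfg R.N (200 * Y.θ) x' y₁' y₂' z₁' z₂' w' →
      dist x' y₁' + dist y₂' z₁' + dist z₂' w' < dist x y₁ + dist y₂ z₁ + dist z₂ w →
      ∀ p, exc x' y₁' p = 0 → NearT R.N K (TT y₂' z₁' z₂' w') p)
    {A : 𝒜} {r : Γ} (hr : r ∈ R.G A) {q₁ q₂ : Pt W} (hq₁ : q₁ ∈ Y.S A) (hq₂ : q₂ ∈ Y.S A)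
    (hd : dist (r • q₁) q₂ ≤ 51 * Y.θ) (hfar : 1900 * Y.θ ≤ dist q₁ q₂)
    (h₁ : exc x y₁ q₁ ≤ 16 * Y.θ) {b c' d : Pt W} (hbc : Red R.N b c') (hdw : Red R.N d w)
    (hcd : dist c' d ≤ 200 * Y.θ) (hqb : dist q₂ b ≤ 129 * Y.θ)
    (hsub : ∀ t, exc b c' t = 0 ∨ exc d w t = 0 → exc y₂ z₁ t = 0 ∨ exc z₂ w t = 0)
    (hgap : dist y₁ b ≤ 400 * Y.θ + (dist y₂ z₁ + dist z₂ w - dist b c' - dist d w))
    (hP : ∀ p, exc b y₁ p ≤ 2 * Y.δ → ∃ t ∈ TT y₂ z₁ z₂ w, dist p t ≤ K) :
    ∀ p, exc x y₁ p = 0 → NearT R.N K (TT y₂ z₁ z₂ w) p := by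
  intro p hp
  have hδ := Y.hδ
  have hθ := Y.hθ
  have hrN : r ∈ R.N := R.G_le A hr
  -- move the first point of the axis to a geodesic through `p`
  have h2 : ∃ q : Pt W, dist q₁ q ≤ 20 * Y.θ ∧ exc x y₁ q = 0 ∧
      (exc x q p = 0 ∨ exc q y₁ p = 0) := by
    rcases exc_split Y.hyp x y₁ p q₁ with h3 | h3
    · obtain ⟨q, hq, hq'⟩ := near_geod Y.hyp h3
      have h4 := exc_zero_trans' hp hq
      exact ⟨q, by linarith, h4.1, Or.inr h4.2⟩
    · obtain ⟨q, hq, hq'⟩ := near_geod Y.hyp h3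
      have h4 := exc_zero_trans hp hq
      exact ⟨q, by linarith, h4.1, Or.inl h4.2⟩
  obtain ⟨q, hq, hxq, h3⟩ := h2
  rcases h3 with h3 | h3
  · -- the point survives
    obtain ⟨n, hn, hw⟩ := c.cl
    have hc' : Cfg R.N (200 * Y.θ) x q (r⁻¹ • b) (r⁻¹ • c') (r⁻¹ • d) (r⁻¹ • w) := by
      refine ⟨c.r₀.left hxq, hbc.smul _, hdw.smul _, ?_, by rwa [dist_smul], r⁻¹ * n,
        R.N.mul_mem (R.N.inv_mem hrN) hn, by rw [hw, mul_smul]⟩
      have h4 : dist q (r⁻¹ • b) = dist (r • q) b := by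
        rw [← dist_smul r q, smul_inv_smul]
      rw [h4]
      have h5 := dist_triangle4 (r • q) (r • q₁) q₂ b
      rw [dist_smul, dist_comm q q₁] at h5
      linarith
    have hlen : dist x q + dist (r⁻¹ • b) (r⁻¹ • c') + dist (r⁻¹ • d) (r⁻¹ • w) <
        dist x y₁ + dist y₂ z₁ + dist z₂ w := by
      rw [dist_smul, dist_smul]
      have h5 := dist_triangle4 q₁ q y₁ b
      have h6 := dist_triangle q₁ b q₂
      rw [dist_comm b q₂] at h6
      unfold exc at hxq
      linarith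
    have h4 := ih _ _ _ _ _ _ hc' hlen p h3
    apply h4.trans
    intro t ht
    refine ⟨r, hrN, hsub _ ?_⟩
    rcases ht with ht | ht
    · left
      rw [← exc_smul r, smul_inv_smul, smul_inv_smul] at ht
      exact ht
    · right
      rw [← exc_smul r, smul_inv_smul, smul_inv_smul] at ht
      exact ht
  · -- the point is cut off
    rcases exc_split Y.hyp q y₁ b p with h4 | h4
    · have h5 : exc q₁ q₂ p ≤ 300 * Y.θ := by
        have h6 := exc_move_left q q₁ b p
        have h7 := exc_move_right q₁ b q₂ p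
        rw [dist_comm q q₁] at h6
        rw [dist_comm b q₂] at h7
        linarith
      have h6 : b ∈ TT y₂ z₁ z₂ w := hsub b (Or.inl (exc_left _ _))
      have h7 := near_axis7 Y R hR hq₁ hq₂ h5 hqb h6
      exact h7.mono (by linarith)
    · exact near_one (hP p (by linarith))

/-- the induction step, when the second shortcut ends on the last side and the first one starts
after the first side -/
lemma caseB (Y : Sys Γ W 𝒜) (R : Sp0 Y) {K : ℝ} {x y₁ y₂ z₁ z₂ w : Pt W}
    (c : Cfg R.N (200 * Y.θ) x y₁ y₂ z₁ z₂ w)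
    (ih : ∀ x' y₁' y₂' z₁' z₂' w' : Pt W, Cfg R.N (200 * Y.θ) x' y₁' y₂' z₁' z₂' w' →
      dist x' y₁' + dist y₂' z₁' + dist z₂' w' < dist x y₁ + dist y₂ z₁ + dist z₂ w →
      ∀ p, exc x' y₁' p = 0 → NearT R.N K (TT y₂' z₁' z₂' w') p)
    {r : Γ} (hr : r ∈ R.N) {b c' q : Pt W} (hq : exc z₂ w q = 0) (hbc : Red R.N b c')
    (hb : dist y₁ b ≤ 200 * Y.θ) (hc : dist (r • c') q ≤ 200 * Y.θ)
    (hgap : dist b c' + dist q w < dist y₂ z₁ + dist z₂ w)
    (hsub : ∀ t, exc b c' t = 0 → ∃ n ∈ R.N, n • t ∈ TT y₂ z₁ z₂ w) :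
    ∀ p, exc x y₁ p = 0 → NearT R.N K (TT y₂ z₁ z₂ w) p := by
  intro p hp
  obtain ⟨n, hn, hw⟩ := c.cl
  have hc' : Cfg R.N (200 * Y.θ) x y₁ b c' (r⁻¹ • q) (r⁻¹ • w) := by
    refine ⟨c.r₀, hbc, (c.r₄.right hq).smul _, hb, ?_, r⁻¹ * n,
      R.N.mul_mem (R.N.inv_mem hr) hn, by rw [hw, mul_smul]⟩
    rw [← dist_smul r, smul_inv_smul]
    exact hc
  have h4 := ih _ _ _ _ _ _ hc' (by rw [dist_smul]; linarith) p hp
  apply h4.trans
  intro t ht
  rcases ht with ht | ht
  · exact hsub t ht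
  · refine ⟨r, hr, Or.inr ?_⟩
    rw [← exc_smul r, smul_inv_smul, smul_inv_smul] at ht
    exact (exc_zero_trans hq ht).1

/-- three reduced sides: the first one is close to the translates of the others -/
theorem claim (Y : Sys Γ W 𝒜) (R : Sp0 Y) (hM : 2000 * Y.θ ≤ R.M) {R₀ K : ℝ} (hR₀ : 0 ≤ R₀)
    (hR : ∀ A, ∀ p ∈ Y.S A, ∀ q ∈ Y.S A, ∃ r ∈ R.G A, dist p (r • q) ≤ R₀)
    (hK : K = 500 * Y.θ + R₀) (m : ℕ) : ∀ x y₁ y₂ z₁ z₂ w : Pt W,
    Cfg R.N (200 * Y.θ) x y₁ y₂ z₁ z₂ w → nd x y₁ + nd y₂ z₁ + nd z₂ w = m →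
      ∀ p, exc x y₁ p = 0 → NearT R.N K (TT y₂ z₁ z₂ w) p := by
  induction m using Nat.strong_induction_on with
  | _ m ihm =>
    intro x y₁ y₂ z₁ z₂ w c hm
    have hδ := Y.hδ
    have hθ := Y.hθ
    have ih : ∀ x' y₁' y₂' z₁' z₂' w' : Pt W, Cfg R.N (200 * Y.θ) x' y₁' y₂' z₁' z₂' w' →
        dist x' y₁' + dist y₂' z₁' + dist z₂' w' < dist x y₁ + dist y₂ z₁ + dist z₂ w →
        ∀ p, exc x' y₁' p = 0 → NearT R.N K (TT y₂' z₁' z₂' w') p := by
      intro x' y₁' y₂' z₁' z₂' w' c' hlt p hp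
      refine ihm _ ?_ _ _ _ _ _ _ c' rfl p hp
      rw [← hm]
      simp only [dist_eq_nd] at hlt
      exact_mod_cast hlt
    obtain ⟨n, hn, hw⟩ := c.cl
    by_cases hn1 : n = 1
    · intro p hp
      rw [hn1, one_smul] at hw
      rw [← hw] at hp
      apply near_one
      rcases exc_split Y.hyp w y₁ z₂ p with h | h
      · rw [exc_comm] at h
        obtain ⟨t, ht, h2⟩ := near_geod Y.hyp h
        exact ⟨t, Or.inr ht, by linarith⟩
      · obtain ⟨t, ht, h2⟩ := thin_two Y.hyp hθ hδ (w := w) c.j₁ c.j₃ h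
        exact ⟨t, ht, by linarith⟩
    let v : ℕ → Pt W := fun i => match i with
      | 0 => x
      | 1 => y₁
      | 2 => y₂
      | 3 => z₁
      | 4 => z₂
      | _ => w
    obtain ⟨A, r, hr, q₁, hq₁, q₂, hq₂, hd, hfar, a, b, hab, hb, h₁, h₂⟩ :=
      poly Y R hM hn hn1 v 5 (by norm_num) (by norm_num) hw
    have hrN : r ∈ R.N := R.G_le A hr
    have excl : ∀ p q : Pt W, Red R.N p q → exc p q q₁ ≤ 432 * Y.θ → exc p q q₂ ≤ 432 * Y.θ →
        False := by
      intro p q hpq h1 h2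
      have := hpq.bound Y.hyp hrN h1 h2 hd
      linarith
    interval_cases b
    · -- (0, 0)
      interval_cases a
      exfalso
      exact excl x y₁ c.r₀ (h₁.trans (by linarith)) (h₂.trans (by linarith))
    · -- (·, 1)
      have h₂' : exc y₁ y₂ q₂ ≤ 16 * Y.θ := h₂
      have h3 := jump_near h₂' c.j₁
      interval_cases a
      · exfalso
        refine excl x y₁ c.r₀ (h₁.trans (by linarith)) ?_
        have := exc_le_two' x y₁ q₂
        linarith [h3.1]
      · exfalso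
        have h₁' : exc y₁ y₂ q₁ ≤ 16 * Y.θ := h₁
        have h4 := jump_near h₁' c.j₁
        have := dist_triangle q₁ y₁ q₂
        rw [dist_comm y₁ q₂] at this
        linarith [h3.1, h4.1]
    · -- (·, 2)
      have h₂' : exc y₂ z₁ q₂ ≤ 16 * Y.θ := h₂
      interval_cases a
      · obtain ⟨q, hq, hq'⟩ := near_geod Y.hyp h₂'
        refine caseA Y R hR hK c ih hr hq₁ hq₂ hd hfar h₁ (c.r₂.right hq) c.r₄ c.j₃
          (by linarith) ?_ ?_ ?_
        · rintro t (ht | ht)
          · exact Or.inl (exc_zero_trans hq ht).1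
          · exact Or.inr ht
        · have := dist_triangle y₁ y₂ q
          have := c.j₁
          unfold exc at hq
          linarith
        · intro p hp
          rcases exc_split Y.hyp q y₁ y₂ p with h | h
          · rw [exc_comm] at h
            obtain ⟨t, ht, h5⟩ := near_geod Y.hyp h
            exact ⟨t, Or.inl (exc_zero_trans' hq ht).1, by linarith⟩
          · refine ⟨y₂, Or.inl (exc_left _ _), ?_⟩
            have := (jump_near (J := 200 * Y.θ) h (by rw [dist_comm]; exact c.j₁)).1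
            linarith
      · exfalso
        have h4 := jump_near h₁ c.j₁
        refine excl y₂ z₁ c.r₂ ?_ (h₂'.trans (by linarith))
        have := exc_le_two y₂ z₁ q₁
        rw [dist_comm] at this
        have := h4.2
        change dist q₁ y₂ ≤ _ at this
        linarith
      · exfalso
        exact excl y₂ z₁ c.r₂ (h₁.trans (by linarith)) (h₂'.trans (by linarith))
    · -- (·, 3)
      have h₂' : exc z₁ z₂ q₂ ≤ 16 * Y.θ := h₂
      have h3 := jump_near h₂' c.j₃
      have h5 : exc y₂ z₁ q₂ ≤ 432 * Y.θ := by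
        have := exc_le_two' y₂ z₁ q₂
        linarith [h3.1]
      interval_cases a
      · obtain ⟨q, hq, hq'⟩ := near_geod Y.hyp h₂'
        have h6 : dist q z₁ ≤ 100 * Y.θ ∨ dist q z₂ ≤ 100 * Y.θ := by
          have h7 := c.j₃
          unfold exc at hq
          rw [dist_comm z₁ q] at hq
          by_contra h8
          push Not at h8
          linarith [h8.1, h8.2]
        rcases h6 with h6 | h6
        · refine caseA Y R hR hK c ih hr hq₁ hq₂ hd hfar h₁ (b := z₁) (c' := z₁) (d := z₂)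
            (Red.refl _) c.r₄ c.j₃ ?_ ?_ ?_ ?_
          · have := dist_triangle q₂ q z₁
            linarith
          · rintro t (ht | ht)
            · exact Or.inl (exc_same ht).2
            · exact Or.inr ht
          · have := dist_triangle y₁ y₂ z₁
            have := c.j₁
            rw [dist_self]
            linarith
          · intro p hp
            obtain ⟨t, ht, h8⟩ := thin_one Y.hyp hθ hδ (z₂ := z₂) (w := w) c.j₁ hp
            exact ⟨t, ht, by linarith⟩
        · refine caseA Y R hR hK c ih hr hq₁ hq₂ hd hfar h₁ (b := z₂) (c' := z₂) (d := z₂)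
            (Red.refl _) c.r₄ (by rw [dist_self]; linarith) ?_ ?_ ?_ ?_
          · have := dist_triangle q₂ q z₂
            linarith
          · rintro t (ht | ht)
            · exact Or.inr (exc_same ht).1
            · exact Or.inr ht
          · have := dist_triangle4 y₁ y₂ z₁ z₂
            have := c.j₁
            have := c.j₃
            rw [dist_self]
            linarith
          · intro p hp
            obtain ⟨t, ht, h8⟩ := thin_two Y.hyp hθ hδ (w := w) c.j₁ c.j₃ hp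
            exact ⟨t, ht, by linarith⟩
      · exfalso
        have h4 := jump_near h₁ c.j₁
        refine excl y₂ z₁ c.r₂ ?_ h5
        have := exc_le_two y₂ z₁ q₁
        rw [dist_comm] at this
        have := h4.2
        change dist q₁ y₂ ≤ _ at this
        linarith
      · exfalso
        exact excl y₂ z₁ c.r₂ (h₁.trans (by linarith)) h5
      · exfalso
        have h₁' : exc z₁ z₂ q₁ ≤ 16 * Y.θ := h₁
        have h4 := jump_near h₁' c.j₃
        have := dist_triangle q₁ z₁ q₂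
        rw [dist_comm z₁ q₂] at this
        linarith [h3.1, h4.1]
    · -- (·, 4)
      have h₂' : exc z₂ w q₂ ≤ 16 * Y.θ := h₂
      obtain ⟨q, hq, hq'⟩ := near_geod Y.hyp h₂'
      have hqd : dist z₂ q + dist q w = dist z₂ w := by unfold exc at hq; linarith
      interval_cases a
      · refine caseA Y R hR hK c ih hr hq₁ hq₂ hd hfar h₁ (b := q) (c' := q) (d := q)
            (Red.refl _) (c.r₄.right hq) (by rw [dist_self]; linarith) (by linarith) ?_ ?_ ?_
        · rintro t (ht | ht)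
          · exact Or.inr (exc_zero_trans hq (exc_same ht).1).1
          · exact Or.inr (exc_zero_trans hq ht).1
        · have := dist_triangle4 y₁ y₂ z₁ z₂
          have := dist_triangle y₁ z₂ q
          have := c.j₁
          have := c.j₃
          rw [dist_self]
          linarith
        · intro p hp
          rcases exc_split Y.hyp q y₁ z₂ p with h | h
          · rw [exc_comm] at h
            obtain ⟨t, ht, h5⟩ := near_geod Y.hyp h
            exact ⟨t, Or.inr (exc_zero_trans' hq ht).1, by linarith⟩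
          · obtain ⟨t, ht, h8⟩ := thin_two Y.hyp hθ hδ (w := w) c.j₁ c.j₃ h
            exact ⟨t, ht, by linarith⟩
      · have h₁' : exc y₁ y₂ q₁ ≤ 16 * Y.θ := h₁
        obtain ⟨u, hu, hu'⟩ := near_geod Y.hyp h₁'
        have h6 : dist u y₁ ≤ 100 * Y.θ ∨ dist u y₂ ≤ 100 * Y.θ := by
          have h7 := c.j₁
          unfold exc at hu
          rw [dist_comm y₁ u] at hu
          by_contra h8
          push Not at h8
          linarith [h8.1, h8.2]
        rcases h6 with h6 | h6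
        · refine caseB Y R c ih hrN (b := r⁻¹ • q) (c' := r⁻¹ • q) hq (Red.refl _) ?_ ?_ ?_ ?_
          · rw [← dist_smul r, smul_inv_smul]
            have h7 := dist_triangle4 (r • y₁) (r • u) (r • q₁) q₂
            have h8 := dist_triangle (r • y₁) q₂ q
            rw [dist_smul, dist_smul, dist_comm y₁ u, dist_comm u q₁] at h7
            linarith
          · rw [smul_inv_smul, dist_self]; linarith
          · rw [dist_self]
            have h7 := dist_triangle4 q₁ u y₁ y₂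
            have h8 := dist_triangle4 y₂ z₁ z₂ q
            have h9 := dist_triangle4 q₁ y₂ q q₂
            rw [dist_comm q q₂] at h9
            have := c.j₁
            have := c.j₃
            linarith
          · intro t ht
            refine ⟨r, hrN, Or.inr ?_⟩
            rw [← exc_smul r, smul_inv_smul] at ht
            exact (exc_zero_trans hq (exc_same ht).1).1
        · refine caseB Y R c ih hrN (b := y₂) (c' := y₂) hq (Red.refl _) c.j₁ ?_ ?_ ?_
          · have h7 := dist_triangle4 (r • y₂) (r • u) (r • q₁) q₂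
            have h8 := dist_triangle (r • y₂) q₂ q
            rw [dist_smul, dist_smul, dist_comm y₂ u, dist_comm u q₁] at h7
            linarith
          · rw [dist_self]
            have h7 := dist_triangle q₁ u y₂
            have h8 := dist_triangle4 y₂ z₁ z₂ q
            have h9 := dist_triangle4 q₁ y₂ q q₂
            rw [dist_comm q q₂] at h9
            have := c.j₃
            linarith
          · intro t ht
            refine ⟨1, R.N.one_mem, Or.inl ?_⟩
            rw [one_smul]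
            exact (exc_same ht).1
      · have h₁' : exc y₂ z₁ q₁ ≤ 16 * Y.θ := h₁
        obtain ⟨u, hu, hu'⟩ := near_geod Y.hyp h₁'
        refine caseB Y R c ih hrN (b := y₂) (c' := u) hq (c.r₂.left hu) c.j₁ ?_ ?_ ?_
        · have h7 := dist_triangle4 (r • u) (r • q₁) q₂ q
          rw [dist_smul, dist_comm u q₁] at h7
          linarith
        · have h7 := dist_triangle4 q₁ u z₁ z₂
          have h9 := dist_triangle4 q₁ z₂ q q₂
          rw [dist_comm q q₂] at h9
          have := c.j₃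
          unfold exc at hu
          linarith
        · intro t ht
          refine ⟨1, R.N.one_mem, Or.inl ?_⟩
          rw [one_smul]
          exact (exc_zero_trans' hu ht).1
      · exfalso
        have h4 := jump_near h₁ c.j₃
        refine excl z₂ w c.r₄ ?_ (h₂'.trans (by linarith))
        have := exc_le_two z₂ w q₁
        rw [dist_comm] at this
        have := h4.2
        change dist q₁ z₂ ≤ _ at this
        linarith
      · exfalso
        exact excl z₂ w c.r₄ (h₁.trans (by linarith)) (h₂'.trans (by linarith))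

end claim

section final

variable {Γ : Type*} [Group Γ] {W : WNorm Γ} {𝒜 : Type*} [MulAction Γ 𝒜]

/-- the quotient by a spinning family is hyperbolic -/
theorem t7 (Y : Sys Γ W 𝒜) (R : Sp0 Y) (hM : 2000 * Y.θ ≤ R.M) : HypGroup (Γ ⧸ R.N) := by
  obtain ⟨W', hW1, hW2⟩ := quot_norm W R.N
  obtain ⟨R₁, hR₁⟩ := R.cob
  have hδ := Y.hδ
  have hθ := Y.hθ
  set R₀ : ℝ := max R₁ 0 with hR₀_def
  have hR₀ : 0 ≤ R₀ := le_max_right _ _
  have hR : ∀ A, ∀ p ∈ Y.S A, ∀ q ∈ Y.S A, ∃ r ∈ R.G A, dist p (r • q) ≤ R₀ := by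
    intro A p hp q hq
    obtain ⟨r, hr, h⟩ := hR₁ A p hp q hq
    exact ⟨r, hr, h.trans (le_max_left _ _)⟩
  -- the projection to the quotient
  let π : Pt W → Pt W' := fun g => pt W' ((g.out : Γ) : Γ ⧸ R.N)
  have hπ : ∀ x y : Pt W, dist (π x) (π y) ≤ dist x y := by
    intro x y
    have h := hW1 (x.out⁻¹ * y.out)
    rw [dist_def, dist_def]
    exact_mod_cast h
  have hπn : ∀ n ∈ R.N, ∀ x : Pt W, π (n • x) = π x := by
    intro n hn x
    change pt W' (((n * x.out : Γ) : Γ ⧸ R.N)) = pt W' ((x.out : Γ) : Γ ⧸ R.N)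
    congr 1
    rw [eq_comm, QuotientGroup.eq]
    have := R.normal.conj_mem n hn x.out⁻¹
    rwa [inv_inv, mul_assoc] at this
  have hπe : ∀ x y : Pt W, π x = π y → ∃ n ∈ R.N, y = n • x := by
    intro x y h
    have h1 : ((x.out : Γ) : Γ ⧸ R.N) = ((y.out : Γ) : Γ ⧸ R.N) := h
    rw [QuotientGroup.eq] at h1
    have := R.normal.conj_mem _ h1 x.out
    refine ⟨y.out * x.out⁻¹, by simpa [mul_assoc] using this, ?_⟩
    change y.out = y.out * x.out⁻¹ * x.out
    rw [inv_mul_cancel_right]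
  have hlift : ∀ (x : Pt W) (y : Pt W'), ∃ y' : Pt W, π y' = y ∧ dist x y' = dist (π x) y := by
    intro x y
    obtain ⟨g, hg⟩ := QuotientGroup.mk_surjective y.out
    obtain ⟨n, hn, h⟩ := hW2 (x.out⁻¹ * g)
    refine ⟨pt W (g * n), ?_, ?_⟩
    · change ((g * n : Γ) : Γ ⧸ R.N) = y.out
      rw [← hg, eq_comm, QuotientGroup.eq]
      simpa using hn
    · rw [dist_def, dist_def, out_pt, ← mul_assoc, h]
      congr 2
      change _ = ((x.out : Γ) : Γ ⧸ R.N)⁻¹ * y.out
      rw [← hg]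
      rfl
  have hred : ∀ x y : Pt W, dist x y = dist (π x) (π y) → Red R.N x y := by
    intro x y h n hn
    have := hπ x (n • y)
    rw [hπn n hn] at this
    linarith
  have hsub : ∀ x y t : Pt W, dist x y = dist (π x) (π y) → exc x y t = 0 →
      exc (π x) (π y) (π t) = 0 := by
    intro x y t h ht
    have h1 := hπ x t
    have h2 := hπ t y
    have h3 := exc_nonneg (π x) (π y) (π t)
    unfold exc at *
    linarith
  refine ⟨W', 2 * (500 * Y.θ + R₀) + 2, hyp_of_slim W' (500 * Y.θ + R₀) ?_⟩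
  intro x y z p hp
  obtain ⟨x', hx', -⟩ := hlift (pt W 1) x
  obtain ⟨p', hp', hp1⟩ := hlift x' p
  obtain ⟨y', hy', hy1⟩ := hlift p' y
  obtain ⟨z', hz', hz1⟩ := hlift y' z
  obtain ⟨w', hw', hw1⟩ := hlift z' x
  obtain ⟨n, hn, hnw⟩ := hπe x' w' (by rw [hx', hw'])
  have h1 : dist x' y' = dist (π x') (π y') := by
    apply le_antisymm _ (hπ x' y')
    have h2 := dist_triangle x' p' y'
    rw [hp1, hy1] at h2
    rw [hx', hp'] at h2
    rw [hx', hy']
    unfold exc at hp
    linarith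
  have h2 : exc x' y' p' = 0 := by
    unfold exc at *
    rw [h1, hp1, hy1, hx', hy', hp']
    exact hp
  have hc : Cfg R.N (200 * Y.θ) x' y' y' z' z' w' := by
    refine ⟨hred _ _ h1, hred _ _ ?_, hred _ _ ?_, by rw [dist_self]; linarith,
      by rw [dist_self]; linarith, n, hn, hnw⟩
    · rw [hz1, hz']
    · rw [hw1, hw']
  obtain ⟨n', hn', t, ht, h3⟩ := claim Y R hM hR₀ hR rfl _ _ _ _ _ _ _ hc rfl p' h2
  refine ⟨π t, ?_, ?_⟩
  · have h4 := hπ p' (n' • t)
    rw [hπn n' hn', hp'] at h4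
    linarith
  · rcases ht with ht | ht
    · right
      have := hsub y' z' t (by rw [hz1, hz']) ht
      rwa [hy', hz'] at this
    · left
      have := hsub z' w' t (by rw [hw1, hw']) ht
      rw [hz', hw'] at this
      rwa [exc_comm]

end final

end Pool.Agent.TH68.C
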