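import Pool.Agent.TH68.C.Quot
import Pool.Agent.TH68.C.T7
import Pool.Agent.TH68.C.T23
import Pool.Agent.TH68.C.T4
import Pool.Agent.TH68.C.Cz

set_option autoImplicit false
set_option linter.unusedSectionVars false

/-! The step of the construction: killing an element of infinite order. -/

namespace Pool.Agent.TH68.C

open Pool.Agent.Helper97.Hyp Pool.Agent.TH68

/-- the outcome of a kill -/
structure Out {Γ : Type*} [Group Γ] (c : Γ → Fin 3) (u : Γ) (B F : Set Γ) (p : ℕ)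
    (N : Subgroup Γ) [N.Normal] (c' : Γ ⧸ N → Fin 3) : Prop where
  cgrp : CGrp (Γ ⧸ N) c'
  col : ∀ x : Γ, orderOf x = 2 → c' x = c x
  inj : ∀ a ∈ B, ∀ b ∈ B, a⁻¹ * b ∈ N → a = b
  tor : ∃ k : ℕ, 0 < k ∧ u ^ k ∈ N
  two : ∀ s t : Γ, orderOf s = 2 → orderOf t = 2 → c s = c t → u = s * t → u ^ p ∈ N
  sf : Sf u → u ^ p ∈ N ∧ ∃ y : Γ ⧸ N, orderOf y = p ∧
    ∀ x, Commute x y → x ∈ Subgroup.zpowers y
  keep : ∀ f ∈ F, Sf f → Sf (f : Γ ⧸ N) ∨ f ^ p ∈ N
  nc : ∀ f ∈ F, ¬ IsOfFinOrder f → (∀ (s r : ℤ) (x : Γ), s ≠ 0 → f ^ s ≠ x * u ^ r * x⁻¹) →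
    ∀ k : ℕ, 0 < k → f ^ k ∉ N
  self : ∀ y : Γ, Odd (orderOf y) → (∀ x, Commute x y → x ∈ Subgroup.zpowers y) →
    ∀ x : Γ ⧸ N, Commute x (y : Γ ⧸ N) → x ∈ Subgroup.zpowers (y : Γ ⧸ N)

section sf

variable {Γ : Type*} [Group Γ] {c : Γ → Fin 3}

lemma Sf.bot {u : Γ} (hu : Sf u) {g : Γ} {K : Subgroup Γ} (hg : CRoot c g K) {k : Γ} (hk : k ∈ K)
    {j : ℤ} (h : u = k * g ^ j) : K = ⊥ := by
  rw [eq_bot_iff]
  intro κ hκ
  rw [Subgroup.mem_bot]
  by_contra hne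
  apply hu.comm κ (orderOf_eq_prime (hg.sq κ hκ) hne)
  rw [h]
  exact (hg.K_comm hκ hk).mul_right ((hg.comm κ hκ).zpow_right j)

end sf

namespace RD

variable {Γ : Type*} [Group Γ] {W : WNorm Γ} {c : Γ → Fin 3} {D : RD Γ W c}

lemma mem_E_iff {e : Γ} : e • ((1 : Γ) : Γ ⧸ D.E) = ((1 : Γ) : Γ ⧸ D.E) ↔ e ∈ D.E := by
  have h1 : e • ((1 : Γ) : Γ ⧸ D.E) = ((e * 1 : Γ) : Γ ⧸ D.E) := rfl
  rw [h1, mul_one, eq_comm, QuotientGroup.eq, inv_one, one_mul]

lemma disp_one {q : Pt W} (hq : q ∈ Lox.ax D.o (D.g ^ D.k) ((1 : Γ) : Γ ⧸ D.E)) (n : ℤ) :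
    dist q (D.g ^ n • q) = dist D.o (D.g ^ n • D.o) := by
  obtain ⟨f, hf, rfl⟩ := D.mem_ax hq
  set A : Γ ⧸ D.E := ((1 : Γ) : Γ ⧸ D.E) with hA
  have h1 : A.out ∈ D.E := by
    have := QuotientGroup.eq.mp (D.out_mk A).symm
    rwa [inv_one, one_mul] at this
  have h2 : A.out * f ∈ D.E := mul_mem h1 hf
  set e := A.out * f with he
  have h3 : dist (e • D.o) (D.g ^ n • e • D.o) = dist D.o ((e⁻¹ * D.g ^ n * e⁻¹⁻¹) • D.o) := by
    rw [← dist_smul e D.o, smul_smul, smul_smul]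
    congr 2
    group
  rw [h3]
  rcases D.conj_or (inv_mem h2) with h4 | h4
  · rw [h4]
  · rw [h4, D.disp_neg]

/-- `g ^ s ∈ N` only if `m ∣ s` -/
lemma dvd_of_mem {m : ℕ} (hm : 0 < m) (hM : 101 * D.θ ≤ D.low m)
    (hM' : D.hc + 110 * D.θ < D.sp m) (s : ℤ) (hs : D.g ^ s ∈ D.nk m) : (m : ℤ) ∣ s := by
  by_contra hms
  set d : ℕ := Int.gcd s m with hd
  have hθ : 1 ≤ D.θ := le_trans D.sys.hδ D.sys.hθ
  have hd0 : 0 < d := Int.gcd_pos_of_ne_zero_right _ (by omega)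
  have hdm : d ∣ m := by
    have := Int.gcd_dvd_right (a := s) (b := (m : ℤ))
    exact_mod_cast this
  have hne : d ≠ m := by
    intro h
    apply hms
    rw [← h]
    exact Int.gcd_dvd_left (a := s) (b := (m : ℤ))
  have h2 : 2 * d ≤ m := by
    obtain ⟨q, hq⟩ := hdm
    have hq1 : 2 ≤ q := by
      by_contra hlt
      have : q = 0 ∨ q = 1 := by omega
      rcases this with h | h
      · rw [h] at hq; omega
      · rw [h, mul_one] at hq; exact hne hq.symm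
    rw [hq]
    nlinarith
  have hg : D.g ^ (d : ℤ) ∈ D.nk m := by
    rw [hd, Int.gcd_eq_gcd_ab, zpow_add, zpow_mul, zpow_mul]
    apply mul_mem (Subgroup.zpow_mem _ hs _)
    apply Subgroup.zpow_mem
    rw [zpow_natCast]
    exact D.pow_mem_nk
  have hg1 : D.g ^ (d : ℤ) ≠ 1 := D.root.zpow_ne (by omega)
  obtain ⟨A, r, hr, hr1, q₁, hq₁, q₂, hq₂, -, e1, e2⟩ :=
    fact_w (D.spn m hm hM).toSp0 (by
      change 60 * D.θ ≤ D.sp m
      have := D.low_le_sp m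
      linarith) hg hg1 D.o
  have e3 := D.half_sp h2
  have e4 : D.sp m - 51 * D.θ ≤ dist q₁ q₂ := e1
  have e5 : dist D.o q₁ + dist q₁ q₂ + dist q₂ (D.g ^ (d : ℤ) • D.o) ≤
      dist D.o (D.g ^ (d : ℤ) • D.o) + 4 * D.θ := e2
  have e6 := dist_nonneg (x := D.o) (y := q₁)
  have e7 := dist_nonneg (x := q₂) (y := D.g ^ (d : ℤ) • D.o)
  linarith

/-- the centralizer of a half rotation -/
lemma hcz_of {p m : ℕ} (hp : 0 < p) (hm : 0 < m) (hM : 101 * D.θ ≤ D.low m)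
    (h1 : 10000 * D.θ + D.hc ≤ D.low p) (h2 : m = 2 * p) (f : Γ)
    (hf : f * D.g ^ p * f⁻¹ * (D.g ^ p)⁻¹ ∈ D.nk m) : ∃ n ∈ D.nk m, n * f ∈ D.E := by
  have hθ : 1 ≤ D.θ := le_trans D.sys.hδ D.sys.hθ
  have hhc : 0 ≤ D.hc := by
    unfold hc
    have e1 : 0 ≤ tl D.o (D.g ^ D.k) 1 := dist_nonneg
    have e2 : 0 ≤ dist D.o (D.g • D.o) := dist_nonneg
    positivity
  have hL : D.low p ≤ dist D.o (D.g ^ (p : ℤ) • D.o) := D.low_le (by simp)
  have h3 := D.half_sp (d := p) (m := m) (by omega)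
  obtain ⟨n, hn, hnf⟩ := cz D.sys (D.spn m hm hM).toSp0 (A₀ := ((1 : Γ) : Γ ⧸ D.E))
    (z := D.g ^ p) (L := dist D.o (D.g ^ (p : ℤ) • D.o)) (by
      rw [mem_E_iff, ← zpow_natCast]
      exact D.zpow_mem _) (by
      intro q hq
      rw [← zpow_natCast]
      exact disp_one hq p) (by
      change 10000 * D.θ ≤ _
      linarith) (by
      change _ + 10000 * D.θ ≤ D.sp m
      linarith) (by
      intro f hf
      rw [mem_E_iff]
      obtain ⟨k, hk, j, rfl⟩ := D.root.cent f p (by omega) (by rw [zpow_natCast]; exact hf)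
      exact mul_mem (D.K_mem hk) (D.zpow_mem j)) hf
  exact ⟨n, hn, mem_E_iff.mp hnf⟩

namespace Env

variable {p m : ℕ} {C : ℝ} {N : Subgroup Γ} [hNn : N.Normal]

/-- the power of an element of infinite order -/
lemma tor (H : D.Env p m C N) {u κ : Γ} (hκ : κ ∈ D.K) {j : ℤ} (h : u = κ * D.g ^ j) :
    ∃ k : ℕ, 0 < k ∧ u ^ k ∈ N := by
  refine ⟨2 * m, by have := H.kil.pos; omega, ?_⟩
  rw [h, pow_mul, sq_eq hκ, ← zpow_natCast, ← zpow_mul, H.mem_iff]
  exact Dvd.intro_left _ rfl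

/-- products of two involutions of the same colour -/
lemma two (H : D.Env p m C N) {u κ : Γ} (hu : ¬ IsOfFinOrder u) (hκ : κ ∈ D.K) {j : ℤ}
    (h : u = κ * D.g ^ j) {s t : Γ} (hs : orderOf s = 2) (ht : orderOf t = 2) (hc : c s = c t)
    (hst : u = s * t) : u ^ p ∈ N := by
  have hj : j ≠ 0 := by
    rintro rfl
    apply hu
    rw [isOfFinOrder_iff_pow_eq_one]
    exact ⟨2, by norm_num, by rw [h, zpow_zero, mul_one]; exact D.root.sq κ hκ⟩
  have hss := ord_two_mul hs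
  have hsi := ord_two_inv hs
  have hti := ord_two_inv ht
  have hinv : s * u * s⁻¹ = u⁻¹ := by
    rw [hst, mul_inv_rev, hsi, hti]
    calc s * (s * t) * s = (s * s) * t * s := by group
      _ = t * s := by rw [hss, one_mul]
  have hF : D.Flip s := by
    have h5 : s * D.g ^ (2 * j) * s⁻¹ = D.g ^ (-(2 * j)) := by
      rw [← sq_eq hκ, ← h, ← conj_pow, hinv, inv_pow, h, sq_eq hκ, zpow_neg]
    exact (D.root.flip s (2 * j) (by omega) h5).2.1
  have ht' : t = κ * (D.g ^ (-j) * s) := by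
    have e1 : t = s * u := by rw [hst, ← mul_assoc, hss, one_mul]
    have e2 := hF.zpow j
    have e3 := (hF.comm hκ).eq
    calc t = s * κ * D.g ^ j := by rw [e1, h]; group
      _ = κ * (s * D.g ^ j * s⁻¹) * s := by rw [e3]; group
      _ = κ * (D.g ^ (-j) * s) := by rw [e2]; group
  have hFj := hF.mul (-j)
  have hκ1 : κ = 1 := by
    by_contra hne
    have hK : D.K ≠ ⊥ := by
      intro hK
      rw [hK, Subgroup.mem_bot] at hκ
      exact hne hκ
    rcases H.kil.alt with ⟨-, hcol⟩ | ⟨-, hK', -⟩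
    · have e1 := col_all hcol (-j) hF
      have e2 : c (κ * (D.g ^ (-j) * s)) ≠ c (D.g ^ (-j) * s) := by
        apply H.grp.comm _ _ _ hFj.ord
        · exact ((hFj.comm hκ).mul_right (Commute.refl _)).symm
        · intro h7
          exact hne (mul_eq_right.mp h7)
        · rw [← ht']; exact ht
      rw [← ht', e1] at e2
      exact e2 hc.symm
    · exact hK hK'
  subst hκ1
  rw [one_mul] at h ht'
  rw [h, ← zpow_natCast, ← zpow_mul, H.mem_iff]
  rcases H.kil.alt with ⟨hm, -⟩ | ⟨hm, hK, -, hcol⟩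
  · rw [hm]; exact Dvd.intro_left _ rfl
  · have hev : Even j := by
      rw [← Int.not_odd_iff_even]
      rintro ⟨i, hi⟩
      have h8 : D.Flip (D.g * s) := by
        have := hF.mul 1
        rwa [zpow_one] at this
      have h9 : t = D.g ^ (2 * (-i - 1)) * (D.g * s) := by
        rw [ht', hi, ← mul_assoc, ← zpow_add_one]
        congr 2
        ring
      apply hcol s hF
      rw [hc, h9, h8.col_even H.grp.conj]
    obtain ⟨i, hi⟩ := hev
    rw [hm, hi]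
    push_cast
    exact ⟨i, by ring⟩

/-- no flips and no finite part -/
lemma sf_alt (H : D.Env p m C N) {u κ : Γ} (hu : Sf u) (hκ : κ ∈ D.K) {j : ℤ}
    (h : u = κ * D.g ^ j) : D.K = ⊥ ∧ m = p := by
  have hK := hu.bot D.root hκ h
  refine ⟨hK, ?_⟩
  rcases H.kil.alt with ⟨hm, -⟩ | ⟨-, -, ⟨y, hy⟩, -⟩
  · exact hm
  · exfalso
    rw [hK, Subgroup.mem_bot] at hκ
    rw [hκ, one_mul] at h
    apply hu.inv y
    rw [h, hy.zpow, zpow_neg]

lemma sf (H : D.Env p m C N) {u κ : Γ} (hu : Sf u) (hκ : κ ∈ D.K) {j : ℤ}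
    (h : u = κ * D.g ^ j) : u ^ p ∈ N ∧ ∃ y : Γ ⧸ N, orderOf y = p ∧
      ∀ x, Commute x y → x ∈ Subgroup.zpowers y := by
  obtain ⟨hK, hm⟩ := H.sf_alt hu hκ h
  rw [hK, Subgroup.mem_bot] at hκ
  rw [hκ, one_mul] at h
  refine ⟨?_, (D.g : Γ ⧸ N), ?_, ?_⟩
  · rw [h, ← zpow_natCast, ← zpow_mul, H.mem_iff, hm]
    exact Dvd.intro_left _ rfl
  · have := Fact.mk H.kil.hp
    apply orderOf_eq_prime
    · rw [← QuotientGroup.mk_pow, mk_eq_one, ← zpow_natCast, H.mem_iff, hm]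
    · rw [Ne, mk_eq_one]
      intro h1
      rw [← zpow_one D.g, H.mem_iff, hm] at h1
      have h2 : p ∣ 1 := by exact_mod_cast h1
      exact H.kil.hp.one_lt.ne' (Nat.dvd_one.mp h2)
  · intro x hx
    obtain ⟨z, rfl⟩ := QuotientGroup.mk_surjective x
    have hg2 : orderOf D.g ≠ 2 := by
      intro h9
      apply D.root.inf
      rw [← orderOf_pos_iff, h9]
      norm_num
    obtain ⟨n, hn, hc⟩ := H.lift_comm ⟨D.o, H.hC1⟩ hg2 hx
    obtain ⟨k, hk, i, hi⟩ := D.root.cent (n * z) 1 one_ne_zero (by rw [zpow_one]; exact hc)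
    rw [hK, Subgroup.mem_bot] at hk
    rw [hk, one_mul] at hi
    refine ⟨i, ?_⟩
    simp only
    rw [← QuotientGroup.mk_zpow, ← hi, mk_mul_left hn]

/-- elements with a power in `N` -/
lemma stab_of (H : D.Env p m C N) {f : Γ} (hf : ¬ IsOfFinOrder f) {A : Γ ⧸ D.E}
    (hA : f • A = A) : ∃ κ ∈ D.K, ∃ t : ℤ, f = A.out * (κ * D.g ^ t) * A.out⁻¹ := by
  rcases D.stab_or hA with h | ⟨h3, -⟩
  · exact h
  · exfalso
    apply hf
    rw [← orderOf_pos_iff, h3]; norm_num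

lemma keep (H : D.Env p m C N) {f : Γ} (hf : Sf f) (hfC : dist D.o (f • D.o) ≤ C)
    (hfA : ∀ k : ℕ, 0 < k → f ^ k ∈ N → ∃ A : Γ ⧸ D.E, f • A = A) :
    Sf (f : Γ ⧸ N) ∨ f ^ p ∈ N := by
  have hf2 : orderOf f ≠ 2 := by
    intro h9
    apply hf.inf
    rw [← orderOf_pos_iff, h9]
    norm_num
  by_cases hk : ∃ k : ℕ, 0 < k ∧ f ^ k ∈ N
  · right
    obtain ⟨k, hk, hkN⟩ := hk
    obtain ⟨A, hA⟩ := hfA k hk hkN
    obtain ⟨κ, hκ, t, ht⟩ := H.stab_of hf.inf hA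
    have hκ1 : κ = 1 := by
      by_contra hne
      apply hf.comm (A.out * κ * A.out⁻¹)
      · rw [← MulAut.conj_apply, MulEquiv.orderOf_eq]
        exact orderOf_eq_prime (D.root.sq κ hκ) hne
      · rw [ht]
        have h1 : Commute κ (κ * D.g ^ t) :=
          (Commute.refl κ).mul_right ((D.root.comm κ hκ).zpow_right t)
        have h2 := h1.map (MulAut.conj A.out)
        rw [MulAut.conj_apply, MulAut.conj_apply] at h2
        exact h2
    subst hκ1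
    rw [one_mul] at ht
    rcases H.kil.alt with ⟨hm, -⟩ | ⟨-, -, ⟨y, hy⟩, -⟩
    · rw [ht, conj_pow, conj_mem_iff, ← zpow_natCast, ← zpow_mul, H.mem_iff, hm]
      exact Dvd.intro_left _ rfl
    · exfalso
      apply hf.inv (A.out * y * A.out⁻¹)
      rw [ht]
      calc A.out * y * A.out⁻¹ * (A.out * D.g ^ t * A.out⁻¹) * (A.out * y * A.out⁻¹)⁻¹
          = A.out * (y * D.g ^ t * y⁻¹) * A.out⁻¹ := by group
        _ = _ := by rw [hy.zpow]; group
  · left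
    push Not at hk
    refine ⟨?_, ?_, ?_⟩
    · intro h
      obtain ⟨k, hk0, hk1⟩ := h.exists_pow_eq_one
      rw [← QuotientGroup.mk_pow, mk_eq_one] at hk1
      exact hk k hk0 hk1
    · intro x hx hxf
      obtain ⟨z, rfl⟩ := QuotientGroup.mk_surjective x
      obtain ⟨n, hn, hc⟩ := H.lift_comm ⟨D.o, hfC⟩ hf2 hxf
      obtain ⟨g', K', hg', k', hk', j', hj'⟩ := croot H.grp hf.inf
      have hK' := hf.bot hg' hk' hj'
      rw [hK', Subgroup.mem_bot] at hk'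
      rw [hk', one_mul] at hj'
      have hj0 : j' ≠ 0 := by
        rintro rfl
        apply hf.inf
        rw [hj', zpow_zero]
        exact IsOfFinOrder.one
      rw [hj'] at hc
      obtain ⟨k, hk'', i, hi⟩ := hg'.cent _ j' hj0 hc
      rw [hK', Subgroup.mem_bot] at hk''
      rw [hk'', one_mul] at hi
      have hz1 : (z : Γ ⧸ N) ≠ 1 := by
        intro h
        rw [h, orderOf_one] at hx
        omega
      have hi0 : i ≠ 0 := by
        rintro rfl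
        apply hz1
        rw [← mk_mul_left (N := N) hn (a := z), hi, zpow_zero]
        rfl
      have h2 : g' ^ (2 * i) ∈ N := by
        have h3 : (z : Γ ⧸ N) ^ 2 = 1 := by rw [← hx, pow_orderOf_eq_one]
        rw [← mk_mul_left (N := N) hn (a := z), hi, ← QuotientGroup.mk_pow, mk_eq_one,
          ← zpow_natCast, ← zpow_mul] at h3
        rw [mul_comm]
        exact h3
      have h3 : f ^ (2 * i) ∈ N := by
        rw [hj', ← zpow_mul, mul_comm, zpow_mul]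
        exact Subgroup.zpow_mem _ h2 _
      apply hk (2 * i).natAbs (by omega)
      rcases Int.natAbs_eq (2 * i) with h4 | h4
      · rw [h4] at h3
        rw [← zpow_natCast]
        exact h3
      · rw [h4, zpow_neg] at h3
        rw [← zpow_natCast]
        exact (Subgroup.inv_mem_iff N).mp h3
    · intro x hx
      obtain ⟨z, rfl⟩ := QuotientGroup.mk_surjective x
      obtain ⟨n, hn, hmin⟩ := exists_red N D.o (z • D.o)
      set z' := n * z with hz'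
      have hzz : ((z' : Γ) : Γ ⧸ N) = z := mk_mul_left hn
      have h1 : orderOf (z' * f * z'⁻¹) = orderOf f := by
        rw [← MulAut.conj_apply, MulEquiv.orderOf_eq]
      by_cases heq : f⁻¹ = z' * f * z'⁻¹
      · exact hf.inv z' heq.symm
      · apply hf2
        rw [← h1]
        apply H.h23 f⁻¹ (z' * f * z'⁻¹) D.o (z' • D.o) _ heq
        · have : dist D.o (f⁻¹ • D.o) = dist D.o (f • D.o) := by
            rw [← dist_smul f D.o, smul_inv_smul, dist_comm]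
          rw [this]
          exact hfC
        · have h5 : (z' * f * z'⁻¹) • z' • D.o = z' • f • D.o := by
            rw [smul_smul, smul_smul]; congr 1; group
          rw [h5, dist_smul]
          exact hfC
        · intro n' hn'
          have := hmin (n' * n) (mul_mem hn' hn)
          rw [smul_smul, smul_smul] at this
          rw [smul_smul, hz', ← mul_assoc]
          exact this
        · rw [← mk_eq_one (N := N), QuotientGroup.mk_mul, QuotientGroup.mk_mul,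
            QuotientGroup.mk_mul, QuotientGroup.mk_inv, hzz, inv_inv, hx]
          exact inv_mul_cancel _

lemma nc (H : D.Env p m C N) {u κ : Γ} (hu : ¬ IsOfFinOrder u) (hκ : κ ∈ D.K) {j : ℤ}
    (h : u = κ * D.g ^ j) {f : Γ} (hf : ¬ IsOfFinOrder f)
    (hfA : ∀ k : ℕ, 0 < k → f ^ k ∈ N → ∃ A : Γ ⧸ D.E, f • A = A)
    (hnc : ∀ (s r : ℤ) (x : Γ), s ≠ 0 → f ^ s ≠ x * u ^ r * x⁻¹) (k : ℕ) (hk : 0 < k) :
    f ^ k ∉ N := by
  intro hkN
  obtain ⟨A, hA⟩ := hfA k hk hkN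
  obtain ⟨κ', hκ', t, ht⟩ := H.stab_of hf hA
  have hj : j ≠ 0 := by
    rintro rfl
    apply hu
    rw [isOfFinOrder_iff_pow_eq_one]
    exact ⟨2, by norm_num, by rw [h, zpow_zero, mul_one]; exact D.root.sq κ hκ⟩
  apply hnc (2 * j) (2 * t) A.out (by omega)
  have e1 : f ^ (2 * j) = A.out * D.g ^ (2 * t * j) * A.out⁻¹ := by
    rw [zpow_mul]
    have : f ^ (2 : ℤ) = A.out * D.g ^ (2 * t) * A.out⁻¹ := by
      have h2 : f ^ (2 : ℤ) = f ^ 2 := by norm_cast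
      rw [h2, ht, conj_pow, sq_eq hκ']
    rw [this, conj_zpow, ← zpow_mul]
  have e2 : u ^ (2 * t) = D.g ^ (2 * t * j) := by
    rw [zpow_mul]
    have : u ^ (2 : ℤ) = D.g ^ (2 * j) := by
      have h2 : u ^ (2 : ℤ) = u ^ 2 := by norm_cast
      rw [h2, h, sq_eq hκ]
    rw [this, ← zpow_mul]
    congr 1
    ring
  rw [e1, e2]

lemma self (H : D.Env p m C N) {y : Γ} (hy : Odd (orderOf y))
    (hc : ∀ x, Commute x y → x ∈ Subgroup.zpowers y) (x : Γ ⧸ N)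
    (hx : Commute x (y : Γ ⧸ N)) : x ∈ Subgroup.zpowers (y : Γ ⧸ N) := by
  obtain ⟨z, rfl⟩ := QuotientGroup.mk_surjective x
  have hyf : IsOfFinOrder y := by rw [← orderOf_pos_iff]; exact hy.pos
  obtain ⟨q, hq⟩ := disp_of_fin D.lox.hyp D.hδ y hyf
  have h5 : orderOf y ≠ 2 := by
    intro h6
    rw [h6] at hy
    exact absurd hy (by decide)
  obtain ⟨n, hn, hcc⟩ := H.lift_comm ⟨q, hq.trans H.hC⟩ h5 hx
  obtain ⟨i, hi⟩ := hc _ hcc
  have hi' : y ^ i = n * z := hi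
  refine ⟨i, ?_⟩
  simp only
  rw [← QuotientGroup.mk_zpow, hi', mk_mul_left hn]

end Env

end RD

/-- the step theorem -/
theorem step {Γ : Type*} [Group Γ] {c : Γ → Fin 3} (hΓ : CGrp Γ c) {u : Γ}
    (hu : ¬ IsOfFinOrder u) {B : Set Γ} (hB : B.Finite) {F : Set Γ} (hF : F.Finite) (m₁ : ℕ) :
    ∃ p : ℕ, m₁ ≤ p ∧ p.Prime ∧ ∃ (N : Subgroup Γ) (_ : N.Normal) (c' : Γ ⧸ N → Fin 3),
      Out c u B F p N c' := by
  classical
  obtain ⟨g, K, hg, κ, hκ, j, hj⟩ := croot hΓ hu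
  obtain ⟨W, δ', hδ'⟩ := hΓ.hyp
  set δ := max δ' 1 with hδdef
  have hδ : 1 ≤ δ := le_max_right _ _
  have hyp : GHyp (Pt W) δ := by
    have h0 : δ' ≤ δ := le_max_left _ _
    exact fun x y z w => (hδ' x y z w).trans (by linarith)
  obtain ⟨J, hJ⟩ := lox_of_inf hyp hδ
  obtain ⟨k, hk1, -, o, ho⟩ := hJ g hg.inf
  let D : RD Γ W c := ⟨δ, hδ, o, g, K, k, hk1, ho, hg⟩
  obtain ⟨CF, hCF⟩ : ∃ CF : ℝ, ∀ f ∈ F, dist D.o (f • D.o) ≤ CF := by
    obtain ⟨CF, h⟩ := (hF.image (fun f : Γ => dist D.o (f • D.o))).bddAbove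
    exact ⟨CF, fun f hf => h ⟨f, hf, rfl⟩⟩
  set C := max (max (dist D.o (D.g • D.o)) (dist D.o (D.g ^ 2 • D.o))) (max (100 * D.δ) CF)
    with hCdef
  have hC1 : dist D.o (D.g • D.o) ≤ C := (le_max_left _ _).trans (le_max_left _ _)
  have hC2 : dist D.o (D.g ^ 2 • D.o) ≤ C := (le_max_right _ _).trans (le_max_left _ _)
  have hC3 : 100 * D.δ ≤ C := (le_max_left _ _).trans (le_max_right _ _)
  have hC4 : CF ≤ C := (le_max_right _ _).trans (le_max_right _ _)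
  obtain ⟨M1, hM1⟩ := t1 D.sys
  obtain ⟨M2, hM2⟩ := t23 D.sys C
  obtain ⟨M3, hM3⟩ := t4 D.sys
  obtain ⟨M4, hM4⟩ := col_eq D.sys
  have hfM : ∀ f : Γ, ∃ M₀ : ℝ, ¬ IsOfFinOrder f → ∀ R : Sp0 D.sys, M₀ ≤ R.M →
      ∀ k : ℕ, 0 < k → f ^ k ∈ R.N → ∃ A : Γ ⧸ D.E, f • A = A := by
    intro f
    by_cases hf : IsOfFinOrder f
    · exact ⟨0, fun h => absurd hf h⟩
    · obtain ⟨M₀, hM₀⟩ := t1_short D.sys hf
      exact ⟨M₀, fun _ => hM₀⟩
  choose Mf hMf using hfM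
  obtain ⟨MF, hMF⟩ : ∃ MF : ℝ, ∀ f ∈ F, Mf f ≤ MF := by
    obtain ⟨MF, h⟩ := (hF.image Mf).bddAbove
    exact ⟨MF, fun f hf => h ⟨f, hf, rfl⟩⟩
  obtain ⟨MB, hMB⟩ : ∃ MB : ℝ, ∀ a ∈ B, ∀ b ∈ B, dist D.o ((a⁻¹ * b) • D.o) ≤ MB := by
    obtain ⟨MB, h⟩ := ((hB.prod hB).image (fun p : Γ × Γ =>
      dist D.o ((p.1⁻¹ * p.2) • D.o))).bddAbove
    exact ⟨MB, fun a ha b hb => h ⟨(a, b), ⟨ha, hb⟩, rfl⟩⟩
  have hθ : 1 ≤ D.θ := le_trans D.sys.hδ D.sys.hθ
  have hhc : 0 ≤ D.hc := by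
    unfold RD.hc
    have e1 : 0 ≤ tl D.o (D.g ^ D.k) 1 := dist_nonneg
    have e2 : 0 ≤ dist D.o (D.g • D.o) := dist_nonneg
    positivity
  obtain ⟨T, hT⟩ : ∃ T : ℝ, M1 ≤ T ∧ M2 ≤ T ∧ M3 ≤ T ∧ M4 ≤ T ∧ MF ≤ T ∧ MB + 60 * D.θ ≤ T ∧
      D.hc + 10000 * D.θ ≤ T := by
    refine ⟨max (max (max M1 M2) (max M3 M4)) (max (max MF (MB + 60 * D.θ))
      (D.hc + 10000 * D.θ)), ?_, ?_, ?_, ?_, ?_, ?_, ?_⟩ <;> simp
  obtain ⟨t1', t2', t3', t4', t5', t6', t7'⟩ := hT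
  obtain ⟨m₀, hm₀⟩ := D.low_tendsto T
  obtain ⟨p, hpm, hp⟩ := Nat.exists_infinite_primes (max (max m₀ m₁) 3)
  have hp3 : 3 ≤ p := le_trans (le_max_right _ _) hpm
  have hpm0 : m₀ ≤ p := le_trans (le_trans (le_max_left _ _) (le_max_left _ _)) hpm
  have hpm1 : m₁ ≤ p := le_trans (le_trans (le_max_right _ _) (le_max_left _ _)) hpm
  obtain ⟨m, hkil⟩ := D.exists_kil hΓ.conj hp (by omega)
  have hmpos := hkil.pos
  have hlowm := hm₀ m (hpm0.trans hkil.le)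
  have hlowp := hm₀ p hpm0
  have hsp : T ≤ D.sp m := hlowm.trans (D.low_le_sp m)
  have hM101 : 101 * D.θ ≤ D.low m := by linarith
  set R : Spc D.sys := D.spn m hmpos hM101 with hR
  have hRM : R.M = D.sp m := rfl
  have hnk := D.nk_normal (m := m)
  have hdvd : ∀ s : ℤ, D.g ^ s ∈ D.nk m → (m : ℤ) ∣ s := fun s hs =>
    RD.dvd_of_mem hmpos hM101 (by linarith) s hs
  have hcol : ∀ x x' : Γ, orderOf x = 2 → orderOf x' = 2 → x' * x⁻¹ ∈ D.nk m → c x = c x' :=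
    hM4 R (by rw [hRM]; linarith) c hΓ.conj
      (fun A r hr hr1 x hx hx2 hxr => hkil.rot hΓ.conj hr hr1 hx hx2 hxr)
  have H : D.Env p m C (D.nk m) :=
    { grp := hΓ
      kil := hkil
      hN := rfl
      dvd := hdvd
      ninf := fun n hn hn1 => N_inf R.toSp0 (by
        change 200 * D.θ ≤ D.sp m
        linarith) hn hn1
      hyp := t7 D.sys R.toSp0 (by
        change 2000 * D.θ ≤ D.sp m
        linarith)
      hC := hC3
      hC1 := hC1
      hC2 := hC2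
      h1 := fun u k hk huk => hM1 R.toSp0 (by
        change M1 ≤ D.sp m
        linarith) u k hk huk
      h23 := fun y y' p' q h1 h2 h3 h4 h5 =>
        (hM2 R (by rw [hRM]; linarith) y y' p' q h1 h2 h3 h4 h5).1
      col := hcol
      h4 := hM3 R (by rw [hRM]; linarith) c hΓ.conj hΓ.comm
        (fun n hn x hx hnx => (hcol x (n * x) hx hnx (by
          rw [mul_inv_cancel_right]; exact hn)).symm)
        (fun A a b ha hb hinf hA h2 h1 => hkil.two hΓ.conj hΓ.comm hdvd ha hb hinf hA h2 h1)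
      hcz := fun h2 f hf => RD.hcz_of hp.pos hmpos hM101 (by linarith) h2 f hf }
  obtain ⟨c₃, hc₃⟩ := hkil.third hΓ.conj
  have hfA : ∀ f ∈ F, ¬ IsOfFinOrder f → ∀ k : ℕ, 0 < k → f ^ k ∈ D.nk m →
      ∃ A : Γ ⧸ D.E, f • A = A := fun f hf hfi => hMf f hfi R.toSp0 (by
    change Mf f ≤ D.sp m
    have := hMF f hf
    linarith)
  refine ⟨p, hpm1, hp, D.nk m, hnk, qc c (D.nk m) c₃, ?_⟩
  exact
    { cgrp := H.cgrp hc₃
      col := fun x hx => qc_mk H.col hx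
      inj := by
        intro a ha b hb hab
        by_contra hne
        have hne' : a⁻¹ * b ≠ 1 := fun h => hne (inv_mul_eq_one.mp h)
        obtain ⟨A, r, hr, hr1, q₁, hq₁, q₂, hq₂, -, e1, e2⟩ :=
          fact_w R.toSp0 (by
            change 60 * D.θ ≤ D.sp m
            linarith) hab hne' D.o
        have e3 : D.sp m - 51 * D.θ ≤ dist q₁ q₂ := e1
        have e4 : dist D.o q₁ + dist q₁ q₂ + dist q₂ ((a⁻¹ * b) • D.o) ≤
          dist D.o ((a⁻¹ * b) • D.o) + 4 * D.θ := e2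
        have e5 := hMB a ha b hb
        have e6 := dist_nonneg (x := D.o) (y := q₁)
        have e7 := dist_nonneg (x := q₂) (y := (a⁻¹ * b) • D.o)
        linarith
      tor := H.tor hκ hj
      two := fun s t hs ht hc hst => H.two hu hκ hj hs ht hc hst
      sf := fun hsf => H.sf hsf hκ hj
      keep := fun f hf hsf => H.keep hsf ((hCF f hf).trans hC4) (hfA f hf hsf.inf)
      nc := fun f hf hfi hnc => H.nc hu hκ hj hfi (hfA f hf hfi) hnc
      self := fun y hy hc x hx => H.self hy hc x hx }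

end Pool.Agent.TH68.C
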